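import Mathlib
import Pool.Agent.Lib.MP_8d00da_gt.h25.Ker
import Pool.Agent.Lib.MP_8d00da_gt.h42s.BL

namespace Pool.Agent.Lib.MP_8d00da_gt.h25
end Pool.Agent.Lib.MP_8d00da_gt.h25


/-!
# Hereditary families of unconditional log-concave weights: definitions
-/

namespace Pool.Agent.Lib.MP_8d00da_gt.h42o

open MeasureTheory Set Filter
open Pool.Agent.Lib.MP_8d00da_gt.h25 Pool.Agent.Lib.MP_8d00da_gt.h42
open Pool.Agent.Lib.MP_8d00da_gt.h42s
open scoped Topology NNReal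

/-- Insertion of the value `t` as the `i`-th coordinate. -/
noncomputable def ins {m : ℕ} (i : Fin (m + 1)) (t : ℝ) (y : Vn m) : Vn (m + 1) :=
  WithLp.toLp 2 (i.insertNth (α := fun _ => ℝ) t (fun j => y j))

/-- Smooth strongly log-concave unconditional weights with normalized second moments. -/
structure SWt {m : ℕ} (δ L : ℝ) (h : Vn m → ℝ) : Prop where
  reg : ∃ W : Vn m → ℝ, (∀ x, h x = Real.exp (-W x)) ∧ Differentiable ℝ W ∧
    ∀ x y, ‖fderiv ℝ W x - fderiv ℝ W y‖ ≤ L * ‖x - y‖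
  lc : LogConc h
  smid : ∀ x y, h x * h y * Real.exp (δ * ‖x - y‖ ^ 2 / 4) ≤ h ((1 / 2 : ℝ) • (x + y)) ^ 2
  even : ∀ i x, h (fl i x) = h x
  mom : ∀ i, ∫ x, (x i) ^ 2 * h x ≤ ∫ x, h x

/-- `q` is odd in the coordinates of `S` and even in the other coordinates. -/
def Par {m : ℕ} (S : Finset (Fin m)) (q : Vn m → ℝ) : Prop :=
  (∀ i ∈ S, ∀ x, q (fl i x) = - q x) ∧ ∀ i, i ∉ S → ∀ x, q (fl i x) = q x

/-- The symmetric difference of `S` and `{i}`. -/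
def tog {m : ℕ} (S : Finset (Fin m)) (i : Fin m) : Finset (Fin m) :=
  if i ∈ S then S.erase i else insert i S

/-- The (unnormalised) variance of `q` with respect to `h`. -/
noncomputable def Vr {F : Type*} [MeasureSpace F] (h q : F → ℝ) : ℝ :=
  (∫ x, q x ^ 2 * h x) - (∫ x, q x * h x) ^ 2 / ∫ x, h x

/-- The weights of the parity classes. -/
noncomputable def ph (k : ℕ) : ℝ :=
  if k = 0 then 1 else 1 + 1 / 128 + 1 / 16 - (1 / 8) * (1 / 2 : ℝ) ^ k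

/-- The partial energy in direction `i`. -/
noncomputable def aE {m : ℕ} (h q : Vn m → ℝ) (i : Fin m) : ℝ :=
  ∫ x, (fderiv ℝ q x (ee i)) ^ 2 * h x

/-- A family of weights which is closed under far coordinate sections. -/
structure Hered (t0 δ L : ℝ) (Fm : ∀ m : ℕ, (Vn m → ℝ) → Prop) : Prop where
  good : ∀ m h, Fm m h → SWt δ L h
  slice : ∀ m (h : Vn (m + 1) → ℝ), Fm (m + 1) h → ∀ (i : Fin (m + 1)) (t : ℝ), t0 ≤ |t| →
    Fm m fun y => h (ins i t y)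

/-- Data of one coordinate: an even strongly convex function with Lipschitz derivative. -/
structure GD (K κ : ℝ) (g : ℝ → ℝ) : Prop where
  even : ∀ x, g (-x) = g x
  zero : g 0 = 0
  diff : Differentiable ℝ g
  lip : ∀ x y, |deriv g x - deriv g y| ≤ K * |x - y|
  sconv : ConvexOn ℝ univ fun x => g x - κ * x ^ 2

/-- Data of the outer function. -/
structure PD (c M K u1 : ℝ) (Ψ : ℝ → ℝ) : Prop where
  diff : Differentiable ℝ Ψ
  conv : ConvexOn ℝ univ Ψ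
  lo : ∀ u, c ≤ deriv Ψ u
  hi : ∀ u, deriv Ψ u ≤ M
  lip : ∀ u v, |deriv Ψ u - deriv Ψ v| ≤ K * |u - v|
  cst : ∀ u, u1 ≤ u → deriv Ψ u = M

/-- The Orlicz type weight. -/
noncomputable def ow {m : ℕ} (Ψ : ℝ → ℝ) (g : Fin m → ℝ → ℝ) (z : ℝ) (y : Vn m) : ℝ :=
  Real.exp (-Ψ (z + ∑ j, g j (y j)))

/-- The hereditary family generated by an Orlicz type weight. -/
def OF {n : ℕ} (Ψ : ℝ → ℝ) (g : Fin n → ℝ → ℝ) (t0 : ℝ) (m : ℕ) (h : Vn m → ℝ) : Prop :=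
  ∃ (σ : Fin m ↪ Fin n) (z : ℝ),
    (∑ i ∈ Finset.univ.filter (fun i => ∀ j, σ j ≠ i), g i t0) ≤ z ∧
      h = ow Ψ (fun j => g (σ j)) z

/-- The homogeneous form of the inequality. -/
def QI {n : ℕ} (C : ℝ) (h : Vn n → ℝ) : Prop :=
  ∀ f : Vn n → ℝ, BL f → (∫ x, f x ^ 2 * h x) * (∫ x, h x) - (∫ x, f x * h x) ^ 2 ≤
    C * ∑ j, (∫ x, (x j) ^ 2 * h x) * ∫ x, (fderiv ℝ f x (ee j)) ^ 2 * h x

end Pool.Agent.Lib.MP_8d00da_gt.h42o
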