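import Pool.Agent.Lib.MP_8d00da_gt.h42o.ODefs

/-!
# O-21: approximation of the coordinate functions
-/

namespace Pool.Agent.Lib.MP_8d00da_gt.h42o

open MeasureTheory Set Filter
open Pool.Agent.Lib.MP_8d00da_gt.h25 Pool.Agent.Lib.MP_8d00da_gt.h42
open Pool.Agent.Lib.MP_8d00da_gt.h42s
open scoped Topology NNReal

section O21

/-- the clamp function -/
private noncomputable def clp (r s : ℝ) : ℝ := max (-r) (min s r)

private lemma clp_neg {r : ℝ} (hr : 0 ≤ r) (s : ℝ) : clp r (-s) = -clp r s := by
  unfold clp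
  rcases le_total s r with h1 | h1 <;> rcases le_total (-s) r with h2 | h2
  · rw [min_eq_left h1, min_eq_left h2, max_eq_right (by linarith), max_eq_right (by linarith)]
  · rw [min_eq_left h1, min_eq_right h2, max_eq_right (by linarith), max_eq_left (by linarith)]
    ring
  · rw [min_eq_right h1, min_eq_left h2, max_eq_left (by linarith), max_eq_right (by linarith)]
  · have h3 : r = 0 := by linarith
    have h4 : s = 0 := by linarith
    simp [h3, h4]

private lemma clp_mono (r : ℝ) : Monotone (clp r) := by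
  intro s t hst
  unfold clp
  exact max_le_max le_rfl (min_le_min hst le_rfl)

private lemma clp_lip (r s t : ℝ) : |clp r s - clp r t| ≤ |s - t| := by
  unfold clp
  have h1 := abs_max_sub_max_le_abs (min s r) (min t r) (-r)
  rw [max_comm (min s r), max_comm (min t r)] at h1
  have h2 := abs_min_sub_min_le_max s r t r
  rw [sub_self, abs_zero, max_eq_left (abs_nonneg _)] at h2
  exact h1.trans h2

private lemma clp_abs {r : ℝ} (hr : 0 ≤ r) (s : ℝ) : |clp r s| ≤ r := by
  unfold clp
  rw [abs_le]
  exact ⟨le_max_left _ _, max_le (by linarith) (min_le_right _ _)⟩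

private lemma clp_eq {r s : ℝ} (h1 : -r ≤ s) (h2 : s ≤ r) : clp r s = s := by
  unfold clp
  rw [min_eq_left h2, max_eq_right h1]

/-- the regularised function -/
private noncomputable def gI (φ : ℝ → ℝ) (b x : ℝ) : ℝ := (∫ s in (0 : ℝ)..x, φ s) + b * x ^ 2

private lemma gI_hasDerivAt {φ : ℝ → ℝ} (hφ : Continuous φ) (x : ℝ) :
    HasDerivAt (fun x => ∫ s in (0 : ℝ)..x, φ s) (φ x) x :=
  intervalIntegral.integral_hasDerivAt_right (hφ.intervalIntegrable _ _)
    (hφ.stronglyMeasurableAtFilter _ _) hφ.continuousAt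

private lemma gI_GD {φ : ℝ → ℝ} {K b : ℝ} (hb : 0 < b) (hodd : ∀ s, φ (-s) = -φ s)
    (hmono : Monotone φ) (hlip : ∀ s t, |φ s - φ t| ≤ K * |s - t|) :
    GD (K + 2 * b) b (gI φ b) := by
  have hcont : Continuous φ := by
    have hK : 0 ≤ K := by
      have := hlip 1 0
      simp only [sub_zero, abs_one, mul_one] at this
      exact (abs_nonneg _).trans this
    have : LipschitzWith (Real.toNNReal K) φ := by
      apply LipschitzWith.of_dist_le_mul
      intro x y
      rw [Real.dist_eq, Real.dist_eq, Real.coe_toNNReal K hK]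
      exact hlip x y
    exact this.continuous
  have hd : ∀ x, HasDerivAt (gI φ b) (φ x + 2 * b * x) x := by
    intro x
    have h1 := gI_hasDerivAt hcont x
    have h2 : HasDerivAt (fun x : ℝ => b * x ^ 2) (2 * b * x) x := by
      have := (hasDerivAt_pow 2 x).const_mul b
      refine this.congr_deriv ?_
      push_cast
      ring
    exact h1.add h2
  refine ⟨?_, ?_, fun x => (hd x).differentiableAt, ?_, ?_⟩
  · intro x
    unfold gI
    have h1 : ∫ s in (0 : ℝ)..(-x), φ s = ∫ s in (0 : ℝ)..x, φ s := by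
      have h2 : ∫ s in (0 : ℝ)..x, φ (-s) = ∫ s in (-x)..(-0 : ℝ), φ s :=
        intervalIntegral.integral_comp_neg φ
      rw [neg_zero] at h2
      rw [intervalIntegral.integral_symm, ← h2, ← intervalIntegral.integral_neg]
      congr 1
      funext s
      rw [hodd, neg_neg]
    rw [h1]
    ring
  · simp [gI]
  · intro x y
    rw [(hd x).deriv, (hd y).deriv]
    have h1 : φ x + 2 * b * x - (φ y + 2 * b * y) = (φ x - φ y) + 2 * b * (x - y) := by ring
    rw [h1]
    refine (abs_add_le _ _).trans ?_
    rw [abs_mul, abs_of_pos (by positivity : (0 : ℝ) < 2 * b), add_mul]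
    exact add_le_add (hlip x y) le_rfl
  · have h1 : (fun x => gI φ b x - b * x ^ 2) = fun x => ∫ s in (0 : ℝ)..x, φ s := by
      funext x
      unfold gI
      ring
    rw [h1]
    apply Monotone.convexOn_univ_of_deriv
    · exact fun x => (gI_hasDerivAt hcont x).differentiableAt
    · have : deriv (fun x => ∫ s in (0 : ℝ)..x, φ s) = φ := by
        funext x
        exact (gI_hasDerivAt hcont x).deriv
      rw [this]
      exact hmono

private lemma cf_sum {f : ℝ → ℝ} (hf : ConvexOn ℝ univ f) {p q u v : ℝ} (hpu : p ≤ u)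
    (huq : u ≤ q) (hs : u + v = p + q) : f u + f v ≤ f p + f q := by
  rcases eq_or_lt_of_le (hpu.trans huq) with h | h
  · have h1 : u = p := by linarith
    have h2 : v = q := by linarith
    rw [h1, h2]
  · set t := (u - p) / (q - p) with ht
    have hqp : 0 < q - p := by linarith
    have ht0 : 0 ≤ t := div_nonneg (by linarith) hqp.le
    have ht1 : t ≤ 1 := by
      rw [ht, div_le_one hqp]
      linarith
    have hu : u = (1 - t) * p + t * q := by
      have : t * (q - p) = u - p := by
        rw [ht]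
        field_simp
      linear_combination -this
    have hv : v = t * p + (1 - t) * q := by linarith
    have h1 := hf.2 (mem_univ p) (mem_univ q) (by linarith : (0 : ℝ) ≤ 1 - t) ht0 (by ring)
    have h2 := hf.2 (mem_univ p) (mem_univ q) ht0 (by linarith : (0 : ℝ) ≤ 1 - t) (by ring)
    simp only [smul_eq_mul] at h1 h2
    rw [← hu] at h1
    rw [← hv] at h2
    linarith

private lemma cf_nonneg {f : ℝ → ℝ} (hf : ConvexOn ℝ univ f) (hfe : ∀ x, f (-x) = f x)
    (hf0 : f 0 = 0) (x : ℝ) : 0 ≤ f x := by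
  have h1 := hf.2 (mem_univ x) (mem_univ (-x)) (by norm_num : (0 : ℝ) ≤ 1 / 2)
    (by norm_num : (0 : ℝ) ≤ 1 / 2) (by norm_num)
  simp only [smul_eq_mul] at h1
  rw [hfe, show (1 / 2 : ℝ) * x + 1 / 2 * -x = 0 by ring, hf0] at h1
  linarith

private lemma cf_mono {f : ℝ → ℝ} (hf : ConvexOn ℝ univ f) (hfe : ∀ x, f (-x) = f x)
    {x y : ℝ} (h : |x| ≤ y) : f x ≤ f y := by
  have h1 := hf.le_max_of_mem_Icc (mem_univ (-y)) (mem_univ y) (z := x)
    ⟨(abs_le.mp h).1, (abs_le.mp h).2⟩
  rw [hfe, max_self] at h1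
  exact h1

private lemma cf_lip {f : ℝ → ℝ} (hf : ConvexOn ℝ univ f) (hfe : ∀ x, f (-x) = f x)
    (hf0 : f 0 = 0) (r : ℝ) : ∃ L : ℝ, 0 ≤ L ∧ ∀ x y, |x| ≤ r → |y| ≤ r →
      |f x - f y| ≤ L * |x - y| := by
  have h1 : LipschitzOnWith (2 * f (r + 2) / 1).toNNReal f (Metric.ball 0 (r + 2 - 1)) := by
    apply ConvexOn.lipschitzOnWith_of_abs_le
    · exact hf.subset (subset_univ _) (convex_ball _ _)
    · exact one_pos
    · intro a ha
      rw [dist_zero_right, Real.norm_eq_abs] at ha
      rw [abs_of_nonneg (cf_nonneg hf hfe hf0 a)]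
      exact cf_mono hf hfe ha.le
  refine ⟨((2 * f (r + 2) / 1).toNNReal : ℝ), NNReal.coe_nonneg _, fun x y hx hy => ?_⟩
  have h2 := h1.dist_le_mul x (by
    rw [Metric.mem_ball, dist_zero_right, Real.norm_eq_abs]; linarith) y (by
    rw [Metric.mem_ball, dist_zero_right, Real.norm_eq_abs]; linarith)
  rw [Real.dist_eq, Real.dist_eq] at h2
  exact h2

/-- the difference quotient -/
private noncomputable def Dq (f : ℝ → ℝ) (b x : ℝ) : ℝ := (f (x + b) - f (x - b)) / (2 * b)

private lemma Dq_mono {f : ℝ → ℝ} (hf : ConvexOn ℝ univ f) {b : ℝ} (hb : 0 < b) :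
    Monotone (Dq f b) := by
  intro x y hxy
  unfold Dq
  apply div_le_div_of_nonneg_right _ (by positivity)
  rcases le_total (x + b) (y + b) with _ | _
  · have := cf_sum hf (p := x - b) (q := y + b) (u := x + b) (v := y - b) (by linarith)
      (by linarith) (by ring)
    linarith
  · have : x = y := by linarith
    rw [this]

private lemma Dq_odd {f : ℝ → ℝ} (hfe : ∀ x, f (-x) = f x) (b x : ℝ) :
    Dq f b (-x) = -Dq f b x := by
  unfold Dq
  rw [show -x + b = -(x - b) by ring, show -x - b = -(x + b) by ring, hfe, hfe]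
  ring

private lemma cf_growth {f : ℝ → ℝ} (hf : ConvexOn ℝ univ f) (hf0 : f 0 = 0) {R u v : ℝ}
    (hR : 0 < R) (hu : R ≤ u) (hv : u ≤ v) : f u + f R / R * (v - u) ≤ f v := by
  have hu0 : 0 < u := by linarith
  have hv0 : 0 < v := by linarith
  -- f R ≤ (R/u) f u
  have h1 : ∀ p q : ℝ, 0 < q → 0 ≤ p → p ≤ q → f p ≤ p / q * f q := by
    intro p q hq hp hpq
    have h2 := hf.2 (mem_univ q) (mem_univ 0) (div_nonneg hp hq.le)
      (by rw [sub_nonneg, div_le_one hq]; exact hpq : (0 : ℝ) ≤ 1 - p / q) (by ring)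
    simp only [smul_eq_mul, mul_zero, add_zero, hf0] at h2
    rwa [div_mul_cancel₀ p hq.ne'] at h2
  have h3 := h1 R u hu0 hR.le hu
  have h4 := h1 u v hv0 hu0.le hv
  have h5 : f R / R ≤ f u / u := by
    rw [div_le_div_iff₀ hR hu0]
    have : R / u * f u * u = f u * R := by field_simp
    nlinarith
  have h6 : f u + f u / u * (v - u) ≤ f v := by
    have e1 : f u + f u / u * (v - u) = v / u * f u := by
      field_simp
      ring
    rw [e1]
    have e2 : f v = v / u * (u / v * f v) := by field_simp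
    rw [e2]
    exact mul_le_mul_of_nonneg_left h4 (by positivity)
  have h7 : f R / R * (v - u) ≤ f u / u * (v - u) :=
    mul_le_mul_of_nonneg_right h5 (by linarith)
  linarith

theorem approx_f {f : ℝ → ℝ} (hf : ConvexOn ℝ univ f) (hfe : ∀ x, f (-x) = f x) (hf0 : f 0 = 0)
    {R : ℝ} (hR : 0 < f R) : ∃ g : ℕ → ℝ → ℝ,
      (∀ k, ∃ K κ : ℝ, 0 ≤ K ∧ 0 < κ ∧ GD K κ (g k)) ∧
      (∀ x, Tendsto (fun k => g k x) atTop (𝓝 (f x))) ∧
      ∃ a b : ℝ, 0 < a ∧ ∀ k x, a * |x| - b ≤ g k x := by
  -- R' = |R|
  set R' : ℝ := |R| with hR'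
  have hfR' : 0 < f R' := by
    rcases abs_cases R with h | h
    · rw [hR', h.1]
      exact hR
    · rw [hR', h.1, hfe]
      exact hR
  have hR'0 : 0 < R' := by
    rw [hR', abs_pos]
    rintro rfl
    rw [hf0] at hR
    exact lt_irrefl _ hR
  have hfc : Continuous f := by
    rw [continuous_iff_continuousAt]
    intro x
    exact (hf.continuousOn isOpen_univ).continuousAt univ_mem
  set b : ℕ → ℝ := fun k => 1 / ((k : ℝ) + 1) with hb
  set r : ℕ → ℝ := fun k => (k : ℝ) + R' + 2 with hr
  have hb0 : ∀ k, 0 < b k := fun k => by positivity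
  have hb1 : ∀ k, b k ≤ 1 := fun k => by
    rw [hb]
    simp only
    rw [div_le_one (by positivity)]
    linarith [(Nat.cast_nonneg k : (0 : ℝ) ≤ k)]
  have hr0 : ∀ k, R' + 1 ≤ r k := fun k => by
    rw [hr]
    simp only
    linarith [(Nat.cast_nonneg k : (0 : ℝ) ≤ k)]
  have hr00 : ∀ k, 0 ≤ r k := fun k => by linarith [hr0 k]
  set φ : ℕ → ℝ → ℝ := fun k s => Dq f (b k) (clp (r k) s) with hφ
  have hφodd : ∀ k s, φ k (-s) = -φ k s := by
    intro k s
    simp only [hφ]
    rw [clp_neg (hr00 k), Dq_odd hfe]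
  have hφmono : ∀ k, Monotone (φ k) := fun k => (Dq_mono hf (hb0 k)).comp (clp_mono _)
  have hφlip : ∀ k, ∃ K : ℝ, 0 ≤ K ∧ ∀ s t, |φ k s - φ k t| ≤ K * |s - t| := by
    intro k
    obtain ⟨L, hL, hLip⟩ := cf_lip hf hfe hf0 (r k + 1)
    refine ⟨L / b k, div_nonneg hL (hb0 k).le, fun s t => ?_⟩
    simp only [hφ, Dq]
    set u := clp (r k) s with hu
    set v := clp (r k) t with hv
    have hu1 : |u| ≤ r k := clp_abs (hr00 k) s
    have hv1 : |v| ≤ r k := clp_abs (hr00 k) t
    have hbk := hb0 k
    have hbk1 := hb1 k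
    have h1 := hLip (u + b k) (v + b k) (by rw [abs_le] at *; constructor <;> linarith)
      (by rw [abs_le] at *; constructor <;> linarith)
    have h2 := hLip (u - b k) (v - b k) (by rw [abs_le] at *; constructor <;> linarith)
      (by rw [abs_le] at *; constructor <;> linarith)
    rw [show u + b k - (v + b k) = u - v by ring] at h1
    rw [show u - b k - (v - b k) = u - v by ring] at h2
    have h3 := clp_lip (r k) s t
    rw [← hu, ← hv] at h3
    rw [← sub_div, abs_div, abs_of_pos (by positivity : (0 : ℝ) < 2 * b k),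
      div_le_iff₀ (by positivity)]
    have h4 : |f (u + b k) - f (u - b k) - (f (v + b k) - f (v - b k))| ≤ 2 * (L * |u - v|) := by
      have e : f (u + b k) - f (u - b k) - (f (v + b k) - f (v - b k)) =
          (f (u + b k) - f (v + b k)) - (f (u - b k) - f (v - b k)) := by ring
      rw [e]
      refine (abs_sub _ _).trans ?_
      linarith
    have h5 : L * |u - v| ≤ L * |s - t| := mul_le_mul_of_nonneg_left h3 hL
    have h6 : L / b k * |s - t| * (2 * b k) = 2 * (L * |s - t|) := by
      field_simp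
    rw [h6]
    linarith
  have hφcont : ∀ k, Continuous (φ k) := by
    intro k
    obtain ⟨K, hK, hlip⟩ := hφlip k
    have : LipschitzWith (Real.toNNReal K) (φ k) := by
      apply LipschitzWith.of_dist_le_mul
      intro x y
      rw [Real.dist_eq, Real.dist_eq, Real.coe_toNNReal K hK]
      exact hlip x y
    exact this.continuous
  refine ⟨fun k => gI (φ k) (b k), ?_, ?_, ?_⟩
  · intro k
    obtain ⟨K, hK, hlip⟩ := hφlip k
    exact ⟨K + 2 * b k, b k, by have := hb0 k; positivity, hb0 k,
      gI_GD (hb0 k) (hφodd k) (hφmono k) hlip⟩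
  · -- convergence
    intro x
    have hΦ : ∀ y, HasDerivAt (fun y => ∫ s in (0 : ℝ)..y, f s) (f y) y :=
      fun y => gI_hasDerivAt hfc y
    have hbt : Tendsto b atTop (𝓝 0) := tendsto_one_div_add_atTop_nhds_zero_nat
    have hbt' : Tendsto b atTop (𝓝[≠] 0) := by
      rw [tendsto_nhdsWithin_iff]
      exact ⟨hbt, Eventually.of_forall fun k => (hb0 k).ne'⟩
    have hbn' : Tendsto (fun k => -b k) atTop (𝓝[≠] 0) := by
      rw [tendsto_nhdsWithin_iff]
      refine ⟨by simpa using hbt.neg, Eventually.of_forall fun k => ?_⟩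
      simpa using (hb0 k).ne'
    have hlim : ∀ y, Tendsto (fun k => ((∫ s in (0 : ℝ)..(y + b k), f s) -
        ∫ s in (0 : ℝ)..(y - b k), f s) / (2 * b k)) atTop (𝓝 (f y)) := by
      intro y
      have h1 := (hΦ y).tendsto_slope_zero.comp hbt'
      have h2 := (hΦ y).tendsto_slope_zero.comp hbn'
      have h3 := (h1.add h2).div_const 2
      have e1 : (f y + f y) / 2 = f y := by ring
      rw [e1] at h3
      refine h3.congr fun k => ?_
      have hbk := (hb0 k).ne'
      simp only [Function.comp, smul_eq_mul]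
      rw [← sub_eq_add_neg y (b k)]
      field_simp
      ring
    have hev : ∀ᶠ k : ℕ in atTop, gI (φ k) (b k) x =
        (((∫ s in (0 : ℝ)..(x + b k), f s) - ∫ s in (0 : ℝ)..(x - b k), f s) / (2 * b k) -
        ((∫ s in (0 : ℝ)..(0 + b k), f s) - ∫ s in (0 : ℝ)..(0 - b k), f s) / (2 * b k)) +
          b k * x ^ 2 := by
      obtain ⟨k0, hk0⟩ := exists_nat_ge |x|
      filter_upwards [eventually_ge_atTop k0] with k hk
      have hxr : |x| ≤ r k := by
        have : (k0 : ℝ) ≤ k := by exact_mod_cast hk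
        rw [hr]
        simp only
        linarith
      unfold gI
      congr 1
      have h1 : ∫ s in (0 : ℝ)..x, φ k s = ∫ s in (0 : ℝ)..x, Dq f (b k) s := by
        apply intervalIntegral.integral_congr
        intro s hs
        simp only [hφ]
        rw [clp_eq]
        · rcases le_total 0 x with h | h
          · rw [uIcc_of_le h] at hs
            linarith [hs.1, hr00 k]
          · rw [uIcc_of_ge h] at hs
            linarith [hs.1, (abs_le.mp hxr).1]
        · rcases le_total 0 x with h | h
          · rw [uIcc_of_le h] at hs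
            linarith [hs.2, (abs_le.mp hxr).2]
          · rw [uIcc_of_ge h] at hs
            linarith [hs.2, hr00 k]
      rw [h1]
      unfold Dq
      have hi : ∀ p q : ℝ, IntervalIntegrable f volume p q := fun p q => hfc.intervalIntegrable p q
      have hi1 : IntervalIntegrable (fun s => f (s + b k)) volume 0 x :=
        (hfc.comp (continuous_add_const _)).intervalIntegrable _ _
      have hi2 : IntervalIntegrable (fun s => f (s - b k)) volume 0 x :=
        (hfc.comp (continuous_sub_right _)).intervalIntegrable _ _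
      rw [intervalIntegral.integral_div, intervalIntegral.integral_sub hi1 hi2,
        intervalIntegral.integral_comp_add_right, intervalIntegral.integral_comp_sub_right,
        ← sub_div]
      congr 1
      rw [← intervalIntegral.integral_interval_sub_left (hi 0 (x + b k)) (hi 0 (0 + b k)),
        ← intervalIntegral.integral_interval_sub_left (hi 0 (x - b k)) (hi 0 (0 - b k))]
      ring
    have hmain : Tendsto (fun k =>
        (((∫ s in (0 : ℝ)..(x + b k), f s) - ∫ s in (0 : ℝ)..(x - b k), f s) / (2 * b k) -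
        ((∫ s in (0 : ℝ)..(0 + b k), f s) - ∫ s in (0 : ℝ)..(0 - b k), f s) / (2 * b k)) +
          b k * x ^ 2) atTop (𝓝 ((f x - f 0) + 0 * x ^ 2)) :=
      ((hlim x).sub (hlim 0)).add (hbt.mul_const _)
    rw [hf0, sub_zero, zero_mul, add_zero] at hmain
    exact hmain.congr' (hev.mono fun k hk => hk.symm)
  · -- growth
    refine ⟨f R' / R', f R' / R' * (R' + 1), div_pos hfR' hR'0, fun k x => ?_⟩
    set a := f R' / R' with ha
    have ha0 : 0 < a := div_pos hfR' hR'0
    have hφ0 : ∀ s, 0 ≤ s → 0 ≤ φ k s := by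
      intro s hs
      have h1 : φ k 0 = 0 := by
        have := hφodd k 0
        rw [neg_zero] at this
        linarith
      rw [← h1]
      exact hφmono k hs
    have hφa : ∀ s, R' + 1 ≤ s → a ≤ φ k s := by
      intro s hs
      have h1 : φ k (R' + 1) ≤ φ k s := hφmono k hs
      refine le_trans ?_ h1
      simp only [hφ]
      rw [clp_eq (by linarith [hr0 k]) (hr0 k)]
      unfold Dq
      have hbk := hb0 k
      have hbk1 := hb1 k
      rw [le_div_iff₀ (by positivity)]
      have h2 := cf_growth hf hf0 hR'0 (u := R' + 1 - b k) (v := R' + 1 + b k) (by linarith)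
        (by linarith)
      rw [← ha] at h2
      linarith
    have hpos : ∀ y, 0 ≤ y → a * (y - (R' + 1)) ≤ ∫ s in (0 : ℝ)..y, φ k s := by
      intro y hy
      rcases le_total y (R' + 1) with h | h
      · have h1 : 0 ≤ ∫ s in (0 : ℝ)..y, φ k s :=
          intervalIntegral.integral_nonneg hy fun s hs => hφ0 s hs.1
        have h2 : a * (y - (R' + 1)) ≤ 0 := by nlinarith
        linarith
      · have hi : ∀ p q : ℝ, IntervalIntegrable (φ k) volume p q :=
          fun p q => (hφcont k).intervalIntegrable p q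
        rw [← intervalIntegral.integral_add_adjacent_intervals (hi 0 (R' + 1)) (hi (R' + 1) y)]
        have h1 : 0 ≤ ∫ s in (0 : ℝ)..(R' + 1), φ k s :=
          intervalIntegral.integral_nonneg (by linarith) fun s hs => hφ0 s hs.1
        have h2 : ∫ _ in (R' + 1)..y, a ≤ ∫ s in (R' + 1)..y, φ k s :=
          intervalIntegral.integral_mono_on h (by simp) (hi _ _) fun s hs => hφa s hs.1
        rw [intervalIntegral.integral_const, smul_eq_mul] at h2
        linarith
    have heven : gI (φ k) (b k) x = gI (φ k) (b k) |x| := by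
      rcases abs_cases x with h | h
      · rw [h.1]
      · rw [h.1]
        obtain ⟨K, hK, hlip⟩ := hφlip k
        exact ((gI_GD (hb0 k) (hφodd k) (hφmono k) hlip).even x).symm
    show a * |x| - a * (R' + 1) ≤ gI (φ k) (b k) x
    rw [heven]
    unfold gI
    have h1 := hpos |x| (abs_nonneg x)
    have h2 : 0 ≤ b k * |x| ^ 2 := by
      have := hb0 k
      positivity
    linarith

end O21

end Pool.Agent.Lib.MP_8d00da_gt.h42o
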