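import Pool.Agent.Lib.MP_8d00da_gt.h42o.ODefs

/-!
# Approximation of the outer function
-/

namespace Pool.Agent.Lib.MP_8d00da_gt.h42o

open MeasureTheory Set Filter
open Pool.Agent.Lib.MP_8d00da_gt.h25 Pool.Agent.Lib.MP_8d00da_gt.h42
open Pool.Agent.Lib.MP_8d00da_gt.h42s
open scoped Topology NNReal

/-! ## O-22: OApp2.lean -/
section O22

namespace App2

/-- The difference quotient. -/
noncomputable def DQ (Ψ : ℝ → ℝ) (b u : ℝ) : ℝ := (Ψ (u + b) - Ψ u) / b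

/-- The truncated derivative. -/
noncomputable def phk (Ψ : ℝ → ℝ) (b r u : ℝ) : ℝ := DQ Ψ b (min u r) + b

/-- The approximating function. -/
noncomputable def Pk (Ψ : ℝ → ℝ) (b r u : ℝ) : ℝ := Ψ 0 + ∫ s in (0 : ℝ)..u, phk Ψ b r s

lemma DQ_mono {Ψ : ℝ → ℝ} (hΨ : ConvexOn ℝ univ Ψ) {b : ℝ} (hb : 0 < b) :
    Monotone (DQ Ψ b) := by
  intro u v huv
  unfold DQ
  rcases eq_or_lt_of_le huv with h | h
  · rw [h]
  · -- slope(u,u+b) ≤ slope(u, v+b) ≤ slope(v, v+b)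
    have h1 : (Ψ (u + b) - Ψ u) / ((u + b) - u) ≤ (Ψ (v + b) - Ψ u) / ((v + b) - u) :=
      hΨ.secant_mono (a := u) (x := u + b) (y := v + b) (mem_univ _) (mem_univ _) (mem_univ _)
        (by linarith) (by linarith) (by linarith)
    have h2 : (Ψ u - Ψ (v + b)) / (u - (v + b)) ≤ (Ψ v - Ψ (v + b)) / (v - (v + b)) :=
      hΨ.secant_mono (a := v + b) (x := u) (y := v) (mem_univ _) (mem_univ _) (mem_univ _)
        (by linarith) (by linarith) h.le
    have e1 : (u + b) - u = b := by ring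
    have e2 : (Ψ u - Ψ (v + b)) / (u - (v + b)) = (Ψ (v + b) - Ψ u) / ((v + b) - u) := by
      rw [← neg_sub (Ψ (v + b)) (Ψ u), ← neg_sub (v + b) u, neg_div_neg_eq]
    have e3 : (Ψ v - Ψ (v + b)) / (v - (v + b)) = (Ψ (v + b) - Ψ v) / b := by
      rw [← neg_sub (Ψ (v + b)) (Ψ v), ← neg_sub (v + b) v, neg_div_neg_eq]
      congr 1; ring
    rw [e1] at h1
    rw [e2, e3] at h2
    exact h1.trans h2

lemma DQ_nonneg {Ψ : ℝ → ℝ} (hm : Monotone Ψ) {b : ℝ} (hb : 0 < b) (u : ℝ) :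
    0 ≤ DQ Ψ b u :=
  div_nonneg (sub_nonneg.2 (hm (by linarith))) hb.le

/-- Lipschitz bound for `Ψ` on `(-∞, r]`. -/
lemma lipΨ {Ψ : ℝ → ℝ} (hΨ : ConvexOn ℝ univ Ψ) (hm : Monotone Ψ) (r : ℝ) :
    ∀ x y, x ≤ r → y ≤ r → |Ψ x - Ψ y| ≤ (Ψ (r + 1) - Ψ r) * |x - y| := by
  have key : ∀ x y, x < y → y ≤ r → Ψ y - Ψ x ≤ (Ψ (r + 1) - Ψ r) * (y - x) := by
    intro x y hxy hy
    have h1 : (Ψ y - Ψ x) / (y - x) ≤ (Ψ (r + 1) - Ψ x) / ((r + 1) - x) :=
      hΨ.secant_mono (a := x) (x := y) (y := r + 1) (mem_univ _) (mem_univ _) (mem_univ _)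
        (by linarith) (by linarith) (by linarith)
    have h2 : (Ψ x - Ψ (r + 1)) / (x - (r + 1)) ≤ (Ψ r - Ψ (r + 1)) / (r - (r + 1)) :=
      hΨ.secant_mono (a := r + 1) (x := x) (y := r) (mem_univ _) (mem_univ _) (mem_univ _)
        (by linarith) (by linarith) (by linarith)
    have e2 : (Ψ x - Ψ (r + 1)) / (x - (r + 1)) = (Ψ (r + 1) - Ψ x) / ((r + 1) - x) := by
      rw [← neg_sub (Ψ (r + 1)) (Ψ x), ← neg_sub (r + 1) x, neg_div_neg_eq]
    have e3 : (Ψ r - Ψ (r + 1)) / (r - (r + 1)) = Ψ (r + 1) - Ψ r := by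
      rw [show r - (r + 1) = -1 by ring, div_neg, div_one]; ring
    rw [e2, e3] at h2
    have h3 := h1.trans h2
    rwa [div_le_iff₀ (by linarith)] at h3
  intro x y hx hy
  rcases lt_trichotomy x y with h | h | h
  · have h1 := key x y h hy
    have h2 : Ψ x ≤ Ψ y := hm h.le
    rw [abs_of_nonpos (by linarith), abs_of_neg (by linarith)]
    linarith
  · subst h; simp
  · have h1 := key y x h hx
    have h2 : Ψ y ≤ Ψ x := hm h.le
    rw [abs_of_nonneg (by linarith), abs_of_pos (by linarith)]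
    linarith

lemma phk_mono {Ψ : ℝ → ℝ} (hΨ : ConvexOn ℝ univ Ψ) {b : ℝ} (hb : 0 < b) (r : ℝ) :
    Monotone (phk Ψ b r) := by
  intro u v huv
  unfold phk
  have := DQ_mono hΨ hb (min_le_min_right r huv)
  linarith

lemma phk_lip {Ψ : ℝ → ℝ} (hΨ : ConvexOn ℝ univ Ψ) (hm : Monotone Ψ) {b : ℝ}
    (hb : 0 < b) (r : ℝ) (u v : ℝ) :
    |phk Ψ b r u - phk Ψ b r v| ≤ (2 * (Ψ (r + b + 1) - Ψ (r + b)) / b) * |u - v| := by
  have hL := lipΨ hΨ hm (r + b)
  have hL0 : 0 ≤ Ψ (r + b + 1) - Ψ (r + b) := sub_nonneg.2 (hm (by linarith))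
  have hmin : |min u r - min v r| ≤ |u - v| := by
    have := abs_min_sub_min_le_max u r v r
    simpa using this
  have h1 := hL (min u r + b) (min v r + b) (by linarith [min_le_right u r])
    (by linarith [min_le_right v r])
  have h2 := hL (min u r) (min v r) (by linarith [min_le_right u r])
    (by linarith [min_le_right v r])
  rw [show min u r + b - (min v r + b) = min u r - min v r by ring] at h1
  have e : phk Ψ b r u - phk Ψ b r v =
      ((Ψ (min u r + b) - Ψ (min v r + b)) - (Ψ (min u r) - Ψ (min v r))) / b := by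
    unfold phk DQ
    ring
  rw [e, abs_div, abs_of_pos hb, div_le_iff₀ hb]
  have e2 : 2 * (Ψ (r + b + 1) - Ψ (r + b)) / b * |u - v| * b =
      2 * (Ψ (r + b + 1) - Ψ (r + b)) * |u - v| := by
    field_simp
  rw [e2]
  calc |(Ψ (min u r + b) - Ψ (min v r + b)) - (Ψ (min u r) - Ψ (min v r))|
      ≤ |Ψ (min u r + b) - Ψ (min v r + b)| + |Ψ (min u r) - Ψ (min v r)| := abs_sub _ _
    _ ≤ 2 * (Ψ (r + b + 1) - Ψ (r + b)) * |min u r - min v r| := by linarith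
    _ ≤ 2 * (Ψ (r + b + 1) - Ψ (r + b)) * |u - v| :=
        mul_le_mul_of_nonneg_left hmin (by linarith)

lemma phk_cont {Ψ : ℝ → ℝ} (hΨ : ConvexOn ℝ univ Ψ) (hm : Monotone Ψ) {b : ℝ}
    (hb : 0 < b) (r : ℝ) : Continuous (phk Ψ b r) := by
  have hL0 : 0 ≤ 2 * (Ψ (r + b + 1) - Ψ (r + b)) / b :=
    div_nonneg (mul_nonneg (by norm_num) (sub_nonneg.2 (hm (by linarith)))) hb.le
  have : LipschitzWith ⟨2 * (Ψ (r + b + 1) - Ψ (r + b)) / b, hL0⟩ (phk Ψ b r) := by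
    apply LipschitzWith.of_dist_le_mul
    intro u v
    rw [Real.dist_eq, Real.dist_eq]
    exact phk_lip hΨ hm hb r u v
  exact this.continuous

lemma Pk_deriv {Ψ : ℝ → ℝ} (hΨ : ConvexOn ℝ univ Ψ) (hm : Monotone Ψ) {b : ℝ}
    (hb : 0 < b) (r u : ℝ) : HasDerivAt (Pk Ψ b r) (phk Ψ b r u) u := by
  have hc := phk_cont hΨ hm hb r
  have := intervalIntegral.integral_hasDerivAt_right (hc.intervalIntegrable 0 u)
    (hc.stronglyMeasurableAtFilter _ _) hc.continuousAt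
  exact this.const_add (Ψ 0)

lemma Pk_PD {Ψ : ℝ → ℝ} (hΨ : ConvexOn ℝ univ Ψ) (hm : Monotone Ψ) {b : ℝ}
    (hb : 0 < b) (r : ℝ) :
    PD b (phk Ψ b r r) (2 * (Ψ (r + b + 1) - Ψ (r + b)) / b) r (Pk Ψ b r) := by
  have hd : deriv (Pk Ψ b r) = phk Ψ b r := funext fun u => (Pk_deriv hΨ hm hb r u).deriv
  have hdiff : Differentiable ℝ (Pk Ψ b r) := fun u => (Pk_deriv hΨ hm hb r u).differentiableAt
  have htop : ∀ u, r ≤ u → phk Ψ b r u = phk Ψ b r r := by
    intro u hu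
    unfold phk
    rw [min_eq_right hu, min_self]
  refine ⟨hdiff, ?_, ?_, ?_, ?_, ?_⟩
  · apply Monotone.convexOn_univ_of_deriv hdiff
    rw [hd]
    exact phk_mono hΨ hb r
  · intro u
    rw [hd]
    unfold phk
    linarith [DQ_nonneg (Ψ := Ψ) hm hb (min u r)]
  · intro u
    rw [hd]
    rcases le_total u r with h | h
    · exact phk_mono hΨ hb r h
    · exact (htop u h).le
  · intro u v
    rw [hd]
    exact phk_lip hΨ hm hb r u v
  · intro u hu
    rw [hd]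
    exact htop u hu

lemma Pk_formula {Ψ : ℝ → ℝ} (hc : Continuous Ψ) {b r u : ℝ} (hr : |u| ≤ r) :
    Pk Ψ b r u = Ψ 0 + u * b + b⁻¹ * ((∫ s in (0 : ℝ)..(u + b), Ψ s) - ∫ s in (0 : ℝ)..u, Ψ s)
      - b⁻¹ * ((∫ s in (0 : ℝ)..(0 + b), Ψ s) - ∫ s in (0 : ℝ)..0, Ψ s) := by
  have h1 : ∫ s in (0 : ℝ)..u, phk Ψ b r s = ∫ s in (0 : ℝ)..u, (b⁻¹ * (Ψ (s + b) - Ψ s) + b) := by
    apply intervalIntegral.integral_congr
    intro s hs
    have hsr : s ≤ r := by
      rw [mem_uIcc] at hs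
      rcases hs with ⟨_, h⟩ | ⟨_, h⟩
      · exact h.trans ((le_abs_self u).trans hr)
      · exact h.trans ((abs_nonneg u).trans hr)
    simp only [phk, DQ]
    rw [min_eq_left hsr]
    ring
  have hcb : Continuous fun s => Ψ (s + b) := hc.comp (continuous_id.add continuous_const)
  have h2 : ∫ s in (0 : ℝ)..u, (b⁻¹ * (Ψ (s + b) - Ψ s) + b) =
      b⁻¹ * ((∫ s in (0 : ℝ)..u, Ψ (s + b)) - ∫ s in (0 : ℝ)..u, Ψ s) + u * b := by
    have i1 : IntervalIntegrable (fun s => b⁻¹ * (Ψ (s + b) - Ψ s)) volume 0 u :=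
      (continuous_const.mul (hcb.sub hc)).intervalIntegrable _ _
    have i2 : IntervalIntegrable (fun _ : ℝ => b) volume 0 u :=
      continuous_const.intervalIntegrable _ _
    rw [intervalIntegral.integral_add i1 i2, intervalIntegral.integral_const_mul,
      intervalIntegral.integral_sub (hcb.intervalIntegrable _ _) (hc.intervalIntegrable _ _),
      intervalIntegral.integral_const]
    simp
  have h3 : ∫ s in (0 : ℝ)..u, Ψ (s + b) = (∫ s in (0 : ℝ)..(u + b), Ψ s) -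
      ∫ s in (0 : ℝ)..(0 + b), Ψ s := by
    rw [intervalIntegral.integral_comp_add_right, intervalIntegral.integral_interval_sub_left
      (hc.intervalIntegrable _ _) (hc.intervalIntegrable _ _)]
  unfold Pk
  rw [h1, h2, h3, intervalIntegral.integral_same]
  ring

end App2

open App2 in
theorem approx_Psi {Ψ : ℝ → ℝ} (hΨ : ConvexOn ℝ univ Ψ) (hm : Monotone Ψ) {U : ℝ}
    (hU : Ψ 0 < Ψ U) : ∃ P : ℕ → ℝ → ℝ,
      (∀ k, ∃ c M K u1 : ℝ, 0 < c ∧ 0 ≤ M ∧ 0 ≤ K ∧ PD c M K u1 (P k)) ∧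
      (∀ u, Tendsto (fun k => P k u) atTop (𝓝 (Ψ u))) ∧
      ∃ a b : ℝ, 0 < a ∧ ∀ k u, 0 ≤ u → a * u - b ≤ P k u := by
  have hc : Continuous Ψ := by
    have := hΨ.continuousOn isOpen_univ
    exact continuousOn_univ.1 this
  have hU0 : 0 < U := by
    by_contra h
    exact absurd (hm (not_lt.1 h)) (not_le.2 hU)
  have hbk : ∀ k : ℕ, (0 : ℝ) < 1 / ((k : ℝ) + 1) := fun k => by positivity
  refine ⟨fun k => Pk Ψ (1 / ((k : ℝ) + 1)) (k + U + 1), ?_, ?_, ?_⟩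
  · intro k
    have hb := hbk k
    refine ⟨_, _, _, _, hb, ?_, ?_, Pk_PD hΨ hm hb (k + U + 1)⟩
    · unfold phk
      linarith [DQ_nonneg (Ψ := Ψ) hm hb (min ((k : ℝ) + U + 1) (k + U + 1))]
    · exact div_nonneg (mul_nonneg (by norm_num) (sub_nonneg.2 (hm (by linarith)))) hb.le
  · intro u
    -- the limit
    have hb0 : Tendsto (fun k : ℕ => 1 / ((k : ℝ) + 1)) atTop (𝓝 0) :=
      tendsto_one_div_add_atTop_nhds_zero_nat
    have hb1 : Tendsto (fun k : ℕ => 1 / ((k : ℝ) + 1)) atTop (𝓝[≠] 0) := by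
      rw [tendsto_nhdsWithin_iff]
      exact ⟨hb0, Eventually.of_forall fun k => (hbk k).ne'⟩
    have hs : ∀ x : ℝ, Tendsto (fun k : ℕ => (1 / ((k : ℝ) + 1))⁻¹ *
        ((∫ s in (0 : ℝ)..(x + 1 / ((k : ℝ) + 1)), Ψ s) - ∫ s in (0 : ℝ)..x, Ψ s)) atTop
        (𝓝 (Ψ x)) := by
      intro x
      have hd : HasDerivAt (fun y => ∫ s in (0 : ℝ)..y, Ψ s) (Ψ x) x :=
        intervalIntegral.integral_hasDerivAt_right (hc.intervalIntegrable 0 x)
          (hc.stronglyMeasurableAtFilter _ _) hc.continuousAt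
      have := hasDerivAt_iff_tendsto_slope_zero.1 hd
      have h2 := this.comp hb1
      simpa [Function.comp_def, smul_eq_mul] using h2
    have hlim : Tendsto (fun k : ℕ => Ψ 0 + u * (1 / ((k : ℝ) + 1)) +
        (1 / ((k : ℝ) + 1))⁻¹ *
          ((∫ s in (0 : ℝ)..(u + 1 / ((k : ℝ) + 1)), Ψ s) - ∫ s in (0 : ℝ)..u, Ψ s) -
        (1 / ((k : ℝ) + 1))⁻¹ *
          ((∫ s in (0 : ℝ)..(0 + 1 / ((k : ℝ) + 1)), Ψ s) - ∫ s in (0 : ℝ)..0, Ψ s)) atTop
        (𝓝 (Ψ 0 + u * 0 + Ψ u - Ψ 0)) :=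
      (((tendsto_const_nhds.add (tendsto_const_nhds.mul hb0)).add (hs u)).sub (hs 0))
    have e : Ψ 0 + u * 0 + Ψ u - Ψ 0 = Ψ u := by ring
    rw [e] at hlim
    refine hlim.congr' ?_
    obtain ⟨N, hN⟩ := exists_nat_ge |u|
    filter_upwards [eventually_ge_atTop N] with k hk
    have hkN : (N : ℝ) ≤ k := by exact_mod_cast hk
    exact (Pk_formula hc (by linarith)).symm
  · refine ⟨(Ψ U - Ψ 0) / U, (Ψ U - Ψ 0) / U * U + |Ψ 0|, div_pos (sub_pos.2 hU) hU0, ?_⟩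
    intro k u hu
    have hb := hbk k
    set b : ℝ := 1 / ((k : ℝ) + 1) with hbdef
    set r : ℝ := (k : ℝ) + U + 1 with hrdef
    set a : ℝ := (Ψ U - Ψ 0) / U with ha
    have ha0 : 0 < a := div_pos (sub_pos.2 hU) hU0
    have hrU : U ≤ r := by rw [hrdef]; linarith [(Nat.cast_nonneg k : (0 : ℝ) ≤ k)]
    have hcφ := phk_cont hΨ hm hb r
    have hφ0 : ∀ s, 0 ≤ phk Ψ b r s := fun s => by
      unfold phk
      linarith [DQ_nonneg (Ψ := Ψ) hm hb (min s r)]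
    have hDU : a ≤ DQ Ψ b U := by
      have := hΨ.slope_mono_adjacent (x := 0) (y := U) (z := U + b) (mem_univ _) (mem_univ _)
        hU0 (by linarith)
      unfold DQ
      rw [ha]
      simpa using this
    have hφa : ∀ s, U ≤ s → a ≤ phk Ψ b r s := fun s hs => by
      unfold phk
      have := DQ_mono hΨ hb (le_min hs hrU)
      linarith
    have hint : ∀ x y : ℝ, IntervalIntegrable (phk Ψ b r) volume x y :=
      fun x y => hcφ.intervalIntegrable x y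
    have hmain : a * (u - U) ≤ ∫ s in (0 : ℝ)..u, phk Ψ b r s := by
      rcases le_total u U with h | h
      · have h1 : 0 ≤ ∫ s in (0 : ℝ)..u, phk Ψ b r s :=
          intervalIntegral.integral_nonneg hu fun s _ => hφ0 s
        have h2 : a * (u - U) ≤ 0 := mul_nonpos_of_nonneg_of_nonpos ha0.le (by linarith)
        linarith
      · have h1 : 0 ≤ ∫ s in (0 : ℝ)..U, phk Ψ b r s :=
          intervalIntegral.integral_nonneg hU0.le fun s _ => hφ0 s
        have h2 : ∫ s in U..u, a ≤ ∫ s in U..u, phk Ψ b r s :=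
          intervalIntegral.integral_mono_on h (continuous_const.intervalIntegrable _ _)
            (hint _ _) fun s hs => hφa s hs.1
        rw [intervalIntegral.integral_const, smul_eq_mul] at h2
        have h3 := intervalIntegral.integral_add_adjacent_intervals (hint 0 U) (hint U u)
        linarith
    have hab : -|Ψ 0| ≤ Ψ 0 := neg_abs_le _
    unfold Pk
    nlinarith [hmain, hab]

end O22

end Pool.Agent.Lib.MP_8d00da_gt.h42o
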