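import Pool.Agent.Lib.MP_8d00da_gt.h42o.ODefs
import Pool.Agent.Lib.MP_8d00da_gt.h42s.FinalGT

/-!
# Limits of the homogeneous inequality
-/

namespace Pool.Agent.Lib.MP_8d00da_gt.h42o

open MeasureTheory Set Filter
open Pool.Agent.Lib.MP_8d00da_gt.h25 Pool.Agent.Lib.MP_8d00da_gt.h42
open Pool.Agent.Lib.MP_8d00da_gt.h42s
open scoped Topology NNReal

variable {n : ℕ}

private lemma olim_tendsto {hk : ℕ → Vn n → ℝ} {h H : Vn n → ℝ} (hm : ∀ k, Measurable (hk k))
    (h0 : ∀ k x, 0 ≤ hk k x) (hH : ∀ k x, hk k x ≤ H x)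
    (hHi : Integrable fun x => (1 + ‖x‖ ^ 2) * H x)
    (hlim : ∀ᵐ x, Tendsto (fun k => hk k x) atTop (𝓝 (h x))) {φ : Vn n → ℝ}
    (hφ : Measurable φ) {C : ℝ} (hC : ∀ x, |φ x| ≤ C * (1 + ‖x‖ ^ 2)) :
    Tendsto (fun k => ∫ x, φ x * hk k x) atTop (𝓝 (∫ x, φ x * h x)) := by
  refine tendsto_integral_of_dominated_convergence (fun x => C * ((1 + ‖x‖ ^ 2) * H x))
    (fun k => (hφ.mul (hm k)).aestronglyMeasurable) (hHi.const_mul C) (fun k => ?_) ?_
  · filter_upwards with x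
    rw [Real.norm_eq_abs, abs_mul, abs_of_nonneg (h0 k x), ← mul_assoc]
    exact mul_le_mul (hC x) (hH k x) (h0 k x) ((abs_nonneg _).trans (hC x))
  · filter_upwards [hlim] with x hx
    exact hx.const_mul (φ x)

theorem QI_limit {C : ℝ} {hk : ℕ → Vn n → ℝ} {h H : Vn n → ℝ} (hm : ∀ k, Measurable (hk k))
    (h0 : ∀ k x, 0 ≤ hk k x) (hH : ∀ k x, hk k x ≤ H x)
    (hHi : Integrable fun x => (1 + ‖x‖ ^ 2) * H x)
    (hlim : ∀ᵐ x, Tendsto (fun k => hk k x) atTop (𝓝 (h x))) (hQ : ∀ k, QI C (hk k)) :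
    QI C h := by
  intro f hf
  obtain ⟨⟨L, hL⟩, A, hA⟩ := hf
  have hfm : Measurable f := hL.continuous.measurable
  have hA0 : 0 ≤ A := (abs_nonneg _).trans (hA 0)
  have hn2 : ∀ x : Vn n, (1 : ℝ) ≤ 1 + ‖x‖ ^ 2 := fun x => by have := sq_nonneg ‖x‖; linarith
  have t1 : Tendsto (fun k => ∫ x, f x ^ 2 * hk k x) atTop (𝓝 (∫ x, f x ^ 2 * h x)) := by
    refine olim_tendsto hm h0 hH hHi hlim (hfm.pow_const 2) (C := A ^ 2) fun x => ?_
    rw [abs_of_nonneg (sq_nonneg _)]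
    have h1 : f x ^ 2 ≤ A ^ 2 := sq_le_sq' (neg_le_of_abs_le (hA x)) (le_of_abs_le (hA x))
    nlinarith [hn2 x, sq_nonneg A]
  have t2 : Tendsto (fun k => ∫ x, f x * hk k x) atTop (𝓝 (∫ x, f x * h x)) := by
    refine olim_tendsto hm h0 hH hHi hlim hfm (C := A) fun x => ?_
    have := hA x
    nlinarith [hn2 x]
  have t3 : Tendsto (fun k => ∫ x, hk k x) atTop (𝓝 (∫ x, h x)) := by
    have := olim_tendsto hm h0 hH hHi hlim (φ := fun _ => 1) measurable_const (C := 1) fun x => by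
      rw [abs_one, one_mul]; exact hn2 x
    simpa using this
  have hxm : ∀ j, Measurable (fun x : Vn n => x j) := fun j => by fun_prop
  have t4 : ∀ j, Tendsto (fun k => ∫ x, (x j) ^ 2 * hk k x) atTop (𝓝 (∫ x, (x j) ^ 2 * h x)) := by
    intro j
    refine olim_tendsto hm h0 hH hHi hlim ((hxm j).pow_const 2) (C := 1) fun x => ?_
    rw [abs_of_nonneg (sq_nonneg _), one_mul]
    have h1 : ‖x j‖ ≤ ‖x‖ := PiLp.norm_apply_le x j
    have h2 : x j ^ 2 ≤ ‖x‖ ^ 2 := by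
      rw [← sq_abs, ← Real.norm_eq_abs]
      exact pow_le_pow_left₀ (norm_nonneg _) h1 2
    linarith
  have t5 : ∀ j, Tendsto (fun k => ∫ x, (fderiv ℝ f x (ee j)) ^ 2 * hk k x) atTop
      (𝓝 (∫ x, (fderiv ℝ f x (ee j)) ^ 2 * h x)) := by
    intro j
    refine olim_tendsto hm h0 hH hHi hlim ((measurable_fderiv_apply_const ℝ f (ee j)).pow_const 2)
      (C := (L : ℝ) ^ 2) fun x => ?_
    rw [abs_of_nonneg (sq_nonneg _)]
    have h1 : ‖fderiv ℝ f x (ee j)‖ ≤ L := by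
      have h2 := (fderiv ℝ f x).le_opNorm (ee j)
      have h3 : ‖ee j‖ = 1 := by simp [ee]
      rw [h3, mul_one] at h2
      exact h2.trans (norm_fderiv_le_of_lipschitz ℝ hL)
    have h2 : (fderiv ℝ f x (ee j)) ^ 2 ≤ (L : ℝ) ^ 2 := by
      rw [← sq_abs]
      exact pow_le_pow_left₀ (abs_nonneg _) h1 2
    nlinarith [hn2 x, sq_nonneg (L : ℝ)]
  have l1 := (t1.mul t3).sub (t2.pow 2)
  have l2 := (tendsto_finsetSum Finset.univ fun j _ => (t4 j).mul (t5 j)).const_mul C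
  exact le_of_tendsto_of_tendsto l1 l2 (Eventually.of_forall fun k => hQ k f ⟨⟨L, hL⟩, A, hA⟩)

/-- an integrable majorant -/
lemma exp_l1_int {a b : ℝ} (ha : 0 < a) :
    Integrable fun x : Vn n => (1 + ‖x‖ ^ 2) * Real.exp (-(a * ∑ j, |x j| - b)) := by
  set C : ℝ := (n + 3).factorial * Real.exp a / a ^ (n + 3) * Real.exp b with hC
  have hint : Integrable fun x : Vn n => C * (1 + ‖x‖) ^ (-((n : ℝ) + 1)) :=
    (integrable_one_add_norm (by simp)).const_mul C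
  refine hint.mono' ?_ (Eventually.of_forall fun x => ?_)
  · have h1 : Continuous fun x : Vn n => (1 + ‖x‖ ^ 2) * Real.exp (-(a * ∑ j, |x j| - b)) := by
      fun_prop
    exact h1.aestronglyMeasurable
  · have hN : ‖x‖ ≤ ∑ j, |x j| := norm_le_N1 x
    have hx0 := norm_nonneg x
    rw [Real.norm_eq_abs, abs_of_nonneg (by positivity)]
    set t := ‖x‖ with ht
    have h1 : Real.exp (-(a * ∑ j, |x j| - b)) ≤ Real.exp (-(a * t)) * Real.exp b := by
      rw [← Real.exp_add]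
      apply Real.exp_le_exp.2
      nlinarith
    have h2 : (a * (1 + t)) ^ (n + 3) / (n + 3).factorial ≤ Real.exp (a * (1 + t)) :=
      Real.pow_div_factorial_le_exp _ (by positivity) _
    have h3 : (1 + t) ^ (n + 3) * Real.exp (-(a * t)) ≤
        (n + 3).factorial * Real.exp a / a ^ (n + 3) := by
      rw [div_le_iff₀ (by positivity), mul_pow] at h2
      rw [le_div_iff₀ (by positivity)]
      calc (1 + t) ^ (n + 3) * Real.exp (-(a * t)) * a ^ (n + 3)
          = (a ^ (n + 3) * (1 + t) ^ (n + 3)) * Real.exp (-(a * t)) := by ring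
        _ ≤ (Real.exp (a * (1 + t)) * (n + 3).factorial) * Real.exp (-(a * t)) := by gcongr
        _ = (n + 3).factorial * (Real.exp (a * (1 + t)) * Real.exp (-(a * t))) := by ring
        _ = (n + 3).factorial * Real.exp a := by
          rw [← Real.exp_add]; congr 2; ring
    have h4 : (1 + t) ^ (-((n : ℝ) + 1)) = ((1 + t) ^ (n + 1))⁻¹ := by
      rw [Real.rpow_neg (by positivity)]
      congr 1
      rw [← Real.rpow_natCast]
      push_cast
      rfl
    rw [h4]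
    have h5 : (1 + t ^ 2) ≤ (1 + t) ^ 2 := by nlinarith
    have h6 : 0 < (1 + t) ^ (n + 1) := by positivity
    calc (1 + t ^ 2) * Real.exp (-(a * ∑ j, |x j| - b))
        ≤ (1 + t) ^ 2 * (Real.exp (-(a * t)) * Real.exp b) := by gcongr
      _ = ((1 + t) ^ (n + 3) * Real.exp (-(a * t))) * Real.exp b * ((1 + t) ^ (n + 1))⁻¹ := by
        rw [show n + 3 = (n + 1) + 2 by ring, pow_add (1 + t) (n + 1) 2]
        field_simp
      _ ≤ ((n + 3).factorial * Real.exp a / a ^ (n + 3)) * Real.exp b *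
          ((1 + t) ^ (n + 1))⁻¹ := by gcongr
      _ = C * ((1 + t) ^ (n + 1))⁻¹ := by rw [hC]

end Pool.Agent.Lib.MP_8d00da_gt.h42o
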