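import Pool.Agent.Lib.MP_8d00da_gt.h42o.ODefs

/-!
# O-17: gluing of coordinates
-/

namespace Pool.Agent.Lib.MP_8d00da_gt.h42o

open MeasureTheory Set Filter
open Pool.Agent.Lib.MP_8d00da_gt.h25 Pool.Agent.Lib.MP_8d00da_gt.h42
open Pool.Agent.Lib.MP_8d00da_gt.h42s
open scoped Topology NNReal

variable {m n : ℕ}

/-- The complement of the range. -/
abbrev Co (σ : Fin m ↪ Fin n) := {i : Fin n // ∀ j, σ j ≠ i}

open Classical in
/-- Gluing of the coordinates in the range of `σ` and the other coordinates. -/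
noncomputable def glue (σ : Fin m ↪ Fin n) (y : Vn m) (w : Co σ → ℝ) : Vn n :=
  WithLp.toLp 2 fun i => if h : ∃ j, σ j = i then y h.choose else
    w ⟨i, fun j hj => h ⟨j, hj⟩⟩

lemma glue_range (σ : Fin m ↪ Fin n) (y : Vn m) (w : Co σ → ℝ) (j : Fin m) :
    glue σ y w (σ j) = y j := by
  unfold glue
  have h : ∃ j', σ j' = σ j := ⟨j, rfl⟩
  simp only
  rw [dif_pos h, σ.injective h.choose_spec]

lemma glue_co (σ : Fin m ↪ Fin n) (y : Vn m) (w : Co σ → ℝ) (i : Co σ) :
    glue σ y w i.1 = w i := by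
  unfold glue
  have h : ¬ ∃ j', σ j' = i.1 := by
    rintro ⟨j, hj⟩
    exact i.2 j hj
  simp only
  rw [dif_neg h]

/-- the sum decomposition of the index set -/
noncomputable def glue_sum_equiv (σ : Fin m ↪ Fin n) : Fin m ⊕ Co σ ≃ Fin n :=
  Equiv.ofBijective (Sum.elim σ (fun i => i.1)) (by
    constructor
    · rintro (a | a) (b | b) h
      · simp only [Sum.elim_inl] at h
        rw [σ.injective h]
      · simp only [Sum.elim_inl, Sum.elim_inr] at h
        exact absurd h (b.2 a)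
      · simp only [Sum.elim_inl, Sum.elim_inr] at h
        exact absurd h.symm (a.2 b)
      · simp only [Sum.elim_inr] at h
        rw [Subtype.ext h]
    · intro i
      by_cases h : ∃ j, σ j = i
      · obtain ⟨j, hj⟩ := h
        exact ⟨Sum.inl j, hj⟩
      · exact ⟨Sum.inr ⟨i, fun j hj => h ⟨j, hj⟩⟩, rfl⟩)

lemma glue_sum_equiv_inl (σ : Fin m ↪ Fin n) (j : Fin m) :
    glue_sum_equiv σ (Sum.inl j) = σ j := rfl

lemma glue_sum_equiv_inr (σ : Fin m ↪ Fin n) (i : Co σ) :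
    glue_sum_equiv σ (Sum.inr i) = i.1 := rfl

/-- gluing as a measurable equivalence -/
noncomputable def glue_equiv (σ : Fin m ↪ Fin n) : Vn m × (Co σ → ℝ) ≃ᵐ Vn n :=
  ((MeasurableEquiv.toLp 2 (Fin m → ℝ)).symm.prodCongr (MeasurableEquiv.refl (Co σ → ℝ))).trans
    ((MeasurableEquiv.sumPiEquivProdPi (fun _ : Fin m ⊕ Co σ => ℝ)).symm.trans
      ((MeasurableEquiv.piCongrLeft (fun _ : Fin n => ℝ) (glue_sum_equiv σ)).trans
        (MeasurableEquiv.toLp 2 (Fin n → ℝ))))

lemma glue_equiv_apply (σ : Fin m ↪ Fin n) (y : Vn m) (w : Co σ → ℝ) :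
    glue_equiv σ (y, w) = glue σ y w := by
  ext i
  obtain ⟨s, rfl⟩ := (glue_sum_equiv σ).surjective i
  have h1 : glue_equiv σ (y, w) (glue_sum_equiv σ s) =
      (MeasurableEquiv.sumPiEquivProdPi (fun _ : Fin m ⊕ Co σ => ℝ)).symm
        ((MeasurableEquiv.toLp 2 (Fin m → ℝ)).symm y, w) s :=
    MeasurableEquiv.piCongrLeft_apply_apply (glue_sum_equiv σ) (β := fun _ => ℝ) _ s
  rw [h1]
  rcases s with j | i
  · rw [glue_sum_equiv_inl, glue_range]; rfl
  · rw [glue_sum_equiv_inr, glue_co]; rfl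

lemma glue_mp (σ : Fin m ↪ Fin n) :
    MeasurePreserving (fun p : Vn m × (Co σ → ℝ) => glue σ p.1 p.2)
      ((volume : Measure (Vn m)).prod (volume : Measure (Co σ → ℝ))) volume := by
  have e : (fun p : Vn m × (Co σ → ℝ) => glue σ p.1 p.2) = glue_equiv σ := by
    funext p
    exact (glue_equiv_apply σ p.1 p.2).symm
  rw [e]
  have h1 : MeasurePreserving (MeasurableEquiv.toLp 2 (Fin m → ℝ)).symm
      (volume : Measure (Vn m)) volume := PiLp.volume_preserving_ofLp (Fin m)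
  have h2 : MeasurePreserving (MeasurableEquiv.toLp 2 (Fin n → ℝ))
      volume (volume : Measure (Vn n)) := PiLp.volume_preserving_toLp (Fin n)
  have h3 : MeasurePreserving (MeasurableEquiv.refl (Co σ → ℝ))
      (volume : Measure (Co σ → ℝ)) volume := MeasurePreserving.id _
  have h4 := h1.prod h3
  have h5 := volume_measurePreserving_sumPiEquivProdPi_symm (fun _ : Fin m ⊕ Co σ => ℝ)
  have h6 := volume_measurePreserving_piCongrLeft (fun _ : Fin n => ℝ) (glue_sum_equiv σ)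
  exact h2.comp (h6.comp (h5.comp h4))

lemma glue_emb (σ : Fin m ↪ Fin n) :
    MeasurableEmbedding fun p : Vn m × (Co σ → ℝ) => glue σ p.1 p.2 := by
  have e : (fun p : Vn m × (Co σ → ℝ) => glue σ p.1 p.2) = glue_equiv σ := by
    funext p
    exact (glue_equiv_apply σ p.1 p.2).symm
  rw [e]
  exact (glue_equiv σ).measurableEmbedding

lemma glue_int (σ : Fin m ↪ Fin n) {Φ : Vn n → ℝ} (hΦ : Integrable Φ) :
    Integrable (fun p : Vn m × (Co σ → ℝ) => Φ (glue σ p.1 p.2))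
      ((volume : Measure (Vn m)).prod (volume : Measure (Co σ → ℝ))) ∧
    ∫ x, Φ x = ∫ w : Co σ → ℝ, ∫ y : Vn m, Φ (glue σ y w) := by
  have h1 : Integrable (fun p : Vn m × (Co σ → ℝ) => Φ (glue σ p.1 p.2))
      ((volume : Measure (Vn m)).prod (volume : Measure (Co σ → ℝ))) :=
    ((glue_mp σ).integrable_comp_emb (glue_emb σ)).2 hΦ
  refine ⟨h1, ?_⟩
  rw [← (glue_mp σ).integral_comp (glue_emb σ) Φ, integral_prod_symm _ h1]

lemma sum_glue (σ : Fin m ↪ Fin n) (g : Fin n → ℝ → ℝ) (y : Vn m) (w : Co σ → ℝ) :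
    ∑ i, g i (glue σ y w i) = (∑ i : Co σ, g i.1 (w i)) + ∑ j, g (σ j) (y j) := by
  rw [← (glue_sum_equiv σ).sum_comp (fun i => g i (glue σ y w i)), Fintype.sum_sum_type, add_comm]
  congr 1
  · refine Finset.sum_congr rfl fun i _ => ?_
    rw [glue_sum_equiv_inr, glue_co]
  · refine Finset.sum_congr rfl fun j _ => ?_
    rw [glue_sum_equiv_inl, glue_range]

end Pool.Agent.Lib.MP_8d00da_gt.h42o
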