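import Mathlib
import Pool.Agent.Lib.MP_8d00da_gt.h42o.ODefs
import Pool.Agent.Lib.MP_8d00da_gt.h25.Chain

/-!
# Insertion of a coordinate
-/

namespace Pool.Agent.Lib.MP_8d00da_gt.h42o

open MeasureTheory Set Filter
open Pool.Agent.Lib.MP_8d00da_gt.h25 Pool.Agent.Lib.MP_8d00da_gt.h42
open Pool.Agent.Lib.MP_8d00da_gt.h42s
open scoped Topology NNReal

variable {m : ℕ}

lemma ins_same (i : Fin (m + 1)) (t : ℝ) (y : Vn m) : ins i t y i = t := by
  simp [ins]

lemma ins_succ (i : Fin (m + 1)) (t : ℝ) (y : Vn m) (j : Fin m) :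
    ins i t y (i.succAbove j) = y j := by
  simp [ins]

lemma ins_ext (i : Fin (m + 1)) {u v : Vn (m + 1)} (h0 : u i = v i)
    (h : ∀ j, u (i.succAbove j) = v (i.succAbove j)) : u = v := by
  ext k
  rcases eq_or_ne k i with rfl | hk
  · exact h0
  · obtain ⟨j, rfl⟩ := Fin.exists_succAbove_eq hk
    exact h j

lemma ins_comb (i : Fin (m + 1)) (a b s t : ℝ) (y z : Vn m) :
    ins i (a * s + b * t) (a • y + b • z) = a • ins i s y + b • ins i t z := by
  refine ins_ext i ?_ fun j => ?_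
  · simp [ins_same]
  · simp [ins_succ]

lemma norm_ins (i : Fin (m + 1)) (t : ℝ) (y : Vn m) : ‖ins i t y‖ ^ 2 = t ^ 2 + ‖y‖ ^ 2 := by
  rw [EuclideanSpace.norm_sq_eq, EuclideanSpace.norm_sq_eq, Fin.sum_univ_succAbove _ i]
  simp only [ins_same, ins_succ, Real.norm_eq_abs, sq_abs]

lemma dist_ins (i : Fin (m + 1)) (s t : ℝ) (y z : Vn m) :
    ‖ins i s y - ins i t z‖ ^ 2 = (s - t) ^ 2 + ‖y - z‖ ^ 2 := by
  have h := ins_comb i 1 (-1) s t y z
  have h1 : ins i s y - ins i t z = ins i (s - t) (y - z) := by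
    have h2 : (1 : ℝ) * s + -1 * t = s - t := by ring
    have h3 : (1 : ℝ) • y + (-1 : ℝ) • z = y - z := by
      rw [one_smul, neg_smul, one_smul, sub_eq_add_neg]
    have h4 : (1 : ℝ) • ins i s y + (-1 : ℝ) • ins i t z = ins i s y - ins i t z := by
      rw [one_smul, neg_smul, one_smul, sub_eq_add_neg]
    rw [h2, h3, h4] at h
    exact h.symm
  rw [h1, norm_ins]

lemma fl_ins_same (i : Fin (m + 1)) (t : ℝ) (y : Vn m) :
    fl i (ins i t y) = ins i (-t) y := by
  refine ins_ext i ?_ fun j => ?_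
  · simp [fl_apply, ins_same]
  · rw [fl_apply, if_neg (Fin.succAbove_ne i j), ins_succ, ins_succ]

lemma fl_ins_succ (i : Fin (m + 1)) (j : Fin m) (t : ℝ) (y : Vn m) :
    fl (i.succAbove j) (ins i t y) = ins i t (fl j y) := by
  refine ins_ext i ?_ fun k => ?_
  · rw [fl_apply, if_neg (Fin.succAbove_ne i j).symm, ins_same, ins_same]
  · rw [fl_apply, ins_succ, ins_succ, fl_apply]
    by_cases hk : k = j
    · subst hk
      simp
    · rw [if_neg hk, if_neg fun h => hk (Fin.succAbove_right_injective h)]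

/-- insertion as a measurable equivalence -/
noncomputable def insEquiv (i : Fin (m + 1)) : ℝ × Vn m ≃ᵐ Vn (m + 1) :=
  ((MeasurableEquiv.refl ℝ).prodCongr (MeasurableEquiv.toLp 2 (Fin m → ℝ)).symm).trans
    ((MeasurableEquiv.piFinSuccAbove (fun _ => ℝ) i).symm.trans
      (MeasurableEquiv.toLp 2 (Fin (m + 1) → ℝ)))

lemma insEquiv_apply (i : Fin (m + 1)) (p : ℝ × Vn m) : insEquiv i p = ins i p.1 p.2 := rfl

lemma ins_eq_add (i : Fin (m + 1)) (t : ℝ) (y : Vn m) : ins i t y = ins i 0 y + t • ee i := by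
  refine ins_ext i ?_ fun j => ?_
  · simp [ins_same, ee_apply]
  · simp [ins_succ, ee_apply, Fin.succAbove_ne]

/-- the linear part of the insertion -/
noncomputable def insL (i : Fin (m + 1)) : Vn m →L[ℝ] Vn (m + 1) :=
  LinearMap.toContinuousLinearMap
    { toFun := fun y => ins i 0 y
      map_add' := fun y z => by
        refine ins_ext i ?_ fun j => ?_
        · simp [ins_same]
        · simp [ins_succ]
      map_smul' := fun c y => by
        refine ins_ext i ?_ fun j => ?_
        · simp [ins_same]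
        · simp [ins_succ] }

lemma insL_apply (i : Fin (m + 1)) (y : Vn m) : insL i y = ins i 0 y := rfl

lemma insL_ee (i : Fin (m + 1)) (j : Fin m) : insL i (ee j) = ee (i.succAbove j) := by
  rw [insL_apply]
  refine ins_ext i ?_ fun k => ?_
  · rw [ins_same, ee_apply, if_neg (Fin.succAbove_ne i j).symm]
  · rw [ins_succ, ee_apply, ee_apply]
    by_cases hk : k = j
    · subst hk
      simp
    · rw [if_neg hk, if_neg fun h => hk (Fin.succAbove_right_injective h)]

lemma ins_cont (i : Fin (m + 1)) : Continuous fun p : ℝ × Vn m => ins i p.1 p.2 := by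
  have h : (fun p : ℝ × Vn m => ins i p.1 p.2) = fun p : ℝ × Vn m => insL i p.2 + p.1 • ee i := by
    funext p
    rw [ins_eq_add, insL_apply]
  rw [h]
  fun_prop

lemma ins_mp (i : Fin (m + 1)) :
    MeasurePreserving (fun p : ℝ × Vn m => ins i p.1 p.2)
      ((volume : Measure ℝ).prod (volume : Measure (Vn m))) volume := by
  have h1 : MeasurePreserving (Prod.map id (WithLp.ofLp (p := 2)) : ℝ × Vn m → ℝ × (Fin m → ℝ))
      ((volume : Measure ℝ).prod (volume : Measure (Vn m)))
      ((volume : Measure ℝ).prod (volume : Measure (Fin m → ℝ))) :=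
    (MeasurePreserving.id _).prod (PiLp.volume_preserving_ofLp (Fin m))
  have h2 := (volume_preserving_piFinSuccAbove (fun _ : Fin (m + 1) => ℝ) i).symm
  have h3 := PiLp.volume_preserving_toLp (Fin (m + 1))
  exact h3.comp (h2.comp h1)

lemma ins_emb (i : Fin (m + 1)) : MeasurableEmbedding fun p : ℝ × Vn m => ins i p.1 p.2 :=
  (insEquiv i).measurableEmbedding

lemma ins_integrable (i : Fin (m + 1)) {Φ : Vn (m + 1) → ℝ} (hΦ : Integrable Φ) :
    Integrable (fun p : ℝ × Vn m => Φ (ins i p.1 p.2))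
      ((volume : Measure ℝ).prod (volume : Measure (Vn m))) :=
  ((ins_mp i).integrable_comp_emb (ins_emb i)).2 hΦ

lemma ins_int (i : Fin (m + 1)) {Φ : Vn (m + 1) → ℝ} (hΦ : Integrable Φ) :
    ∫ x, Φ x = ∫ t : ℝ, ∫ y : Vn m, Φ (ins i t y) := by
  rw [← (ins_mp i).integral_comp (ins_emb i) Φ, integral_prod _ (ins_integrable i hΦ)]

lemma ins_int' (i : Fin (m + 1)) {Φ : Vn (m + 1) → ℝ} (hΦ : Integrable Φ) :
    ∫ x, Φ x = ∫ y : Vn m, ∫ t : ℝ, Φ (ins i t y) := by
  rw [← (ins_mp i).integral_comp (ins_emb i) Φ, integral_prod_symm _ (ins_integrable i hΦ)]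

/-- derivative along the inserted coordinate -/
lemma hasDerivAt_ins (i : Fin (m + 1)) {q : Vn (m + 1) → ℝ} (hd : Differentiable ℝ q) (y : Vn m)
    (t : ℝ) : HasDerivAt (fun t => q (ins i t y)) (fderiv ℝ q (ins i t y) (ee i)) t := by
  have h1 : HasDerivAt (fun t : ℝ => ins i t y) (ee i) t := by
    have h2 : (fun t : ℝ => ins i t y) = fun t : ℝ => ins i 0 y + t • ee i := by
      funext s
      exact ins_eq_add i s y
    rw [h2]
    have h3 := ((hasDerivAt_id t).smul_const (ee i)).const_add (ins i 0 y)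
    simpa using h3
  exact (hd (ins i t y)).hasFDerivAt.comp_hasDerivAt t h1

/-- the derivative of a section -/
lemma hasFDerivAt_sec (i : Fin (m + 1)) {q : Vn (m + 1) → ℝ} (hd : Differentiable ℝ q) (t : ℝ)
    (y : Vn m) : HasFDerivAt (fun y => q (ins i t y)) ((fderiv ℝ q (ins i t y)).comp (insL i)) y := by
  have h1 : HasFDerivAt (fun y : Vn m => ins i t y) (insL i) y := by
    have h2 : (fun y : Vn m => ins i t y) = fun y : Vn m => insL i y + t • ee i := by
      funext s
      rw [insL_apply]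
      exact ins_eq_add i t s
    rw [h2]
    exact (insL i).hasFDerivAt.add_const _
  exact (hd (ins i t y)).hasFDerivAt.comp y h1

/-- the gradient of a section -/
lemma fderiv_sec (i : Fin (m + 1)) {q : Vn (m + 1) → ℝ} (hd : Differentiable ℝ q) (t : ℝ)
    (y : Vn m) : Differentiable ℝ (fun y => q (ins i t y)) ∧
      ‖fderiv ℝ (fun y => q (ins i t y)) y‖ ^ 2 + (fderiv ℝ q (ins i t y) (ee i)) ^ 2 =
        ‖fderiv ℝ q (ins i t y)‖ ^ 2 := by
  refine ⟨fun y => (hasFDerivAt_sec i hd t y).differentiableAt, ?_⟩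
  rw [(hasFDerivAt_sec i hd t y).fderiv, norm_sq_fderiv (EuclideanSpace.basisFun (Fin m) ℝ),
    norm_sq_fderiv (EuclideanSpace.basisFun (Fin (m + 1)) ℝ) (fderiv ℝ q (ins i t y)),
    Fin.sum_univ_succAbove _ i, add_comm]
  have hb : ∀ (n : ℕ) (k : Fin n), EuclideanSpace.basisFun (Fin n) ℝ k = ee k := by
    intro n k
    simp [ee]
  simp only [hb]
  congr 1
  refine Finset.sum_congr rfl fun j _ => ?_
  rw [ContinuousLinearMap.comp_apply, insL_ee]

lemma lipschitz_ins (i : Fin (m + 1)) (t : ℝ) : LipschitzWith 1 fun y : Vn m => ins i t y := by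
  refine LipschitzWith.of_dist_le_mul fun y z => ?_
  rw [dist_eq_norm, dist_eq_norm, NNReal.coe_one, one_mul]
  have h := dist_ins i t t y z
  rw [sub_self, zero_pow two_ne_zero, zero_add] at h
  exact le_of_pow_le_pow_left₀ two_ne_zero (norm_nonneg _) h.le

lemma BL_ins (i : Fin (m + 1)) {q : Vn (m + 1) → ℝ} (hq : BL q) (t : ℝ) :
    BL fun y : Vn m => q (ins i t y) :=
  hq.comp (lipschitz_ins i t)

end Pool.Agent.Lib.MP_8d00da_gt.h42o
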