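import Mathlib

/-!
# O-3: a local Hardy inequality and a displacement inequality on the line
-/

namespace Pool.Agent.Lib.MP_8d00da_gt.h42o

open MeasureTheory Set Filter
open scoped Topology NNReal

lemma oone_cs {f : ℝ → ℝ} (hf : Continuous f) {a b : ℝ} (hab : a ≤ b) :
    (∫ t in a..b, f t) ^ 2 ≤ (b - a) * ∫ t in a..b, f t ^ 2 := by
  rcases hab.eq_or_lt with h | h
  · subst h; simp
  · have hpos : 0 < b - a := sub_pos.2 h
    obtain ⟨m, hm⟩ : ∃ m : ℝ, m * (b - a) = ∫ t in a..b, f t :=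
      ⟨(∫ t in a..b, f t) / (b - a), by field_simp⟩
    have h1 : 0 ≤ ∫ t in a..b, (f t - m) ^ 2 :=
      intervalIntegral.integral_nonneg hab (fun _ _ => sq_nonneg _)
    have i1 : IntervalIntegrable (fun t => f t ^ 2) volume a b :=
      (hf.pow 2).intervalIntegrable a b
    have i2 : IntervalIntegrable (fun t => 2 * m * f t) volume a b :=
      (continuous_const.mul hf).intervalIntegrable a b
    have i3 : IntervalIntegrable (fun _ : ℝ => m ^ 2) volume a b :=
      continuous_const.intervalIntegrable a b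
    have h2 : ∫ t in a..b, (f t - m) ^ 2 =
        (∫ t in a..b, f t ^ 2) - 2 * m * (∫ t in a..b, f t) + m ^ 2 * (b - a) := by
      have e : (fun t => (f t - m) ^ 2) = fun t => f t ^ 2 - 2 * m * f t + m ^ 2 := by
        ext t; ring
      rw [e, intervalIntegral.integral_add (i1.sub i2) i3, intervalIntegral.integral_sub i1 i2,
        intervalIntegral.integral_const_mul, intervalIntegral.integral_const]
      simp only [smul_eq_mul]
      ring
    rw [h2] at h1
    rw [← hm] at h1 ⊢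
    nlinarith

lemma oone_pt {u u' ρ : ℝ → ℝ} (hu : ∀ t, HasDerivAt u (u' t) t) (hu' : Continuous u')
    (hρ : Continuous ρ) (hρ0 : ∀ t, 0 ≤ ρ t) {a b : ℝ} (hab : a ≤ b)
    (hρd : ∀ s, a ≤ s → s ≤ b → ρ b ≤ ρ s) :
    (u b - u a) ^ 2 * ρ b ≤ (b - a) * ∫ t in a..b, u' t ^ 2 * ρ t := by
  have h1 : ∫ t in a..b, u' t = u b - u a :=
    intervalIntegral.integral_eq_sub_of_hasDerivAt (fun t _ => hu t) (hu'.intervalIntegrable a b)
  have h2 := oone_cs hu' hab
  rw [h1] at h2
  have h3 : (∫ t in a..b, u' t ^ 2) * ρ b ≤ ∫ t in a..b, u' t ^ 2 * ρ t := by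
    rw [← intervalIntegral.integral_mul_const]
    apply intervalIntegral.integral_mono_on hab
    · exact ((hu'.pow 2).mul continuous_const).intervalIntegrable a b
    · exact ((hu'.pow 2).mul hρ).intervalIntegrable a b
    · intro t ht
      exact mul_le_mul_of_nonneg_left (hρd t ht.1 ht.2) (sq_nonneg _)
  calc (u b - u a) ^ 2 * ρ b ≤ ((b - a) * ∫ t in a..b, u' t ^ 2) * ρ b :=
        mul_le_mul_of_nonneg_right h2 (hρ0 b)
    _ = (b - a) * ((∫ t in a..b, u' t ^ 2) * ρ b) := by ring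
    _ ≤ _ := mul_le_mul_of_nonneg_left h3 (sub_nonneg.2 hab)

lemma oone_half {u u' ρ : ℝ → ℝ} (hu : ∀ t, HasDerivAt u (u' t) t) (hu' : Continuous u')
    (hu0 : u 0 = 0) (hρ : Continuous ρ) (hρ0 : ∀ t, 0 ≤ ρ t)
    (hρd : ∀ s t, 0 ≤ s → s ≤ t → ρ t ≤ ρ s) {t0 : ℝ} (ht0 : 0 ≤ t0) :
    ∫ t in (0 : ℝ)..t0, u t ^ 2 * ρ t ≤ (t0 ^ 2 / 2) * ∫ t in (0 : ℝ)..t0, u' t ^ 2 * ρ t := by
  have hc : Continuous u := continuous_iff_continuousAt.2 fun t => (hu t).continuousAt
  set I := ∫ t in (0 : ℝ)..t0, u' t ^ 2 * ρ t with hI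
  have hint : ∀ a b : ℝ, IntervalIntegrable (fun t => u' t ^ 2 * ρ t) volume a b :=
    fun a b => ((hu'.pow 2).mul hρ).intervalIntegrable a b
  have key : ∀ t ∈ Icc (0 : ℝ) t0, u t ^ 2 * ρ t ≤ t * I := by
    intro t ht
    have h1 := oone_pt hu hu' hρ hρ0 ht.1 (fun s hs hst => hρd s t hs hst)
    rw [hu0] at h1
    simp only [sub_zero] at h1
    refine h1.trans (mul_le_mul_of_nonneg_left ?_ ht.1)
    rw [hI, ← intervalIntegral.integral_add_adjacent_intervals (hint 0 t) (hint t t0)]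
    have : 0 ≤ ∫ s in t..t0, u' s ^ 2 * ρ s :=
      intervalIntegral.integral_nonneg ht.2 (fun s _ => mul_nonneg (sq_nonneg _) (hρ0 s))
    linarith
  calc ∫ t in (0 : ℝ)..t0, u t ^ 2 * ρ t ≤ ∫ t in (0 : ℝ)..t0, t * I := by
        apply intervalIntegral.integral_mono_on ht0
        · exact ((hc.pow 2).mul hρ).intervalIntegrable _ _
        · exact (continuous_id.mul continuous_const).intervalIntegrable _ _
        · exact key
    _ = (t0 ^ 2 / 2) * I := by
        rw [intervalIntegral.integral_mul_const, integral_id]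
        ring

lemma hardy_local {u u' ρ : ℝ → ℝ} (hu : ∀ t, HasDerivAt u (u' t) t) (hu' : Continuous u')
    (hu0 : u 0 = 0) (hρ : Continuous ρ) (hρ0 : ∀ t, 0 ≤ ρ t)
    (hρd : ∀ s t, |s| ≤ |t| → ρ t ≤ ρ s) {t0 : ℝ} (ht0 : 0 ≤ t0) :
    ∫ t in Ioo (-t0) t0, u t ^ 2 * ρ t ≤ (t0 ^ 2 / 2) * ∫ t in Ioo (-t0) t0, u' t ^ 2 * ρ t := by
  have hc : Continuous u := continuous_iff_continuousAt.2 fun t => (hu t).continuousAt
  have hle : -t0 ≤ t0 := by linarith
  have e : ∀ φ : ℝ → ℝ, Continuous φ → ∫ t in Ioo (-t0) t0, φ t =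
      (∫ t in (0 : ℝ)..t0, φ (-t)) + ∫ t in (0 : ℝ)..t0, φ t := by
    intro φ hφ
    rw [← integral_Ioc_eq_integral_Ioo, ← intervalIntegral.integral_of_le hle,
      ← intervalIntegral.integral_add_adjacent_intervals (hφ.intervalIntegrable (-t0) 0)
        (hφ.intervalIntegrable 0 t0), intervalIntegral.integral_comp_neg]
    simp
  rw [e (fun t => u t ^ 2 * ρ t) ((hc.pow 2).mul hρ), e (fun t => u' t ^ 2 * ρ t) ((hu'.pow 2).mul hρ)]
  have h1 := oone_half hu hu' hu0 hρ hρ0
    (fun s t hs hst => hρd s t (by rw [abs_of_nonneg hs, abs_of_nonneg (hs.trans hst)]; exact hst))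
    ht0
  have hv : ∀ t, HasDerivAt (fun t => u (-t)) (-u' (-t)) t := by
    intro t
    have h := HasDerivAt.comp t (hu (-t)) (hasDerivAt_neg t)
    have e2 : u' (-t) * -1 = -u' (-t) := by ring
    rw [e2] at h
    exact h
  have h2 := oone_half (u := fun t => u (-t)) (u' := fun t => -u' (-t)) (ρ := fun t => ρ (-t))
    hv (hu'.comp continuous_neg).neg (by simpa using hu0) (hρ.comp continuous_neg)
    (fun t => hρ0 _)
    (fun s t hs hst => hρd (-s) (-t)
      (by rw [abs_neg, abs_neg, abs_of_nonneg hs, abs_of_nonneg (hs.trans hst)]; exact hst))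
    ht0
  simp only [neg_sq] at h2
  linarith


lemma displacement {u u' ρ : ℝ → ℝ} (hu : ∀ t, HasDerivAt u (u' t) t) (hu' : Continuous u')
    (hu0 : u 0 = 0) (hρ : Continuous ρ) (hρ0 : ∀ t, 0 ≤ ρ t)
    (hρd : ∀ s t, |s| ≤ |t| → ρ t ≤ ρ s) {A A' : ℝ} (hA : ∀ t, |u t| ≤ A) (hA' : ∀ t, |u' t| ≤ A')
    (hρi : Integrable ρ) {l α : ℝ} (hl : 0 ≤ l) (hα : 0 < α) :
    ∫ t in Ioi (0 : ℝ), u t ^ 2 * (ρ t - ρ (t + l)) ≤
      (l ^ 2 / (2 * α)) * (∫ t in Ioi (0 : ℝ), u' t ^ 2 * ρ t) +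
        2 * α * ∫ t in Ioi (0 : ℝ), u t ^ 2 * ρ t := by
  have hc : Continuous u := continuous_iff_continuousAt.2 fun t => (hu t).continuousAt
  have hmono : ∀ s t, 0 ≤ s → s ≤ t → ρ t ≤ ρ s := fun s t hs hst =>
    hρd s t (by rw [abs_of_nonneg hs, abs_of_nonneg (hs.trans hst)]; exact hst)
  have hA2 : ∀ t, u t ^ 2 ≤ A ^ 2 := fun t => sq_le_sq' (by linarith [(abs_le.1 (hA t)).1])
    (abs_le.1 (hA t)).2
  have hA2' : ∀ t, u' t ^ 2 ≤ A' ^ 2 := fun t => sq_le_sq' (by linarith [(abs_le.1 (hA' t)).1])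
    (abs_le.1 (hA' t)).2
  -- the shifted function
  set w : ℝ → ℝ := fun t => u (max (t - l) 0) with hw
  have hwc : Continuous w := hc.comp ((continuous_id.sub continuous_const).max continuous_const)
  have bint : ∀ (φ : ℝ → ℝ) (C : ℝ), Continuous φ → (∀ t, φ t ^ 2 ≤ C) →
      Integrable (fun t => φ t ^ 2 * ρ t) := by
    intro φ C hφ hC
    refine Integrable.mono' (hρi.const_mul C) ((hφ.pow 2).mul hρ).aestronglyMeasurable
      (Eventually.of_forall fun t => ?_)
    rw [Real.norm_of_nonneg (mul_nonneg (sq_nonneg _) (hρ0 t))]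
    exact mul_le_mul_of_nonneg_right (hC t) (hρ0 t)
  have iu : Integrable (fun t => u t ^ 2 * ρ t) := bint u _ hc hA2
  have iu' : Integrable (fun t => u' t ^ 2 * ρ t) := bint u' _ hu' hA2'
  have iw : Integrable (fun t => w t ^ 2 * ρ t) := bint w _ hwc (fun t => hA2 _)
  have ius : Integrable (fun t => u t ^ 2 * ρ (t + l)) := by
    refine Integrable.mono' ((hρi.comp_add_right l).const_mul (A ^ 2))
      ((hc.pow 2).mul (hρ.comp (continuous_id.add continuous_const))).aestronglyMeasurable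
      (Eventually.of_forall fun t => ?_)
    rw [Real.norm_of_nonneg (mul_nonneg (sq_nonneg _) (hρ0 _))]
    exact mul_le_mul_of_nonneg_right (hA2 t) (hρ0 _)
  -- the integral of w
  have ew : ∫ t in Ioi (0 : ℝ), w t ^ 2 * ρ t = ∫ t in Ioi (0 : ℝ), u t ^ 2 * ρ (t + l) := by
    rw [← integral_indicator measurableSet_Ioi, ← integral_indicator measurableSet_Ioi,
      ← integral_add_right_eq_self (fun t => (Ioi (0 : ℝ)).indicator
        (fun t => w t ^ 2 * ρ t) t) l]
    congr 1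
    ext t
    by_cases h1 : 0 < t
    · have h2 : 0 < t + l := by linarith
      rw [indicator_of_mem (show t ∈ Ioi (0 : ℝ) from h1),
        indicator_of_mem (show t + l ∈ Ioi (0 : ℝ) from h2)]
      simp only [hw, add_sub_cancel_right, max_eq_left h1.le]
    · rw [indicator_of_notMem (show t ∉ Ioi (0 : ℝ) from h1)]
      by_cases h2 : 0 < t + l
      · rw [indicator_of_mem (show t + l ∈ Ioi (0 : ℝ) from h2)]
        simp only [hw, add_sub_cancel_right, max_eq_right (not_lt.1 h1), hu0]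
        ring
      · rw [indicator_of_notMem (show t + l ∉ Ioi (0 : ℝ) from h2)]
  have ewle : ∫ t in Ioi (0 : ℝ), w t ^ 2 * ρ t ≤ ∫ t in Ioi (0 : ℝ), u t ^ 2 * ρ t := by
    rw [ew]
    apply setIntegral_mono_on ius.integrableOn iu.integrableOn measurableSet_Ioi
    intro t ht
    exact mul_le_mul_of_nonneg_left (hmono t (t + l) (le_of_lt ht) (by linarith)) (sq_nonneg _)
  -- the convolution
  set g : ℝ → ℝ := (Ioi (0 : ℝ)).indicator (fun t => u' t ^ 2 * ρ t) with hg
  have ig : Integrable g := iu'.indicator measurableSet_Ioi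
  have hg0 : ∀ t, 0 ≤ g t := fun t => indicator_nonneg
    (fun s _ => mul_nonneg (sq_nonneg _) (hρ0 s)) t
  set f : ℝ → ℝ := (Ioc (0 : ℝ) l).indicator (fun _ => (1 : ℝ)) with hf
  have if' : Integrable f := by
    rw [hf, integrable_indicator_iff measurableSet_Ioc]
    exact integrableOn_const (by simp)
  have hf0 : ∀ t, 0 ≤ f t := fun t => indicator_nonneg (fun s _ => zero_le_one) t
  set cv : ℝ → ℝ := convolution f g (ContinuousLinearMap.mul ℝ ℝ) volume with hcv
  have icv : Integrable cv := if'.integrable_convolution (ContinuousLinearMap.mul ℝ ℝ) ig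
  have ecv : ∫ t, cv t = l * ∫ t in Ioi (0 : ℝ), u' t ^ 2 * ρ t := by
    rw [hcv, integral_convolution (ContinuousLinearMap.mul ℝ ℝ) if' ig, hf, hg,
      integral_indicator measurableSet_Ioc, integral_indicator measurableSet_Ioi]
    simp [hl]
  have hcv0 : ∀ t, 0 ≤ cv t := by
    intro t
    rw [hcv]
    exact integral_nonneg fun s => mul_nonneg (hf0 _) (hg0 _)
  have hcvt : ∀ t, cv t = ∫ s in (t - l)..t, g s := by
    intro t
    have h1 : cv t = ∫ r in Ioc (0 : ℝ) l, g (t - r) := by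
      rw [hcv, ← integral_indicator measurableSet_Ioc]
      refine integral_congr_ae (Eventually.of_forall fun r => ?_)
      simp only [hf, ContinuousLinearMap.mul_apply']
      by_cases hr : r ∈ Ioc (0 : ℝ) l
      · rw [indicator_of_mem hr, indicator_of_mem hr, one_mul]
      · rw [indicator_of_notMem hr, indicator_of_notMem hr, zero_mul]
    rw [h1, ← intervalIntegral.integral_of_le hl, intervalIntegral.integral_comp_sub_left]
    simp
  -- pointwise estimate
  have hpt : ∀ t ∈ Ioi (0 : ℝ), (u t - w t) ^ 2 * ρ t ≤ l * cv t := by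
    intro t ht
    have ht' : 0 < t := ht
    have hm : max (t - l) 0 ≤ t := max_le (by linarith) ht'.le
    have hm0 : 0 ≤ max (t - l) 0 := le_max_right _ _
    have h1 := oone_pt hu hu' hρ hρ0 hm
      (fun s hs hst => hmono s t (hm0.trans hs) hst)
    have h2 : ∫ s in (max (t - l) 0)..t, u' s ^ 2 * ρ s = ∫ s in (max (t - l) 0)..t, g s := by
      apply intervalIntegral.integral_congr_ae
      refine Eventually.of_forall fun s hs => ?_
      rw [uIoc_of_le hm] at hs
      simp only [hg]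
      rw [indicator_of_mem (show s ∈ Ioi (0 : ℝ) from lt_of_le_of_lt hm0 hs.1)]
    have h3 : ∫ s in (max (t - l) 0)..t, g s ≤ cv t := by
      rw [hcvt t, ← intervalIntegral.integral_add_adjacent_intervals
        (ig.intervalIntegrable (a := t - l) (b := max (t - l) 0))
        (ig.intervalIntegrable (a := max (t - l) 0) (b := t))]
      have : 0 ≤ ∫ s in (t - l)..(max (t - l) 0), g s :=
        intervalIntegral.integral_nonneg (le_max_left _ _) (fun s _ => hg0 s)
      linarith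
    have h4 : t - max (t - l) 0 ≤ l := by
      have := le_max_left (t - l) 0
      linarith
    have h5 : 0 ≤ ∫ s in (max (t - l) 0)..t, g s :=
      intervalIntegral.integral_nonneg hm (fun s _ => hg0 s)
    rw [h2] at h1
    calc (u t - w t) ^ 2 * ρ t ≤ (t - max (t - l) 0) * ∫ s in (max (t - l) 0)..t, g s := h1
      _ ≤ l * ∫ s in (max (t - l) 0)..t, g s := mul_le_mul_of_nonneg_right h4 h5
      _ ≤ l * cv t := mul_le_mul_of_nonneg_left h3 hl
  -- squares
  have isub : Integrable (fun t => (u t - w t) ^ 2 * ρ t) := by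
    refine bint (fun t => u t - w t) (2 * A ^ 2 + 2 * A ^ 2) (hc.sub hwc) fun t => ?_
    have h1 := hA2 t
    have h2 : w t ^ 2 ≤ A ^ 2 := hA2 _
    nlinarith [sq_nonneg (u t + w t)]
  have iadd : Integrable (fun t => (u t + w t) ^ 2 * ρ t) := by
    refine bint (fun t => u t + w t) (2 * A ^ 2 + 2 * A ^ 2) (hc.add hwc) fun t => ?_
    have h1 := hA2 t
    have h2 : w t ^ 2 ≤ A ^ 2 := hA2 _
    nlinarith [sq_nonneg (u t - w t)]
  have b1 : ∫ t in Ioi (0 : ℝ), (u t - w t) ^ 2 * ρ t ≤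
      l ^ 2 * ∫ t in Ioi (0 : ℝ), u' t ^ 2 * ρ t := by
    calc ∫ t in Ioi (0 : ℝ), (u t - w t) ^ 2 * ρ t ≤ ∫ t in Ioi (0 : ℝ), l * cv t :=
          setIntegral_mono_on isub.integrableOn (icv.const_mul l).integrableOn
            measurableSet_Ioi hpt
      _ ≤ ∫ t, l * cv t :=
          setIntegral_le_integral (icv.const_mul l)
            (Eventually.of_forall fun t => mul_nonneg hl (hcv0 t))
      _ = l ^ 2 * ∫ t in Ioi (0 : ℝ), u' t ^ 2 * ρ t := by
          rw [integral_const_mul, ecv]; ring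
  have b2 : ∫ t in Ioi (0 : ℝ), (u t + w t) ^ 2 * ρ t ≤
      4 * ∫ t in Ioi (0 : ℝ), u t ^ 2 * ρ t := by
    calc ∫ t in Ioi (0 : ℝ), (u t + w t) ^ 2 * ρ t ≤
          ∫ t in Ioi (0 : ℝ), (2 * (u t ^ 2 * ρ t) + 2 * (w t ^ 2 * ρ t)) := by
          apply setIntegral_mono_on iadd.integrableOn
            ((iu.const_mul 2).add (iw.const_mul 2)).integrableOn measurableSet_Ioi
          intro t _
          have := hρ0 t
          have h : 0 ≤ (u t - w t) ^ 2 * ρ t := mul_nonneg (sq_nonneg _) this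
          have e3 : 2 * (u t ^ 2 * ρ t) + 2 * (w t ^ 2 * ρ t) =
              (u t + w t) ^ 2 * ρ t + (u t - w t) ^ 2 * ρ t := by ring
          show (u t + w t) ^ 2 * ρ t ≤ 2 * (u t ^ 2 * ρ t) + 2 * (w t ^ 2 * ρ t)
          linarith
      _ = 2 * (∫ t in Ioi (0 : ℝ), u t ^ 2 * ρ t) + 2 * ∫ t in Ioi (0 : ℝ), w t ^ 2 * ρ t := by
          rw [integral_add (iu.const_mul 2).integrableOn (iw.const_mul 2).integrableOn,
            integral_const_mul, integral_const_mul]
      _ ≤ _ := by linarith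
  have e1 : ∫ t in Ioi (0 : ℝ), u t ^ 2 * (ρ t - ρ (t + l)) =
      (∫ t in Ioi (0 : ℝ), u t ^ 2 * ρ t) - ∫ t in Ioi (0 : ℝ), w t ^ 2 * ρ t := by
    rw [ew, ← integral_sub iu.integrableOn ius.integrableOn]
    congr 1
    ext t
    ring
  have e2 : (∫ t in Ioi (0 : ℝ), u t ^ 2 * ρ t) - ∫ t in Ioi (0 : ℝ), w t ^ 2 * ρ t ≤
      (1 / (2 * α)) * (∫ t in Ioi (0 : ℝ), (u t - w t) ^ 2 * ρ t) +
        (α / 2) * ∫ t in Ioi (0 : ℝ), (u t + w t) ^ 2 * ρ t := by
    rw [← integral_sub iu.integrableOn iw.integrableOn, ← integral_const_mul,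
      ← integral_const_mul, ← integral_add (isub.const_mul _).integrableOn
        (iadd.const_mul _).integrableOn]
    apply setIntegral_mono_on (iu.sub iw).integrableOn
      ((isub.const_mul _).add (iadd.const_mul _)).integrableOn measurableSet_Ioi
    intro t _
    have h0 := hρ0 t
    have hk : u t ^ 2 - w t ^ 2 ≤ (1 / (2 * α)) * (u t - w t) ^ 2 + (α / 2) * (u t + w t) ^ 2 := by
      have h1 : (1 / (2 * α)) * (u t - w t) ^ 2 + (α / 2) * (u t + w t) ^ 2 -
          (u t ^ 2 - w t ^ 2) = (1 / (2 * α)) * ((u t - w t) - α * (u t + w t)) ^ 2 := by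
        field_simp
        ring
      have h2 : 0 ≤ (1 / (2 * α)) * ((u t - w t) - α * (u t + w t)) ^ 2 := by positivity
      linarith
    have := mul_le_mul_of_nonneg_right hk h0
    simp only [Pi.sub_apply, Pi.add_apply]
    nlinarith
  rw [e1]
  refine e2.trans ?_
  have p1 : 0 ≤ 1 / (2 * α) := by positivity
  have p2 : 0 ≤ α / 2 := by positivity
  have q1 := mul_le_mul_of_nonneg_left b1 p1
  have q2 := mul_le_mul_of_nonneg_left b2 p2
  calc _ ≤ 1 / (2 * α) * (l ^ 2 * ∫ t in Ioi (0 : ℝ), u' t ^ 2 * ρ t) +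
        α / 2 * (4 * ∫ t in Ioi (0 : ℝ), u t ^ 2 * ρ t) := add_le_add q1 q2
    _ = _ := by ring

end Pool.Agent.Lib.MP_8d00da_gt.h42o
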