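import Mathlib
import Pool.Agent.Lib.MP_8d00da_gt.h42o.ODefs
import Pool.Agent.Lib.MP_8d00da_gt.h42s.Diag
import Pool.Agent.Lib.MP_8d00da_gt.h25.Chain

/-!
# Theorem O, part 2: the weights (O-2, O-2b)
-/

namespace Pool.Agent.Lib.MP_8d00da_gt.h42o

open MeasureTheory Set Filter
open Pool.Agent.Lib.MP_8d00da_gt.h25 Pool.Agent.Lib.MP_8d00da_gt.h42
open Pool.Agent.Lib.MP_8d00da_gt.h42s
open scoped Topology NNReal

variable {m : ℕ}

section aux

private lemma owt_same (i : Fin (m + 1)) (t : ℝ) (y : Vn m) : ins i t y i = t := by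
  simp [ins]

private lemma owt_succ (i : Fin (m + 1)) (t : ℝ) (y : Vn m) (j : Fin m) :
    ins i t y (i.succAbove j) = y j := by
  simp [ins]

private lemma owt_norm (i : Fin (m + 1)) (t : ℝ) (y : Vn m) :
    ‖ins i t y‖ ^ 2 = t ^ 2 + ‖y‖ ^ 2 := by
  rw [EuclideanSpace.norm_sq_eq, EuclideanSpace.norm_sq_eq, Fin.sum_univ_succAbove _ i, owt_same]
  simp only [owt_succ, Real.norm_eq_abs, sq_abs]

private lemma owt_cont (i : Fin (m + 1)) (t : ℝ) : Continuous fun y : Vn m => ins i t y := by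
  refine (PiLp.continuous_toLp 2 _).comp (continuous_pi fun j => ?_)
  rcases Fin.eq_self_or_eq_succAbove i j with rfl | ⟨k, rfl⟩
  · simp only [Fin.insertNth_apply_same]
    exact continuous_const
  · simp only [Fin.insertNth_apply_succAbove]
    fun_prop

private lemma owt_fl (i : Fin (m + 1)) (t : ℝ) (y : Vn m) :
    fl i (ins i t y) = ins i (-t) y := by
  ext j
  rw [fl_apply]
  rcases Fin.eq_self_or_eq_succAbove i j with rfl | ⟨k, rfl⟩
  · rw [if_pos rfl, owt_same, owt_same]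
  · rw [if_neg (Fin.succAbove_ne i k), owt_succ, owt_succ]

private lemma owt_comb (i : Fin (m + 1)) (a s t : ℝ) (hs : s = (1 - a) * t + a * (-t)) (y : Vn m) :
    ins i s y = (1 - a) • ins i t y + a • ins i (-t) y := by
  ext j
  rw [PiLp.add_apply, PiLp.smul_apply, PiLp.smul_apply, smul_eq_mul, smul_eq_mul]
  rcases Fin.eq_self_or_eq_succAbove i j with rfl | ⟨k, rfl⟩
  · rw [owt_same, owt_same, owt_same, hs]
  · rw [owt_succ, owt_succ, owt_succ]
    ring

end aux

section O2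

variable {δ L : ℝ} {h : Vn m → ℝ}

lemma SWt.pos (H : SWt δ L h) (x : Vn m) : 0 < h x := by
  obtain ⟨W, hW, -⟩ := H.reg
  rw [hW]
  exact Real.exp_pos _

lemma SWt.cont (H : SWt δ L h) : Continuous h := by
  obtain ⟨W, hW, hd, -⟩ := H.reg
  have : h = fun x => Real.exp (-W x) := funext hW
  rw [this]
  exact Real.continuous_exp.comp hd.continuous.neg

private lemma owt_sign (hS : ∀ (i : Fin m) x, h (fl i x) = h x) (s : Finset (Fin m)) :
    ∀ x : Vn m, h (WithLp.toLp 2 fun i => if i ∈ s then - x i else x i) = h x := by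
  induction s using Finset.induction_on with
  | empty => intro x; simp
  | insert a s ha ih =>
    intro x
    have h1 : (WithLp.toLp 2 fun i => if i ∈ insert a s then - x i else x i : Vn m) =
        WithLp.toLp 2 fun i => if i ∈ s then - (fl a x) i else (fl a x) i := by
      ext i
      simp only [Finset.mem_insert, fl_apply]
      by_cases hi : i = a
      · subst hi; simp [ha]
      · simp [hi]
    rw [h1, ih, hS]

lemma SWt.abs_even (H : SWt δ L h) (x : Vn m) : h (-x) = h x := by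
  have h1 := owt_sign H.even Finset.univ x
  rw [← h1]
  congr 1
  ext i
  simp

lemma SWt.gauss (H : SWt δ L h) (x : Vn m) :
    h x ≤ h 0 * Real.exp (-(δ * ‖x‖ ^ 2 / 2)) := by
  have h1 := H.smid x (-x)
  rw [H.abs_even, add_neg_cancel, smul_zero, sub_neg_eq_add, ← two_smul ℝ x, norm_smul] at h1
  have h2 : (h x * Real.exp (δ * ‖x‖ ^ 2 / 2)) ^ 2 ≤ h 0 ^ 2 := by
    refine le_trans (le_of_eq ?_) h1
    rw [mul_pow, ← Real.exp_nat_mul, sq (h x)]
    congr 2
    simp only [Real.norm_eq_abs, abs_two]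
    push_cast
    ring
  have h3 : h x * Real.exp (δ * ‖x‖ ^ 2 / 2) ≤ h 0 :=
    le_of_sq_le_sq (a := h x * Real.exp (δ * ‖x‖ ^ 2 / 2)) h2 (H.pos 0).le
  rw [Real.exp_neg, ← div_eq_mul_inv, le_div_iff₀ (Real.exp_pos _)]
  exact h3

lemma SWt.wt (H : SWt δ L h) (hδ : 0 < δ) : Wt h (h 0) where
  meas := H.cont.measurable
  nonneg := fun x => (H.pos x).le
  bdd := fun x => by
    refine (H.gauss x).trans ?_
    have h1 : Real.exp (-(δ * ‖x‖ ^ 2 / 2)) ≤ 1 := by
      rw [Real.exp_le_one_iff, neg_nonpos]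
      positivity
    have h2 := (H.pos 0).le
    nlinarith
  mid := fun x y => by
    refine le_trans ?_ (H.smid x y)
    have h1 : 1 ≤ Real.exp (δ * ‖x - y‖ ^ 2 / 4) := by
      rw [Real.one_le_exp_iff]
      positivity
    have h2 := mul_nonneg (H.pos x).le (H.pos y).le
    nlinarith
  ne := by
    intro h0
    have h1 : ∀ᵐ x : Vn m, False := by
      filter_upwards [h0] with x hx
      have := H.pos x
      rw [hx] at this
      exact lt_irrefl _ this
    have h2 : (volume : Measure (Vn m)) = 0 := by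
      simpa using h1
    exact NeZero.ne (volume : Measure (Vn m)) h2

lemma SWt.int_poly (H : SWt δ L h) (hδ : 0 < δ) {φ : Vn m → ℝ} (hφ : Measurable φ) {C : ℝ}
    (hC : ∀ x, |φ x| ≤ C * (1 + ‖x‖ ^ 2)) : Integrable fun x => φ x * h x := by
  have hη : 0 < 2 / δ := by positivity
  have hC0 : 0 ≤ C := by
    have h1 := (abs_nonneg _).trans (hC 0)
    simpa using h1
  have hker : Integrable fun x : Vn m => (C * (1 + 4 / δ) * h 0) * h25.ker (2 / δ) x :=
    (ker_integrable hη).const_mul _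
  refine hker.mono' (hφ.mul H.cont.measurable).aestronglyMeasurable (Eventually.of_forall fun x => ?_)
  rw [Real.norm_eq_abs, abs_mul, abs_of_pos (H.pos x)]
  have h1 := H.gauss x
  have h2 : Real.exp (-(δ * ‖x‖ ^ 2 / 2)) =
      Real.exp (-(δ * ‖x‖ ^ 2 / 4)) * Real.exp (-(δ * ‖x‖ ^ 2 / 4)) := by
    rw [← Real.exp_add]
    congr 1
    ring
  have h3 : h25.ker (2 / δ) x = Real.exp (-(δ * ‖x‖ ^ 2 / 4)) := by
    unfold h25.ker
    congr 2
    field_simp
    ring
  have h4 : (1 + ‖x‖ ^ 2) * Real.exp (-(δ * ‖x‖ ^ 2 / 4)) ≤ 1 + 4 / δ := by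
    have h5 := Real.add_one_le_exp (δ * ‖x‖ ^ 2 / 4)
    rw [Real.exp_neg, ← div_eq_mul_inv, div_le_iff₀ (Real.exp_pos _)]
    have h6 : (1 + 4 / δ) * (δ * ‖x‖ ^ 2 / 4 + 1) ≤ (1 + 4 / δ) * Real.exp (δ * ‖x‖ ^ 2 / 4) := by
      gcongr
    refine le_trans ?_ h6
    have h7 : (1 + 4 / δ) * (δ * ‖x‖ ^ 2 / 4 + 1) = 1 + ‖x‖ ^ 2 + (δ * ‖x‖ ^ 2 / 4 + 4 / δ) := by
      field_simp
      ring
    rw [h7]
    have : 0 ≤ δ * ‖x‖ ^ 2 / 4 + 4 / δ := by positivity
    linarith
  have h00 := (H.pos 0).le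
  calc |φ x| * h x ≤ (C * (1 + ‖x‖ ^ 2)) * (h 0 * Real.exp (-(δ * ‖x‖ ^ 2 / 2))) :=
        mul_le_mul (hC x) h1 (H.pos x).le (by positivity)
    _ = (C * h 0 * Real.exp (-(δ * ‖x‖ ^ 2 / 4))) *
        ((1 + ‖x‖ ^ 2) * Real.exp (-(δ * ‖x‖ ^ 2 / 4))) := by rw [h2]; ring
    _ ≤ (C * h 0 * Real.exp (-(δ * ‖x‖ ^ 2 / 4))) * (1 + 4 / δ) := by gcongr
    _ = (C * (1 + 4 / δ) * h 0) * h25.ker (2 / δ) x := by rw [h3]; ring

lemma SWt.int (H : SWt δ L h) (hδ : 0 < δ) : Integrable h := by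
  have h1 := H.int_poly hδ (φ := fun _ => 1) measurable_const (C := 1) (fun x => by
    rw [abs_one, one_mul]
    have := sq_nonneg ‖x‖
    linarith)
  simpa using h1

lemma SWt.mass (H : SWt δ L h) (hδ : 0 < δ) : 0 < ∫ x, h x :=
  ker_int_pos.integral_pos_of_pos (H.int hδ) H.pos

lemma SWt.apriori (H : SWt δ L h) (hδ : 0 < δ) {q : Vn m → ℝ} (hq : BL q) :
    Vr h q ≤ (1 / δ) * En h q := by
  obtain ⟨⟨K, hK⟩, A, hA⟩ := hq
  have hmass := H.mass hδ
  have hA0 : 0 ≤ A := (abs_nonneg _).trans (hA 0)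
  have hqm : Measurable q := hK.continuous.measurable
  have i1 : Integrable fun x => q x * h x := H.int_poly hδ hqm (C := A) (fun x => by
    refine (hA x).trans ?_
    have := sq_nonneg ‖x‖
    nlinarith)
  have i2 : Integrable fun x => q x ^ 2 * h x := H.int_poly hδ (hqm.pow_const 2) (C := A ^ 2)
    (fun x => by
      rw [abs_pow]
      have h1 : |q x| ^ 2 ≤ A ^ 2 := by
        have := hA x
        gcongr
      have := sq_nonneg ‖x‖
      nlinarith [sq_nonneg A])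
  have i3 := H.int hδ
  set c : ℝ := (∫ x, q x * h x) / ∫ x, h x with hc
  have h1 := strong_poincare hδ (fun x => (H.pos x).le) H.cont.measurable i3 H.smid hK hA
    (m := c) (by rw [hc, div_mul_cancel₀ _ hmass.ne'])
  refine le_trans (le_of_eq ?_) h1
  have h2 : ∀ x, (q x - c) ^ 2 * h x = q x ^ 2 * h x - 2 * c * (q x * h x) + c ^ 2 * h x := by
    intro x
    ring
  simp only [h2]
  have i4 : Integrable fun x => q x ^ 2 * h x - 2 * c * (q x * h x) := i2.sub (i1.const_mul _)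
  rw [integral_add i4 (i3.const_mul _), integral_sub i2 (i1.const_mul _),
    integral_const_mul, integral_const_mul]
  unfold Vr
  have h3 : (∫ x, q x * h x) = c * ∫ x, h x := by rw [hc, div_mul_cancel₀ _ hmass.ne']
  rw [h3]
  field_simp
  ring

end O2

section O2b

variable {δ L : ℝ} {h : Vn (m + 1) → ℝ}

lemma SWt.mono (H : SWt δ L h) (i : Fin (m + 1)) {s t : ℝ} (hst : |s| ≤ |t|) (y : Vn m) :
    h (ins i t y) ≤ h (ins i s y) := by
  rcases eq_or_ne t 0 with rfl | ht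
  · have hs : s = 0 := by
      rw [abs_zero] at hst
      exact abs_eq_zero.1 (le_antisymm hst (abs_nonneg s))
    rw [hs]
  have hst' : |s / t| ≤ 1 := by
    rw [abs_div]
    exact div_le_one_of_le₀ hst (abs_nonneg _)
  rw [abs_le] at hst'
  obtain ⟨a, ha⟩ : ∃ a : ℝ, a = (1 - s / t) / 2 := ⟨_, rfl⟩
  have ha0 : 0 ≤ a := by rw [ha]; linarith [hst'.2]
  have ha1 : a ≤ 1 := by rw [ha]; linarith [hst'.1]
  have hs : s = (1 - a) * t + a * (-t) := by
    rw [ha]
    field_simp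
    ring
  rw [owt_comb i a s t hs y]
  have hcv := convex_super (fun x => (H.pos x).le) H.lc (h (ins i t y))
  have h1 : ins i t y ∈ {z | h (ins i t y) ≤ h z} := by
    simp
  have h2 : ins i (-t) y ∈ {z | h (ins i t y) ≤ h z} := by
    have h3 := H.even i (ins i t y)
    rw [owt_fl] at h3
    simp [h3]
  have h4 := hcv h1 h2 (by linarith : 0 ≤ 1 - a) ha0 (by ring)
  simpa using h4

lemma SWt.sec_bound (H : SWt δ L h) (hδ : 0 ≤ δ) (i : Fin (m + 1)) (t : ℝ) (y : Vn m) :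
    h (ins i t y) ≤ h 0 * Real.exp (-(δ * ‖y‖ ^ 2 / 2)) := by
  refine (H.gauss _).trans ?_
  have h0 := (H.pos 0).le
  have h1 : δ * ‖y‖ ^ 2 ≤ δ * ‖ins i t y‖ ^ 2 := by
    rw [owt_norm]
    have := sq_nonneg t
    have h2 : ‖y‖ ^ 2 ≤ t ^ 2 + ‖y‖ ^ 2 := by linarith
    gcongr
  gcongr

lemma SWt.sec_int (H : SWt δ L h) (hδ : 0 < δ) (i : Fin (m + 1)) (t : ℝ) :
    Integrable fun y : Vn m => h (ins i t y) := by
  have hη : 0 < 1 / δ := by positivity
  have hker : Integrable fun y : Vn m => h 0 * h25.ker (1 / δ) y := (ker_integrable hη).const_mul _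
  refine hker.mono' (H.cont.comp (owt_cont i t)).aestronglyMeasurable
    (Eventually.of_forall fun y => ?_)
  rw [Real.norm_eq_abs, abs_of_pos (H.pos _)]
  refine (H.sec_bound hδ.le i t y).trans (le_of_eq ?_)
  unfold h25.ker
  congr 3
  field_simp

lemma SWt.sec_mass (H : SWt δ L h) (hδ : 0 < δ) (i : Fin (m + 1)) (t : ℝ) :
    0 < ∫ y : Vn m, h (ins i t y) :=
  ker_int_pos.integral_pos_of_pos (H.sec_int hδ i t) fun _ => H.pos _

end O2b

end Pool.Agent.Lib.MP_8d00da_gt.h42o
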