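import Mathlib
import Pool.Agent.Lib.MP_8d00da_gt.h42o.OOne
import Pool.Agent.Lib.MP_8d00da_gt.h42o.OIns
import Pool.Agent.Lib.MP_8d00da_gt.h42o.OWt

/-!
# The marginal and the bound of the conditional means
-/

namespace Pool.Agent.Lib.MP_8d00da_gt.h42o

open MeasureTheory Set Filter
open Pool.Agent.Lib.MP_8d00da_gt.h25 Pool.Agent.Lib.MP_8d00da_gt.h42
open Pool.Agent.Lib.MP_8d00da_gt.h42s
open scoped Topology NNReal

variable {m : ℕ} {δ L : ℝ} {h : Vn (m + 1) → ℝ}

/-- the marginal -/
noncomputable def mg (h : Vn (m + 1) → ℝ) (i : Fin (m + 1)) (t : ℝ) : ℝ :=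
  ∫ y : Vn m, h (ins i t y)

private lemma ogb_ins_cont (i : Fin (m + 1)) (t : ℝ) : Continuous fun y : Vn m => ins i t y :=
  (ins_cont i).comp (continuous_const.prodMk continuous_id)

private lemma ogb_ins_cont' (i : Fin (m + 1)) (y : Vn m) : Continuous fun t : ℝ => ins i t y :=
  (ins_cont i).comp (continuous_id.prodMk continuous_const)

lemma mg_lc (H : SWt δ L h) (hδ : 0 < δ) (i : Fin (m + 1)) : LogConc (mg h i) := by
  intro a ha0 ha1 s t
  unfold mg
  refine pl_integral ha0 ha1 (fun y => (H.pos _).le) (fun y => (H.pos _).le)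
    (fun y => (H.pos _).le) ?_ ?_ ?_ (H.sec_int hδ i s) (H.sec_int hδ i t) (H.sec_int hδ i _) ?_
  · exact (H.cont.comp (ogb_ins_cont i s)).measurable
  · exact (H.cont.comp (ogb_ins_cont i t)).measurable
  · exact (H.cont.comp (ogb_ins_cont i _)).measurable
  · intro x y
    have := H.lc a ha0 ha1 (ins i s x) (ins i t y)
    rw [← ins_comb] at this
    exact this

private lemma ogb_mg_pos (H : SWt δ L h) (hδ : 0 < δ) (i : Fin (m + 1)) (t : ℝ) : 0 < mg h i t :=
  H.sec_mass hδ i t

private lemma ogb_mg_anti (H : SWt δ L h) (hδ : 0 < δ) (i : Fin (m + 1)) {s t : ℝ}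
    (hst : |s| ≤ |t|) : mg h i t ≤ mg h i s :=
  integral_mono (H.sec_int hδ i t) (H.sec_int hδ i s) fun y => H.mono i hst y

private lemma ogb_mg_int (H : SWt δ L h) (hδ : 0 < δ) (i : Fin (m + 1)) : Integrable (mg h i) :=
  (ins_integrable i (H.int hδ)).integral_prod_left

private lemma ogb_sq_int (H : SWt δ L h) (hδ : 0 < δ) (i : Fin (m + 1)) :
    Integrable fun x : Vn (m + 1) => x i ^ 2 * h x := by
  refine H.int_poly hδ (φ := fun x => x i ^ 2) (C := 1) ?_ ?_
  · have : Continuous fun x : Vn (m + 1) => x i ^ 2 := by fun_prop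
    exact this.measurable
  · intro x
    have h1 : |x i| ≤ ‖x‖ := by
      have := PiLp.norm_apply_le x i
      rwa [Real.norm_eq_abs] at this
    rw [abs_of_nonneg (sq_nonneg _), ← sq_abs]
    nlinarith [abs_nonneg (x i), norm_nonneg x]

private lemma ogb_mom (H : SWt δ L h) (hδ : 0 < δ) (i : Fin (m + 1)) :
    Integrable (fun t => t ^ 2 * mg h i t) ∧ ∫ t, t ^ 2 * mg h i t ≤ ∫ t, mg h i t := by
  have h1 := ogb_sq_int H hδ i
  have h2 : ∀ t : ℝ, ∫ y : Vn m, (ins i t y i) ^ 2 * h (ins i t y) = t ^ 2 * mg h i t := by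
    intro t
    unfold mg
    rw [← integral_const_mul]
    refine integral_congr_ae (Eventually.of_forall fun y => ?_)
    simp only [ins_same]
  constructor
  · have h3 := (ins_integrable i h1).integral_prod_left
    refine h3.congr (Eventually.of_forall fun t => ?_)
    exact h2 t
  · have h3 := ins_int i h1
    simp only [h2] at h3
    have h4 : ∫ t, mg h i t = ∫ x, h x := (ins_int i (H.int hδ)).symm
    rw [← h3, h4]
    exact H.mom i

lemma mg_ratio (H : SWt δ L h) (hδ : 0 < δ) (i : Fin (m + 1)) {t : ℝ} (ht : 0 ≤ t) :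
    mg h i (t + 6) ≤ (1 / 27) * mg h i t := by
  set N : ℝ := ∫ t, mg h i t with hN
  obtain ⟨hmi, hm⟩ := ogb_mom H hδ i
  rw [← hN] at hm
  have hint := ogb_mg_int H hδ i
  -- (a)
  have ha : 144 * mg h i 6 ≤ N := by
    have e1 : ∫ t in Icc (-6 : ℝ) 6, t ^ 2 * mg h i 6 = 144 * mg h i 6 := by
      rw [integral_Icc_eq_integral_Ioc, ← intervalIntegral.integral_of_le (by norm_num),
        intervalIntegral.integral_mul_const, integral_pow]
      norm_num
    have e2 : ∫ t in Icc (-6 : ℝ) 6, t ^ 2 * mg h i 6 ≤ ∫ t in Icc (-6 : ℝ) 6, t ^ 2 * mg h i t := by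
      refine setIntegral_mono_on ?_ hmi.integrableOn measurableSet_Icc ?_
      · have : Continuous fun t : ℝ => t ^ 2 * mg h i 6 := by fun_prop
        exact this.continuousOn.integrableOn_compact isCompact_Icc
      · intro s hs
        refine mul_le_mul_of_nonneg_left (ogb_mg_anti H hδ i ?_) (sq_nonneg _)
        rw [abs_of_pos (by norm_num : (0 : ℝ) < 6), abs_le]
        exact hs
    have e3 : ∫ t in Icc (-6 : ℝ) 6, t ^ 2 * mg h i t ≤ ∫ t, t ^ 2 * mg h i t :=
      setIntegral_le_integral hmi (Eventually.of_forall fun s =>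
        mul_nonneg (sq_nonneg _) (ogb_mg_pos H hδ i s).le)
    linarith
  -- (b)
  have hb : (3 / 4) * N ≤ 4 * mg h i 0 := by
    have e0 : ∀ s : ℝ, mg h i s ≤ (Icc (-2 : ℝ) 2).indicator (fun _ => mg h i 0) s +
        (1 / 4) * (s ^ 2 * mg h i s) := by
      intro s
      have hp := (ogb_mg_pos H hδ i s).le
      by_cases hs : s ∈ Icc (-2 : ℝ) 2
      · rw [indicator_of_mem hs]
        have h1 := ogb_mg_anti H hδ i (s := 0) (t := s) (by simp)
        have : 0 ≤ s ^ 2 * mg h i s := by positivity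
        linarith
      · rw [indicator_of_notMem hs, zero_add]
        have h4 : 4 ≤ s ^ 2 := by
          by_contra hlt
          push Not at hlt
          apply hs
          constructor <;> nlinarith
        nlinarith
    have e1 : ∫ s, (Icc (-2 : ℝ) 2).indicator (fun _ => mg h i 0) s = 4 * mg h i 0 := by
      rw [integral_indicator measurableSet_Icc, setIntegral_const]
      simp only [smul_eq_mul, measureReal_def, Real.volume_Icc]
      rw [ENNReal.toReal_ofReal (by norm_num)]
      norm_num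
    have e2 : Integrable ((Icc (-2 : ℝ) 2).indicator (fun _ => mg h i 0)) := by
      rw [integrable_indicator_iff measurableSet_Icc]
      exact integrableOn_const (by simp)
    have e3 := integral_mono hint (e2.add (hmi.const_mul (1 / 4))) e0
    simp only [Pi.add_apply] at e3
    rw [integral_add e2 (hmi.const_mul (1 / 4)), e1, integral_const_mul, ← hN] at e3
    linarith
  have hc : mg h i 6 ≤ (1 / 27) * mg h i 0 := by linarith
  have h0 := ogb_mg_pos H hδ i 0
  rcases eq_or_lt_of_le ht with ht0 | ht0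
  · rw [← ht0, zero_add]; exact hc
  -- (c)
  have hT : 0 < t + 6 := by linarith
  have hlc := mg_lc H hδ i
  have hn0 := ogb_mg_pos H hδ i 0
  have hnT := ogb_mg_pos H hδ i (t + 6)
  have hnt := ogb_mg_pos H hδ i t
  have hn6 := ogb_mg_pos H hδ i 6
  have l1 := hlc (t / (t + 6)) (by positivity) (by rw [div_lt_one hT]; linarith) 0 (t + 6)
  have l2 := hlc (6 / (t + 6)) (by positivity) (by rw [div_lt_one hT]; linarith) 0 (t + 6)
  have a1 : (1 - t / (t + 6)) • (0 : ℝ) + (t / (t + 6)) • (t + 6) = t := by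
    simp only [smul_eq_mul, mul_zero, zero_add]; field_simp
  have a2 : (1 - 6 / (t + 6)) • (0 : ℝ) + (6 / (t + 6)) • (t + 6) = 6 := by
    simp only [smul_eq_mul, mul_zero, zero_add]; field_simp
  rw [a1] at l1
  rw [a2] at l2
  have hprod : mg h i 0 * mg h i (t + 6) ≤ mg h i t * mg h i 6 := by
    have := mul_le_mul l1 l2 (by positivity) hnt.le
    refine le_trans (le_of_eq ?_) this
    have e1 : mg h i 0 ^ (1 - t / (t + 6)) * mg h i (t + 6) ^ (t / (t + 6)) *
        (mg h i 0 ^ (1 - 6 / (t + 6)) * mg h i (t + 6) ^ (6 / (t + 6))) =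
        (mg h i 0 ^ (1 - t / (t + 6)) * mg h i 0 ^ (1 - 6 / (t + 6))) *
        (mg h i (t + 6) ^ (t / (t + 6)) * mg h i (t + 6) ^ (6 / (t + 6))) := by ring
    rw [e1, ← Real.rpow_add hn0, ← Real.rpow_add hnT]
    have e2 : (1 - t / (t + 6)) + (1 - 6 / (t + 6)) = 1 := by field_simp; ring
    have e3 : t / (t + 6) + 6 / (t + 6) = 1 := by field_simp
    rw [e2, e3, Real.rpow_one, Real.rpow_one]
  have hfin : mg h i 0 * mg h i (t + 6) ≤ mg h i 0 * ((1 / 27) * mg h i t) := by
    calc mg h i 0 * mg h i (t + 6) ≤ mg h i t * mg h i 6 := hprod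
      _ ≤ mg h i t * ((1 / 27) * mg h i 0) := mul_le_mul_of_nonneg_left hc hnt.le
      _ = mg h i 0 * ((1 / 27) * mg h i t) := by ring
  exact le_of_mul_le_mul_left hfin hn0

/-! ### the bound of the conditional means -/

section Gb

variable {q : Vn (m + 1) → ℝ}

private lemma ogb_odd (i : Fin (m + 1)) (hodd : ∀ x, q (fl i x) = - q x) (t : ℝ) (y : Vn m) :
    q (ins i (-t) y) = - q (ins i t y) := by
  rw [← fl_ins_same, hodd]

private lemma ogb_heven (H : SWt δ L h) (i : Fin (m + 1)) (t : ℝ) (y : Vn m) :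
    h (ins i (-t) y) = h (ins i t y) := by
  rw [← fl_ins_same, H.even]

private lemma ogb_q_int (H : SWt δ L h) (hδ : 0 < δ) {p : Vn (m + 1) → ℝ} (hp : BL p) :
    Integrable fun x : Vn (m + 1) => p x ^ 2 * h x := by
  obtain ⟨⟨K, hK⟩, A, hA⟩ := hp
  refine H.int_poly hδ (φ := fun x => p x ^ 2) (C := A ^ 2) ?_ ?_
  · exact (hK.continuous.pow 2).measurable
  · intro x
    rw [abs_of_nonneg (sq_nonneg _), ← sq_abs]
    have h1 := hA x
    have h2 := abs_nonneg (p x)
    have h3 : |p x| ^ 2 ≤ A ^ 2 := by nlinarith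
    nlinarith [sq_nonneg ‖x‖, sq_nonneg A, mul_nonneg (sq_nonneg A) (sq_nonneg ‖x‖)]

/-- integrability of sections against the weight of another section -/
private lemma ogb_sec (H : SWt δ L h) (hδ : 0 < δ) (i : Fin (m + 1)) {φ : Vn m → ℝ}
    (hφ : Continuous φ) {A : ℝ} (hA : ∀ y, |φ y| ≤ A) (t : ℝ) :
    Integrable fun y : Vn m => φ y * h (ins i t y) := by
  refine Integrable.mono' ((H.sec_int hδ i t).const_mul A) ?_ ?_
  · exact (hφ.mul (H.cont.comp (ogb_ins_cont i t))).aestronglyMeasurable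
  · refine Eventually.of_forall fun y => ?_
    rw [norm_mul, Real.norm_eq_abs, Real.norm_eq_abs, abs_of_pos (H.pos _)]
    exact mul_le_mul_of_nonneg_right (hA y) (H.pos _).le

/-- Cauchy-Schwarz with a nonnegative weight -/
private lemma ogb_cs {φ w : Vn m → ℝ} (hw : ∀ y, 0 ≤ w y) (h1 : Integrable w)
    (h2 : Integrable fun y => φ y * w y) (h3 : Integrable fun y => φ y ^ 2 * w y) :
    (∫ y, φ y * w y) ^ 2 ≤ (∫ y, φ y ^ 2 * w y) * ∫ y, w y := by
  set W := ∫ y, w y with hW
  set I := ∫ y, φ y * w y with hI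
  have hW0 : 0 ≤ W := integral_nonneg hw
  have key : ∀ c : ℝ, 0 ≤ (∫ y, φ y ^ 2 * w y) - 2 * c * I + c ^ 2 * W := by
    intro c
    have e : ∫ y, (φ y - c) ^ 2 * w y = (∫ y, φ y ^ 2 * w y) - 2 * c * I + c ^ 2 * W := by
      have e1 : ∀ y, (φ y - c) ^ 2 * w y = φ y ^ 2 * w y - (2 * c) * (φ y * w y) + c ^ 2 * w y :=
        fun y => by ring
      have s1 : Integrable fun y => φ y ^ 2 * w y - (2 * c) * (φ y * w y) :=
        h3.sub (h2.const_mul _)
      simp only [e1]
      rw [integral_add s1 (h1.const_mul _),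
        integral_sub h3 (h2.const_mul _), integral_const_mul, integral_const_mul]
    rw [← e]
    exact integral_nonneg fun y => mul_nonneg (sq_nonneg _) (hw y)
  rcases hW0.eq_or_lt with h0 | h0
  · -- degenerate weight
    have hz : w =ᵐ[volume] 0 := (integral_eq_zero_iff_of_nonneg hw h1).1 (by rw [← hW, ← h0])
    have hI0 : I = 0 := by
      rw [hI, integral_eq_zero_of_ae]
      filter_upwards [hz] with y hy
      rw [hy]; simp
    rw [hI0, ← h0]; simp
  · have := key (I / W)
    have e : (∫ y, φ y ^ 2 * w y) - 2 * (I / W) * I + (I / W) ^ 2 * W =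
        ((∫ y, φ y ^ 2 * w y) * W - I ^ 2) / W := by
      field_simp
      ring
    rw [e] at this
    have h4 := (div_nonneg_iff.1 this).resolve_right (fun hh => absurd hh.2 (not_le.2 h0))
    linarith [h4.1]

private lemma ogb_point (H : SWt δ L h) (hδ : 0 < δ) (i : Fin (m + 1)) (hq : BL q) {t : ℝ}
    (ht : 0 ≤ t) :
    (∫ y : Vn m, q (ins i t y) * h (ins i t y)) ^ 2 / (∫ y : Vn m, h (ins i t y)) ≤
      (2 / 27) * (∫ y : Vn m, q (ins i t y) ^ 2 * h (ins i t y)) +
        2 * ∫ y : Vn m, q (ins i t y) ^ 2 * (h (ins i t y) - h (ins i (t + 6) y)) := by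
  obtain ⟨⟨K, hK⟩, A, hA⟩ := hq
  have hqc : Continuous fun y : Vn m => q (ins i t y) := hK.continuous.comp (ogb_ins_cont i t)
  have hqb : ∀ y : Vn m, |q (ins i t y)| ≤ A := fun y => hA _
  have hqc2 : Continuous fun y : Vn m => q (ins i t y) ^ 2 := hqc.pow 2
  have hqb2 : ∀ y : Vn m, |q (ins i t y) ^ 2| ≤ A ^ 2 := fun y => by
    rw [abs_pow]
    exact pow_le_pow_left₀ (abs_nonneg _) (hqb y) 2
  have i1 := ogb_sec H hδ i hqc hqb t
  have i2 := ogb_sec H hδ i hqc hqb (t + 6)
  have j1 := ogb_sec H hδ i hqc2 hqb2 t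
  have j2 := ogb_sec H hδ i hqc2 hqb2 (t + 6)
  have k1 := H.sec_int hδ i t
  have k2 := H.sec_int hδ i (t + 6)
  have hle : ∀ y : Vn m, h (ins i (t + 6) y) ≤ h (ins i t y) := fun y =>
    H.mono i (by rw [abs_of_nonneg ht, abs_of_nonneg (by linarith)]; linarith) y
  have c1 := ogb_cs (φ := fun y => q (ins i t y)) (w := fun y => h (ins i (t + 6) y))
    (fun y => (H.pos _).le) k2 i2 j2
  have c2 := ogb_cs (φ := fun y => q (ins i t y))
    (w := fun y => h (ins i t y) - h (ins i (t + 6) y))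
    (fun y => sub_nonneg.2 (hle y)) (k1.sub k2)
    ((i1.sub i2).congr (Eventually.of_forall fun y => by simp only [Pi.sub_apply]; ring))
    ((j1.sub j2).congr (Eventually.of_forall fun y => by simp only [Pi.sub_apply]; ring))
  have hsplit : ∫ y : Vn m, q (ins i t y) * h (ins i t y) =
      (∫ y : Vn m, q (ins i t y) * h (ins i (t + 6) y)) +
        ∫ y : Vn m, q (ins i t y) * (h (ins i t y) - h (ins i (t + 6) y)) := by
    rw [← integral_add i2
      ((i1.sub i2).congr (Eventually.of_forall fun y => by simp only [Pi.sub_apply]; ring))]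
    refine integral_congr_ae (Eventually.of_forall fun y => ?_)
    simp only
    ring
  have hn := ogb_mg_pos H hδ i t
  have hr := mg_ratio H hδ i ht
  have hn6 := ogb_mg_pos H hδ i (t + 6)
  have hV : ∫ y : Vn m, q (ins i t y) ^ 2 * h (ins i (t + 6) y) ≤
      ∫ y : Vn m, q (ins i t y) ^ 2 * h (ins i t y) :=
    integral_mono j2 j1 fun y => mul_le_mul_of_nonneg_left (hle y) (sq_nonneg _)
  have hV0 : 0 ≤ ∫ y : Vn m, q (ins i t y) ^ 2 * h (ins i (t + 6) y) :=
    integral_nonneg fun y => mul_nonneg (sq_nonneg _) (H.pos _).le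
  have hU0 : 0 ≤ ∫ y : Vn m, q (ins i t y) ^ 2 * (h (ins i t y) - h (ins i (t + 6) y)) :=
    integral_nonneg fun y => mul_nonneg (sq_nonneg _) (sub_nonneg.2 (hle y))
  have hW : ∫ y : Vn m, (h (ins i t y) - h (ins i (t + 6) y)) ≤ mg h i t := by
    rw [integral_sub k1 k2]
    unfold mg at hn6 ⊢
    linarith
  have e1 : ∫ y : Vn m, h (ins i t y) = mg h i t := rfl
  have e2 : ∫ y : Vn m, h (ins i (t + 6) y) = mg h i (t + 6) := rfl
  rw [e2] at c1
  rw [e1, div_le_iff₀ hn, hsplit]
  have c1' : (∫ y : Vn m, q (ins i t y) * h (ins i (t + 6) y)) ^ 2 ≤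
      (∫ y : Vn m, q (ins i t y) ^ 2 * h (ins i t y)) * ((1 / 27) * mg h i t) :=
    c1.trans (mul_le_mul hV hr hn6.le (hV0.trans hV))
  have c2' : (∫ y : Vn m, q (ins i t y) * (h (ins i t y) - h (ins i (t + 6) y))) ^ 2 ≤
      (∫ y : Vn m, q (ins i t y) ^ 2 * (h (ins i t y) - h (ins i (t + 6) y))) * mg h i t :=
    c2.trans (mul_le_mul_of_nonneg_left hW hU0)
  nlinarith [sq_nonneg ((∫ y : Vn m, q (ins i t y) * h (ins i (t + 6) y)) -
    ∫ y : Vn m, q (ins i t y) * (h (ins i t y) - h (ins i (t + 6) y)))]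

private lemma ogb_ray_int (H : SWt δ L h) (hδ : 0 < δ) (i : Fin (m + 1)) (y : Vn m) :
    Integrable fun t : ℝ => h (ins i t y) := by
  have hg : Integrable fun t : ℝ => h 0 * Real.exp (-(δ / 2) * t ^ 2) :=
    (integrable_exp_neg_mul_sq (by positivity)).const_mul _
  refine hg.mono' (H.cont.comp (ogb_ins_cont' i y)).aestronglyMeasurable
    (Eventually.of_forall fun t => ?_)
  rw [Real.norm_eq_abs, abs_of_pos (H.pos _)]
  refine (H.gauss _).trans ?_
  refine mul_le_mul_of_nonneg_left (Real.exp_le_exp.2 ?_) (H.pos _).le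
  rw [norm_ins]
  nlinarith [sq_nonneg ‖y‖, mul_nonneg hδ.le (sq_nonneg ‖y‖)]

/-- half of an integral over the whole space -/
private lemma ogb_half (i : Fin (m + 1)) {Φ : Vn (m + 1) → ℝ} (hΦ : Integrable Φ)
    (he : ∀ t y, Φ (ins i (-t) y) = Φ (ins i t y)) :
    ∫ y : Vn m, ∫ t in Ioi (0 : ℝ), Φ (ins i t y) = (1 / 2) * ∫ x, Φ x := by
  rw [ins_int' i hΦ, ← integral_const_mul]
  refine integral_congr_ae (Eventually.of_forall fun y => ?_)
  simp only
  have h1 : ∀ t : ℝ, Φ (ins i t y) = (fun t => Φ (ins i t y)) |t| := by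
    intro t
    rcases abs_cases t with ⟨ha, _⟩ | ⟨ha, _⟩ <;> simp only [ha, he]
  have h2 : ∫ t : ℝ, Φ (ins i t y) = 2 * ∫ t in Ioi (0 : ℝ), Φ (ins i t y) := by
    rw [integral_congr_ae (Eventually.of_forall h1)]
    exact integral_comp_abs (f := fun t => Φ (ins i t y))
  rw [h2]; ring

private lemma ogb_half_prod (i : Fin (m + 1)) {Φ : Vn (m + 1) → ℝ} (hΦ : Integrable Φ) :
    Integrable (fun p : ℝ × Vn m => Φ (ins i p.1 p.2))
      (((volume : Measure ℝ).restrict (Ioi 0)).prod (volume : Measure (Vn m))) := by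
  have h1 := ins_integrable i hΦ
  have h2 : ((volume : Measure ℝ).restrict (Ioi 0)).prod (volume : Measure (Vn m)) =
      ((volume : Measure ℝ).prod (volume : Measure (Vn m))).restrict (Ioi 0 ×ˢ univ) := by
    rw [← Measure.prod_restrict, Measure.restrict_univ]
  rw [h2]
  exact h1.restrict

lemma G_bound (H : SWt δ L h) (hδ : 0 < δ) (i : Fin (m + 1)) {q : Vn (m + 1) → ℝ} (hq : BL q)
    (hd : Differentiable ℝ q) (hdv : BL fun x => fderiv ℝ q x (ee i))
    (hodd : ∀ x, q (fl i x) = - q x) :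
    ∫ t : ℝ, (∫ y : Vn m, q (ins i t y) * h (ins i t y)) ^ 2 / ∫ y : Vn m, h (ins i t y) ≤
      (2 / 27 + 1 / 16) * (∫ x, q x ^ 2 * h x) + 2304 * aE h q i := by
  have hVi := ogb_q_int H hδ hq
  have hai : Integrable fun x => (fderiv ℝ q x (ee i)) ^ 2 * h x := ogb_q_int H hδ hdv
  have hqc : Continuous q := hq.1.choose_spec.continuous
  have hdc : Continuous fun x => fderiv ℝ q x (ee i) := hdv.1.choose_spec.continuous
  -- evenness of the derivative
  have hdev : ∀ (t : ℝ) (y : Vn m), fderiv ℝ q (ins i (-t) y) (ee i) =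
      fderiv ℝ q (ins i t y) (ee i) := by
    intro t y
    have h1 := hasDerivAt_ins i hd y t
    have h2 : HasDerivAt (fun t => q (ins i (-t) y)) (-(fderiv ℝ q (ins i (-t) y) (ee i))) t := by
      have h3 := (hasDerivAt_ins i hd y (-t)).comp t (hasDerivAt_neg t)
      refine h3.congr_deriv ?_
      ring
    have h4 : (fun t => q (ins i (-t) y)) = fun t => -q (ins i t y) := by
      funext t
      exact ogb_odd i hodd t y
    rw [h4] at h2
    have h5 := h1.neg.unique h2
    linarith
  have hVhalf : ∫ y : Vn m, ∫ t in Ioi (0 : ℝ), q (ins i t y) ^ 2 * h (ins i t y) =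
      (1 / 2) * ∫ x, q x ^ 2 * h x :=
    ogb_half i hVi fun t y => by rw [ogb_odd i hodd, ogb_heven H]; ring
  have hahalf : ∫ y : Vn m, ∫ t in Ioi (0 : ℝ), (fderiv ℝ q (ins i t y) (ee i)) ^ 2 *
      h (ins i t y) = (1 / 2) * aE h q i :=
    ogb_half i hai fun t y => by rw [hdev, ogb_heven H]
  have hVp := ogb_half_prod i hVi
  have hap := ogb_half_prod i hai
  -- the displaced weight
  have hUp : Integrable (fun p : ℝ × Vn m => q (ins i p.1 p.2) ^ 2 *
      (h (ins i p.1 p.2) - h (ins i (p.1 + 6) p.2)))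
      (((volume : Measure ℝ).restrict (Ioi 0)).prod (volume : Measure (Vn m))) := by
    refine hVp.mono' ?_ ?_
    · have c1 : Continuous fun p : ℝ × Vn m => ins i p.1 p.2 := ins_cont i
      have c2 : Continuous fun p : ℝ × Vn m => ins i (p.1 + 6) p.2 :=
        (ins_cont i).comp ((continuous_fst.add continuous_const).prodMk continuous_snd)
      exact (((hqc.comp c1).pow 2).mul ((H.cont.comp c1).sub
        (H.cont.comp c2))).aestronglyMeasurable
    · have h2 : ((volume : Measure ℝ).restrict (Ioi 0)).prod (volume : Measure (Vn m)) =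
          ((volume : Measure ℝ).prod (volume : Measure (Vn m))).restrict (Ioi 0 ×ˢ univ) := by
        rw [← Measure.prod_restrict, Measure.restrict_univ]
      rw [h2]
      refine (ae_restrict_iff' (measurableSet_Ioi.prod MeasurableSet.univ)).2
        (Eventually.of_forall ?_)
      rintro ⟨t, y⟩ ⟨ht, _⟩
      have ht' : 0 < t := ht
      have hle : h (ins i (t + 6) y) ≤ h (ins i t y) :=
        H.mono i (by rw [abs_of_pos ht', abs_of_pos (by linarith)]; linarith) y
      have hp := H.pos (ins i (t + 6) y)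
      simp only
      rw [Real.norm_of_nonneg (mul_nonneg (sq_nonneg _) (sub_nonneg.2 hle))]
      exact mul_le_mul_of_nonneg_left (by linarith) (sq_nonneg _)
  -- evenness of the integrand
  have hG : ∀ t : ℝ, (∫ y : Vn m, q (ins i t y) * h (ins i t y)) ^ 2 / (∫ y : Vn m, h (ins i t y)) =
      (fun t => (∫ y : Vn m, q (ins i t y) * h (ins i t y)) ^ 2 /
        (∫ y : Vn m, h (ins i t y))) |t| := by
    intro t
    rcases abs_cases t with ⟨ha, _⟩ | ⟨ha, _⟩
    · simp only [ha]
    · simp only [ha, ogb_odd i hodd, ogb_heven H, neg_mul, integral_neg, neg_sq]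
  rw [integral_congr_ae (Eventually.of_forall hG), integral_comp_abs
    (f := fun t => (∫ y : Vn m, q (ins i t y) * h (ins i t y)) ^ 2 / (∫ y : Vn m, h (ins i t y)))]
  -- first step
  have hVt : Integrable (fun t : ℝ => ∫ y : Vn m, q (ins i t y) ^ 2 * h (ins i t y))
      ((volume : Measure ℝ).restrict (Ioi 0)) := hVp.integral_prod_left
  have hUt : Integrable (fun t : ℝ => ∫ y : Vn m, q (ins i t y) ^ 2 *
      (h (ins i t y) - h (ins i (t + 6) y))) ((volume : Measure ℝ).restrict (Ioi 0)) :=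
    hUp.integral_prod_left
  have step1 : ∫ t in Ioi (0 : ℝ), (∫ y : Vn m, q (ins i t y) * h (ins i t y)) ^ 2 /
      (∫ y : Vn m, h (ins i t y)) ≤
      (2 / 27) * (∫ t in Ioi (0 : ℝ), ∫ y : Vn m, q (ins i t y) ^ 2 * h (ins i t y)) +
        2 * ∫ t in Ioi (0 : ℝ), ∫ y : Vn m, q (ins i t y) ^ 2 *
          (h (ins i t y) - h (ins i (t + 6) y)) := by
    rw [← integral_const_mul, ← integral_const_mul,
      ← integral_add (hVt.const_mul _) (hUt.const_mul _)]
    refine integral_mono_of_nonneg (Eventually.of_forall fun t => ?_)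
      ((hVt.const_mul _).add (hUt.const_mul _)) ?_
    · exact div_nonneg (sq_nonneg _) (ogb_mg_pos H hδ i t).le
    · refine (ae_restrict_iff' measurableSet_Ioi).2 (Eventually.of_forall fun t ht => ?_)
      exact ogb_point H hδ i hq (le_of_lt ht)
  -- second step
  have sV : ∫ t in Ioi (0 : ℝ), ∫ y : Vn m, q (ins i t y) ^ 2 * h (ins i t y) =
      (1 / 2) * ∫ x, q x ^ 2 * h x := by
    rw [← hVhalf]
    exact integral_integral_swap hVp
  have sU : ∫ t in Ioi (0 : ℝ), ∫ y : Vn m, q (ins i t y) ^ 2 *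
      (h (ins i t y) - h (ins i (t + 6) y)) ≤ 576 * aE h q i + (1 / 64) * ∫ x, q x ^ 2 * h x := by
    rw [integral_integral_swap hUp]
    have hyV : Integrable (fun y : Vn m => ∫ t in Ioi (0 : ℝ), q (ins i t y) ^ 2 *
        h (ins i t y)) := hVp.integral_prod_right
    have hya : Integrable (fun y : Vn m => ∫ t in Ioi (0 : ℝ),
        (fderiv ℝ q (ins i t y) (ee i)) ^ 2 * h (ins i t y)) := hap.integral_prod_right
    have hyU : Integrable (fun y : Vn m => ∫ t in Ioi (0 : ℝ), q (ins i t y) ^ 2 *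
        (h (ins i t y) - h (ins i (t + 6) y))) := hUp.integral_prod_right
    have hmono := integral_mono hyU ((hya.const_mul 1152).add (hyV.const_mul (1 / 32)))
      (fun y => by
        have hdis := displacement (u := fun t => q (ins i t y))
          (u' := fun t => fderiv ℝ q (ins i t y) (ee i)) (ρ := fun t => h (ins i t y))
          (fun t => hasDerivAt_ins i hd y t) (hdc.comp (ogb_ins_cont' i y))
          (by
            have := ogb_odd i hodd 0 y
            rw [neg_zero] at this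
            linarith)
          (H.cont.comp (ogb_ins_cont' i y)) (fun t => (H.pos _).le)
          (fun s t hst => H.mono i hst y) (A := hq.2.choose) (A' := hdv.2.choose)
          (fun t => hq.2.choose_spec _) (fun t => hdv.2.choose_spec _) (ogb_ray_int H hδ i y)
          (l := 6) (α := 1 / 64) (by norm_num) (by norm_num)
        simp only [Pi.add_apply]
        norm_num at hdis ⊢
        linarith)
    simp only [Pi.add_apply] at hmono
    rw [integral_add (hya.const_mul 1152) (hyV.const_mul (1 / 32)), integral_const_mul,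
      integral_const_mul, hVhalf, hahalf] at hmono
    linarith
  rw [sV] at step1
  linarith

end Gb

end Pool.Agent.Lib.MP_8d00da_gt.h42o
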