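import Mathlib
import Pool.Agent.Lib.MP_8d00da_gt.h42o.ODefs
import Pool.Agent.Lib.MP_8d00da_gt.h25.Chain

/-!
# Theorem O: the mean of the partial derivative of a near extremal function
-/

namespace Pool.Agent.Lib.MP_8d00da_gt.h42o

open MeasureTheory Set Filter
open Pool.Agent.Lib.MP_8d00da_gt.h25 Pool.Agent.Lib.MP_8d00da_gt.h42
open Pool.Agent.Lib.MP_8d00da_gt.h42s
open scoped Topology NNReal

variable {m : ℕ}

private lemma psi_deriv {M : ℝ} (hM : 0 < M) (t : ℝ) :
    HasDerivAt (fun t => M * Real.arctan (t / M)) (1 / (1 + (t / M) ^ 2)) t := by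
  have h1 : HasDerivAt (fun t : ℝ => t / M) (1 / M) t := (hasDerivAt_id t).div_const M
  have h2 := ((Real.hasDerivAt_arctan (t / M)).comp t h1).const_mul M
  refine h2.congr_deriv ?_
  field_simp

private lemma psi_p_nonneg (M t : ℝ) : 0 ≤ 1 / (1 + (t / M) ^ 2) := by positivity

private lemma psi_p_le (M t : ℝ) : 1 / (1 + (t / M) ^ 2) ≤ 1 := by
  rw [div_le_one (by positivity)]
  nlinarith [sq_nonneg (t / M)]

private lemma psi_lip {M : ℝ} (hM : 0 < M) :
    LipschitzWith 1 (fun t => M * Real.arctan (t / M)) := by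
  refine lipschitzWith_of_nnnorm_deriv_le (fun t => (psi_deriv hM t).differentiableAt) fun t => ?_
  rw [(psi_deriv hM t).deriv, ← NNReal.coe_le_coe, coe_nnnorm, Real.norm_eq_abs,
    abs_of_nonneg (psi_p_nonneg M t)]
  exact psi_p_le M t

private lemma psi_abs {M : ℝ} (hM : 0 < M) (t : ℝ) : |M * Real.arctan (t / M)| ≤ |t| := by
  have h := (psi_lip hM).dist_le_mul t 0
  simpa [Real.dist_eq] using h

private lemma psi_BL {M : ℝ} (hM : 0 < M) : BL (fun t => M * Real.arctan (t / M)) := by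
  refine ⟨⟨1, psi_lip hM⟩, M * (Real.pi / 2), fun t => ?_⟩
  rw [abs_mul, abs_of_pos hM]
  refine mul_le_mul_of_nonneg_left ?_ hM.le
  rw [abs_le]
  exact ⟨by linarith [Real.neg_pi_div_two_lt_arctan (t / M)], (Real.arctan_lt_pi_div_two _).le⟩

private lemma coord_lip (i : Fin m) : LipschitzWith 1 (fun x : Vn m => x i) := by
  refine LipschitzWith.of_dist_le_mul fun x y => ?_
  rw [Real.dist_eq, dist_eq_norm, NNReal.coe_one, one_mul]
  have := PiLp.norm_apply_le (x - y) i
  rwa [Real.norm_eq_abs] at this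

private lemma w_BL {M : ℝ} (hM : 0 < M) (i : Fin m) :
    BL (fun x : Vn m => M * Real.arctan (x i / M)) :=
  (psi_BL hM).comp (coord_lip i)

private lemma BL_smul {f : Vn m → ℝ} (hf : BL f) (s : ℝ) : BL (fun x => s * f x) :=
  (BL.const s).mul hf

private lemma BL_meas {f : Vn m → ℝ} (hf : BL f) : Measurable f := by
  obtain ⟨⟨L, hL⟩, -⟩ := hf
  exact hL.continuous.measurable

private lemma w_fderiv {M : ℝ} (hM : 0 < M) (i : Fin m) (x : Vn m) :
    HasFDerivAt (fun x : Vn m => M * Real.arctan (x i / M))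
      ((1 / (1 + (x i / M) ^ 2)) • (EuclideanSpace.proj i : Vn m →L[ℝ] ℝ)) x := by
  have h1 : HasFDerivAt (fun x : Vn m => x i) (EuclideanSpace.proj i : Vn m →L[ℝ] ℝ) x :=
    (EuclideanSpace.proj i : Vn m →L[ℝ] ℝ).hasFDerivAt
  exact HasDerivAt.comp_hasFDerivAt (h₂ := fun t => M * Real.arctan (t / M))
    (f := fun x : Vn m => x i) x (psi_deriv hM (x i)) h1

private lemma norm_add_proj (D : Vn m →L[ℝ] ℝ) (c : ℝ) (i : Fin m) :
    ‖D + c • (EuclideanSpace.proj i : Vn m →L[ℝ] ℝ)‖ ^ 2 = ‖D‖ ^ 2 + 2 * c * D (ee i) + c ^ 2 := by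
  have b := EuclideanSpace.basisFun (Fin m) ℝ
  rw [norm_sq_fderiv (EuclideanSpace.basisFun (Fin m) ℝ),
    norm_sq_fderiv (EuclideanSpace.basisFun (Fin m) ℝ)]
  have e : ∀ j : Fin m, (EuclideanSpace.basisFun (Fin m) ℝ) j = ee j := fun j => by
    rw [EuclideanSpace.basisFun_apply, ee]
  have h1 : ∀ j : Fin m, ((D + c • (EuclideanSpace.proj i : Vn m →L[ℝ] ℝ))
      ((EuclideanSpace.basisFun (Fin m) ℝ) j)) ^ 2 =
      (D ((EuclideanSpace.basisFun (Fin m) ℝ) j)) ^ 2 +
        if i = j then 2 * c * D (ee i) + c ^ 2 else 0 := by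
    intro j
    rw [e j]
    have h2 : (EuclideanSpace.proj i : Vn m →L[ℝ] ℝ) (ee j) = if i = j then (1 : ℝ) else 0 :=
      ee_apply j i
    rw [add_apply, smul_apply, h2]
    split_ifs with hij
    · subst hij
      simp only [smul_eq_mul]
      ring
    · simp
  rw [Finset.sum_congr rfl fun j _ => h1 j, Finset.sum_add_distrib, Finset.sum_ite_eq]
  simp only [Finset.mem_univ, if_true]
  ring

private lemma step {h : Vn m → ℝ} (hh : ∀ x, 0 ≤ h x) (hi : Integrable h)
    (i : Fin m) (hi2 : Integrable fun x : Vn m => (x i) ^ 2 * h x)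
    (hmom : ∫ x, (x i) ^ 2 * h x ≤ ∫ x, h x) {q : Vn m → ℝ} (hq : BL q)
    (hd : Differentiable ℝ q) (hodd : ∀ x, q (fl i x) = - q x)
    (hev : ∀ j, j ≠ i → ∀ x, q (fl j x) = q x) {lam ε : ℝ} (hlam : 0 < lam)
    (hP : ∀ u : Vn m → ℝ, BL u → Par {i} u → lam * ∫ x, u x ^ 2 * h x ≤ En h u)
    (hnear : (1 - ε) * En h q ≤ lam * ∫ x, q x ^ 2 * h x) {M : ℝ} (hM : 0 < M) :
    (∫ x, fderiv ℝ q x (ee i) * (1 / (1 + (x i / M) ^ 2)) * h x) ^ 2 ≤
      2 * (lam + ε) * En h q * ∫ x, h x := by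
  set w : Vn m → ℝ := fun x => M * Real.arctan (x i / M) with hw
  set p : Vn m → ℝ := fun x => 1 / (1 + (x i / M) ^ 2) with hp
  have hwB : BL w := w_BL hM i
  have hwm : Measurable w := BL_meas hwB
  have hqm : Measurable q := BL_meas hq
  have hpm : Measurable p := by
    have : Measurable fun x : Vn m => x i := (coord_lip i).continuous.measurable
    rw [hp]
    fun_prop
  have hp0 : ∀ x, 0 ≤ p x := fun x => psi_p_nonneg M (x i)
  have hp1 : ∀ x, p x ≤ 1 := fun x => psi_p_le M (x i)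
  obtain ⟨⟨K, hK⟩, A, hA⟩ := id hq
  obtain ⟨-, A', hA'⟩ := id hwB
  have hdm : Measurable (fderiv ℝ q) := measurable_fderiv ℝ q
  have hdi : ∀ x, |fderiv ℝ q x (ee i)| ≤ K := by
    intro x
    have h1 := (fderiv ℝ q x).le_opNorm (ee i)
    have h2 : ‖(ee i : Vn m)‖ = 1 := by
      rw [ee, PiLp.norm_single]
      simp
    rw [h2, mul_one, Real.norm_eq_abs] at h1
    exact h1.trans (norm_fderiv_le_of_lipschitz ℝ hK)
  have hdim : Measurable fun x => fderiv ℝ q x (ee i) := measurable_fderiv_apply_const ℝ q (ee i)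
  -- integrability
  have iQ2 : Integrable fun x => q x ^ 2 * h x := bdd_int hi (hqm.pow_const 2) (M := A ^ 2)
    fun x => by
      rw [abs_of_nonneg (sq_nonneg _), ← sq_abs (q x)]
      exact pow_le_pow_left₀ (abs_nonneg _) (hA x) 2
  have iW2 : Integrable fun x => w x ^ 2 * h x := bdd_int hi (hwm.pow_const 2) (M := A' ^ 2)
    fun x => by
      rw [abs_of_nonneg (sq_nonneg _), ← sq_abs (w x)]
      exact pow_le_pow_left₀ (abs_nonneg _) (hA' x) 2
  have iQW : Integrable fun x => (q x * w x) * h x := bdd_int hi (hqm.mul hwm) (M := A * A')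
    fun x => by
      rw [abs_mul]
      exact mul_le_mul (hA x) (hA' x) (abs_nonneg _) ((abs_nonneg _).trans (hA x))
  have iE : Integrable fun x => ‖fderiv ℝ q x‖ ^ 2 * h x :=
    bdd_int hi (hdm.norm.pow_const 2) (sq_fderiv_bdd hK)
  have iX : Integrable fun x => fderiv ℝ q x (ee i) * p x * h x :=
    bdd_int hi (hdim.mul hpm) (M := K * 1) fun x => by
      rw [abs_mul, abs_of_nonneg (hp0 x)]
      exact mul_le_mul (hdi x) (hp1 x) (hp0 x) K.2
  have iP2 : Integrable fun x => p x ^ 2 * h x := bdd_int hi (hpm.pow_const 2) (M := 1)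
    fun x => by
      rw [abs_of_nonneg (sq_nonneg _)]
      exact pow_le_one₀ (hp0 x) (hp1 x)
  set E := En h q with hE
  set N := ∫ x, h x with hN
  set X := ∫ x, fderiv ℝ q x (ee i) * p x * h x with hX
  set Q2 := ∫ x, q x ^ 2 * h x with hQ2
  set W2 := ∫ x, w x ^ 2 * h x with hW2
  set QW := ∫ x, (q x * w x) * h x with hQW
  set P2 := ∫ x, p x ^ 2 * h x with hP2
  have hN0 : 0 ≤ N := integral_nonneg hh
  have hE0 : 0 ≤ E := integral_nonneg fun x => mul_nonneg (sq_nonneg _) (hh x)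
  have hW20 : 0 ≤ W2 := integral_nonneg fun x => mul_nonneg (sq_nonneg _) (hh x)
  have hP2N : P2 ≤ N := by
    refine integral_mono iP2 hi fun x => ?_
    have : p x ^ 2 ≤ 1 := pow_le_one₀ (hp0 x) (hp1 x)
    have := mul_le_mul_of_nonneg_right this (hh x)
    simpa using this
  have hW2N : W2 ≤ N := by
    refine le_trans (integral_mono iW2 hi2 fun x => ?_) hmom
    refine mul_le_mul_of_nonneg_right ?_ (hh x)
    rw [← sq_abs (w x), ← sq_abs (x i)]
    exact pow_le_pow_left₀ (abs_nonneg _) (psi_abs hM (x i)) 2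
  -- expansion of the energy
  have hen : ∀ s : ℝ, En h (fun x => q x + s * w x) = E + 2 * s * X + s ^ 2 * P2 := by
    intro s
    have hpt : ∀ x, ‖fderiv ℝ (fun x => q x + s * w x) x‖ ^ 2 * h x =
        ‖fderiv ℝ q x‖ ^ 2 * h x + (2 * s) * (fderiv ℝ q x (ee i) * p x * h x) +
          s ^ 2 * (p x ^ 2 * h x) := by
      intro x
      have h1 : HasFDerivAt (fun x => q x + s * w x)
          (fderiv ℝ q x + s • (p x • (EuclideanSpace.proj i : Vn m →L[ℝ] ℝ))) x :=
        (hd x).hasFDerivAt.add ((w_fderiv hM i x).const_mul s)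
      rw [h1.fderiv, smul_smul, norm_add_proj]
      ring
    unfold En
    rw [integral_congr_ae (Eventually.of_forall hpt),
      integral_add (f := fun x => ‖fderiv ℝ q x‖ ^ 2 * h x +
        (2 * s) * (fderiv ℝ q x (ee i) * p x * h x)) (iE.add (iX.const_mul _)) (iP2.const_mul _),
      integral_add iE (iX.const_mul _), integral_const_mul, integral_const_mul]
    rfl
  have hsq : ∀ s : ℝ, ∫ x, (q x + s * w x) ^ 2 * h x = Q2 + 2 * s * QW + s ^ 2 * W2 := by
    intro s
    have hpt : ∀ x, (q x + s * w x) ^ 2 * h x =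
        q x ^ 2 * h x + (2 * s) * ((q x * w x) * h x) + s ^ 2 * (w x ^ 2 * h x) := by
      intro x
      ring
    rw [integral_congr_ae (Eventually.of_forall hpt),
      integral_add (f := fun x => q x ^ 2 * h x + (2 * s) * ((q x * w x) * h x))
        (iQ2.add (iQW.const_mul _)) (iW2.const_mul _),
      integral_add iQ2 (iQW.const_mul _), integral_const_mul, integral_const_mul]
  have hpar : ∀ s : ℝ, Par {i} (fun x => q x + s * w x) := by
    intro s
    refine ⟨?_, ?_⟩
    · intro j hj x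
      rw [Finset.mem_singleton] at hj
      subst hj
      have : w (fl j x) = - w x := by
        simp only [hw]
        rw [fl_apply, if_pos rfl, neg_div, Real.arctan_neg]
        ring
      simp only
      rw [hodd, this]
      ring
    · intro j hj x
      rw [Finset.mem_singleton] at hj
      have : w (fl j x) = w x := by
        simp only [hw]
        rw [fl_apply, if_neg (fun h => hj h.symm)]
      simp only
      rw [hev j hj, this]
  have hquad : ∀ s : ℝ, 0 ≤ (P2 - lam * W2) * (s * s) + (2 * (X - lam * QW)) * s +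
      (E - lam * Q2) := by
    intro s
    have h1 := hP (fun x => q x + s * w x) (hq.add (BL_smul hwB s)) (hpar s)
    rw [hen s, hsq s] at h1
    nlinarith
  have hdis := discrim_le_zero hquad
  unfold discrim at hdis
  have hB0 : 0 ≤ E - lam * Q2 := by
    have := hquad 0
    simpa using this
  have hB1 : E - lam * Q2 ≤ ε * E := by linarith
  have hC1 : P2 - lam * W2 ≤ N := by nlinarith
  have h1 : (X - lam * QW) ^ 2 ≤ ε * E * N := by
    have h2 : (P2 - lam * W2) * (E - lam * Q2) ≤ N * (ε * E) :=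
      (mul_le_mul_of_nonneg_right hC1 hB0).trans (mul_le_mul_of_nonneg_left hB1 hN0)
    nlinarith
  have hcs : ∀ s : ℝ, 0 ≤ W2 * (s * s) + (2 * QW) * s + Q2 := by
    intro s
    have h2 : 0 ≤ ∫ x, (q x + s * w x) ^ 2 * h x :=
      integral_nonneg fun x => mul_nonneg (sq_nonneg _) (hh x)
    rw [hsq s] at h2
    nlinarith
  have hcs' := discrim_le_zero hcs
  unfold discrim at hcs'
  have h3 : QW ^ 2 ≤ W2 * Q2 := by nlinarith
  have h4 : (lam * QW) ^ 2 ≤ lam * E * N := by
    have h5 : lam * Q2 ≤ E := by linarith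
    calc (lam * QW) ^ 2 = lam * (lam * QW ^ 2) := by ring
      _ ≤ lam * (lam * (W2 * Q2)) := by gcongr
      _ = lam * (W2 * (lam * Q2)) := by ring
      _ ≤ lam * (W2 * E) := by gcongr
      _ ≤ lam * (N * E) := by gcongr
      _ = lam * E * N := by ring
  have h6 : X ^ 2 ≤ 2 * (X - lam * QW) ^ 2 + 2 * (lam * QW) ^ 2 := by
    nlinarith [sq_nonneg (X - lam * QW - lam * QW)]
  nlinarith

section Aux

variable {δ L : ℝ} {h : Vn m → ℝ}

private lemma aux_pos (H : SWt δ L h) (x : Vn m) : 0 < h x := by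
  obtain ⟨W, hW, -⟩ := H.reg
  rw [hW]
  exact Real.exp_pos _

private lemma aux_cont (H : SWt δ L h) : Continuous h := by
  obtain ⟨W, hW, hd, -⟩ := H.reg
  have : h = fun x => Real.exp (-W x) := funext hW
  rw [this]
  exact Real.continuous_exp.comp hd.continuous.neg

private lemma aux_flips (H : SWt δ L h) (s : Finset (Fin m)) : ∀ x y : Vn m,
    (∀ j, y j = if j ∈ s then - x j else x j) → h y = h x := by
  induction s using Finset.induction_on with
  | empty =>
    intro x y hxy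
    congr 1
    ext j
    simpa using hxy j
  | insert a s ha ih =>
    intro x y hxy
    rw [← H.even a y]
    refine ih x _ fun j => ?_
    rw [fl_apply, hxy j]
    by_cases hja : j = a
    · subst hja
      simp [ha]
    · simp [hja]

private lemma aux_neg (H : SWt δ L h) (x : Vn m) : h (-x) = h x :=
  aux_flips H Finset.univ x (-x) fun j => by simp

private lemma aux_gauss (H : SWt δ L h) (x : Vn m) :
    h x ≤ h 0 * Real.exp (-(δ * ‖x‖ ^ 2 / 2)) := by
  have h1 := H.smid x (-x)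
  rw [aux_neg H, add_neg_cancel, smul_zero, sub_neg_eq_add, ← two_smul ℝ x, norm_smul] at h1
  have h2 : (h x) ^ 2 ≤ (h 0 * Real.exp (-(δ * ‖x‖ ^ 2 / 2))) ^ 2 := by
    have e1 : Real.exp (δ * (‖(2 : ℝ)‖ * ‖x‖) ^ 2 / 4) * Real.exp (-(δ * ‖x‖ ^ 2 / 2)) ^ 2 = 1 := by
      rw [← Real.exp_nat_mul, ← Real.exp_add, Real.norm_eq_abs, abs_of_pos (by norm_num : (0:ℝ) < 2)]
      rw [Real.exp_eq_one_iff]
      push_cast
      ring
    calc (h x) ^ 2 = (h x * h x * Real.exp (δ * (‖(2 : ℝ)‖ * ‖x‖) ^ 2 / 4)) *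
          Real.exp (-(δ * ‖x‖ ^ 2 / 2)) ^ 2 := by
          rw [mul_assoc (h x * h x), e1]
          ring
      _ ≤ h 0 ^ 2 * Real.exp (-(δ * ‖x‖ ^ 2 / 2)) ^ 2 :=
          mul_le_mul_of_nonneg_right h1 (by positivity)
      _ = _ := by ring
  exact (pow_le_pow_iff_left₀ (aux_pos H x).le
    (mul_nonneg (aux_pos H 0).le (Real.exp_pos _).le) (by norm_num)).1 h2

private lemma aux_int (H : SWt δ L h) (hδ : 0 < δ) : Integrable h := by
  have h1 : Integrable fun x : Vn m => h 0 * (h25.ker (1 / δ) x) :=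
    (ker_integrable (F := Vn m) (η := 1 / δ) (by positivity)).const_mul _
  refine h1.mono' (aux_cont H).aestronglyMeasurable (Eventually.of_forall fun x => ?_)
  rw [Real.norm_eq_abs, abs_of_pos (aux_pos H x)]
  refine (aux_gauss H x).trans (le_of_eq ?_)
  unfold h25.ker
  congr 3
  field_simp

private lemma aux_int2 (H : SWt δ L h) (hδ : 0 < δ) (i : Fin m) :
    Integrable fun x : Vn m => (x i) ^ 2 * h x := by
  have hcm : Measurable fun x : Vn m => x i := (coord_lip i).continuous.measurable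
  have h1 : Integrable fun x : Vn m => (h 0 * (4 / δ)) * (h25.ker (2 / δ) x) :=
    (ker_integrable (F := Vn m) (η := 2 / δ) (by positivity)).const_mul _
  refine h1.mono' ((hcm.pow_const 2).mul (aux_cont H).measurable).aestronglyMeasurable
    (Eventually.of_forall fun x => ?_)
  have hci : |x i| ≤ ‖x‖ := by
    have := PiLp.norm_apply_le x i
    rwa [Real.norm_eq_abs] at this
  have h2 : (x i) ^ 2 ≤ ‖x‖ ^ 2 := by
    rw [← sq_abs (x i)]
    exact pow_le_pow_left₀ (abs_nonneg _) hci 2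
  have h0 := aux_pos H 0
  rw [Real.norm_eq_abs, abs_of_nonneg (mul_nonneg (sq_nonneg _) (aux_pos H x).le)]
  calc (x i) ^ 2 * h x ≤ ‖x‖ ^ 2 * (h 0 * Real.exp (-(δ * ‖x‖ ^ 2 / 2))) :=
        mul_le_mul h2 (aux_gauss H x) (aux_pos H x).le (sq_nonneg _)
    _ = h 0 * (4 / δ) * ((δ * ‖x‖ ^ 2 / 4) * Real.exp (-(δ * ‖x‖ ^ 2 / 4))) *
        Real.exp (-(δ * ‖x‖ ^ 2 / 4)) := by
        have : Real.exp (-(δ * ‖x‖ ^ 2 / 2)) = Real.exp (-(δ * ‖x‖ ^ 2 / 4)) *
            Real.exp (-(δ * ‖x‖ ^ 2 / 4)) := by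
          rw [← Real.exp_add]
          congr 1
          ring
        rw [this]
        field_simp
    _ ≤ h 0 * (4 / δ) * 1 * Real.exp (-(δ * ‖x‖ ^ 2 / 4)) := by
        have h3 : (δ * ‖x‖ ^ 2 / 4) * Real.exp (-(δ * ‖x‖ ^ 2 / 4)) ≤ 1 := by
          rw [Real.exp_neg, ← div_eq_mul_inv, div_le_one (Real.exp_pos _)]
          have := Real.add_one_le_exp (δ * ‖x‖ ^ 2 / 4)
          linarith
        gcongr
    _ = _ := by
        unfold h25.ker
        rw [mul_one]
        congr 3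
        field_simp
        norm_num

end Aux

section O6

variable {δ L : ℝ} {h : Vn m → ℝ}

lemma mean_bound (H : SWt δ L h) (hδ : 0 < δ) (i : Fin m) {q : Vn m → ℝ} (hq : BL q)
    (hd : Differentiable ℝ q) (hodd : ∀ x, q (fl i x) = - q x)
    (hev : ∀ j, j ≠ i → ∀ x, q (fl j x) = q x) {lam ε : ℝ} (hlam : 0 < lam) (hε : 0 ≤ ε)
    (hP : ∀ u : Vn m → ℝ, BL u → Par {i} u → lam * ∫ x, u x ^ 2 * h x ≤ En h u)
    (hnear : (1 - ε) * En h q ≤ lam * ∫ x, q x ^ 2 * h x) :
    (∫ x, fderiv ℝ q x (ee i) * h x) ^ 2 ≤ 2 * (lam + ε) * En h q * ∫ x, h x := by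
  have hh : ∀ x, 0 ≤ h x := fun x => (aux_pos H x).le
  have hi := aux_int H hδ
  have hcm : Measurable fun x : Vn m => x i := (coord_lip i).continuous.measurable
  have hi2 := aux_int2 H hδ i
  obtain ⟨⟨K, hK⟩, -⟩ := id hq
  have hdi : ∀ x, |fderiv ℝ q x (ee i)| ≤ K := by
    intro x
    have h1 := (fderiv ℝ q x).le_opNorm (ee i)
    have h2 : ‖(ee i : Vn m)‖ = 1 := by
      rw [ee, PiLp.norm_single]
      simp
    rw [h2, mul_one, Real.norm_eq_abs] at h1
    exact h1.trans (norm_fderiv_le_of_lipschitz ℝ hK)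
  have hdim : Measurable fun x => fderiv ℝ q x (ee i) := measurable_fderiv_apply_const ℝ q (ee i)
  have hlim : Tendsto (fun k : ℕ => ∫ x, fderiv ℝ q x (ee i) *
      (1 / (1 + (x i / ((k : ℝ) + 1)) ^ 2)) * h x) atTop (𝓝 (∫ x, fderiv ℝ q x (ee i) * h x)) := by
    refine tendsto_integral_of_dominated_convergence (fun x => K * h x) ?_ (hi.const_mul _) ?_ ?_
    · intro k
      refine Measurable.aestronglyMeasurable ?_ |>.mul hi.aestronglyMeasurable
      fun_prop
    · intro k
      refine Eventually.of_forall fun x => ?_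
      rw [Real.norm_eq_abs, abs_mul, abs_mul, abs_of_nonneg (hh x),
        abs_of_nonneg (psi_p_nonneg _ (x i))]
      refine mul_le_mul_of_nonneg_right ?_ (hh x)
      calc _ ≤ (K : ℝ) * 1 := mul_le_mul (hdi x) (psi_p_le _ _) (psi_p_nonneg _ _) K.2
        _ = K := mul_one _
    · refine Eventually.of_forall fun x => ?_
      have h1 : Tendsto (fun k : ℕ => x i / ((k : ℝ) + 1)) atTop (𝓝 0) :=
        tendsto_const_nhds.div_atTop (tendsto_natCast_atTop_atTop.atTop_add tendsto_const_nhds)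
      have h2 : Tendsto (fun k : ℕ => 1 / (1 + (x i / ((k : ℝ) + 1)) ^ 2)) atTop (𝓝 1) := by
        have h3 : Tendsto (fun k : ℕ => 1 / (1 + (x i / ((k : ℝ) + 1)) ^ 2)) atTop
            (𝓝 (1 / (1 + 0 ^ 2))) :=
          Tendsto.div tendsto_const_nhds (tendsto_const_nhds.add (h1.pow 2)) (by norm_num)
        have e : (1 : ℝ) / (1 + 0 ^ 2) = 1 := by norm_num
        rwa [e] at h3
      have h4 := (h2.const_mul (fderiv ℝ q x (ee i))).mul_const (h x)
      simpa using h4
  refine le_of_tendsto (hlim.pow 2) (Eventually.of_forall fun k => ?_)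
  exact step hh hi i hi2 (H.mom i) hq hd hodd hev hlam hP hnear
    (M := (k : ℝ) + 1) (by positivity)

end O6

end Pool.Agent.Lib.MP_8d00da_gt.h42o
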