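import Mathlib
import Pool.Agent.Lib.MP_8d00da_gt.h42o.ODefs
import Pool.Agent.Lib.MP_8d00da_gt.h42s.Parity

/-!
# Parity classes of functions
-/

namespace Pool.Agent.Lib.MP_8d00da_gt.h42o

open MeasureTheory Set Filter
open Pool.Agent.Lib.MP_8d00da_gt.h25 Pool.Agent.Lib.MP_8d00da_gt.h42
open Pool.Agent.Lib.MP_8d00da_gt.h42s
open scoped Topology NNReal

variable {F : Type*} [NormedAddCommGroup F] [InnerProductSpace ℝ F]
    [FiniteDimensional ℝ F] [MeasurableSpace F] [BorelSpace F] {m : ℕ}

variable {h q : Vn m → ℝ} {η : ℝ} {S : Finset (Fin m)}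

/-- Smoothing of a function with a parity. -/
lemma opar_cv {φ : F → ℝ} {η : ℝ} (T : F ≃ₗᵢ[ℝ] F) {c : ℝ} (hT : ∀ x, φ (T x) = c * φ x) (y : F) :
    cv η φ (T y) = c * cv η φ y := by
  unfold cv
  have h1 := T.measurePreserving.integral_comp T.toHomeomorph.measurableEmbedding
    (fun x => φ x * ker η (T y - x))
  rw [← h1, ← integral_const_mul]
  refine integral_congr_ae (Eventually.of_forall fun x => ?_)
  simp only
  rw [hT, ← map_sub]
  unfold h25.ker
  rw [T.norm_map]
  ring

lemma opar_AA {h f : F → ℝ} {η : ℝ} (T : F ≃ₗᵢ[ℝ] F) {c : ℝ} (hh : ∀ x, h (T x) = h x)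
    (hf : ∀ x, f (T x) = c * f x) (y : F) : AA h η f (T y) = c * AA h η f y := by
  unfold AA
  rw [opar_cv T (c := c) (fun x => by rw [hh, hf]; ring), cv_comp _ T hh, mul_div_assoc]

lemma opar_RT {h f : F → ℝ} {η : ℝ} (T : F ≃ₗᵢ[ℝ] F) {c : ℝ} (hh : ∀ x, h (T x) = h x)
    (hf : ∀ x, f (T x) = c * f x) (y : F) : RT h η f (T y) = c * RT h η f y := by
  unfold RT SS
  exact opar_AA T (fun _ => rfl) (fun x => opar_AA T hh hf x) y

lemma Par.RT (hq : Par S q) (hh : ∀ i x, h (fl i x) = h x) : Par S (RT h η q) := by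
  refine ⟨fun i hi x => ?_, fun i hi x => ?_⟩
  · have := opar_RT (f := q) (η := η) (fl i) (c := -1) (hh i) (fun x => by rw [hq.1 i hi]; ring) x
    rw [this]; ring
  · have := opar_RT (f := q) (η := η) (fl i) (c := 1) (hh i) (fun x => by rw [hq.2 i hi]; ring) x
    rw [this]; ring

lemma Par.add_smul {u v : Vn m → ℝ} (hu : Par S u) (hv : Par S v) (s : ℝ) :
    Par S fun x => u x + s * v x := by
  refine ⟨fun i hi x => ?_, fun i hi x => ?_⟩
  · simp only [hu.1 i hi, hv.1 i hi]; ring
  · simp only [hu.2 i hi, hv.2 i hi]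

omit [FiniteDimensional ℝ F] [MeasurableSpace F] [BorelSpace F] in
/-- Derivative of a function with a parity. -/
lemma opar_fderiv (T : F ≃ₗᵢ[ℝ] F) {q : F → ℝ} (hd : Differentiable ℝ q) {c : ℝ}
    (hT : ∀ x, q (T x) = c * q x) (x v : F) : fderiv ℝ q (T x) (T v) = c * fderiv ℝ q x v := by
  have h1 : HasFDerivAt (fun y => q (T y))
      ((fderiv ℝ q (T x)).comp (T.toContinuousLinearEquiv : F →L[ℝ] F)) x :=
    ((hd (T x)).hasFDerivAt).comp x T.toContinuousLinearEquiv.hasFDerivAt
  have h2 : (fun y => q (T y)) = fun y => c * q y := funext hT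
  rw [h2] at h1
  have h3 := h1.unique ((hd x).hasFDerivAt.const_mul c)
  have h4 := congrArg (fun D : F →L[ℝ] ℝ => D v) h3
  simp only [ContinuousLinearMap.comp_apply, smul_apply, smul_eq_mul] at h4
  exact h4

lemma Par.deriv (hq : Par S q) (hd : Differentiable ℝ q) (i : Fin m) :
    Par (tog S i) fun x => fderiv ℝ q x (ee i) := by
  have odd : ∀ j ∈ S, j ≠ i → ∀ x, fderiv ℝ q (fl j x) (ee i) = - fderiv ℝ q x (ee i) := by
    intro j hj hji x
    have h1 := opar_fderiv (fl j) hd (c := -1) (fun x => by rw [hq.1 j hj]; ring) x (ee i)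
    rw [fl_ee_ne (Ne.symm hji)] at h1
    rw [h1]; ring
  have even : ∀ j, j ∉ S → j ≠ i → ∀ x, fderiv ℝ q (fl j x) (ee i) = fderiv ℝ q x (ee i) := by
    intro j hj hji x
    have h1 := opar_fderiv (fl j) hd (c := 1) (fun x => by rw [hq.2 j hj]; ring) x (ee i)
    rw [fl_ee_ne (Ne.symm hji)] at h1
    rw [h1]; ring
  have self1 : i ∈ S → ∀ x, fderiv ℝ q (fl i x) (ee i) = fderiv ℝ q x (ee i) := by
    intro hi x
    have h1 := opar_fderiv (fl i) hd (c := -1) (fun x => by rw [hq.1 i hi]; ring) x (ee i)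
    rw [fl_ee, map_neg] at h1
    linarith
  have self2 : i ∉ S → ∀ x, fderiv ℝ q (fl i x) (ee i) = - fderiv ℝ q x (ee i) := by
    intro hi x
    have h1 := opar_fderiv (fl i) hd (c := 1) (fun x => by rw [hq.2 i hi]; ring) x (ee i)
    rw [fl_ee, map_neg] at h1
    linarith
  by_cases hi : i ∈ S
  · have ht : tog S i = S.erase i := if_pos hi
    rw [ht]
    refine ⟨fun j hj x => ?_, fun j hj x => ?_⟩
    · rw [Finset.mem_erase] at hj
      exact odd j hj.2 hj.1 x
    · rw [Finset.mem_erase, not_and] at hj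
      by_cases hji : j = i
      · subst hji
        exact self1 hi x
      · exact even j (hj hji) hji x
  · have ht : tog S i = insert i S := if_neg hi
    rw [ht]
    refine ⟨fun j hj x => ?_, fun j hj x => ?_⟩
    · rw [Finset.mem_insert] at hj
      rcases hj with hj | hj
      · subst hj
        exact self2 hi x
      · exact odd j hj (fun h => hi (h ▸ hj)) x
    · rw [Finset.mem_insert, not_or] at hj
      exact even j hj.2 hj.1 x

/-- Integral of an odd function. -/
lemma opar_int_zero {h q : F → ℝ} (T : F ≃ₗᵢ[ℝ] F) (hh : ∀ x, h (T x) = h x)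
    (hq : ∀ x, q (T x) = - q x) : ∫ x, q x * h x = 0 := by
  have h1 := T.measurePreserving.integral_comp T.toHomeomorph.measurableEmbedding
    (fun x => q x * h x)
  have h2 : (fun x => q (T x) * h (T x)) = fun x => - (q x * h x) := by
    ext x; rw [hq, hh]; ring
  rw [h2, integral_neg] at h1
  linarith

lemma Par.mean_zero (hq : Par S q) (hh : ∀ i x, h (fl i x) = h x) (hS : S ≠ ∅) :
    ∫ x, q x * h x = 0 := by
  obtain ⟨i, hi⟩ := Finset.nonempty_iff_ne_empty.2 hS
  exact opar_int_zero (fl i) (hh i) (hq.1 i hi)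

lemma opar_ins_self (i : Fin (m + 1)) (t : ℝ) (y : Vn m) : ins i t y i = t := by
  simp [ins]

lemma opar_ins_succ (i : Fin (m + 1)) (t : ℝ) (y : Vn m) (j : Fin m) :
    ins i t y (i.succAbove j) = y j := by
  simp [ins]

lemma opar_fl_ins (i : Fin (m + 1)) (j : Fin m) (t : ℝ) (y : Vn m) :
    fl (i.succAbove j) (ins i t y) = ins i t (fl j y) := by
  ext k
  refine Fin.succAboveCases i ?_ (fun k => ?_) k
  · rw [fl_apply, opar_ins_self, opar_ins_self, if_neg (Fin.succAbove_ne i j).symm]
  · rw [fl_apply, opar_ins_succ, opar_ins_succ, fl_apply]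
    simp only [Fin.succAbove_right_inj]

lemma Par.ins {n : ℕ} {q : Vn (n + 1) → ℝ} {S : Finset (Fin (n + 1))} (hq : Par S q)
    (i : Fin (n + 1)) (t : ℝ) :
    Par (Finset.univ.filter fun j : Fin n => i.succAbove j ∈ S) fun y => q (ins i t y) := by
  refine ⟨fun j hj x => ?_, fun j hj x => ?_⟩
  · rw [Finset.mem_filter] at hj
    show q (h42o.ins i t (fl j x)) = - q (h42o.ins i t x)
    rw [← opar_fl_ins, hq.1 _ hj.2]
  · rw [Finset.mem_filter, not_and] at hj
    show q (h42o.ins i t (fl j x)) = q (h42o.ins i t x)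
    rw [← opar_fl_ins, hq.2 _ (hj (Finset.mem_univ _))]

lemma card_ins {n : ℕ} (S : Finset (Fin (n + 1))) {i : Fin (n + 1)} (hi : i ∈ S) :
    (Finset.univ.filter fun j : Fin n => i.succAbove j ∈ S).card + 1 = S.card := by
  have h1 : (Finset.univ.filter fun j : Fin n => i.succAbove j ∈ S).map i.succAboveEmb =
      S.erase i := by
    ext k
    rw [Finset.mem_map, Finset.mem_erase]
    constructor
    · rintro ⟨j, hj, rfl⟩
      rw [Finset.mem_filter] at hj
      exact ⟨Fin.succAbove_ne i j, hj.2⟩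
    · rintro ⟨hki, hk⟩
      obtain ⟨j, rfl⟩ := Fin.exists_succAbove_eq hki
      exact ⟨j, by rw [Finset.mem_filter]; exact ⟨Finset.mem_univ _, hk⟩, rfl⟩
  rw [← Finset.card_map i.succAboveEmb, h1, Finset.card_erase_add_one hi]

lemma energy_sum {h : Vn m → ℝ} (hi : Integrable h) {q : Vn m → ℝ} (hq : BL q) :
    En h q = ∑ i, aE h q i := by
  obtain ⟨⟨L, hL⟩, -⟩ := hq
  unfold En aE
  rw [← integral_finsetSum]
  · refine integral_congr_ae (Eventually.of_forall fun x => ?_)
    simp only
    rw [norm_sq_fderiv (EuclideanSpace.basisFun (Fin m) ℝ), Finset.sum_mul]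
    refine Finset.sum_congr rfl fun i _ => ?_
    rw [EuclideanSpace.basisFun_apply]
    rfl
  · intro i _
    refine bdd_int hi ((measurable_fderiv_apply_const ℝ q (ee i)).pow_const 2)
      (M := (L * ‖(ee i : Vn m)‖) ^ 2) fun x => ?_
    refine Wt.sq_bdd (M := L * ‖(ee i : Vn m)‖) (φ := fun x => fderiv ℝ q x (ee i))
      (fun x => ?_) x
    have h1 := (fderiv ℝ q x).le_opNorm (ee i)
    rw [Real.norm_eq_abs] at h1
    exact h1.trans (mul_le_mul_of_nonneg_right (norm_fderiv_le_of_lipschitz ℝ hL) (norm_nonneg _))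

private lemma opar_BL_half {f g : Vn m → ℝ} (hf : BL f) (hg : BL g) :
    BL (fun x => (f x + g x) / 2) := by
  have h1 := (BL.const (F := Vn m) (1 / 2)).mul (hf.add hg)
  have h2 : (fun x => (f x + g x) / 2) = fun x => 1 / 2 * (f x + g x) := by
    ext x; ring
  rw [h2]
  exact h1

private lemma opar_BL_half' {f g : Vn m → ℝ} (hf : BL f) (hg : BL g) :
    BL (fun x => (f x - g x) / 2) := by
  have h1 := (BL.const (F := Vn m) (1 / 2)).mul (hf.sub hg)
  have h2 : (fun x => (f x - g x) / 2) = fun x => 1 / 2 * (f x - g x) := by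
    ext x; ring
  rw [h2]
  exact h1

private lemma opar_aux (hm : Measurable h) (hi : Integrable h)
    (hh : ∀ i x, h (fl i x) = h x) {K : ℝ}
    (hP : ∀ (S : Finset (Fin m)) (q : Vn m → ℝ), Par S q → BL q → Vr h q ≤ K * En h q) (k : ℕ) :
    ∀ f : Vn m → ℝ, BL f → (∀ i : Fin m, k ≤ (i : ℕ) →
      (∀ x, f (fl i x) = f x) ∨ (∀ x, f (fl i x) = - f x)) → Vr h f ≤ K * En h f := by
  classical
  induction k with
  | zero =>
    intro f hf hpar
    refine hP (Finset.univ.filter fun i => ∀ x, f (fl i x) = - f x) f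
      ⟨fun i hi x => ?_, fun i hi x => ?_⟩ hf
    · rw [Finset.mem_filter] at hi
      exact hi.2 x
    · rw [Finset.mem_filter, not_and] at hi
      exact (hpar i (Nat.zero_le _)).resolve_right (hi (Finset.mem_univ _)) x
  | succ k ih =>
    intro f hf hpar
    by_cases hkm : k < m
    · obtain ⟨T, hT⟩ : ∃ T, T = fl ⟨k, hkm⟩ := ⟨_, rfl⟩
      have hTT : ∀ x, T (T x) = x := by rw [hT]; exact fl_fl _
      have hTh : ∀ x, h (T x) = h x := by rw [hT]; exact hh _
      have hTc : ∀ i x, T (fl i x) = fl i (T x) := by rw [hT]; exact fun i x => fl_comm _ _ _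
      have hBT : BL fun x => f (T x) := hf.comp T.lipschitz
      obtain ⟨⟨L, hL⟩, A, hA⟩ := hf
      have hf' : BL f := ⟨⟨L, hL⟩, A, hA⟩
      have h1 : ∫ x, f x ^ 2 * h x = (∫ x, ((f x + f (T x)) / 2) ^ 2 * h x) +
          ∫ x, ((f x - f (T x)) / 2) ^ 2 * h x :=
        split_sq hm hi T hTh hL.continuous.measurable hA
      have h2 := split_En hm hi T hTh hL
      have hI1 : Integrable fun x => f x * h x := bdd_int hi hL.continuous.measurable hA
      have hI2 : Integrable fun x => f (T x) * h x :=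
        bdd_int hi (hL.continuous.measurable.comp T.continuous.measurable) (fun x => hA (T x))
      have hc : ∫ x, f (T x) * h x = ∫ x, f x * h x := by
        rw [← T.measurePreserving.integral_comp T.toHomeomorph.measurableEmbedding
          (fun x => f x * h x)]
        refine integral_congr_ae (Eventually.of_forall fun x => ?_)
        simp only
        rw [hTh]
      have hme : ∫ x, (f x + f (T x)) / 2 * h x = ∫ x, f x * h x := by
        have h3 : (fun x => (f x + f (T x)) / 2 * h x) =
            fun x => (1 / 2) * (f x * h x) + (1 / 2) * (f (T x) * h x) := by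
          ext x; ring
        rw [h3, integral_add (hI1.const_mul _) (hI2.const_mul _), integral_const_mul,
          integral_const_mul, hc]
        ring
      have hmo : ∫ x, (f x - f (T x)) / 2 * h x = 0 :=
        opar_int_zero (q := fun x => (f x - f (T x)) / 2) T hTh fun x => by rw [hTT]; ring
      have he := ih (fun x => (f x + f (T x)) / 2) (opar_BL_half hf' hBT) (fun i hki => by
        rcases Nat.lt_or_ge k (i : ℕ) with hlt | hge
        · rcases hpar i hlt with h3 | h3
          · left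
            intro x
            simp only [hTc, h3]
          · right
            intro x
            simp only [hTc, h3]
            ring
        · have hi' : i = ⟨k, hkm⟩ := Fin.ext (le_antisymm hge hki)
          left
          intro x
          rw [hi', ← hT, hTT, add_comm])
      have ho := ih (fun x => (f x - f (T x)) / 2) (opar_BL_half' hf' hBT) (fun i hki => by
        rcases Nat.lt_or_ge k (i : ℕ) with hlt | hge
        · rcases hpar i hlt with h3 | h3
          · left
            intro x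
            simp only [hTc, h3]
          · right
            intro x
            simp only [hTc, h3]
            ring
        · have hi' : i = ⟨k, hkm⟩ := Fin.ext (le_antisymm hge hki)
          right
          intro x
          rw [hi', ← hT, hTT]
          ring)
      rw [h2, mul_add]
      refine le_trans (le_of_eq ?_) (add_le_add he ho)
      show (∫ x, f x ^ 2 * h x) - (∫ x, f x * h x) ^ 2 / (∫ x, h x) =
        ((∫ x, ((f x + f (T x)) / 2) ^ 2 * h x) -
          (∫ x, (f x + f (T x)) / 2 * h x) ^ 2 / ∫ x, h x) +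
        ((∫ x, ((f x - f (T x)) / 2) ^ 2 * h x) -
          (∫ x, (f x - f (T x)) / 2 * h x) ^ 2 / ∫ x, h x)
      rw [hme, hmo, h1]
      ring
    · exact ih f hf fun i hki => absurd (lt_of_le_of_lt hki i.2) hkm

/-- from the parity classes to all functions -/
theorem all_of_par (hm : Measurable h) (h0 : ∀ x, 0 ≤ h x) (hi : Integrable h)
    (hh : ∀ i x, h (fl i x) = h x) {K : ℝ} (hK : 0 ≤ K)
    (hP : ∀ (S : Finset (Fin m)) (q : Vn m → ℝ), Par S q → BL q → Vr h q ≤ K * En h q)
    {f : Vn m → ℝ} (hf : BL f) : Vr h f ≤ K * En h f :=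
  opar_aux hm hi hh hP m f hf fun i hmi => absurd (lt_of_lt_of_le i.2 hmi) (lt_irrefl _)

end Pool.Agent.Lib.MP_8d00da_gt.h42o
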