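import Mathlib
import Pool.Agent.Lib.MP_8d00da_gt.h42o.OOne
import Pool.Agent.Lib.MP_8d00da_gt.h42o.OIns
import Pool.Agent.Lib.MP_8d00da_gt.h42o.OWt

/-!
# Slab and slices
-/

namespace Pool.Agent.Lib.MP_8d00da_gt.h42o

open MeasureTheory Set Filter
open Pool.Agent.Lib.MP_8d00da_gt.h25 Pool.Agent.Lib.MP_8d00da_gt.h42
open Pool.Agent.Lib.MP_8d00da_gt.h42s
open scoped Topology NNReal

variable {m : ℕ}

section O4

variable {δ L : ℝ} {h : Vn (m + 1) → ℝ}

private lemma os_cont_h (H : SWt δ L h) (i : Fin (m + 1)) (y : Vn m) :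
    Continuous fun t : ℝ => h (ins i t y) :=
  H.cont.comp ((ins_cont i).comp (Continuous.prodMk_left y))

private lemma os_int_mul (H : SWt δ L h) (hδ : 0 < δ) {φ : Vn (m + 1) → ℝ}
    (hφ : Measurable φ) {C : ℝ} (hC : ∀ x, |φ x| ≤ C) : Integrable fun x => φ x * h x := by
  refine Integrable.bdd_mul (c := C) (H.int hδ) hφ.aestronglyMeasurable ?_
  exact Eventually.of_forall fun x => by
    rw [Real.norm_eq_abs]
    exact hC x

private lemma os_sq_bound {φ : ℝ} {C : ℝ} (h : |φ| ≤ C) : |φ ^ 2| ≤ C ^ 2 := by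
  rw [abs_pow]
  exact pow_le_pow_left₀ (abs_nonneg _) h 2

private lemma os_int_q (H : SWt δ L h) (hδ : 0 < δ) {q : Vn (m + 1) → ℝ} (hq : BL q) :
    Integrable fun x => q x ^ 2 * h x := by
  obtain ⟨⟨Lq, hLq⟩, A, hA⟩ := hq
  exact os_int_mul H hδ (hLq.continuous.pow 2).measurable fun x => os_sq_bound (hA x)

/-- the slab -/
lemma slab (H : SWt δ L h) (hδ : 0 < δ) (i : Fin (m + 1)) {q : Vn (m + 1) → ℝ} (hq : BL q)
    (hd : Differentiable ℝ q) (hdv : BL fun x => fderiv ℝ q x (ee i))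
    (hodd : ∀ x, q (fl i x) = - q x) {t0 : ℝ} (ht0 : 0 ≤ t0) :
    ∫ x in {x : Vn (m + 1) | |x i| < t0}, q x ^ 2 * h x ≤ (t0 ^ 2 / 2) * aE h q i := by
  have hcoord : Continuous fun x : Vn (m + 1) => x i := EuclideanSpace.proj (𝕜 := ℝ) i |>.continuous
  have hS : MeasurableSet {x : Vn (m + 1) | |x i| < t0} :=
    measurableSet_lt hcoord.abs.measurable measurable_const
  have hi1 := os_int_q H hδ hq
  have hi2 : Integrable fun x => fderiv ℝ q x (ee i) ^ 2 * h x := os_int_q H hδ hdv
  have hΦ := hi1.indicator hS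
  rw [← integral_indicator hS, ins_int' i hΦ]
  unfold aE
  rw [ins_int' i hi2, ← integral_const_mul]
  have hp1 := (ins_integrable i hΦ).integral_prod_right
  have hp2 := (ins_integrable i hi2).integral_prod_right
  refine integral_mono_ae hp1 (hp2.const_mul _) ?_
  filter_upwards [(ins_integrable i hi2).prod_left_ae] with y hy
  have hqc : Continuous fun x => fderiv ℝ q x (ee i) := by
    obtain ⟨⟨L', hL'⟩, -⟩ := hdv
    exact hL'.continuous
  have h1 : ∫ t : ℝ, ({x : Vn (m + 1) | |x i| < t0}.indicator (fun x => q x ^ 2 * h x))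
      (ins i t y) = ∫ t in Ioo (-t0) t0, q (ins i t y) ^ 2 * h (ins i t y) := by
    rw [← integral_indicator measurableSet_Ioo]
    refine integral_congr_ae (Eventually.of_forall fun t => ?_)
    simp only [Set.indicator, Set.mem_ofPred_eq, ins_same, abs_lt, Set.mem_Ioo]
  show ∫ t : ℝ, ({x : Vn (m + 1) | |x i| < t0}.indicator (fun x => q x ^ 2 * h x))
      (ins i t y) ≤ _
  rw [h1]
  have hu0 : q (ins i 0 y) = 0 := by
    have h2 := hodd (ins i 0 y)
    rw [fl_ins_same, neg_zero] at h2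
    linarith
  have h3 := hardy_local (u := fun t => q (ins i t y))
    (u' := fun t => fderiv ℝ q (ins i t y) (ee i)) (ρ := fun t => h (ins i t y))
    (fun t => hasDerivAt_ins i hd y t) (hqc.comp ((ins_cont i).comp (Continuous.prodMk_left y)))
    hu0 (os_cont_h H i y) (fun t => (H.pos _).le) (fun s t hst => H.mono i hst y) ht0
  refine h3.trans ?_
  refine mul_le_mul_of_nonneg_left ?_ (by positivity)
  refine setIntegral_le_integral hy ?_
  exact Eventually.of_forall fun t => mul_nonneg (sq_nonneg _) (H.pos _).le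

/-- the energies of the sections -/
private lemma os_energy (H : SWt δ L h) (hδ : 0 < δ) (i : Fin (m + 1)) {q : Vn (m + 1) → ℝ}
    (hq : BL q) (hd : Differentiable ℝ q) (hdv : BL fun x => fderiv ℝ q x (ee i)) :
    Integrable (fun t : ℝ => En (fun y : Vn m => h (ins i t y)) (fun y => q (ins i t y))) ∧
      ∫ t : ℝ, En (fun y : Vn m => h (ins i t y)) (fun y => q (ins i t y)) =
        En h q - aE h q i := by
  obtain ⟨⟨Lq, hLq⟩, A, hA⟩ := hq
  have hi2 : Integrable fun x => fderiv ℝ q x (ee i) ^ 2 * h x := os_int_q H hδ hdv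
  have hi3 : Integrable fun x => ‖fderiv ℝ q x‖ ^ 2 * h x :=
    os_int_mul H hδ ((measurable_fderiv ℝ q).norm.pow_const 2)
      (C := (Lq : ℝ) ^ 2) (fun x => sq_fderiv_bdd hLq x)
  have hi4 : Integrable fun x => (‖fderiv ℝ q x‖ ^ 2 - fderiv ℝ q x (ee i) ^ 2) * h x := by
    have := hi3.sub hi2
    refine this.congr (Eventually.of_forall fun x => ?_)
    simp only [Pi.sub_apply]
    ring
  have h1 : ∀ t : ℝ, En (fun y : Vn m => h (ins i t y)) (fun y => q (ins i t y)) =
      ∫ y : Vn m, (‖fderiv ℝ q (ins i t y)‖ ^ 2 - fderiv ℝ q (ins i t y) (ee i) ^ 2) *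
        h (ins i t y) := by
    intro t
    unfold En
    refine integral_congr_ae (Eventually.of_forall fun y => ?_)
    have h2 := (fderiv_sec i hd t y).2
    have h3 : ‖fderiv ℝ (fun y => q (ins i t y)) y‖ ^ 2 =
        ‖fderiv ℝ q (ins i t y)‖ ^ 2 - fderiv ℝ q (ins i t y) (ee i) ^ 2 := by linarith
    show ‖fderiv ℝ (fun y => q (ins i t y)) y‖ ^ 2 * h (ins i t y) = _
    rw [h3]
  have hp := (ins_integrable i hi4).integral_prod_left
  constructor
  · refine hp.congr (Eventually.of_forall fun t => ?_)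
    exact (h1 t).symm
  · rw [integral_congr_ae (Eventually.of_forall h1), ← ins_int i hi4]
    unfold En aE
    rw [← integral_sub hi3 hi2]
    refine integral_congr_ae (Eventually.of_forall fun x => ?_)
    simp only
    ring

private lemma slice_gen (H : SWt δ L h) (hδ : 0 < δ) (i : Fin (m + 1)) {q : Vn (m + 1) → ℝ}
    (hq : BL q) (hd : Differentiable ℝ q) (hdv : BL fun x => fderiv ℝ q x (ee i))
    (hodd : ∀ x, q (fl i x) = - q x) {t0 K : ℝ} (ht0 : 0 ≤ t0) (hK : 0 ≤ K) {G : ℝ → ℝ}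
    (hG : Integrable G) (hG0 : ∀ t, 0 ≤ G t)
    (hs : ∀ t : ℝ, t0 ≤ |t| → ∫ y : Vn m, q (ins i t y) ^ 2 * h (ins i t y) ≤
      K * En (fun y : Vn m => h (ins i t y)) (fun y => q (ins i t y)) + G t) :
    ∫ x, q x ^ 2 * h x ≤ K * (En h q - aE h q i) + (t0 ^ 2 / 2) * aE h q i + ∫ t, G t := by
  have hcoord : Continuous fun x : Vn (m + 1) => x i := EuclideanSpace.proj (𝕜 := ℝ) i |>.continuous
  have hS : MeasurableSet {x : Vn (m + 1) | |x i| < t0} :=
    measurableSet_lt hcoord.abs.measurable measurable_const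
  have hi1 := os_int_q H hδ hq
  have hslab := slab H hδ i hq hd hdv hodd ht0
  obtain ⟨hEi, hE⟩ := os_energy H hδ i hq hd hdv
  rw [← integral_add_compl hS hi1]
  have hΦ := hi1.indicator hS.compl
  have h1 : ∫ x in {x : Vn (m + 1) | |x i| < t0}ᶜ, q x ^ 2 * h x ≤
      K * (En h q - aE h q i) + ∫ t, G t := by
    rw [← integral_indicator hS.compl, ins_int i hΦ, ← hE, ← integral_const_mul,
      ← integral_add (hEi.const_mul K) hG]
    refine integral_mono_ae (ins_integrable i hΦ).integral_prod_left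
      ((hEi.const_mul K).add hG) (Eventually.of_forall fun t => ?_)
    show ∫ y : Vn m, (({x : Vn (m + 1) | |x i| < t0}ᶜ).indicator (fun x => q x ^ 2 * h x))
      (ins i t y) ≤ K * En (fun y : Vn m => h (ins i t y)) (fun y => q (ins i t y)) + G t
    by_cases ht : t0 ≤ |t|
    · refine le_trans (le_of_eq ?_) (hs t ht)
      refine integral_congr_ae (Eventually.of_forall fun y => ?_)
      have hmem : ins i t y ∈ ({x : Vn (m + 1) | |x i| < t0}ᶜ) := by
        rw [Set.mem_compl_iff, Set.mem_ofPred_eq, ins_same, not_lt]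
        exact ht
      exact Set.indicator_of_mem hmem _
    · have h2 : ∫ y : Vn m, (({x : Vn (m + 1) | |x i| < t0}ᶜ).indicator
          (fun x => q x ^ 2 * h x)) (ins i t y) = 0 := by
        rw [← integral_zero (Vn m) ℝ]
        refine integral_congr_ae (Eventually.of_forall fun y => ?_)
        have hmem : ins i t y ∉ ({x : Vn (m + 1) | |x i| < t0}ᶜ) := by
          rw [Set.mem_compl_iff, not_not, Set.mem_ofPred_eq, ins_same]
          exact not_le.1 ht
        exact Set.indicator_of_notMem hmem _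
      rw [h2]
      have h3 : 0 ≤ En (fun y : Vn m => h (ins i t y)) (fun y => q (ins i t y)) :=
        integral_nonneg fun y => mul_nonneg (sq_nonneg _) (H.pos _).le
      have h4 := hG0 t
      positivity
  linarith

lemma slice_ge2 (H : SWt δ L h) (hδ : 0 < δ) (i : Fin (m + 1)) {q : Vn (m + 1) → ℝ} (hq : BL q)
    (hd : Differentiable ℝ q) (hdv : BL fun x => fderiv ℝ q x (ee i))
    (hodd : ∀ x, q (fl i x) = - q x) {t0 K : ℝ} (ht0 : 0 ≤ t0) (hK : 0 ≤ K)
    (hs : ∀ t : ℝ, t0 ≤ |t| → ∫ y : Vn m, q (ins i t y) ^ 2 * h (ins i t y) ≤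
      K * En (fun y : Vn m => h (ins i t y)) (fun y => q (ins i t y))) :
    ∫ x, q x ^ 2 * h x ≤ K * (En h q - aE h q i) + (t0 ^ 2 / 2) * aE h q i := by
  have h1 := slice_gen H hδ i hq hd hdv hodd ht0 hK (G := fun _ => 0) (integrable_zero _ _ _)
    (fun _ => le_rfl) (fun t ht => by
      rw [add_zero]
      exact hs t ht)
  rw [integral_zero, add_zero] at h1
  exact h1

/-- Cauchy-Schwarz for a section -/
private lemma os_cs (H : SWt δ L h) (hδ : 0 < δ) (i : Fin (m + 1)) {q : Vn (m + 1) → ℝ}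
    (hq : BL q) (t : ℝ) :
    (∫ y : Vn m, q (ins i t y) * h (ins i t y)) ^ 2 / ∫ y : Vn m, h (ins i t y) ≤
      ∫ y : Vn m, q (ins i t y) ^ 2 * h (ins i t y) := by
  obtain ⟨⟨Lq, hLq⟩, A, hA⟩ := hq
  have hD := H.sec_mass hδ i t
  have hhi := H.sec_int hδ i t
  have hqc : Continuous fun y : Vn m => q (ins i t y) :=
    hLq.continuous.comp ((ins_cont i).comp (Continuous.prodMk_right t))
  have hi1 : Integrable fun y : Vn m => q (ins i t y) * h (ins i t y) :=
    Integrable.bdd_mul (c := A) hhi hqc.aestronglyMeasurable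
      (Eventually.of_forall fun y => by
        rw [Real.norm_eq_abs]
        exact hA _)
  have hi2 : Integrable fun y : Vn m => q (ins i t y) ^ 2 * h (ins i t y) :=
    Integrable.bdd_mul (c := A ^ 2) hhi (hqc.pow 2).aestronglyMeasurable
      (Eventually.of_forall fun y => by
        rw [Real.norm_eq_abs]
        exact os_sq_bound (hA _))
  set N := ∫ y : Vn m, q (ins i t y) * h (ins i t y) with hN
  set D := ∫ y : Vn m, h (ins i t y) with hDdef
  set Q := ∫ y : Vn m, q (ins i t y) ^ 2 * h (ins i t y) with hQ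
  have h1 : 0 ≤ ∫ y : Vn m, (q (ins i t y) - N / D) ^ 2 * h (ins i t y) :=
    integral_nonneg fun y => mul_nonneg (sq_nonneg _) (H.pos _).le
  have h2 : ∫ y : Vn m, (q (ins i t y) - N / D) ^ 2 * h (ins i t y) =
      Q - 2 * (N / D) * N + (N / D) ^ 2 * D := by
    have h3 : (fun y : Vn m => (q (ins i t y) - N / D) ^ 2 * h (ins i t y)) =
        fun y => (q (ins i t y) ^ 2 * h (ins i t y) -
          2 * (N / D) * (q (ins i t y) * h (ins i t y))) + (N / D) ^ 2 * h (ins i t y) := by
      funext y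
      ring
    have e1 : Integrable fun y : Vn m => q (ins i t y) ^ 2 * h (ins i t y) -
        2 * (N / D) * (q (ins i t y) * h (ins i t y)) := hi2.sub (hi1.const_mul _)
    rw [h3, integral_add e1 (hhi.const_mul _),
      integral_sub hi2 (hi1.const_mul _), integral_const_mul, integral_const_mul]
  rw [h2] at h1
  have h4 : Q - 2 * (N / D) * N + (N / D) ^ 2 * D = Q - N ^ 2 / D := by
    field_simp
    ring
  rw [h4] at h1
  linarith

lemma slice_one (H : SWt δ L h) (hδ : 0 < δ) (i : Fin (m + 1)) {q : Vn (m + 1) → ℝ} (hq : BL q)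
    (hd : Differentiable ℝ q) (hdv : BL fun x => fderiv ℝ q x (ee i))
    (hodd : ∀ x, q (fl i x) = - q x) {t0 K : ℝ} (ht0 : 0 ≤ t0) (hK : 0 ≤ K)
    (hs : ∀ t : ℝ, t0 ≤ |t| → Vr (fun y : Vn m => h (ins i t y)) (fun y => q (ins i t y)) ≤
      K * En (fun y : Vn m => h (ins i t y)) (fun y => q (ins i t y))) :
    ∫ x, q x ^ 2 * h x ≤ K * (En h q - aE h q i) + (t0 ^ 2 / 2) * aE h q i +
      ∫ t : ℝ, (∫ y : Vn m, q (ins i t y) * h (ins i t y)) ^ 2 / ∫ y : Vn m, h (ins i t y) := by
  have hG0 : ∀ t : ℝ, 0 ≤ (∫ y : Vn m, q (ins i t y) * h (ins i t y)) ^ 2 /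
      ∫ y : Vn m, h (ins i t y) := fun t => div_nonneg (sq_nonneg _) (H.sec_mass hδ i t).le
  have hi2 := os_int_q H hδ hq
  have hi1 : Integrable fun x => q x * h x := by
    obtain ⟨⟨Lq, hLq⟩, A, hA⟩ := hq
    exact os_int_mul H hδ hLq.continuous.measurable hA
  have hp2 := (ins_integrable i hi2).integral_prod_left
  have hp1 := (ins_integrable i hi1).integral_prod_left
  have hp0 := (ins_integrable i (H.int hδ)).integral_prod_left
  have hG : Integrable fun t : ℝ => (∫ y : Vn m, q (ins i t y) * h (ins i t y)) ^ 2 /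
      ∫ y : Vn m, h (ins i t y) := by
    refine Integrable.mono' hp2 ?_ (Eventually.of_forall fun t => ?_)
    · exact ((hp1.aestronglyMeasurable.aemeasurable.pow_const 2).div
        hp0.aestronglyMeasurable.aemeasurable).aestronglyMeasurable
    · rw [Real.norm_eq_abs, abs_of_nonneg (hG0 t)]
      exact os_cs H hδ i hq t
  refine slice_gen H hδ i hq hd hdv hodd ht0 hK hG hG0 fun t ht => ?_
  have h1 := hs t ht
  unfold Vr at h1
  simp only at h1
  linarith

end O4

end Pool.Agent.Lib.MP_8d00da_gt.h42o
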