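import Mathlib
import Pool.Agent.Lib.MP_8d00da_gt.h42o.OMean
import Pool.Agent.Lib.MP_8d00da_gt.h42o.OVV
import Pool.Agent.Lib.MP_8d00da_gt.h42o.OBochner
import Pool.Agent.Lib.MP_8d00da_gt.h42o.OGbound
import Pool.Agent.Lib.MP_8d00da_gt.h42o.OPar
import Pool.Agent.Lib.MP_8d00da_gt.h42o.OSlice
import Pool.Agent.Lib.MP_8d00da_gt.h42s.OptDir

/-!
# Hereditary families: the extremal argument
-/

namespace Pool.Agent.Lib.MP_8d00da_gt.h42o

open MeasureTheory Set Filter
open Pool.Agent.Lib.MP_8d00da_gt.h25 Pool.Agent.Lib.MP_8d00da_gt.h42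
open Pool.Agent.Lib.MP_8d00da_gt.h42s
open scoped Topology NNReal

variable {m : ℕ}

/-! ### The numbers `ph` -/

lemma ph_zero : ph 0 = 1 := by simp [ph]

lemma ph_succ (k : ℕ) : ph (k + 1) = 1 + 1 / 128 + 1 / 16 - (1 / 16) * (1 / 2 : ℝ) ^ k := by
  unfold ph
  rw [if_neg (Nat.succ_ne_zero k), pow_succ]
  ring

lemma ph_one : ph 1 = 1 + 1 / 128 := by
  have := ph_succ 0
  rw [this]; norm_num

lemma ph_two : ph 2 = 1 + 1 / 128 + 1 / 32 := by
  have := ph_succ 1
  rw [this]; norm_num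

lemma ph_ge (k : ℕ) : 1 ≤ ph k := by
  cases k with
  | zero => rw [ph_zero]
  | succ k =>
    rw [ph_succ]
    have h1 : (1 / 2 : ℝ) ^ k ≤ 1 := pow_le_one₀ (by norm_num) (by norm_num)
    linarith

lemma ph_le (k : ℕ) : ph k ≤ 11 / 10 := by
  cases k with
  | zero => rw [ph_zero]; norm_num
  | succ k =>
    rw [ph_succ]
    have h1 : 0 ≤ (1 / 2 : ℝ) ^ k := by positivity
    linarith

/-- increment from `k + 1` to `k + 2` -/
lemma ph_inc (k : ℕ) : ph (k + 2) - ph (k + 1) = (1 / 32) * (1 / 2 : ℝ) ^ k := by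
  rw [ph_succ, ph_succ, pow_succ]; ring

lemma half_pow_mul_le (k : ℕ) : ((k : ℝ) + 2) * (1 / 2 : ℝ) ^ k ≤ 2 := by
  induction k with
  | zero => norm_num
  | succ k ih =>
    rw [pow_succ]
    push_cast
    have h0 : 0 ≤ (1 / 2 : ℝ) ^ k := by positivity
    have h1 : (1 / 2 : ℝ) ^ k * 1 ≤ ((k : ℝ) + 2) * (1 / 2 : ℝ) ^ k := by
      rw [mul_comm]
      refine mul_le_mul_of_nonneg_right ?_ h0
      have : (0 : ℝ) ≤ k := Nat.cast_nonneg k
      linarith
    nlinarith

/-! ### The choice of the parameters -/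

lemma choose_par2 {Λ L d : ℝ} (hΛ : 0 < Λ) (hd : 0 < d) (n : ℕ) :
    ∃ η : ℝ, 0 < η ∧ η < 1 ∧
      (11 / 10) * (4 * η) / Λ + (4 * η + Λ) * (η ^ 3 + η + Real.sqrt η * L ^ 2 / 2) +
        (Real.sqrt η / 2) * (11 / 10 + d) < d ∧ η ^ 4 * (n + 1) ≤ 1 / 1000 := by
  set g : ℝ → ℝ := fun η => (11 / 10) * (4 * η) / Λ +
    (4 * η + Λ) * (η ^ 3 + η + Real.sqrt η * L ^ 2 / 2) + (Real.sqrt η / 2) * (11 / 10 + d) with hg
  have hgc : Continuous g := by
    rw [hg]; fun_prop
  have h0 : g 0 < d := by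
    rw [hg]
    simpa using hd
  have hg2c : Continuous fun η : ℝ => η ^ 4 * (n + 1) := by fun_prop
  have h1 : ∀ᶠ η in 𝓝 (0 : ℝ), g η < d := hgc.continuousAt.eventually (gt_mem_nhds h0)
  have h1' : ∀ᶠ η in 𝓝 (0 : ℝ), η ^ 4 * ((n : ℝ) + 1) < 1 / 1000 :=
    hg2c.continuousAt.eventually (gt_mem_nhds (by norm_num))
  have h2 : ∀ᶠ η in 𝓝[>] (0 : ℝ), g η < d := h1.filter_mono nhdsWithin_le_nhds
  have h2' : ∀ᶠ η in 𝓝[>] (0 : ℝ), η ^ 4 * ((n : ℝ) + 1) < 1 / 1000 :=
    h1'.filter_mono nhdsWithin_le_nhds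
  have h3 : ∀ᶠ η in 𝓝[>] (0 : ℝ), η < 1 :=
    (gt_mem_nhds one_pos).filter_mono nhdsWithin_le_nhds
  obtain ⟨η, ⟨⟨hη1, hη4⟩, hη3⟩, hη2⟩ :=
    (((h2.and h2').and h3).and self_mem_nhdsWithin).exists
  exact ⟨η, hη2, hη3, hη1, hη4.le⟩

lemma Vr_nonneg {h q : Vn m → ℝ} {B : ℝ} (H : Wt h B) (hi : Integrable h) (hmass : 0 < ∫ x, h x)
    (hB : BL q) : 0 ≤ Vr h q := by
  obtain ⟨⟨Lq, hLq⟩, A, hA⟩ := id hB
  have hqm : Measurable q := hLq.continuous.measurable
  have i1 : Integrable fun x => q x * h x := bdd_int hi hqm hA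
  have i2 : Integrable fun x => q x ^ 2 * h x := bdd_int hi (hqm.pow_const 2) (Wt.sq_bdd hA)
  obtain ⟨c, hc⟩ : ∃ c, c = (∫ x, q x * h x) / ∫ x, h x := ⟨_, rfl⟩
  have hc1 : ∫ x, q x * h x = c * ∫ x, h x := by
    rw [hc, div_mul_cancel₀ _ hmass.ne']
  have h1 : 0 ≤ ∫ x, (q x - c) ^ 2 * h x :=
    integral_nonneg fun x => mul_nonneg (sq_nonneg _) (H.nonneg x)
  have e : (fun x => (q x - c) ^ 2 * h x) =
      fun x => q x ^ 2 * h x - 2 * c * (q x * h x) + c ^ 2 * h x := by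
    funext x; ring
  have i3 : Integrable fun x => q x ^ 2 * h x - 2 * c * (q x * h x) := i2.sub (i1.const_mul _)
  rw [e, integral_add i3 (hi.const_mul _), integral_sub i2 (i1.const_mul _),
    integral_const_mul, integral_const_mul, hc1] at h1
  unfold Vr
  rw [hc1]
  have e2 : (c * ∫ x, h x) ^ 2 / ∫ x, h x = c ^ 2 * ∫ x, h x := by field_simp
  rw [e2]
  linarith

lemma Vr_of_mean {h q : Vn m → ℝ} (h0 : ∫ x, q x * h x = 0) :
    Vr h q = ∫ x, q x ^ 2 * h x := by
  unfold Vr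
  rw [h0]; simp

lemma tog_card_mem {S : Finset (Fin m)} {i : Fin m} (hi : i ∈ S) :
    (tog S i).card = S.card - 1 := by
  unfold tog
  rw [if_pos hi, Finset.card_erase_of_mem hi]

lemma tog_card_notMem {S : Finset (Fin m)} {i : Fin m} (hi : i ∉ S) :
    (tog S i).card = S.card + 1 := by
  unfold tog
  rw [if_neg hi, Finset.card_insert_of_notMem hi]

lemma aE_nonneg {h q : Vn m → ℝ} (h0 : ∀ x, 0 ≤ h x) (i : Fin m) : 0 ≤ aE h q i :=
  integral_nonneg fun x => mul_nonneg (sq_nonneg _) (h0 x)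

/-- The hypothesis of validity of a constant. -/
def Valid (n : ℕ) (Fm : ∀ m : ℕ, (Vn m → ℝ) → Prop) (Λ : ℝ) : Prop :=
  ∀ m, m ≤ n → ∀ h : Vn m → ℝ, Fm m h → ∀ (S : Finset (Fin m)) (u : Vn m → ℝ), Par S u → BL u →
    ph S.card * Vr h u ≤ Λ * En h u

variable {t0 δ L : ℝ} {Fm : ∀ m : ℕ, (Vn m → ℝ) → Prop} {n : ℕ} {Λ : ℝ}

/-- The consequence of the sharp Bochner inequality. -/
lemma bochner_sum (hF : Hered t0 δ L Fm) (hδ : 0 < δ) (hL : 0 ≤ L) (hm : m ≤ n)
    (hΛ : 0 < Λ) (hval : Valid n Fm Λ) {η d : ℝ} (hη : 0 < η) (hη1 : η < 1)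
    (hcond : (11 / 10) * (4 * η) / Λ + (4 * η + Λ) * (η ^ 3 + η + Real.sqrt η * L ^ 2 / 2) +
        (Real.sqrt η / 2) * (11 / 10 + d) < d)
    {h : Vn m → ℝ} (hh : Fm m h) {S : Finset (Fin m)} {q : Vn m → ℝ} (hq : Par S q) (hB : BL q)
    (hd : Differentiable ℝ q) (hdv : ∀ v, BL fun x => fderiv ℝ q x v)
    (hmean : ∫ x, q x * h x = 0)
    (hnear : (1 - η ^ 4) * Λ * En h q ≤ ph S.card * ∫ x, q x ^ 2 * h x) :
    ∑ i, ph (tog S i).card * Vr h (fun x => fderiv ℝ q x (ee i)) ≤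
      (ph S.card + d) * En h q := by
  have H := hF.good m h hh
  have hwt := H.wt hδ
  have hi := H.int hδ
  have hmass := H.mass hδ
  obtain ⟨W, hW, hWd, hWL⟩ := H.reg
  set φ := ph S.card with hφ
  have hφ1 : 1 ≤ φ := ph_ge _
  have hφ2 : φ ≤ 11 / 10 := ph_le _
  have hE0 : 0 ≤ En h q := En_nonneg hwt
  set b := EuclideanSpace.basisFun (Fin m) ℝ with hb
  have hbi : ∀ i, b i = ee i := fun i => by rw [hb, EuclideanSpace.basisFun_apply]; rfl
  set lam := φ / Λ with hlam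
  have hlam0 : 0 < lam := by positivity
  obtain ⟨⟨Lq, hLq⟩, A, hA⟩ := id hB
  have hsm := RT_dir hwt hη hLq hA
  have hRB : BL (RT h η q) := (hsm 0).2.1
  have hRmean : ∫ x, RT h η q x * h x = 0 := by
    rw [round_mean hwt hi hη hLq hA]; exact hmean
  have hRP : Par S (RT h η q) := hq.RT H.even
  have hP : ∀ s : ℝ, lam * ∫ x, (q x + s * RT h η q x) ^ 2 * h x ≤
      En h (fun x => q x + s * RT h η q x) := by
    intro s
    have h1 : BL fun x => q x + s * RT h η q x := hB.add ((BL.const s).mul hRB)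
    have h2 := hval m hm h hh S _ (hq.add_smul hRP s) h1
    have h3 : ∫ x, (q x + s * RT h η q x) * h x = 0 := by
      obtain ⟨⟨LR, hLR⟩, AR, hAR⟩ := id hRB
      have i1 : Integrable fun x => q x * h x := bdd_int hi hLq.continuous.measurable hA
      have i2 : Integrable fun x => RT h η q x * h x := bdd_int hi hLR.continuous.measurable hAR
      have e : (fun x => (q x + s * RT h η q x) * h x) =
          fun x => q x * h x + s * (RT h η q x * h x) := by funext x; ring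
      rw [e, integral_add i1 (i2.const_mul s), integral_const_mul, hmean, hRmean]
      simp
    rw [Vr_of_mean h3] at h2
    rw [hlam, div_mul_eq_mul_div, div_le_iff₀ hΛ, mul_comm (En h _)]
    exact h2
  have hnear' : (1 - η ^ 4) * En h q ≤ lam * ∫ x, q x ^ 2 * h x := by
    rw [hlam, div_mul_eq_mul_div, le_div_iff₀ hΛ]
    linarith
  have hsq : Real.sqrt (η ^ 4) = η ^ 2 := by
    rw [show η ^ 4 = (η ^ 2) ^ 2 by ring, Real.sqrt_sq (by positivity)]
  have hsη : 0 < Real.sqrt η := Real.sqrt_pos.2 hη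
  have hboch := bochner hwt hi hη hW hWd hL hWL hB hd hdv b (θ := Real.sqrt η) hsη hlam0.le
    (ε := η ^ 4) (by positivity) hP hnear'
  set c0 : ℝ := ∫ z : Vn m, ker η z with hc0
  have hc0p : 0 < c0 := ker_int_pos hη
  rw [hsq] at hboch
  simp only [hbi] at hboch
  set VVs : ℝ := ∑ i, ∫ y, VV h η (fun x => fderiv ℝ q x (ee i)) y with hVVs
  -- the lower bounds
  have hlow : ∀ i, c0 * (η * (ph (tog S i).card * Vr h (fun x => fderiv ℝ q x (ee i)))) ≤
      (4 * η + Λ) * ∫ y, VV h η (fun x => fderiv ℝ q x (ee i)) y := by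
    intro i
    set g : Vn m → ℝ := fun x => fderiv ℝ q x (ee i) with hg
    have hgB : BL g := hdv (ee i)
    obtain ⟨⟨Lg, hLg⟩, Ag, hAg⟩ := id hgB
    have hgP : Par (tog S i) g := hq.deriv hd i
    have hRgB : BL (RT h η g) := (RT_dir hwt hη hLg hAg 0).2.1
    have hRgP : Par (tog S i) (RT h η g) := hgP.RT H.even
    set φi := ph (tog S i).card with hφi
    have hφi1 : 1 ≤ φi := ph_ge _
    have hφi2 : φi ≤ 11 / 10 := ph_le _
    have h1 := hval m hm h hh _ _ hRgP hRgB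
    have h2 : Vr h (RT h η g) ≤ (Λ / φi) * En h (RT h η g) := by
      rw [div_mul_eq_mul_div, le_div_iff₀ (by linarith), mul_comm]
      exact h1
    have h3 := VV_lower hwt hi hmass hη hgB (K := Λ / φi) (by positivity) h2
    have hVV0 : 0 ≤ ∫ y, VV h η g y := integral_nonneg fun y => hwt.VV_nonneg
    have h4 := mul_le_mul_of_nonneg_left h3 (by linarith : (0 : ℝ) ≤ φi)
    have h5 : φi * ((2 * η + Λ / φi) * ∫ y, VV h η g y) = (2 * η * φi + Λ) * ∫ y, VV h η g y := by
      have : φi ≠ 0 := by linarith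
      field_simp
    rw [h5] at h4
    calc c0 * (η * (φi * Vr h g)) = φi * (c0 * (η * Vr h g)) := by ring
      _ ≤ (2 * η * φi + Λ) * ∫ y, VV h η g y := h4
      _ ≤ _ := by
        refine mul_le_mul_of_nonneg_right ?_ hVV0
        nlinarith
  have hsum : c0 * (η * ∑ i, ph (tog S i).card * Vr h (fun x => fderiv ℝ q x (ee i))) ≤
      (4 * η + Λ) * VVs := by
    rw [hVVs, Finset.mul_sum, Finset.mul_sum, Finset.mul_sum]
    exact Finset.sum_le_sum fun i _ => hlow i
  set X : ℝ := ∑ i, ph (tog S i).card * Vr h (fun x => fderiv ℝ q x (ee i)) with hX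
  set sη := Real.sqrt η with hsηdef
  have hs2 : sη ^ 2 = η := Real.sq_sqrt hη.le
  have hs1 : sη < 1 := by nlinarith
  have hh1 : 0 < 1 - sη / 2 := by linarith
  -- combine
  have h6 : (1 - sη / 2) * (c0 * (η * X)) ≤ (4 * η + Λ) *
      (c0 * ((η ^ 4 + η ^ 2 + lam * η + (η * L) ^ 2 / (2 * sη)) * En h q)) := by
    calc (1 - sη / 2) * (c0 * (η * X)) ≤ (1 - sη / 2) * ((4 * η + Λ) * VVs) :=
          mul_le_mul_of_nonneg_left hsum hh1.le
      _ = (4 * η + Λ) * ((1 - sη / 2) * VVs) := by ring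
      _ ≤ _ := mul_le_mul_of_nonneg_left hboch (by positivity)
  have h7 : (η * L) ^ 2 / (2 * sη) = η * (sη * L ^ 2 / 2) := by
    rw [div_eq_iff (by positivity)]
    have : η * (sη * L ^ 2 / 2) * (2 * sη) = η * L ^ 2 * sη ^ 2 := by ring
    rw [this, hs2]; ring
  rw [h7] at h6
  have h8 : (1 - sη / 2) * X ≤ (4 * η + Λ) *
      ((η ^ 3 + η + lam + sη * L ^ 2 / 2) * En h q) := by
    refine le_of_mul_le_mul_left (a := c0 * η) ?_ (by positivity)
    calc c0 * η * ((1 - sη / 2) * X) = (1 - sη / 2) * (c0 * (η * X)) := by ring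
      _ ≤ _ := h6
      _ = _ := by ring
  have h9 : (4 * η + Λ) * (η ^ 3 + η + lam + sη * L ^ 2 / 2) ≤ (1 - sη / 2) * (φ + d) := by
    have e1 : (4 * η + Λ) * lam = φ + φ * (4 * η) / Λ := by
      rw [hlam]; field_simp; ring
    have e2 : φ * (4 * η) / Λ ≤ (11 / 10) * (4 * η) / Λ := by gcongr
    have e3 : (sη / 2) * (φ + d) ≤ (sη / 2) * (11 / 10 + d) := by gcongr
    nlinarith
  have h10 : (1 - sη / 2) * X ≤ (1 - sη / 2) * ((φ + d) * En h q) := by
    calc (1 - sη / 2) * X ≤ (4 * η + Λ) * ((η ^ 3 + η + lam + sη * L ^ 2 / 2) * En h q) := h8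
      _ = ((4 * η + Λ) * (η ^ 3 + η + lam + sη * L ^ 2 / 2)) * En h q := by ring
      _ ≤ ((1 - sη / 2) * (φ + d)) * En h q := mul_le_mul_of_nonneg_right h9 hE0
      _ = _ := by ring
  exact le_of_mul_le_mul_left h10 hh1

/-- The total energy as a sum, and the variances of the derivatives. -/
lemma Vr_deriv {h : Vn m → ℝ} (H : SWt δ L h) {S : Finset (Fin m)} {q : Vn m → ℝ} (hq : Par S q)
    (hd : Differentiable ℝ q) {i : Fin m} (hi : tog S i ≠ ∅) :
    Vr h (fun x => fderiv ℝ q x (ee i)) = aE h q i :=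
  Vr_of_mean ((hq.deriv hd i).mean_zero H.even hi)

/-- The bound of the partial energies in the directions of `S`. -/
lemma slice_bound (hF : Hered t0 δ L Fm) (ht0 : 0 ≤ t0) (ht1 : t0 ≤ 5) (hδ : 0 < δ)
    (hm : m ≤ n) (hΛ : 10 ^ 5 < Λ) (hval : Valid n Fm Λ) {ε : ℝ} (hε : 0 ≤ ε)
    {h : Vn m → ℝ} (hh : Fm m h) {S : Finset (Fin m)} {q : Vn m → ℝ} (hq : Par S q) (hB : BL q)
    (hd : Differentiable ℝ q) (hdv : ∀ v, BL fun x => fderiv ℝ q x v)
    (hnear : (1 - ε) * Λ * En h q ≤ ph S.card * ∫ x, q x ^ 2 * h x)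
    {k : ℕ} (hk : S.card = k + 2) {i : Fin m} (hi : i ∈ S) :
    aE h q i ≤ 2 * (ph (k + 2) - ph (k + 1) + 2 * ε) * En h q := by
  have H := hF.good m h hh
  have hwt := H.wt hδ
  have hE0 : 0 ≤ En h q := En_nonneg hwt
  have ha0 : 0 ≤ aE h q i := aE_nonneg (fun x => (H.pos x).le) i
  obtain ⟨m', rfl⟩ : ∃ m', m = m' + 1 := ⟨m - 1, by have := i.pos; omega⟩
  set φ := ph (k + 2) with hφ
  set ψ := ph (k + 1) with hψ
  have hφ1 : 1 ≤ φ := ph_ge _
  have hφ2 : φ ≤ 11 / 10 := ph_le _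
  have hψ1 : 1 ≤ ψ := ph_ge _
  have hψ2 : ψ ≤ 11 / 10 := ph_le _
  have hinc : 0 ≤ φ - ψ := by
    rw [hφ, hψ, ph_inc]; positivity
  have hΛ0 : 0 < Λ := by linarith [show (0 : ℝ) < 10 ^ 5 by norm_num]
  set S' : Finset (Fin m') := Finset.univ.filter fun j : Fin m' => i.succAbove j ∈ S with hS'
  have hcard : S'.card = k + 1 := by
    have h0 : S'.card + 1 = S.card := card_ins S hi
    rw [hk] at h0
    omega
  have hS'ne : S' ≠ ∅ := by
    intro he
    rw [he, Finset.card_empty] at hcard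
    omega
  have hs : ∀ t : ℝ, t0 ≤ |t| → ∫ y : Vn m', q (ins i t y) ^ 2 * h (ins i t y) ≤
      (Λ / ψ) * En (fun y : Vn m' => h (ins i t y)) (fun y => q (ins i t y)) := by
    intro t ht
    have hht := hF.slice m' h hh i t ht
    have Ht := hF.good m' _ hht
    have hP := hq.ins i t
    have h1 := hval m' (by omega) _ hht S' _ hP (BL_ins i hB t)
    rw [Vr_of_mean (hP.mean_zero Ht.even hS'ne), hcard, ← hψ] at h1
    rw [div_mul_eq_mul_div, le_div_iff₀ (by linarith), mul_comm]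
    exact h1
  have key := slice_ge2 H hδ i hB hd (hdv (ee i)) (fun x => hq.1 i hi x) ht0
    (K := Λ / ψ) (by positivity) hs
  set E := En h q with hE
  set a := aE h q i with ha
  rw [hk, ← hφ] at hnear
  have ht2 : t0 ^ 2 / 2 ≤ 25 / 2 := by nlinarith
  have h2 : (1 - ε) * Λ * E ≤ φ * ((Λ / ψ) * (E - a) + (25 / 2) * a) := by
    refine hnear.trans (mul_le_mul_of_nonneg_left (key.trans ?_) (by linarith))
    have := mul_le_mul_of_nonneg_right ht2 ha0
    linarith
  have h3 : (1 - ε) * Λ * E * ψ ≤ φ * (Λ * (E - a) + ψ * (25 / 2) * a) := by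
    have e : φ * (Λ * (E - a) + ψ * (25 / 2) * a) =
        (φ * ((Λ / ψ) * (E - a) + (25 / 2) * a)) * ψ := by
      have : ψ ≠ 0 := by linarith
      field_simp
    rw [e]
    exact mul_le_mul_of_nonneg_right h2 (by linarith)
  -- `Λ (φ a) (1 - small) ≤ Λ (φ - ψ + ε ψ) E`
  have h4 : Λ * (φ * a) ≤ Λ * ((φ - ψ + ε * ψ) * E) + φ * ψ * (25 / 2) * a := by nlinarith
  have h5 : φ * ψ * (25 / 2) * a ≤ Λ / 2 * a := by
    refine mul_le_mul_of_nonneg_right ?_ ha0
    nlinarith
  have h6 : Λ * (φ * a) ≥ Λ * a := by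
    have : a ≤ φ * a := by nlinarith
    exact mul_le_mul_of_nonneg_left this hΛ0.le
  have h7 : Λ * (a / 2) ≤ Λ * ((φ - ψ + ε * ψ) * E) := by linarith
  have h8 : a / 2 ≤ (φ - ψ + ε * ψ) * E := le_of_mul_le_mul_left h7 hΛ0
  have h9 : (φ - ψ + ε * ψ) * E ≤ (φ - ψ + 2 * ε) * E := by
    refine mul_le_mul_of_nonneg_right ?_ hE0
    nlinarith
  linarith

/-- The bound of the transversal energy for `S = {i}`. -/
lemma trans_bound (hF : Hered t0 δ L Fm) (ht0 : 0 ≤ t0) (ht1 : t0 ≤ 5) (hδ : 0 < δ)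
    (hm : m ≤ n) (hΛ : 10 ^ 5 < Λ) (hval : Valid n Fm Λ) {ε : ℝ} (hε : 0 ≤ ε) (hε1 : ε ≤ 1 / 100)
    {h : Vn m → ℝ} (hh : Fm m h) {i : Fin m} {q : Vn m → ℝ} (hq : Par {i} q) (hB : BL q)
    (hd : Differentiable ℝ q) (hdv : ∀ v, BL fun x => fderiv ℝ q x v)
    (hnear : (1 - ε) * Λ * En h q ≤ ph 1 * ∫ x, q x ^ 2 * h x) :
    En h q / 2 ≤ En h q - aE h q i := by
  have H := hF.good m h hh
  have hwt := H.wt hδ
  have hi := H.int hδ
  have hE0 : 0 ≤ En h q := En_nonneg hwt
  have ha0 : 0 ≤ aE h q i := aE_nonneg (fun x => (H.pos x).le) i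
  have hodd : ∀ x, q (fl i x) = - q x := fun x => hq.1 i (Finset.mem_singleton_self i) x
  have haE : aE h q i ≤ En h q := by
    rw [energy_sum hi hB]
    exact Finset.single_le_sum (f := fun j => aE h q j)
      (fun j _ => aE_nonneg (fun x => (H.pos x).le) j) (Finset.mem_univ i)
  obtain ⟨m', rfl⟩ : ∃ m', m = m' + 1 := ⟨m - 1, by have := i.pos; omega⟩
  have hΛ0 : 0 < Λ := by linarith [show (0 : ℝ) < 10 ^ 5 by norm_num]
  set S' : Finset (Fin m') := Finset.univ.filter fun j : Fin m' => i.succAbove j ∈ ({i} : Finset _)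
    with hS'
  have hcard : S'.card = 0 := by
    have h0 : S'.card + 1 = ({i} : Finset (Fin (m' + 1))).card :=
      card_ins {i} (Finset.mem_singleton_self i)
    rw [Finset.card_singleton] at h0
    omega
  have hs : ∀ t : ℝ, t0 ≤ |t| → Vr (fun y : Vn m' => h (ins i t y)) (fun y => q (ins i t y)) ≤
      Λ * En (fun y : Vn m' => h (ins i t y)) (fun y => q (ins i t y)) := by
    intro t ht
    have hht := hF.slice m' h hh i t ht
    have hP := hq.ins i t
    have h1 := hval m' (by omega) _ hht S' _ hP (BL_ins i hB t)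
    rw [hcard, ph_zero, one_mul] at h1
    exact h1
  have key := slice_one H hδ i hB hd (hdv (ee i)) hodd ht0 hΛ0.le hs
  have hG := G_bound H hδ i hB hd (hdv (ee i)) hodd
  set E := En h q with hE
  set a := aE h q i with ha
  set V := ∫ x, q x ^ 2 * h x with hV
  have hV0 : 0 ≤ V := integral_nonneg fun x => mul_nonneg (sq_nonneg _) (H.pos x).le
  rw [ph_one] at hnear
  have ht2 : t0 ^ 2 / 2 ≤ 25 / 2 := by nlinarith
  have h1 : t0 ^ 2 / 2 * a ≤ 25 / 2 * a := mul_le_mul_of_nonneg_right ht2 ha0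
  have h2 : V ≤ Λ * (E - a) + 25 / 2 * a + ((2 / 27 + 1 / 16) * V + 2304 * a) := by linarith
  -- `Λ E ≤ 1.02 V`
  have h3 : Λ * E ≤ (103 / 100) * V := by
    have h4 : (99 / 100) * (Λ * E) ≤ (1 - ε) * Λ * E := by
      have : 0 ≤ Λ * E := by positivity
      nlinarith
    linarith
  have h5 : 2317 * a ≤ (3 / 100) * (Λ * E) := by
    have h6 : 10 ^ 5 * E ≤ Λ * E := mul_le_mul_of_nonneg_right hΛ.le hE0
    linarith
  have h7 : Λ * (E / 2) ≤ Λ * (E - a) := by linarith
  exact le_of_mul_le_mul_left h7 hΛ0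

lemma core_step (hF : Hered t0 δ L Fm) (ht0 : 0 ≤ t0) (ht1 : t0 ≤ 5) (hδ : 0 < δ) (hL : 0 ≤ L)
    (hm : m ≤ n) (hΛ : 10 ^ 5 < Λ) (hval : Valid n Fm Λ) {η d : ℝ} (hη : 0 < η) (hη1 : η < 1)
    (hd0 : 0 < d) (hdn : d ≤ (1 / 256) * (1 / 2 : ℝ) ^ n)
    (hcond : (11 / 10) * (4 * η) / Λ + (4 * η + Λ) * (η ^ 3 + η + Real.sqrt η * L ^ 2 / 2) +
        (Real.sqrt η / 2) * (11 / 10 + d) < d) (hηn : η ^ 4 * (n + 1) ≤ 1 / 1000)
    {h : Vn m → ℝ} (hh : Fm m h) {S : Finset (Fin m)} {q : Vn m → ℝ} (hq : Par S q) (hB : BL q)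
    (hd : Differentiable ℝ q) (hdv : ∀ v, BL fun x => fderiv ℝ q x v)
    (hmean : ∫ x, q x * h x = 0) (hE : 0 < En h q)
    (hnear : (1 - η ^ 4) * Λ * En h q ≤ ph S.card * ∫ x, q x ^ 2 * h x) : False := by
  have H := hF.good m h hh
  have hwt := H.wt hδ
  have hi := H.int hδ
  have hmass := H.mass hδ
  have hΛ0 : 0 < Λ := by linarith [show (0 : ℝ) < 10 ^ 5 by norm_num]
  have hb := bochner_sum hF hδ hL hm hΛ0 hval hη hη1 hcond hh hq hB hd hdv hmean hnear
  set ε := η ^ 4 with hε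
  have hε0 : 0 ≤ ε := by positivity
  have hn0 : (0 : ℝ) ≤ n := Nat.cast_nonneg n
  have hε1 : ε ≤ 1 / 1000 := by nlinarith
  have hes := energy_sum hi hB
  have ha0 : ∀ i, 0 ≤ aE h q i := fun i => aE_nonneg (fun x => (H.pos x).le) i
  have hpow1 : (1 / 2 : ℝ) ^ n ≤ 1 := pow_le_one₀ (by norm_num) (by norm_num)
  rcases hc : S.card with _ | k
  · -- the even class
    have hS : S = ∅ := Finset.card_eq_zero.1 hc
    subst hS
    have h1 : ∀ i, ph (tog (∅ : Finset (Fin m)) i).card *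
        Vr h (fun x => fderiv ℝ q x (ee i)) = (1 + 1 / 128) * aE h q i := by
      intro i
      have hi' : i ∉ (∅ : Finset (Fin m)) := Finset.notMem_empty i
      have hne : tog (∅ : Finset (Fin m)) i ≠ ∅ := by
        intro he
        have := tog_card_notMem hi'
        rw [he] at this
        simp at this
      rw [Vr_deriv H hq hd hne, tog_card_notMem hi', Finset.card_empty, zero_add, ph_one]
    simp only [h1] at hb
    rw [← Finset.mul_sum, ← hes, Finset.card_empty, ph_zero] at hb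
    have : (1 / 128) * En h q ≤ d * En h q := by linarith
    have h2 := le_of_mul_le_mul_right this hE
    linarith
  rcases k with _ | k
  · -- one odd coordinate
    obtain ⟨i, rfl⟩ := Finset.card_eq_one.1 hc
    have h1 : ∀ j, ph (tog {i} j).card * Vr h (fun x => fderiv ℝ q x (ee j)) =
        (if j = i then 0 else (1 + 1 / 128 + 1 / 32) * aE h q j) +
          (if j = i then Vr h (fun x => fderiv ℝ q x (ee i)) else 0) := by
      intro j
      by_cases hj : j = i
      · subst hj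
        rw [tog_card_mem (Finset.mem_singleton_self j), Finset.card_singleton, if_pos rfl,
          if_pos rfl]
        rw [show 1 - 1 = 0 by norm_num, ph_zero]
        ring
      · have hj' : j ∉ ({i} : Finset (Fin m)) := by simpa using hj
        have hne : tog ({i} : Finset (Fin m)) j ≠ ∅ := by
          intro he
          have := tog_card_notMem hj'
          rw [he] at this
          simp at this
        rw [Vr_deriv H hq hd hne, tog_card_notMem hj', Finset.card_singleton, if_neg hj, if_neg hj,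
          show 1 + 1 = 2 by norm_num, ph_two]
        ring
    simp only [h1] at hb
    rw [Finset.sum_add_distrib, Finset.sum_ite_eq' Finset.univ i, if_pos (Finset.mem_univ i),
      Finset.card_singleton, ph_one] at hb
    have h2 : ∑ j, (if j = i then 0 else (1 + 1 / 128 + 1 / 32) * aE h q j) =
        (1 + 1 / 128 + 1 / 32) * (En h q - aE h q i) := by
      rw [hes]
      have e : ∀ j, (if j = i then 0 else (1 + 1 / 128 + 1 / 32) * aE h q j) =
          (1 + 1 / 128 + 1 / 32) * aE h q j -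
            (if j = i then (1 + 1 / 128 + 1 / 32) * aE h q i else 0) := by
        intro j
        by_cases hj : j = i
        · subst hj; simp
        · simp [hj]
      simp only [e]
      rw [Finset.sum_sub_distrib, Finset.sum_ite_eq' Finset.univ i, if_pos (Finset.mem_univ i),
        ← Finset.mul_sum]
      ring
    rw [h2] at hb
    have hn1 : (1 - ε) * Λ * En h q ≤ ph 1 * ∫ x, q x ^ 2 * h x := by
      have := hnear
      rwa [Finset.card_singleton] at this
    have htr := trans_bound hF ht0 ht1 hδ hm hΛ hval hε0 (by linarith) hh hq hB hd hdv hn1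
    set lam : ℝ := ph 1 / Λ with hlam
    have hlam0 : 0 < lam := div_pos (by linarith [ph_ge 1]) hΛ0
    have hlam1 : lam ≤ 11 / 10 ^ 6 := by
      rw [hlam, div_le_iff₀ hΛ0]
      have := ph_le 1
      nlinarith
    have hmb := mean_bound H hδ i hB hd (fun x => hq.1 i (Finset.mem_singleton_self i) x)
      (fun j hj x => hq.2 j (by simpa using hj) x) hlam0 hε0 (fun u hu hup => by
        have h3 := hval m hm h hh {i} u hup hu
        have h4 : Vr h u = ∫ x, u x ^ 2 * h x :=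
          Vr_of_mean (hup.mean_zero H.even (by simp))
        rw [h4, Finset.card_singleton] at h3
        rw [hlam, div_mul_eq_mul_div, div_le_iff₀ hΛ0, mul_comm (En h u)]
        exact h3) (by
        rw [hlam, div_mul_eq_mul_div, le_div_iff₀ hΛ0]
        linarith)
    have hV : Vr h (fun x => fderiv ℝ q x (ee i)) =
        aE h q i - (∫ x, fderiv ℝ q x (ee i) * h x) ^ 2 / ∫ x, h x := rfl
    have hM : (∫ x, fderiv ℝ q x (ee i) * h x) ^ 2 / ∫ x, h x ≤ 2 * (lam + ε) * En h q := by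
      rw [div_le_iff₀ hmass]
      exact hmb
    rw [hV] at hb
    have h5 : 2 * (lam + ε) * En h q ≤ (3 / 1000) * En h q := by
      refine mul_le_mul_of_nonneg_right ?_ hE.le
      norm_num at hlam1
      linarith
    have h6 : d * En h q ≤ (1 / 256) * En h q := by
      refine mul_le_mul_of_nonneg_right ?_ hE.le
      linarith
    linarith
  · -- at least two odd coordinates
    have hkm : k + 2 ≤ n := by
      have := S.card_le_univ
      rw [Fintype.card_fin, hc] at this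
      omega
    set E := En h q with hEd
    have hsb : ∀ i ∈ S, aE h q i ≤ 2 * (ph (k + 2) - ph (k + 1) + 2 * ε) * E := fun i hiS =>
      slice_bound hF ht0 ht1 hδ hm hΛ hval hε0 hh hq hB hd hdv hnear hc hiS
    set p : ℝ := (1 / 2 : ℝ) ^ k with hp
    have hp0 : 0 < p := by positivity
    have hinc : ph (k + 2) - ph (k + 1) = (1 / 32) * p := ph_inc k
    have hinc2 : ph (k + 3) - ph (k + 2) = (1 / 64) * p := by
      have := ph_inc (k + 1)
      rw [pow_succ, ← hp] at this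
      rw [show k + 3 = k + 1 + 2 by ring, show k + 2 = k + 1 + 1 by ring, this]
      ring
    set As : ℝ := ∑ i ∈ S, aE h q i with hAs
    have hAs1 : As ≤ ((k : ℝ) + 2) * (2 * ((1 / 32) * p + 2 * ε) * E) := by
      have h1 := Finset.sum_le_sum hsb
      rw [Finset.sum_const, hc, nsmul_eq_mul, hinc] at h1
      push_cast at h1
      have e : ((k : ℝ) + 1 + 1) = k + 2 := by ring
      rw [e] at h1
      exact h1
    have hkp := half_pow_mul_le k
    rw [← hp] at hkp
    have hkε : ((k : ℝ) + 2) * ε ≤ 1 / 1000 := by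
      have h1 : ((k : ℝ) + 2) ≤ n + 1 := by
        have : ((k + 2 : ℕ) : ℝ) ≤ (n : ℝ) := by exact_mod_cast hkm
        push_cast at this
        linarith
      calc ((k : ℝ) + 2) * ε ≤ (n + 1) * ε := mul_le_mul_of_nonneg_right h1 hε0
        _ = ε * (n + 1) := by ring
        _ ≤ _ := hηn
    have hAs2 : As ≤ (1 / 6) * E := by
      refine hAs1.trans ?_
      have e : ((k : ℝ) + 2) * (2 * ((1 / 32) * p + 2 * ε) * E) =
          ((1 / 16) * (((k : ℝ) + 2) * p) + 4 * (((k : ℝ) + 2) * ε)) * E := by ring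
      rw [e]
      refine mul_le_mul_of_nonneg_right ?_ hE.le
      linarith
    -- the sum
    have h1 : ∀ i, ph (tog S i).card * Vr h (fun x => fderiv ℝ q x (ee i)) =
        ph (k + 3) * aE h q i - (if i ∈ S then (ph (k + 3) - ph (k + 1)) * aE h q i else 0) := by
      intro i
      by_cases hiS : i ∈ S
      · have hcard := tog_card_mem hiS
        rw [hc] at hcard
        have hne : tog S i ≠ ∅ := by
          intro he
          rw [he, Finset.card_empty] at hcard
          omega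
        rw [Vr_deriv H hq hd hne, hcard, if_pos hiS, show k + 1 + 1 - 1 = k + 1 by omega]
        ring
      · have hcard := tog_card_notMem hiS
        rw [hc] at hcard
        have hne : tog S i ≠ ∅ := by
          intro he
          rw [he, Finset.card_empty] at hcard
          omega
        rw [Vr_deriv H hq hd hne, hcard, if_neg hiS, show k + 1 + 1 + 1 = k + 3 by omega]
        ring
    simp only [h1] at hb
    rw [Finset.sum_sub_distrib, ← Finset.mul_sum, ← hes, ← Finset.sum_filter,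
      Finset.filter_mem_eq_inter, Finset.univ_inter, ← Finset.mul_sum, ← hAs, hc,
      show k + 1 + 1 = k + 2 by ring] at hb
    have h2 : ph (k + 3) - ph (k + 1) = (3 / 64) * p := by linarith
    rw [h2] at hb
    have h3 : (1 / 64) * p * E - (3 / 64) * p * As ≤ d * E := by
      have : ph (k + 3) = ph (k + 2) + (1 / 64) * p := by linarith
      rw [this] at hb
      linarith
    have h4 : (3 / 64) * p * As ≤ (3 / 64) * p * ((1 / 6) * E) :=
      mul_le_mul_of_nonneg_left hAs2 (by positivity)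
    have h5 : d ≤ (1 / 1024) * p := by
      refine hdn.trans ?_
      have : (1 / 2 : ℝ) ^ n ≤ (1 / 2 : ℝ) ^ (k + 2) :=
        pow_le_pow_of_le_one (by norm_num) (by norm_num) hkm
      rw [pow_add, ← hp] at this
      norm_num at this
      linarith
    have h6 : d * E ≤ (1 / 1024) * p * E := mul_le_mul_of_nonneg_right h5 hE.le
    have h7 : 0 < p * E := by positivity
    nlinarith

/-- The tuples of the extremal problem. -/
structure TT (n : ℕ) (Fm : ∀ m : ℕ, (Vn m → ℝ) → Prop) where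
  m : ℕ
  hm : m ≤ n
  h : Vn m → ℝ
  hh : Fm m h
  S : Finset (Fin m)
  q : Vn m → ℝ
  hq : Par S q
  hB : BL q

theorem valid_const (hF : Hered t0 δ L Fm) (ht0 : 0 ≤ t0) (ht1 : t0 ≤ 5) (hδ : 0 < δ)
    (hL : 0 ≤ L) (n : ℕ) : Valid n Fm (10 ^ 5) := by
  have key := opt_const (T := TT n Fm) (fun t => ph t.S.card * Vr t.h t.q) (fun t => En t.h t.q)
    (fun t => En_nonneg ((hF.good _ _ t.hh).wt hδ)) (C0 := 10 ^ 5) (C1 := 2 * (1 / δ))
    (by norm_num) (fun t => ?_) ?_
  · intro m hm h hh S u hu hB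
    exact key ⟨m, hm, h, hh, S, u, hu, hB⟩
  · have H := hF.good _ _ t.hh
    have h1 := H.apriori hδ t.hB
    have h2 := ph_le t.S.card
    have h3 := ph_ge t.S.card
    have h4 : 0 ≤ (1 / δ) * En t.h t.q := mul_nonneg (by positivity) (En_nonneg (H.wt hδ))
    calc ph t.S.card * Vr t.h t.q ≤ ph t.S.card * ((1 / δ) * En t.h t.q) :=
          mul_le_mul_of_nonneg_left h1 (by linarith)
      _ ≤ 2 * ((1 / δ) * En t.h t.q) := mul_le_mul_of_nonneg_right (by linarith) h4
      _ = _ := by ring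
  intro Λ hΛ hval'
  have hΛ0 : 0 < Λ := by linarith [show (0 : ℝ) < 10 ^ 5 by norm_num]
  have hval : Valid n Fm Λ := fun m hm h hh S u hu hB => hval' ⟨m, hm, h, hh, S, u, hu, hB⟩
  have hd0 : 0 < (1 / 256) * (1 / 2 : ℝ) ^ n := by positivity
  obtain ⟨d, hd⟩ : ∃ d, d = (1 / 256) * (1 / 2 : ℝ) ^ n := ⟨_, rfl⟩
  rw [← hd] at hd0
  obtain ⟨η, hη, hη1, hcond, hηn⟩ := choose_par2 (L := L) hΛ0 hd0 n
  refine ⟨η ^ 4 / 2, by positivity, ?_⟩
  rintro ⟨m, hm, h, hh, S, q, hq, hB⟩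
  simp only
  by_contra hcon
  rw [not_le] at hcon
  have H := hF.good m h hh
  have hwt := H.wt hδ
  have hi := H.int hδ
  have hmass := H.mass hδ
  have hE0 : 0 ≤ En h q := En_nonneg hwt
  have hφ1 : 1 ≤ ph S.card := ph_ge _
  have hφ2 : ph S.card ≤ 11 / 10 := ph_le _
  have hε1 : η ^ 4 < 1 := pow_lt_one₀ hη.le hη1 (by norm_num)
  have hE : 0 < En h q := by
    rcases hE0.eq_or_lt with h1 | h1
    · exfalso
      have h2 := hval m hm h hh S q hq hB
      rw [← h1] at h2 hcon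
      linarith
    · exact h1
  -- subtract the mean
  obtain ⟨c, hc⟩ : ∃ c, c = (∫ x, q x * h x) / ∫ x, h x := ⟨_, rfl⟩
  obtain ⟨⟨Lq, hLq⟩, A, hA⟩ := id hB
  have hqm : Measurable q := hLq.continuous.measurable
  have i1 : Integrable fun x => q x * h x := bdd_int hi hqm hA
  have i2 : Integrable fun x => q x ^ 2 * h x := bdd_int hi (hqm.pow_const 2) (Wt.sq_bdd hA)
  have hc1 : ∫ x, q x * h x = c * ∫ x, h x := by
    rw [hc, div_mul_cancel₀ _ hmass.ne']
  set q0 : Vn m → ℝ := fun x => q x - c with hq0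
  have hq0B : BL q0 := hB.sub (BL.const c)
  have hq0P : Par S q0 := by
    rcases S.eq_empty_or_nonempty with hS | hS
    · subst hS
      exact ⟨fun i hi => absurd hi (Finset.notMem_empty i), fun i hi x => by
        simp only [hq0]; rw [hq.2 i hi x]⟩
    · have hc0 : c = 0 := by
        rw [hc, hq.mean_zero H.even hS.ne_empty, zero_div]
      have : q0 = q := by funext x; simp [hq0, hc0]
      rw [this]; exact hq
  have hq0mean : ∫ x, q0 x * h x = 0 := by
    have e : (fun x => q0 x * h x) = fun x => q x * h x - c * h x := by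
      funext x; simp only [hq0]; ring
    rw [e, integral_sub i1 (hi.const_mul c), integral_const_mul, hc1, sub_self]
  have hq0V : ∫ x, q0 x ^ 2 * h x = Vr h q := by
    have e : (fun x => q0 x ^ 2 * h x) = fun x => q x ^ 2 * h x - 2 * c * (q x * h x) + c ^ 2 * h x := by
      funext x; simp only [hq0]; ring
    have i3 : Integrable fun x => q x ^ 2 * h x - 2 * c * (q x * h x) := i2.sub (i1.const_mul _)
    rw [e, integral_add i3 (hi.const_mul _), integral_sub i2 (i1.const_mul _),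
      integral_const_mul, integral_const_mul]
    unfold Vr
    rw [hc1]
    field_simp
    ring
  have hq0E : En h q0 = En h q := by
    unfold En
    refine integral_congr_ae (Eventually.of_forall fun x => ?_)
    simp only [hq0]
    rw [fderiv_sub_const]
  -- smoothing
  obtain ⟨⟨L0, hL0⟩, A0, hA0⟩ := id hq0B
  obtain ⟨τ, hτ⟩ : ∃ τ, τ = η ^ 4 / 2 := ⟨_, rfl⟩
  have hτ0 : 0 < τ := by rw [hτ]; positivity
  set q1 : Vn m → ℝ := RT h τ q0 with hq1
  have hsm := RT_dir hwt hτ0 hL0 hA0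
  have hq1d : Differentiable ℝ q1 := (hsm 0).1
  have hq1B : BL q1 := (hsm 0).2.1
  have hq1v : ∀ v, BL fun x => fderiv ℝ q1 x v := fun v => (hsm v).2.2.1
  have hq1P : Par S q1 := hq0P.RT H.even
  have hq1mean : ∫ x, q1 x * h x = 0 := by
    rw [hq1, round_mean hwt hi hτ0 hL0 hA0]; exact hq0mean
  have hvar : ∫ x, q0 x ^ 2 * h x ≤ 2 * τ * En h q0 + ∫ x, q1 x ^ 2 * h x :=
    round_var hwt hi hτ0 hL0 hA0
  have hE1 : En h q1 ≤ En h q := by
    have h1 := hess_bound hwt hi hτ0 hL0 hA0 (fun i : Fin m => ee i) (c := 1) one_pos (by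
      intro D
      rw [one_mul, norm_sq_fderiv (EuclideanSpace.basisFun (Fin m) ℝ)]
      refine Finset.sum_congr rfl fun i _ => ?_
      rw [EuclideanSpace.basisFun_apply]; rfl)
    have h2 : 0 ≤ ∑ i : Fin m, En h (fun x => fderiv ℝ (RT h τ q0) x (ee i)) :=
      Finset.sum_nonneg fun i _ => En_nonneg hwt
    have h3 := h2.trans h1
    have h4 : 0 < 1 / τ := by positivity
    have h5 := nonneg_of_mul_nonneg_right h3 h4
    rw [hq0E] at h5
    linarith
  rw [hq0V, hq0E] at hvar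
  have hn1 : (1 - η ^ 4) * Λ * En h q ≤ ph S.card * ∫ x, q1 x ^ 2 * h x := by
    have h1 : ph S.card * Vr h q ≤ ph S.card * (2 * τ * En h q + ∫ x, q1 x ^ 2 * h x) :=
      mul_le_mul_of_nonneg_left hvar (by linarith)
    have h2 : ph S.card * (2 * τ * En h q) ≤ τ * Λ * En h q := by
      have h3 : ph S.card * (2 * τ) ≤ τ * Λ := by nlinarith
      calc ph S.card * (2 * τ * En h q) = (ph S.card * (2 * τ)) * En h q := by ring
        _ ≤ (τ * Λ) * En h q := mul_le_mul_of_nonneg_right h3 hE0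
    have h3 : (1 - η ^ 4 / 2) * Λ * En h q - τ * Λ * En h q = (1 - η ^ 4) * Λ * En h q := by
      rw [hτ]; ring
    linarith
  have hE1p : 0 < En h q1 := by
    have h1 := hval m hm h hh S q1 hq1P hq1B
    rw [Vr_of_mean hq1mean] at h1
    have h2 : 0 < (1 - η ^ 4) * Λ * En h q := by
      have : 0 < 1 - η ^ 4 := by linarith
      positivity
    have h3 : 0 < Λ * En h q1 := by linarith
    exact (mul_pos_iff_of_pos_left hΛ0).1 h3
  refine core_step hF ht0 ht1 hδ hL hm hΛ hval hη hη1 hd0 hd.le hcond hηn hh hq1P hq1B hq1d hq1v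
    hq1mean hE1p ?_
  refine le_trans ?_ hn1
  refine mul_le_mul_of_nonneg_left hE1 ?_
  have : 0 < 1 - η ^ 4 := by linarith
  positivity

theorem hereditary (hF : Hered t0 δ L Fm)
    (ht0 : 0 ≤ t0) (ht1 : t0 ≤ 5) (hδ : 0 < δ) (hL : 0 ≤ L) (n : ℕ) (h : Vn n → ℝ) (hh : Fm n h)
    {f : Vn n → ℝ} (hf : BL f) : Vr h f ≤ 10 ^ 5 * En h f := by
  have H := hF.good n h hh
  have hwt := H.wt hδ
  have hv := valid_const hF ht0 ht1 hδ hL n
  refine all_of_par hwt.meas hwt.nonneg (H.int hδ) H.even (by norm_num) (fun S q hq hB => ?_) hf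
  have h1 := hv n le_rfl h hh S q hq hB
  have h2 : 0 ≤ Vr h q := Vr_nonneg hwt (H.int hδ) (H.mass hδ) hB
  have h3 : 1 * Vr h q ≤ ph S.card * Vr h q := mul_le_mul_of_nonneg_right (ph_ge _) h2
  linarith

end Pool.Agent.Lib.MP_8d00da_gt.h42o
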