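import Pool.Agent.Lib.MP_8d00da_gt.h42o.OPart
import Pool.Agent.Lib.MP_8d00da_gt.h42o.OGlue
import Pool.Agent.Lib.MP_8d00da_gt.h42o.OStep

/-!
# Theorem O: the moment condition is hereditary (section O18)
-/

namespace Pool.Agent.Lib.MP_8d00da_gt.h42o

open MeasureTheory Set Filter
open Pool.Agent.Lib.MP_8d00da_gt.h25 Pool.Agent.Lib.MP_8d00da_gt.h42
open Pool.Agent.Lib.MP_8d00da_gt.h42s
open scoped Topology NNReal

variable {m : ℕ}

variable {n : ℕ} {K κ c M K' u1 : ℝ} {Ψ : ℝ → ℝ} {g : Fin n → ℝ → ℝ}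

/-- a section of the weight is a weight -/
private lemma ow_glue (σ : Fin m ↪ Fin n) (y : Vn m) (w : Co σ → ℝ) :
    ow Ψ g 0 (glue σ y w) = ow Ψ (fun j => g (σ j)) (∑ i : Co σ, g i.1 (w i)) y := by
  unfold ow
  rw [sum_glue, zero_add]

private lemma GD.le_sq {g : ℝ → ℝ} (hg : GD K κ g) (hκ : 0 ≤ κ) (hK : 0 ≤ K) (x : ℝ) :
    g x ≤ K / 2 * x ^ 2 := by
  have h1 := hg.deriv_sq hκ hK 0
  rw [hg.zero, mul_zero] at h1
  have h2 : deriv g 0 = 0 := by
    have := sq_nonneg (deriv g 0)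
    exact pow_eq_zero_iff (two_ne_zero) |>.mp (le_antisymm h1 this)
  have h3 := hg.upper 0 x
  rw [hg.zero, h2] at h3
  simpa using h3

private lemma norm_coord_sq {n : ℕ} (x : Vn n) (i : Fin n) : (x i) ^ 2 ≤ ‖x‖ ^ 2 := by
  rw [EuclideanSpace.norm_sq_eq]
  have : (x i) ^ 2 = ‖x i‖ ^ 2 := by rw [Real.norm_eq_abs, sq_abs]
  rw [this]
  exact Finset.single_le_sum (f := fun i => ‖x i‖ ^ 2) (fun j _ => sq_nonneg _) (Finset.mem_univ i)

private lemma meas_coord {n : ℕ} (i : Fin n) : Measurable fun x : Vn n => x i :=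
  (EuclideanSpace.proj (𝕜 := ℝ) i).continuous.measurable

lemma mom_hered (hg : ∀ i, GD K κ (g i)) (hK : 0 ≤ K) (hκ : 0 < κ) (hc : 0 < c)
    (hΨ : PD c M K' u1 Ψ) {t0 : ℝ} (ht0 : 0 < t0) (ht : t0 ^ 2 = 25 / 2)
    (hm : ∀ i, ∫ x, (x i) ^ 2 * ow Ψ g 0 x ≤ (1 / 2) * ∫ x, ow Ψ g 0 x)
    (σ : Fin m ↪ Fin n) {z : ℝ}
    (hz : ∑ i ∈ Finset.univ.filter (fun i => ∀ j, σ j ≠ i), g i t0 ≤ z) (j : Fin m) :
    ∫ y, (y j) ^ 2 * ow Ψ (fun j => g (σ j)) z y ≤ ∫ y, ow Ψ (fun j => g (σ j)) z y := by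
  classical
  have hgs : ∀ j, GD K κ ((fun j => g (σ j)) j) := fun j => hg (σ j)
  set gs : Fin m → ℝ → ℝ := fun j => g (σ j) with hgsdef
  set Z : (Co σ → ℝ) → ℝ := fun w => ∑ i : Co σ, g i.1 (w i) with hZ
  set A : ℝ → ℝ := fun u => ∫ y : Vn m, (y j) ^ 2 * ow Ψ gs u y with hA
  set N : ℝ → ℝ := fun u => ∫ y : Vn m, ow Ψ gs u y with hN
  set z0 : ℝ := ∑ i : Co σ, g i.1 t0 with hz0
  set I0 : ℝ := ∫ x : Vn n, ow Ψ g 0 x with hI0
  have hz' : z0 ≤ z := by
    refine le_trans (le_of_eq ?_) hz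
    rw [hz0]
    rw [Finset.sum_subtype (p := fun i => ∀ j, σ j ≠ i) _ (by simp)]
  have hNpos : ∀ u, 0 < N u := fun u => Zf_pos hgs hκ hc hΨ u
  have hI0pos : 0 < I0 := Zf_pos hg hκ hc hΨ 0
  have hApos : ∀ u, 0 ≤ A u := fun u => integral_nonneg fun y => by
    have : 0 < ow Ψ gs u y := Real.exp_pos _
    positivity
  have hZ0 : ∀ w, 0 ≤ Z w := fun w => Finset.sum_nonneg fun i _ => (hg i.1).nonneg hκ.le _
  have hZm : Measurable Z := by
    refine Finset.measurable_sum _ fun i _ => ?_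
    exact ((hg i.1).diff.continuous.measurable).comp (measurable_pi_apply i)
  -- the three integral formulas
  have hgen : ∀ {φ : Vn n → ℝ} (_ : Measurable φ) {C : ℝ} (_ : ∀ x, |φ x| ≤ C * (1 + ‖x‖ ^ 2)),
      Integrable (fun w : Co σ → ℝ => ∫ y : Vn m, φ (glue σ y w) * ow Ψ gs (Z w) y) ∧
      ∫ x, φ x * ow Ψ g 0 x = ∫ w : Co σ → ℝ, ∫ y : Vn m, φ (glue σ y w) * ow Ψ gs (Z w) y := by
    intro φ hφ C hC
    have hi := ow_int hg hκ hc hΨ 0 hφ hC
    obtain ⟨h1, h2⟩ := glue_int σ hi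
    have e : ∀ (y : Vn m) (w : Co σ → ℝ), φ (glue σ y w) * ow Ψ g 0 (glue σ y w) =
        φ (glue σ y w) * ow Ψ gs (Z w) y := fun y w => by rw [ow_glue]
    constructor
    · have := h1.integral_prod_right
      simpa only [e] using this
    · rw [h2]
      simp only [e]
  have f1 : Integrable (fun w : Co σ → ℝ => N (Z w)) ∧ I0 = ∫ w : Co σ → ℝ, N (Z w) := by
    have := hgen (φ := fun _ => 1) measurable_const (C := 1) (fun x => by
      rw [abs_one]; nlinarith [sq_nonneg ‖x‖])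
    simpa only [one_mul] using this
  have f2 : Integrable (fun w : Co σ → ℝ => A (Z w)) ∧
      ∫ x : Vn n, (x (σ j)) ^ 2 * ow Ψ g 0 x = ∫ w : Co σ → ℝ, A (Z w) := by
    have := hgen (φ := fun x => (x (σ j)) ^ 2) ((meas_coord (σ j)).pow_const 2) (C := 1)
      (fun x => by
        rw [abs_of_nonneg (sq_nonneg _)]
        have := norm_coord_sq x (σ j)
        linarith)
    simpa only [glue_range] using this
  have f3 : ∀ i : Co σ, Integrable (fun w : Co σ → ℝ => g i.1 (w i) * N (Z w)) ∧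
      ∫ x : Vn n, g i.1 (x i.1) * ow Ψ g 0 x = ∫ w : Co σ → ℝ, g i.1 (w i) * N (Z w) := by
    intro i
    have := hgen (φ := fun x => g i.1 (x i.1))
      (((hg i.1).diff.continuous.measurable).comp (meas_coord i.1)) (C := K / 2)
      (fun x => by
        rw [abs_of_nonneg ((hg i.1).nonneg hκ.le _)]
        refine ((hg i.1).le_sq hκ.le hK _).trans ?_
        have h1 := norm_coord_sq x i.1
        have h2 : 0 ≤ K / 2 := by positivity
        nlinarith [mul_le_mul_of_nonneg_left h1 h2])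
    simpa only [glue_co, integral_const_mul] using this
  -- Markov
  have hmk : ∫ w : Co σ → ℝ, Z w * N (Z w) ≤ (1 / 2) * z0 * I0 := by
    have e : ∀ w : Co σ → ℝ, Z w * N (Z w) = ∑ i : Co σ, g i.1 (w i) * N (Z w) := fun w => by
      rw [hZ, Finset.sum_mul]
    simp only [e]
    rw [integral_finsetSum _ fun i _ => (f3 i).1, hz0, Finset.mul_sum, Finset.sum_mul]
    refine Finset.sum_le_sum fun i _ => ?_
    rw [← (f3 i).2]
    exact g_mean hg hK hκ hc hΨ i.1 ht0 ht (hm i.1)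
  have hmi : Integrable (fun w : Co σ → ℝ => Z w * N (Z w)) := by
    have e : (fun w : Co σ → ℝ => Z w * N (Z w)) =
        fun w => ∑ i : Co σ, g i.1 (w i) * N (Z w) := by
      funext w
      rw [hZ, Finset.sum_mul]
    rw [e]
    exact integrable_finsetSum _ fun i _ => (f3 i).1
  set S : Set (Co σ → ℝ) := {w | Z w ≤ z0} with hS
  have hSm : MeasurableSet S := measurableSet_le hZm measurable_const
  have hind : Integrable (S.indicator fun w : Co σ → ℝ => N (Z w)) := f1.1.indicator hSm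
  have hhalf : (1 / 2) * I0 ≤ ∫ w, S.indicator (fun w : Co σ → ℝ => N (Z w)) w := by
    rcases lt_or_ge 0 z0 with hpos | hneg
    · have h1 : ∀ w, z0 * N (Z w) - z0 * S.indicator (fun w : Co σ → ℝ => N (Z w)) w ≤
          Z w * N (Z w) := by
        intro w
        by_cases hw : w ∈ S
        · rw [Set.indicator_of_mem hw, sub_self]
          exact mul_nonneg (hZ0 w) (hNpos _).le
        · rw [Set.indicator_of_notMem hw, mul_zero, sub_zero]
          have : z0 < Z w := not_le.mp hw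
          exact mul_le_mul_of_nonneg_right this.le (hNpos _).le
      have h2 : ∫ w, (z0 * N (Z w) - z0 * S.indicator (fun w : Co σ → ℝ => N (Z w)) w) ≤
          ∫ w : Co σ → ℝ, Z w * N (Z w) :=
        integral_mono ((f1.1.const_mul z0).sub (hind.const_mul z0)) hmi h1
      rw [integral_sub (f1.1.const_mul z0) (hind.const_mul z0), integral_const_mul,
        integral_const_mul, ← f1.2] at h2
      have h3 := h2.trans hmk
      have h4 : z0 * (I0 - ∫ w, S.indicator (fun w : Co σ → ℝ => N (Z w)) w) ≤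
          z0 * ((1 / 2) * I0) := by linarith
      have h5 := le_of_mul_le_mul_left h4 hpos
      linarith
    · have hemp : IsEmpty (Co σ) := by
        by_contra hne
        rw [not_isEmpty_iff] at hne
        obtain ⟨i⟩ := hne
        have h1 : 0 < g i.1 t0 := lt_of_lt_of_le (by positivity) ((hg i.1).lower t0)
        have h2 : g i.1 t0 ≤ z0 := Finset.single_le_sum (f := fun i : Co σ => g i.1 t0)
          (fun i _ => (hg i.1).nonneg hκ.le _) (Finset.mem_univ i)
        linarith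
      have h1 : ∀ w, S.indicator (fun w : Co σ → ℝ => N (Z w)) w = N (Z w) := by
        intro w
        apply Set.indicator_of_mem
        show Z w ≤ z0
        rw [hZ, hz0]
        simp
      simp only [h1]
      rw [← f1.2]
      linarith
  -- comparison
  have hcmp : A z0 * ((1 / 2) * I0) ≤ N z0 * ((1 / 2) * I0) := by
    have h1 : ∀ w, A z0 * S.indicator (fun w : Co σ → ℝ => N (Z w)) w ≤ N z0 * A (Z w) := by
      intro w
      by_cases hw : w ∈ S
      · rw [Set.indicator_of_mem hw]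
        have := var_anti (z := Z w) (z' := z0) hgs hκ hc hΨ hw j
        calc A z0 * N (Z w) ≤ A (Z w) * N z0 := this
          _ = N z0 * A (Z w) := mul_comm _ _
      · rw [Set.indicator_of_notMem hw, mul_zero]
        exact mul_nonneg (hNpos _).le (hApos _)
    have h2 := integral_mono (hind.const_mul (A z0)) (f2.1.const_mul (N z0)) h1
    rw [integral_const_mul, integral_const_mul, ← f2.2] at h2
    calc A z0 * ((1 / 2) * I0) ≤ A z0 * ∫ w, S.indicator (fun w : Co σ → ℝ => N (Z w)) w :=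
          mul_le_mul_of_nonneg_left hhalf (hApos _)
      _ ≤ N z0 * ∫ x : Vn n, (x (σ j)) ^ 2 * ow Ψ g 0 x := h2
      _ ≤ N z0 * ((1 / 2) * I0) := mul_le_mul_of_nonneg_left (hm (σ j)) (hNpos _).le
  have hz0A : A z0 ≤ N z0 := le_of_mul_le_mul_right hcmp (by positivity)
  have hfin := var_anti (z := z0) (z' := z) hgs hκ hc hΨ hz' j
  have hfin2 : A z * N z0 ≤ N z * N z0 := by
    calc A z * N z0 ≤ A z0 * N z := hfin
      _ ≤ N z0 * N z := mul_le_mul_of_nonneg_right hz0A (hNpos _).le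
      _ = N z * N z0 := mul_comm _ _
  exact le_of_mul_le_mul_right hfin2 (hNpos _)

theorem OF_hered (hg : ∀ i, GD K κ (g i)) (hK : 0 ≤ K) (hκ : 0 < κ) (hc : 0 < c)
    (hΨ : PD c M K' u1 Ψ) {t0 : ℝ} (ht0 : 0 < t0) (ht : t0 ^ 2 = 25 / 2)
    (hm : ∀ i, ∫ x, (x i) ^ 2 * ow Ψ g 0 x ≤ (1 / 2) * ∫ x, ow Ψ g 0 x) :
    Hered t0 (2 * c * κ) (Lc K M K' u1) (OF Ψ g t0) := by
  constructor
  · rintro m h ⟨σ, z, hz, rfl⟩
    refine ow_SWt (fun j => hg (σ j)) hK hκ.le hc.le hΨ ?_
      (fun i => mom_hered hg hK hκ hc hΨ ht0 ht hm σ hz i)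
    exact le_trans (Finset.sum_nonneg fun i _ => (hg i).nonneg hκ.le _) hz
  · rintro m h ⟨σ, z, hz, rfl⟩ i t hit
    refine ⟨(Fin.succAboveEmb i).trans σ, z + g (σ i) t, ?_, ?_⟩
    · have hfil : Finset.univ.filter (fun i' => ∀ j, ((Fin.succAboveEmb i).trans σ) j ≠ i') =
          insert (σ i) (Finset.univ.filter (fun i' => ∀ j, σ j ≠ i')) := by
        ext i'
        simp only [Finset.mem_filter, Finset.mem_univ, true_and, Finset.mem_insert,
          Function.Embedding.trans_apply, Fin.succAboveEmb_apply]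
        constructor
        · intro h
          by_cases hi : i' = σ i
          · exact Or.inl hi
          · right
            intro j hj
            rcases Fin.eq_self_or_eq_succAbove i j with h1 | ⟨l, h1⟩
            · exact hi (by rw [← hj, h1])
            · exact h l (by rw [← h1]; exact hj)
        · rintro (h | h)
          · intro j hj
            rw [h] at hj
            exact Fin.succAbove_ne i j (σ.injective hj)
          · intro j hj
            exact h _ hj
      rw [hfil, Finset.sum_insert (by simp)]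
      have := (hg (σ i)).mono hκ.le (s := t0) (t := t) (by rw [abs_of_pos ht0]; exact hit)
      linarith
    · funext y
      unfold ow
      congr 2
      rw [Fin.sum_univ_succAbove _ i]
      simp only [ins_same, ins_succ, Function.Embedding.trans_apply, Fin.succAboveEmb_apply]
      ring_nf

theorem smooth_norm (hg : ∀ i, GD K κ (g i)) (hK : 0 ≤ K) (hκ : 0 < κ) (hc : 0 < c)
    (hM : 0 ≤ M) (hK' : 0 ≤ K') (hΨ : PD c M K' u1 Ψ)
    (hm : ∀ i, ∫ x, (x i) ^ 2 * ow Ψ g 0 x ≤ (1 / 2) * ∫ x, ow Ψ g 0 x)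
    {f : Vn n → ℝ} (hf : BL f) : Vr (ow Ψ g 0) f ≤ 10 ^ 5 * En (ow Ψ g 0) f := by
  have ht0 : (0 : ℝ) < Real.sqrt (25 / 2) := Real.sqrt_pos.mpr (by norm_num)
  have ht : Real.sqrt (25 / 2) ^ 2 = 25 / 2 := Real.sq_sqrt (by norm_num)
  have ht1 : Real.sqrt (25 / 2) ≤ 5 := by
    rw [Real.sqrt_le_left (by norm_num)]
    norm_num
  have hL : 0 ≤ Lc K M K' u1 := by
    unfold Lc
    have h1 := Real.sqrt_nonneg (2 * K * |u1|)
    positivity
  refine hereditary (OF_hered hg hK hκ hc hΨ ht0 ht hm) ht0.le ht1 (by positivity) hL n _ ?_ hf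
  refine ⟨Function.Embedding.refl _, 0, ?_, rfl⟩
  have : Finset.univ.filter (fun i : Fin n => ∀ j, (Function.Embedding.refl (Fin n)) j ≠ i) = ∅ := by
    rw [Finset.filter_eq_empty_iff]
    intro i _ h
    exact h i rfl
  rw [this, Finset.sum_empty]

end Pool.Agent.Lib.MP_8d00da_gt.h42o
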