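import Pool.Agent.Lib.MP_8d00da_gt.h42o.ODefs

/-!
# Regularity of Orlicz type weights
-/

namespace Pool.Agent.Lib.MP_8d00da_gt.h42o

open MeasureTheory Set Filter
open Pool.Agent.Lib.MP_8d00da_gt.h25 Pool.Agent.Lib.MP_8d00da_gt.h42
open Pool.Agent.Lib.MP_8d00da_gt.h42s
open scoped Topology NNReal

variable {m : ℕ}

section O13

variable {K κ c M K' u1 : ℝ} {g : ℝ → ℝ} {Ψ : ℝ → ℝ}

lemma GD.conv (hg : GD K κ g) (hκ : 0 ≤ κ) : ConvexOn ℝ univ g := by
  have h1 : ConvexOn ℝ univ (fun x : ℝ => κ * x ^ 2) := by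
    have := (Even.convexOn_pow (𝕜 := ℝ) (n := 2) even_two).smul hκ
    simpa [smul_eq_mul] using this
  have h2 := hg.sconv.add h1
  have h3 : ((fun x => g x - κ * x ^ 2) + fun x : ℝ => κ * x ^ 2) = g := by
    funext x
    simp
  rwa [h3] at h2

lemma GD.lower (hg : GD K κ g) (x : ℝ) : κ * x ^ 2 ≤ g x := by
  have h := hg.sconv.2 (mem_univ x) (mem_univ (-x)) (by norm_num : (0 : ℝ) ≤ 1 / 2)
    (by norm_num : (0 : ℝ) ≤ 1 / 2) (by norm_num)
  simp only [smul_eq_mul, hg.even] at h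
  have e : (1 / 2 * x + 1 / 2 * -x : ℝ) = 0 := by ring
  rw [e, hg.zero] at h
  nlinarith

lemma GD.nonneg (hg : GD K κ g) (hκ : 0 ≤ κ) (x : ℝ) : 0 ≤ g x :=
  le_trans (by positivity) (hg.lower x)

lemma GD.mono (hg : GD K κ g) (hκ : 0 ≤ κ) {s t : ℝ} (hst : |s| ≤ |t|) : g s ≤ g t := by
  rcases eq_or_ne t 0 with rfl | ht
  · have : s = 0 := by simpa using hst
    rw [this]
  · have ht0 : 0 < |t| := abs_pos.2 ht
    have h1 : |s / t| ≤ 1 := by
      rw [abs_div, div_le_one ht0]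
      exact hst
    obtain ⟨h2, h3⟩ := abs_le.1 h1
    have h := (hg.conv hκ).2 (mem_univ t) (mem_univ (-t))
      (by linarith : (0 : ℝ) ≤ (1 + s / t) / 2) (by linarith : (0 : ℝ) ≤ (1 - s / t) / 2)
      (by ring)
    simp only [smul_eq_mul, hg.even] at h
    have e : (1 + s / t) / 2 * t + (1 - s / t) / 2 * -t = s := by
      field_simp
      ring
    rw [e] at h
    nlinarith

lemma GD.upper (hg : GD K κ g) (x y : ℝ) :
    g y ≤ g x + deriv g x * (y - x) + K / 2 * (y - x) ^ 2 := by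
  set h : ℝ → ℝ := fun y => g x + deriv g x * (y - x) + K / 2 * (y - x) ^ 2 - g y with hh
  have hd : ∀ y, HasDerivAt h (deriv g x + K * (y - x) - deriv g y) y := by
    intro y
    have h1 : HasDerivAt (fun y : ℝ => y - x) 1 y := (hasDerivAt_id y).sub_const x
    have h2 := (hg.diff y).hasDerivAt
    have h3 := (((h1.const_mul (deriv g x)).const_add (g x)).add
      ((h1.pow 2).const_mul (K / 2))).sub h2
    refine HasDerivAt.congr_deriv h3 ?_
    simp
    ring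
  have hdiff : Differentiable ℝ h := fun y => (hd y).differentiableAt
  have h0 : h x = 0 := by simp [hh]
  have key : 0 ≤ h y := by
    rw [← h0]
    rcases le_total x y with hxy | hxy
    · have hm : MonotoneOn h (Ici x) := by
        apply monotoneOn_of_deriv_nonneg (convex_Ici x) hdiff.continuous.continuousOn
          hdiff.differentiableOn
        intro z hz
        rw [interior_Ici] at hz
        have hz' : x < z := hz
        rw [(hd z).deriv]
        have := hg.lip z x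
        rw [abs_of_pos (by linarith : 0 < z - x)] at this
        have := le_abs_self (deriv g z - deriv g x)
        linarith
      exact hm self_mem_Ici hxy hxy
    · have hm : AntitoneOn h (Iic x) := by
        apply antitoneOn_of_deriv_nonpos (convex_Iic x) hdiff.continuous.continuousOn
          hdiff.differentiableOn
        intro z hz
        rw [interior_Iic] at hz
        have hz' : z < x := hz
        rw [(hd z).deriv]
        have := hg.lip z x
        rw [abs_of_neg (by linarith : z - x < 0)] at this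
        have := neg_abs_le (deriv g z - deriv g x)
        linarith
      exact hm hxy self_mem_Iic hxy
  simp only [hh] at key
  linarith

private lemma GD_deriv_odd (hg : GD K κ g) (x : ℝ) : deriv g (-x) = - deriv g x := by
  have h1 : deriv (fun y => g (-y)) x = -deriv g (-x) := deriv_comp_neg g x
  have h2 : (fun y => g (-y)) = g := funext hg.even
  rw [h2] at h1
  linarith

lemma GD.deriv_sq (hg : GD K κ g) (hκ : 0 ≤ κ) (hK : 0 ≤ K) (x : ℝ) :
    deriv g x ^ 2 ≤ 2 * K * g x := by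
  rcases eq_or_lt_of_le hK with h0 | h0
  · have h1 := hg.lip x (-x)
    rw [GD_deriv_odd hg, ← h0, zero_mul] at h1
    have h2 := abs_nonpos_iff.1 h1
    have h3 : deriv g x = 0 := by linarith
    rw [h3, ← h0]
    simp
  · have h1 := hg.upper x (x - deriv g x / K)
    have h2 := hg.nonneg hκ (x - deriv g x / K)
    have h3 : deriv g x * (x - deriv g x / K - x) + K / 2 * (x - deriv g x / K - x) ^ 2 =
        -(deriv g x ^ 2 / (2 * K)) := by
      field_simp
      ring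
    have h4 : deriv g x ^ 2 / (2 * K) ≤ g x := by linarith
    rw [div_le_iff₀ (by positivity)] at h4
    linarith

lemma GD.weaken {K2 κ2 : ℝ} (hg : GD K κ g) (hK : K ≤ K2) (hκ : κ2 ≤ κ) : GD K2 κ2 g := by
  refine ⟨hg.even, hg.zero, hg.diff, ?_, ?_⟩
  · intro x y
    refine (hg.lip x y).trans ?_
    gcongr
  · have h1 : ConvexOn ℝ univ (fun x : ℝ => (κ - κ2) * x ^ 2) := by
      have := (Even.convexOn_pow (𝕜 := ℝ) (n := 2) even_two).smul (sub_nonneg.2 hκ)
      simpa [smul_eq_mul] using this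
    have h2 := hg.sconv.add h1
    have h3 : ((fun x => g x - κ * x ^ 2) + fun x : ℝ => (κ - κ2) * x ^ 2) =
        fun x => g x - κ2 * x ^ 2 := by
      funext x
      simp only [Pi.add_apply]
      ring
    rwa [h3] at h2

lemma PD.ge (hΨ : PD c M K' u1 Ψ) {u v : ℝ} (huv : u ≤ v) : c * (v - u) ≤ Ψ v - Ψ u :=
  mul_sub_le_image_sub_of_le_deriv hΨ.diff hΨ.lo huv

lemma PD.mono (hΨ : PD c M K' u1 Ψ) (hc : 0 ≤ c) : Monotone Ψ := by
  intro u v huv
  have h := hΨ.ge huv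
  have : 0 ≤ c * (v - u) := mul_nonneg hc (by linarith)
  linarith

/-- The Lipschitz constant of the gradients. -/
noncomputable def Lc (K M K' u1 : ℝ) : ℝ :=
  M * K + Real.sqrt (2 * K * |u1|) * (K' * (Real.sqrt (2 * K * |u1|) + K / 2) + M)

variable {g : Fin m → ℝ → ℝ}

private lemma vn_sq (x : Vn m) : ‖x‖ ^ 2 = ∑ j, x j ^ 2 := by
  rw [EuclideanSpace.norm_sq_eq]
  exact Finset.sum_congr rfl fun j _ => by rw [Real.norm_eq_abs, sq_abs]

/-- gradient of the sum -/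
private noncomputable def Gv (g : Fin m → ℝ → ℝ) (x : Vn m) : Vn m :=
  WithLp.toLp 2 fun j => deriv (g j) (x j)

private lemma ow_hasFDeriv (hg : ∀ i, GD K κ (g i)) (hΨ : PD c M K' u1 Ψ) (z : ℝ) (x : Vn m) :
    HasFDerivAt (fun y : Vn m => Ψ (z + ∑ j, g j (y j)))
      (deriv Ψ (z + ∑ j, g j (x j)) • innerSL ℝ (Gv g x)) x := by
  have h1 : ∀ j : Fin m, HasFDerivAt (fun y : Vn m => g j (y j))
      (deriv (g j) (x j) • (EuclideanSpace.proj j : Vn m →L[ℝ] ℝ)) x := by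
    intro j
    have h2 := ((hg j).diff (x j)).hasDerivAt
    have h3 : HasFDerivAt (fun y : Vn m => y j) (EuclideanSpace.proj j : Vn m →L[ℝ] ℝ) x :=
      (EuclideanSpace.proj j : Vn m →L[ℝ] ℝ).hasFDerivAt
    exact HasDerivAt.comp_hasFDerivAt x h2 h3
  have h4 : HasFDerivAt (fun y : Vn m => z + ∑ j, g j (y j))
      (∑ j, deriv (g j) (x j) • (EuclideanSpace.proj j : Vn m →L[ℝ] ℝ)) x :=
    (HasFDerivAt.fun_sum fun j _ => h1 j).const_add z
  have h5 := (hΨ.diff (z + ∑ j, g j (x j))).hasDerivAt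
  have h6 := HasDerivAt.comp_hasFDerivAt x h5 h4
  have h7 : innerSL ℝ (Gv g x) =
      ∑ j, deriv (g j) (x j) • (EuclideanSpace.proj j : Vn m →L[ℝ] ℝ) := by
    ext v
    simp [Gv, PiLp.inner_apply, mul_comm]
  rw [h7]
  exact h6

private lemma Gv_sq (hg : ∀ i, GD K κ (g i)) (hκ : 0 ≤ κ) (hK : 0 ≤ K) (x : Vn m) :
    ‖Gv g x‖ ^ 2 ≤ 2 * K * ∑ j, g j (x j) := by
  rw [vn_sq, Finset.mul_sum]
  exact Finset.sum_le_sum fun j _ => (hg j).deriv_sq hκ hK (x j)

private lemma Gv_lip (hg : ∀ i, GD K κ (g i)) (hK : 0 ≤ K) (x y : Vn m) :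
    ‖Gv g x - Gv g y‖ ≤ K * ‖x - y‖ := by
  have h1 : ‖Gv g x - Gv g y‖ ^ 2 ≤ (K * ‖x - y‖) ^ 2 := by
    rw [mul_pow, vn_sq, vn_sq, Finset.mul_sum]
    refine Finset.sum_le_sum fun j _ => ?_
    have h2 := (hg j).lip (x j) (y j)
    have h3 : (Gv g x - Gv g y) j = deriv (g j) (x j) - deriv (g j) (y j) := rfl
    have h4 : (x - y) j = x j - y j := rfl
    rw [h3, h4, ← sq_abs, ← sq_abs (x j - y j), ← mul_pow]
    exact pow_le_pow_left₀ (abs_nonneg _) h2 2
  exact le_of_sq_le_sq h1 (by positivity)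

private lemma u_upper (hg : ∀ i, GD K κ (g i)) (z : ℝ) (x y : Vn m) :
    (z + ∑ j, g j (y j)) - (z + ∑ j, g j (x j)) ≤
      ‖Gv g x‖ * ‖x - y‖ + K / 2 * ‖x - y‖ ^ 2 := by
  have h1 : ∑ j, g j (y j) ≤ ∑ j, (g j (x j) + deriv (g j) (x j) * (y j - x j) +
      K / 2 * (y j - x j) ^ 2) := Finset.sum_le_sum fun j _ => (hg j).upper (x j) (y j)
  rw [Finset.sum_add_distrib, Finset.sum_add_distrib, ← Finset.mul_sum] at h1
  have h2 : ∑ j, (y j - x j) ^ 2 = ‖x - y‖ ^ 2 := by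
    rw [vn_sq]
    refine Finset.sum_congr rfl fun j _ => ?_
    have h4 : (x - y) j = x j - y j := rfl
    rw [h4]
    ring
  have h3 : ∑ j, deriv (g j) (x j) * (y j - x j) ≤ ‖Gv g x‖ * ‖x - y‖ := by
    have h4 : ∑ j, deriv (g j) (x j) * (y j - x j) = inner ℝ (Gv g x) (y - x) := by
      simp [Gv, PiLp.inner_apply, mul_comm]
    rw [h4, norm_sub_rev]
    exact real_inner_le_norm _ _
  rw [h2] at h1
  linarith

private lemma ow_bound (hg : ∀ i, GD K κ (g i)) (hK : 0 ≤ K) (hκ : 0 ≤ κ) (hc : 0 ≤ c)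
    (hΨ : PD c M K' u1 Ψ) {z : ℝ} (hz : 0 ≤ z) (x y : Vn m)
    (hxy : z + ∑ j, g j (x j) ≤ z + ∑ j, g j (y j)) :
    ‖deriv Ψ (z + ∑ j, g j (x j)) • Gv g x - deriv Ψ (z + ∑ j, g j (y j)) • Gv g y‖ ≤
      Lc K M K' u1 * ‖x - y‖ := by
  set ux := z + ∑ j, g j (x j) with hux
  set uy := z + ∑ j, g j (y j) with huy
  set A := Real.sqrt (2 * K * |u1|) with hA
  have hA0 : 0 ≤ A := Real.sqrt_nonneg _
  have hM : 0 ≤ M := hc.trans ((hΨ.lo 0).trans (hΨ.hi 0))
  have hK' : 0 ≤ K' := by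
    have h := hΨ.lip 1 0
    simp only [sub_zero, abs_one, mul_one] at h
    exact (abs_nonneg _).trans h
  have hux0 : 0 ≤ ux := by
    have : 0 ≤ ∑ j, g j (x j) := Finset.sum_nonneg fun j _ => (hg j).nonneg hκ _
    linarith
  have hn := norm_nonneg (x - y)
  have h1 : deriv Ψ ux • Gv g x - deriv Ψ uy • Gv g y =
      deriv Ψ uy • (Gv g x - Gv g y) + (deriv Ψ ux - deriv Ψ uy) • Gv g x := by
    rw [smul_sub, sub_smul]
    abel
  have h2 : ‖deriv Ψ uy • (Gv g x - Gv g y)‖ ≤ M * K * ‖x - y‖ := by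
    rw [norm_smul, Real.norm_eq_abs, abs_of_nonneg (hc.trans (hΨ.lo uy))]
    calc deriv Ψ uy * ‖Gv g x - Gv g y‖ ≤ M * (K * ‖x - y‖) :=
          mul_le_mul (hΨ.hi uy) (Gv_lip hg hK x y) (norm_nonneg _) hM
      _ = M * K * ‖x - y‖ := by ring
  have h3 : ‖(deriv Ψ ux - deriv Ψ uy) • Gv g x‖ ≤ A * (K' * (A + K / 2) + M) * ‖x - y‖ := by
    rw [norm_smul, Real.norm_eq_abs]
    rcases le_or_gt u1 ux with hu | hu
    · rw [hΨ.cst ux hu, hΨ.cst uy (hu.trans hxy), sub_self, abs_zero, zero_mul]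
      positivity
    · have hG : ‖Gv g x‖ ≤ A := by
        apply Real.le_sqrt_of_sq_le
        refine (Gv_sq hg hκ hK x).trans ?_
        have h4 : ∑ j, g j (x j) ≤ |u1| := by
          have := le_abs_self u1
          linarith
        gcongr
      have hD : |deriv Ψ ux - deriv Ψ uy| ≤ (K' * (A + K / 2) + M) * ‖x - y‖ := by
        rcases le_or_gt ‖x - y‖ 1 with h5 | h5
        · have h6 := hΨ.lip ux uy
          have h7 : |ux - uy| = uy - ux := by
            rw [abs_sub_comm, abs_of_nonneg (by linarith)]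
          rw [h7] at h6
          have h8 := u_upper hg z x y
          rw [← hux, ← huy] at h8
          have h9 : uy - ux ≤ (A + K / 2) * ‖x - y‖ := by
            have h10 : ‖x - y‖ ^ 2 ≤ ‖x - y‖ := by
              rw [sq]
              exact mul_le_of_le_one_left hn h5
            calc uy - ux ≤ ‖Gv g x‖ * ‖x - y‖ + K / 2 * ‖x - y‖ ^ 2 := h8
              _ ≤ A * ‖x - y‖ + K / 2 * ‖x - y‖ := by gcongr
              _ = (A + K / 2) * ‖x - y‖ := by ring
          calc |deriv Ψ ux - deriv Ψ uy| ≤ K' * (uy - ux) := h6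
            _ ≤ K' * ((A + K / 2) * ‖x - y‖) := by gcongr
            _ ≤ (K' * (A + K / 2) + M) * ‖x - y‖ := by
              have : 0 ≤ M * ‖x - y‖ := by positivity
              linarith
        · have a1 := hΨ.lo ux
          have a2 := hΨ.hi ux
          have a3 := hΨ.lo uy
          have a4 := hΨ.hi uy
          have h6 : |deriv Ψ ux - deriv Ψ uy| ≤ M := by
            rw [abs_le]
            constructor <;> linarith
          have h7 : M ≤ M * ‖x - y‖ := le_mul_of_one_le_right hM h5.le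
          have h8 : 0 ≤ K' * (A + K / 2) * ‖x - y‖ := by positivity
          linarith
      calc |deriv Ψ ux - deriv Ψ uy| * ‖Gv g x‖
          ≤ ((K' * (A + K / 2) + M) * ‖x - y‖) * A :=
            mul_le_mul hD hG (norm_nonneg _) (by positivity)
        _ = A * (K' * (A + K / 2) + M) * ‖x - y‖ := by ring
  rw [h1]
  refine (norm_add_le _ _).trans ?_
  unfold Lc
  rw [← hA]
  linarith

private lemma fd_norm (v w : Vn m) (a b : ℝ) :
    ‖a • innerSL ℝ v - b • innerSL ℝ w‖ ≤ ‖a • v - b • w‖ := by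
  refine ContinuousLinearMap.opNorm_le_bound _ (norm_nonneg _) fun t => ?_
  have h : (a • innerSL ℝ v - b • innerSL ℝ w) t = inner ℝ (a • v - b • w) t := by
    rw [inner_sub_left, real_inner_smul_left, real_inner_smul_left]
    rfl
  rw [h]
  exact norm_inner_le_norm _ _

lemma ow_reg (hg : ∀ i, GD K κ (g i)) (hK : 0 ≤ K) (hκ : 0 ≤ κ) (hc : 0 ≤ c)
    (hΨ : PD c M K' u1 Ψ) {z : ℝ} (hz : 0 ≤ z) :
    Differentiable ℝ (fun y : Vn m => Ψ (z + ∑ j, g j (y j))) ∧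
      ∀ x y : Vn m, ‖fderiv ℝ (fun y : Vn m => Ψ (z + ∑ j, g j (y j))) x -
        fderiv ℝ (fun y : Vn m => Ψ (z + ∑ j, g j (y j))) y‖ ≤ Lc K M K' u1 * ‖x - y‖ := by
  refine ⟨fun x => (ow_hasFDeriv hg hΨ z x).differentiableAt, ?_⟩
  intro x y
  rw [(ow_hasFDeriv hg hΨ z x).fderiv, (ow_hasFDeriv hg hΨ z y).fderiv]
  rcases le_total (z + ∑ j, g j (x j)) (z + ∑ j, g j (y j)) with h | h
  · exact (fd_norm _ _ _ _).trans (ow_bound hg hK hκ hc hΨ hz x y h)
  · rw [norm_sub_rev, norm_sub_rev x y]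
    exact (fd_norm _ _ _ _).trans (ow_bound hg hK hκ hc hΨ hz y x h)

lemma ow_lc (hg : ∀ i, GD K κ (g i)) (hκ : 0 ≤ κ) (hc : 0 ≤ c) (hΨ : PD c M K' u1 Ψ) (z : ℝ) :
    LogConc (ow Ψ g z) := by
  intro a ha0 ha1 x y
  unfold ow
  rw [← Real.exp_mul, ← Real.exp_mul, ← Real.exp_add]
  apply Real.exp_le_exp.2
  have h1 : z + ∑ j, g j (((1 - a) • x + a • y : Vn m) j) ≤
      (1 - a) • (z + ∑ j, g j (x j)) + a • (z + ∑ j, g j (y j)) := by
    have h2 : ∑ j, g j (((1 - a) • x + a • y : Vn m) j) ≤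
        ∑ j, ((1 - a) * g j (x j) + a * g j (y j)) := by
      refine Finset.sum_le_sum fun j _ => ?_
      have h3 := ((hg j).conv hκ).2 (mem_univ (x j)) (mem_univ (y j))
        (by linarith : (0 : ℝ) ≤ 1 - a) ha0.le (by ring)
      exact h3
    rw [Finset.sum_add_distrib, ← Finset.mul_sum, ← Finset.mul_sum] at h2
    simp only [smul_eq_mul]
    linarith
  have h4 := hΨ.mono hc h1
  have h5 := hΨ.conv.2 (mem_univ (z + ∑ j, g j (x j))) (mem_univ (z + ∑ j, g j (y j)))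
    (by linarith : (0 : ℝ) ≤ 1 - a) ha0.le (by ring)
  have h6 := h4.trans h5
  simp only [smul_eq_mul] at h6
  linarith

set_option linter.unusedVariables false in
lemma ow_smid (hg : ∀ i, GD K κ (g i)) (hκ : 0 ≤ κ) (hc : 0 ≤ c) (hΨ : PD c M K' u1 Ψ) (z : ℝ)
    (x y : Vn m) :
    ow Ψ g z x * ow Ψ g z y * Real.exp (2 * c * κ * ‖x - y‖ ^ 2 / 4) ≤
      ow Ψ g z ((1 / 2 : ℝ) • (x + y)) ^ 2 := by
  unfold ow
  rw [← Real.exp_add, ← Real.exp_add, ← Real.exp_nat_mul]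
  apply Real.exp_le_exp.2
  set ux := z + ∑ j, g j (x j) with hux
  set uy := z + ∑ j, g j (y j) with huy
  set um := z + ∑ j, g j (((1 / 2 : ℝ) • (x + y) : Vn m) j) with hum
  have h1 : um + κ * ‖x - y‖ ^ 2 / 4 ≤ (ux + uy) / 2 := by
    have h2 : ∑ j, (g j (((1 / 2 : ℝ) • (x + y) : Vn m) j) + κ / 4 * (x j - y j) ^ 2) ≤
        ∑ j, (1 / 2 * g j (x j) + 1 / 2 * g j (y j)) := by
      refine Finset.sum_le_sum fun j _ => ?_
      have h3 := (hg j).sconv.2 (mem_univ (x j)) (mem_univ (y j))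
        (by norm_num : (0 : ℝ) ≤ 1 / 2) (by norm_num : (0 : ℝ) ≤ 1 / 2) (by norm_num)
      simp only [smul_eq_mul] at h3
      have h4 : ((1 / 2 : ℝ) • (x + y) : Vn m) j = 1 / 2 * x j + 1 / 2 * y j := by
        simp only [PiLp.smul_apply, PiLp.add_apply, smul_eq_mul]
        ring
      rw [h4]
      nlinarith
    rw [Finset.sum_add_distrib, Finset.sum_add_distrib, ← Finset.mul_sum, ← Finset.mul_sum,
      ← Finset.mul_sum] at h2
    have h5 : ∑ j, (x j - y j) ^ 2 = ‖x - y‖ ^ 2 := by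
      rw [vn_sq]
      rfl
    rw [h5] at h2
    linarith
  have h6 : Ψ ((ux + uy) / 2) ≤ 1 / 2 * Ψ ux + 1 / 2 * Ψ uy := by
    have h7 := hΨ.conv.2 (mem_univ ux) (mem_univ uy)
      (by norm_num : (0 : ℝ) ≤ 1 / 2) (by norm_num : (0 : ℝ) ≤ 1 / 2) (by norm_num)
    simp only [smul_eq_mul] at h7
    have e : 1 / 2 * ux + 1 / 2 * uy = (ux + uy) / 2 := by ring
    rwa [e] at h7
  have h8 : 0 ≤ κ * ‖x - y‖ ^ 2 / 4 := by positivity
  have h9 := hΨ.ge (show um ≤ (ux + uy) / 2 by linarith)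
  have h10 : c * (κ * ‖x - y‖ ^ 2 / 4) ≤ c * ((ux + uy) / 2 - um) := by
    apply mul_le_mul_of_nonneg_left _ hc
    linarith
  push_cast
  linarith

lemma ow_even (hg : ∀ i, GD K κ (g i)) (z : ℝ) (i : Fin m) (x : Vn m) :
    ow Ψ g z (fl i x) = ow Ψ g z x := by
  unfold ow
  have h : ∀ j, g j (fl i x j) = g j (x j) := by
    intro j
    rw [fl_apply]
    split_ifs with h1
    · exact (hg j).even _
    · rfl
  simp only [h]

lemma ow_SWt (hg : ∀ i, GD K κ (g i)) (hK : 0 ≤ K) (hκ : 0 ≤ κ) (hc : 0 ≤ c)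
    (hΨ : PD c M K' u1 Ψ) {z : ℝ} (hz : 0 ≤ z)
    (hmom : ∀ i, ∫ x, (x i) ^ 2 * ow Ψ g z x ≤ ∫ x, ow Ψ g z x) :
    SWt (2 * c * κ) (Lc K M K' u1) (ow Ψ g z) where
  reg := ⟨fun y : Vn m => Ψ (z + ∑ j, g j (y j)), fun _ => rfl,
    (ow_reg hg hK hκ hc hΨ hz).1, (ow_reg hg hK hκ hc hΨ hz).2⟩
  lc := ow_lc hg hκ hc hΨ z
  smid := ow_smid hg hκ hc hΨ z
  even := ow_even hg z
  mom := hmom

private lemma ow_le (hg : ∀ i, GD K κ (g i)) (hκ : 0 ≤ κ) (hc : 0 ≤ c) (hΨ : PD c M K' u1 Ψ)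
    (z : ℝ) (x : Vn m) : ow Ψ g z x ≤ Real.exp (-Ψ z) * Real.exp (-(c * κ) * ‖x‖ ^ 2) := by
  unfold ow
  rw [← Real.exp_add]
  apply Real.exp_le_exp.2
  have h1 : κ * ‖x‖ ^ 2 ≤ ∑ j, g j (x j) := by
    rw [vn_sq, Finset.mul_sum]
    exact Finset.sum_le_sum fun j _ => (hg j).lower (x j)
  have h2 : 0 ≤ κ * ‖x‖ ^ 2 := by positivity
  have h3 := hΨ.ge (show z ≤ z + ∑ j, g j (x j) by linarith)
  have h4 : c * (κ * ‖x‖ ^ 2) ≤ c * (z + ∑ j, g j (x j) - z) := by
    apply mul_le_mul_of_nonneg_left _ hc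
    linarith
  linarith

private lemma ow_cont (hg : ∀ i, GD K κ (g i)) (hΨ : PD c M K' u1 Ψ) (z : ℝ) :
    Continuous (ow Ψ g z) := by
  unfold ow
  have h1 : Continuous fun y : Vn m => Ψ (z + ∑ j, g j (y j)) :=
    continuous_iff_continuousAt.2 fun x => (ow_hasFDeriv hg hΨ z x).continuousAt
  exact Real.continuous_exp.comp h1.neg

private lemma gauss_int {b : ℝ} (hb : 0 < b) :
    Integrable (fun x : Vn m => Real.exp (-b * ‖x‖ ^ 2)) := by
  have := GaussianFourier.integrable_cexp_neg_mul_sq_norm_add (V := Vn m)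
    (b := (b : ℂ)) (by rw [Complex.ofReal_re]; exact hb) 0 0
  refine (this.norm).congr ?_
  refine Eventually.of_forall fun x => ?_
  simp only [Complex.norm_exp]
  congr 1
  simp only [zero_mul, add_zero]
  rw [← Complex.ofReal_neg, ← Complex.ofReal_pow, ← Complex.ofReal_mul, Complex.ofReal_re]

/-- integrability of polynomially bounded functions -/
lemma ow_int (hg : ∀ i, GD K κ (g i)) (hκ : 0 < κ) (hc : 0 < c) (hΨ : PD c M K' u1 Ψ) (z : ℝ)
    {φ : Vn m → ℝ} (hφ : Measurable φ) {C : ℝ} (hC : ∀ x, |φ x| ≤ C * (1 + ‖x‖ ^ 2)) :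
    Integrable fun x => φ x * ow Ψ g z x := by
  have hC0 : 0 ≤ C := by
    have h := (abs_nonneg _).trans (hC 0)
    simpa using h
  have hb : 0 < c * κ / 2 := by positivity
  have hG := (gauss_int (m := m) hb).const_mul (C * (1 + 2 / (c * κ)) * Real.exp (-Ψ z))
  refine Integrable.mono' hG (hφ.mul (ow_cont hg hΨ z).measurable).aestronglyMeasurable ?_
  refine Eventually.of_forall fun x => ?_
  have h1 := ow_le hg hκ.le hc.le hΨ z x
  have h0 : 0 ≤ ow Ψ g z x := (Real.exp_pos _).le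
  rw [Real.norm_eq_abs, abs_mul, abs_of_nonneg h0]
  have h2 : 1 + ‖x‖ ^ 2 ≤ (1 + 2 / (c * κ)) * Real.exp (c * κ / 2 * ‖x‖ ^ 2) := by
    have h3 := Real.add_one_le_exp (c * κ / 2 * ‖x‖ ^ 2)
    have h4 : 0 ≤ c * κ / 2 * ‖x‖ ^ 2 := by positivity
    have h5 : ‖x‖ ^ 2 = 2 / (c * κ) * (c * κ / 2 * ‖x‖ ^ 2) := by
      field_simp
    have h6 : 0 ≤ 2 / (c * κ) := by positivity
    have h7 : ‖x‖ ^ 2 ≤ 2 / (c * κ) * Real.exp (c * κ / 2 * ‖x‖ ^ 2) := by
      calc ‖x‖ ^ 2 = 2 / (c * κ) * (c * κ / 2 * ‖x‖ ^ 2) := h5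
        _ ≤ _ := by
          apply mul_le_mul_of_nonneg_left _ h6
          linarith
    linarith
  have h8 : Real.exp (-(c * κ) * ‖x‖ ^ 2) * Real.exp (c * κ / 2 * ‖x‖ ^ 2) =
      Real.exp (-(c * κ / 2) * ‖x‖ ^ 2) := by
    rw [← Real.exp_add]
    congr 1
    ring
  calc |φ x| * ow Ψ g z x
      ≤ (C * ((1 + 2 / (c * κ)) * Real.exp (c * κ / 2 * ‖x‖ ^ 2))) *
          (Real.exp (-Ψ z) * Real.exp (-(c * κ) * ‖x‖ ^ 2)) := by
        apply mul_le_mul _ h1 h0 (by positivity)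
        exact (hC x).trans (mul_le_mul_of_nonneg_left h2 hC0)
    _ = C * (1 + 2 / (c * κ)) * Real.exp (-Ψ z) *
          (Real.exp (-(c * κ) * ‖x‖ ^ 2) * Real.exp (c * κ / 2 * ‖x‖ ^ 2)) := by ring
    _ = _ := by rw [h8]

end O13

end Pool.Agent.Lib.MP_8d00da_gt.h42o
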