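import Pool.Agent.Lib.MP_8d00da_gt.h42o.ODefs
import Pool.Agent.Lib.MP_8d00da_gt.h42o.OReg
import Pool.Agent.Lib.MP_8d00da_gt.h42o.OPar
import Pool.Agent.Lib.MP_8d00da_gt.h42o.OMom
import Pool.Agent.Lib.MP_8d00da_gt.h42s.FinalGT

/-!
# O-19: scaling of the coordinates
-/

namespace Pool.Agent.Lib.MP_8d00da_gt.h42o

open MeasureTheory Set Filter
open Pool.Agent.Lib.MP_8d00da_gt.h25 Pool.Agent.Lib.MP_8d00da_gt.h42
open Pool.Agent.Lib.MP_8d00da_gt.h42s
open scoped Topology NNReal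

section O19

variable {n : ℕ} {K κ c M K' u1 : ℝ} {Ψ : ℝ → ℝ} {g : Fin n → ℝ → ℝ}

/-- Scaling of the coordinates. -/
private noncomputable def osD (s : Fin n → ℝ) (hs : ∀ j, s j ≠ 0) : Vn n ≃ₗ[ℝ] Vn n where
  toFun x := WithLp.toLp 2 fun j => s j * x j
  invFun x := WithLp.toLp 2 fun j => (s j)⁻¹ * x j
  map_add' x y := by
    ext j
    simp [mul_add]
  map_smul' a x := by
    ext j
    simp
    ring
  left_inv x := by
    ext j
    simp [← mul_assoc, inv_mul_cancel₀ (hs j)]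
  right_inv x := by
    ext j
    simp [← mul_assoc, mul_inv_cancel₀ (hs j)]

private lemma osD_apply (s : Fin n → ℝ) (hs : ∀ j, s j ≠ 0) (x : Vn n) (j : Fin n) :
    osD s hs x j = s j * x j := rfl

private lemma osD_ee (s : Fin n → ℝ) (hs : ∀ j, s j ≠ 0) (j : Fin n) :
    osD s hs (ee j) = s j • ee j := by
  ext k
  rw [osD_apply, PiLp.smul_apply, ee_apply, smul_eq_mul]
  split_ifs with h
  · rw [h]
  · simp

private lemma os_cov (D : Vn n ≃ₗ[ℝ] Vn n) :
    ∃ J : ℝ, 0 < J ∧ ∀ Φ : Vn n → ℝ, ∫ x, Φ (D x) = J * ∫ x, Φ x := by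
  have hdet : LinearMap.det (D : Vn n →ₗ[ℝ] Vn n) ≠ 0 := D.isUnit_det'.ne_zero
  have hmap := Measure.map_linearMap_addHaar_eq_smul_addHaar (volume : Measure (Vn n)) hdet
  refine ⟨|(LinearMap.det (D : Vn n →ₗ[ℝ] Vn n))⁻¹|, abs_pos.2 (inv_ne_zero hdet), fun Φ => ?_⟩
  have hemb : MeasurableEmbedding (D : Vn n → Vn n) :=
    D.toContinuousLinearEquiv.toHomeomorph.toMeasurableEquiv.measurableEmbedding
  have h1 : ∫ x, Φ (D x) = ∫ x, Φ x ∂(Measure.map (D : Vn n → Vn n) volume) :=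
    (hemb.integral_map Φ).symm
  have h2 : Measure.map (D : Vn n → Vn n) volume =
      ENNReal.ofReal |(LinearMap.det (D : Vn n →ₗ[ℝ] Vn n))⁻¹| • (volume : Measure (Vn n)) := hmap
  rw [h1, h2, integral_smul_measure, ENNReal.toReal_ofReal (abs_nonneg _), smul_eq_mul]

private lemma os_GD {g : ℝ → ℝ} (hg : GD K κ g) {s : ℝ} (hs : 0 < s) :
    GD (K * s ^ 2) (κ * s ^ 2) fun x => g (s * x) := by
  have hd : ∀ x, deriv (fun x => g (s * x)) x = s * deriv g (s * x) := by
    intro x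
    have h1 : HasDerivAt (fun x => s * x) s x := by simpa using (hasDerivAt_id x).const_mul s
    have h2 := (hg.diff (s * x)).hasDerivAt.comp x h1
    rw [show (fun x => g (s * x)) = g ∘ (fun x => s * x) from rfl, h2.deriv]
    ring
  refine ⟨fun x => by simp only [mul_neg]; exact hg.even _, by simp [hg.zero],
    hg.diff.comp (by fun_prop), fun x y => ?_, ?_⟩
  · rw [hd, hd, ← mul_sub, abs_mul, abs_of_pos hs]
    have := hg.lip (s * x) (s * y)
    rw [← mul_sub, abs_mul, abs_of_pos hs] at this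
    calc s * |deriv g (s * x) - deriv g (s * y)| ≤ s * (K * (s * |x - y|)) := by gcongr
      _ = K * s ^ 2 * |x - y| := by ring
  · have h1 := hg.sconv.comp_linearMap (LinearMap.mul ℝ ℝ s)
    have h2 : (fun x => g (s * x) - κ * s ^ 2 * x ^ 2) =
        (fun x => g x - κ * x ^ 2) ∘ (LinearMap.mul ℝ ℝ s) := by
      funext x
      simp only [Function.comp_apply, LinearMap.mul_apply']
      ring
    rw [h2]
    simpa using h1

theorem smooth_QI (hg : ∀ i, GD K κ (g i)) (hK : 0 ≤ K) (hκ : 0 < κ) (hc : 0 < c)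
    (hM : 0 ≤ M) (hK' : 0 ≤ K') (hΨ : PD c M K' u1 Ψ) : QI (2 * 10 ^ 5) (ow Ψ g 0) := by
  intro f hf
  set h : Vn n → ℝ := ow Ψ g 0 with hh
  have hpos : ∀ x, 0 < h x := fun x => Real.exp_pos _
  -- integrability
  have hcoord : ∀ (j : Fin n) (x : Vn n), |(x j) ^ 2| ≤ 1 * (1 + ‖x‖ ^ 2) := by
    intro j x
    rw [abs_of_nonneg (sq_nonneg _), EuclideanSpace.norm_sq_eq]
    have : (x j) ^ 2 ≤ ∑ i, ‖x i‖ ^ 2 := by
      have := Finset.single_le_sum (f := fun i => ‖x i‖ ^ 2) (fun i _ => sq_nonneg _)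
        (Finset.mem_univ j)
      simpa using this
    linarith
  have hmc : ∀ j : Fin n, Measurable fun x : Vn n => x j := fun j => by fun_prop
  have hint : Integrable h := by
    have := ow_int hg hκ hc hΨ 0 (φ := fun _ : Vn n => (1 : ℝ)) measurable_const (C := 1)
      (fun x => by simp only [abs_one]; nlinarith [sq_nonneg ‖x‖])
    simpa using this
  have hint2 : ∀ j : Fin n, Integrable fun x => (x j) ^ 2 * h x := fun j =>
    ow_int hg hκ hc hΨ 0 (φ := fun x : Vn n => (x j) ^ 2) ((hmc j).pow_const 2) (C := 1)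
      (hcoord j)
  set N : ℝ := ∫ x, h x with hN
  set Aj : Fin n → ℝ := fun j => ∫ x, (x j) ^ 2 * h x with hAj
  have hNpos : 0 < N := by
    rw [hN, integral_pos_iff_support_of_nonneg (fun x => (hpos x).le) hint]
    have : Function.support h = univ := by
      ext x
      simp [(hpos x).ne']
    rw [this]
    exact isOpen_univ.measure_pos _ univ_nonempty
  have hAjpos : ∀ j, 0 < Aj j := by
    intro j
    rw [hAj]
    simp only
    rw [integral_pos_iff_support_of_nonneg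
      (fun x => mul_nonneg (sq_nonneg _) (hpos x).le) (hint2 j)]
    have : Function.support (fun x : Vn n => (x j) ^ 2 * h x) = {x | x j ≠ 0} := by
      ext x
      simp [(hpos x).ne']
    rw [this]
    have hcont : Continuous fun x : Vn n => x j := by fun_prop
    refine (isOpen_ne_fun hcont continuous_const).measure_pos _ ⟨ee j, ?_⟩
    simp [ee_apply]
  -- the scaling
  set s : Fin n → ℝ := fun j => Real.sqrt (2 * Aj j / N) with hs
  have hspos : ∀ j, 0 < s j := fun j => Real.sqrt_pos.2 (by have := hAjpos j; positivity)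
  have hsq : ∀ j, s j ^ 2 = 2 * Aj j / N := fun j =>
    Real.sq_sqrt (by have := hAjpos j; positivity)
  obtain ⟨ε, hε, hεs⟩ : ∃ ε : ℝ, 0 < ε ∧ ∀ j, ε ≤ s j ^ 2 := by
    have h1 : ∀ᶠ ε : ℝ in 𝓝[>] 0, 0 < ε := eventually_mem_nhdsWithin
    have h2 : ∀ᶠ ε : ℝ in 𝓝[>] 0, ∀ j, ε ≤ s j ^ 2 := by
      rw [eventually_all]
      intro j
      have : (0 : ℝ) < s j ^ 2 := by have := hspos j; positivity
      exact eventually_nhdsWithin_of_eventually_nhds (eventually_le_nhds this)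
    obtain ⟨ε, h3, h4⟩ := (h1.and h2).exists
    exact ⟨ε, h3, h4⟩
  set gt : Fin n → ℝ → ℝ := fun j x => g j (s j * x) with hgt
  set K2 : ℝ := K * ∑ j, s j ^ 2 with hK2
  have hK2n : 0 ≤ K2 := mul_nonneg hK (Finset.sum_nonneg fun j _ => sq_nonneg _)
  have hgGD : ∀ j, GD K2 (κ * ε) (gt j) := by
    intro j
    refine (os_GD (hg j) (hspos j)).weaken ?_ ?_
    · exact mul_le_mul_of_nonneg_left
        (Finset.single_le_sum (f := fun j => s j ^ 2) (fun _ _ => sq_nonneg _)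
          (Finset.mem_univ j)) hK
    · exact mul_le_mul_of_nonneg_left (hεs j) hκ.le
  have hs0 : ∀ j, s j ≠ 0 := fun j => (hspos j).ne'
  set D := osD s hs0 with hD
  obtain ⟨J, hJ, hcov⟩ := os_cov D
  have hD_apply : ∀ x j, D x j = s j * x j := fun x j => rfl
  have hht : ∀ x, ow Ψ gt 0 x = h (D x) := by
    intro x
    rw [hh]
    unfold ow
    simp only [hgt, hD_apply]
  have hNt : ∫ x, ow Ψ gt 0 x = J * N := by
    simp only [hht]
    exact hcov h
  have hmt : ∀ i, ∫ x, (x i) ^ 2 * ow Ψ gt 0 x ≤ (1 / 2) * ∫ x, ow Ψ gt 0 x := by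
    intro i
    rw [hNt]
    have e1 : ∀ x : Vn n, (x i) ^ 2 * ow Ψ gt 0 x =
        (fun y : Vn n => (s i ^ 2)⁻¹ * ((y i) ^ 2 * h y)) (D x) := by
      intro x
      simp only
      rw [hht, hD_apply]
      have := hs0 i
      field_simp
    have e0 : ∫ x, (x i) ^ 2 * ow Ψ gt 0 x = J * ∫ y : Vn n, (s i ^ 2)⁻¹ * ((y i) ^ 2 * h y) :=
      (integral_congr_ae (Eventually.of_forall e1)).trans
        (hcov fun y => (s i ^ 2)⁻¹ * ((y i) ^ 2 * h y))
    rw [e0, integral_const_mul]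
    have e2 : (s i ^ 2)⁻¹ * (∫ y : Vn n, (y i) ^ 2 * h y) = N / 2 := by
      change (s i ^ 2)⁻¹ * Aj i = N / 2
      rw [hsq]
      have h1 := hAjpos i
      field_simp
    rw [e2]
    linarith
  set ft : Vn n → ℝ := fun x => f (D x) with hft
  have hDc : LipschitzWith ‖(D.toContinuousLinearEquiv : Vn n →L[ℝ] Vn n)‖₊ (D : Vn n → Vn n) :=
    (D.toContinuousLinearEquiv : Vn n →L[ℝ] Vn n).lipschitz
  have hftBL : BL ft := hf.comp hDc
  have key := smooth_norm hgGD hK2n (mul_pos hκ hε) hc hM hK' hΨ hmt hftBL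
  -- the variance
  have hV : Vr (ow Ψ gt 0) ft = J * Vr h f := by
    unfold Vr
    have e1 : ∫ x, ft x ^ 2 * ow Ψ gt 0 x = J * ∫ x, f x ^ 2 * h x := by
      rw [← hcov fun x => f x ^ 2 * h x]
      simp only [hht, hft]
    have e2 : ∫ x, ft x * ow Ψ gt 0 x = J * ∫ x, f x * h x := by
      rw [← hcov fun x => f x * h x]
      simp only [hht, hft]
    rw [e1, e2, hNt]
    change J * (∫ x, f x ^ 2 * h x) - (J * ∫ x, f x * h x) ^ 2 / (J * N) =
      J * ((∫ x, f x ^ 2 * h x) - (∫ x, f x * h x) ^ 2 / N)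
    field_simp
  -- the energy
  have hE : En (ow Ψ gt 0) ft = J * ∑ j, s j ^ 2 * aE h f j := by
    have hintt : Integrable (ow Ψ gt 0) := by
      have := ow_int hgGD (mul_pos hκ hε) hc hΨ 0 (φ := fun _ : Vn n => (1 : ℝ))
        measurable_const (C := 1) (fun x => by simp only [abs_one]; nlinarith [sq_nonneg ‖x‖])
      simpa using this
    rw [energy_sum hintt hftBL, Finset.mul_sum]
    refine Finset.sum_congr rfl fun j _ => ?_
    unfold aE
    have e1 : ∀ x, fderiv ℝ ft x (ee j) = s j * fderiv ℝ f (D x) (ee j) := by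
      intro x
      have e2 : fderiv ℝ ft x = (fderiv ℝ f (D.toContinuousLinearEquiv x)).comp
          (D.toContinuousLinearEquiv : Vn n →L[ℝ] Vn n) := by
        have := D.toContinuousLinearEquiv.comp_right_fderiv (f := f) (x := x)
        exact this
      rw [e2]
      change fderiv ℝ f (D x) (D (ee j)) = _
      rw [hD, osD_ee, map_smul, smul_eq_mul]
    have e3 : ∀ x, (fderiv ℝ ft x (ee j)) ^ 2 * ow Ψ gt 0 x =
        (fun y => s j ^ 2 * ((fderiv ℝ f y (ee j)) ^ 2 * h y)) (D x) := by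
      intro x
      simp only
      rw [e1, hht]
      ring
    have e4 : ∫ x, (fderiv ℝ ft x (ee j)) ^ 2 * ow Ψ gt 0 x =
        J * ∫ y, s j ^ 2 * ((fderiv ℝ f y (ee j)) ^ 2 * h y) :=
      (integral_congr_ae (Eventually.of_forall e3)).trans
        (hcov fun y => s j ^ 2 * ((fderiv ℝ f y (ee j)) ^ 2 * h y))
    rw [e4, integral_const_mul]
  rw [hV, hE] at key
  have key2 : Vr h f ≤ 10 ^ 5 * ∑ j, s j ^ 2 * aE h f j := by
    have : J * Vr h f ≤ J * (10 ^ 5 * ∑ j, s j ^ 2 * aE h f j) := by linarith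
    exact le_of_mul_le_mul_left this hJ
  have key3 : N * Vr h f = (∫ x, f x ^ 2 * h x) * N - (∫ x, f x * h x) ^ 2 := by
    unfold Vr
    change N * ((∫ x, f x ^ 2 * h x) - (∫ x, f x * h x) ^ 2 / N) = _
    field_simp
  rw [← key3]
  calc N * Vr h f ≤ N * (10 ^ 5 * ∑ j, s j ^ 2 * aE h f j) :=
        mul_le_mul_of_nonneg_left key2 hNpos.le
    _ = 2 * 10 ^ 5 * ∑ j, Aj j * aE h f j := by
        rw [Finset.mul_sum, Finset.mul_sum, Finset.mul_sum]
        refine Finset.sum_congr rfl fun j _ => ?_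
        rw [hsq]
        field_simp
    _ = _ := rfl

end O19

end Pool.Agent.Lib.MP_8d00da_gt.h42o
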