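import Pool.Agent.Lib.MP_8d00da_gt.h42o.OReg
import Pool.Agent.Lib.MP_8d00da_gt.h42o.OScale
import Pool.Agent.Lib.MP_8d00da_gt.h42o.OLim
import Pool.Agent.Lib.MP_8d00da_gt.h42o.OApp1
import Pool.Agent.Lib.MP_8d00da_gt.h42o.OApp2

/-!
# Theorem O: the inequality for real valued data (job O-23)
-/

namespace Pool.Agent.Lib.MP_8d00da_gt.h42o

open MeasureTheory Set Filter
open Pool.Agent.Lib.MP_8d00da_gt.h25 Pool.Agent.Lib.MP_8d00da_gt.h42
open Pool.Agent.Lib.MP_8d00da_gt.h42s
open scoped Topology NNReal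

/-- a positive lower bound of finitely many positive numbers -/
private lemma exists_pos_le {n : ℕ} (c : Fin n → ℝ) (hc : ∀ i, 0 < c i) :
    ∃ κ : ℝ, 0 < κ ∧ ∀ i, κ ≤ c i := by
  classical
  have key : ∀ s : Finset (Fin n), ∃ κ : ℝ, 0 < κ ∧ ∀ i ∈ s, κ ≤ c i := by
    intro s
    induction s using Finset.induction_on with
    | empty => exact ⟨1, one_pos, by simp⟩
    | insert a s ha ih =>
      obtain ⟨κ, hκ, h⟩ := ih
      refine ⟨min κ (c a), lt_min hκ (hc a), ?_⟩
      intro i hi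
      rcases Finset.mem_insert.mp hi with rfl | hi
      · exact min_le_right _ _
      · exact (min_le_left _ _).trans (h i hi)
  obtain ⟨κ, hκ, h⟩ := key Finset.univ
  exact ⟨κ, hκ, fun i => h i (Finset.mem_univ i)⟩

/-- monotone functions converging pointwise to a continuous function -/
private lemma tendsto_mono_comp {P : ℕ → ℝ → ℝ} {Ψ : ℝ → ℝ} (hP : ∀ k, Monotone (P k))
    (hlim : ∀ u, Tendsto (fun k => P k u) atTop (𝓝 (Ψ u))) (hΨ : Continuous Ψ) {v : ℝ}
    {vk : ℕ → ℝ} (hv : Tendsto vk atTop (𝓝 v)) :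
    Tendsto (fun k => P k (vk k)) atTop (𝓝 (Ψ v)) := by
  rw [tendsto_order]
  constructor
  · intro a ha
    have h1 : ∀ᶠ u in 𝓝[<] v, a < Ψ u :=
      (hΨ.continuousAt.eventually (lt_mem_nhds ha)).filter_mono nhdsWithin_le_nhds
    obtain ⟨u, hu1, hu2⟩ := (h1.and self_mem_nhdsWithin).exists
    have hu2' : u < v := hu2
    filter_upwards [(hlim u).eventually (lt_mem_nhds hu1), hv.eventually (lt_mem_nhds hu2')]
      with k h2 h3
    exact h2.trans_le (hP k h3.le)
  · intro a ha
    have h1 : ∀ᶠ u in 𝓝[>] v, Ψ u < a :=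
      (hΨ.continuousAt.eventually (gt_mem_nhds ha)).filter_mono nhdsWithin_le_nhds
    obtain ⟨u, hu1, hu2⟩ := (h1.and self_mem_nhdsWithin).exists
    have hu2' : v < u := hu2
    filter_upwards [(hlim u).eventually (gt_mem_nhds hu1), hv.eventually (gt_mem_nhds hu2')]
      with k h2 h3
    exact (hP k h3.le).trans_lt h2

variable {n : ℕ}

theorem real_QI {Ψ : ℝ → ℝ} (hΨ : ConvexOn ℝ univ Ψ) (hm : Monotone Ψ) {U : ℝ} (hU : Ψ 0 < Ψ U)
    {f : Fin n → ℝ → ℝ} (hf : ∀ i, ConvexOn ℝ univ (f i)) (hfe : ∀ i x, f i (-x) = f i x)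
    (hf0 : ∀ i, f i 0 = 0) (hR : ∀ i, ∃ R, 0 < f i R) :
    QI (2 * 10 ^ 5) fun x : Vn n => Real.exp (-Ψ (∑ j, f j (x j))) := by
  choose R hR using hR
  choose g hgGD hglim a b ha hab using fun i => approx_f (hf i) (hfe i) (hf0 i) (hR i)
  obtain ⟨P, hP, hPlim, A, B, hA, hAB⟩ := approx_Psi hΨ hm hU
  choose Kg κg hKg hκg hGD using hgGD
  choose c M K u1 hc hM hK hPD using hP
  have hΨc : Continuous Ψ := by
    rw [← continuousOn_univ]
    exact hΨ.continuousOn isOpen_univ
  obtain ⟨amin, hamin, hale⟩ := exists_pos_le a ha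
  have hPmono : ∀ k, Monotone (P k) := fun k => (hPD k).mono (hc k).le
  have hgnn : ∀ k i x, 0 ≤ g i k x := fun k i x => (hGD i k).nonneg (hκg i k).le x
  refine QI_limit (hk := fun k => ow (P k) (fun j => g j k) 0)
    (H := fun x => Real.exp (-((A * amin) * ∑ j, |x j| - (A * (∑ j, b j) + B)))) ?_ ?_ ?_ ?_ ?_ ?_
  · intro k
    have h1 : Continuous (P k) := (hPD k).diff.continuous
    have h2 : ∀ j, Continuous (g j k) := fun j => (hGD j k).diff.continuous
    unfold ow
    apply Continuous.measurable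
    refine Real.continuous_exp.comp (h1.comp ?_).neg
    refine continuous_const.add (continuous_finsetSum _ fun j _ => (h2 j).comp ?_)
    fun_prop
  · intro k x
    exact (Real.exp_pos _).le
  · intro k x
    unfold ow
    apply Real.exp_le_exp.mpr
    have hv : 0 ≤ 0 + ∑ j, g j k (x j) := by
      rw [zero_add]
      exact Finset.sum_nonneg fun j _ => hgnn k j (x j)
    have h1 := hAB k _ hv
    have h2 : amin * ∑ j, |x j| - ∑ j, b j ≤ 0 + ∑ j, g j k (x j) := by
      rw [zero_add, Finset.mul_sum, ← Finset.sum_sub_distrib]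
      refine Finset.sum_le_sum fun j _ => ?_
      have h3 := hab j k (x j)
      have h4 := mul_le_mul_of_nonneg_right (hale j) (abs_nonneg (x j))
      linarith
    have h5 := mul_le_mul_of_nonneg_left h2 hA.le
    have h6 : A * (amin * ∑ j, |x j| - ∑ j, b j) =
        (A * amin) * ∑ j, |x j| - A * (∑ j, b j) := by ring
    linarith
  · exact exp_l1_int (mul_pos hA hamin)
  · refine Eventually.of_forall fun x => ?_
    unfold ow
    refine (Real.continuous_exp.tendsto _).comp ?_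
    refine Tendsto.neg ?_
    refine tendsto_mono_comp hPmono hPlim hΨc ?_
    have h1 : Tendsto (fun k => ∑ j, g j k (x j)) atTop (𝓝 (∑ j, f j (x j))) :=
      tendsto_finsetSum _ fun j _ => hglim j (x j)
    simpa using h1
  · intro k
    obtain ⟨κ, hκ, hκle⟩ := exists_pos_le (fun j => κg j k) (fun j => hκg j k)
    refine smooth_QI (K := ∑ j, Kg j k) (κ := κ) (fun j => (hGD j k).weaken ?_ (hκle j))
      (Finset.sum_nonneg fun j _ => hKg j k) hκ (hc k) (hM k) (hK k) (hPD k)
    exact Finset.single_le_sum (f := fun j => Kg j k) (fun i _ => hKg i k) (Finset.mem_univ j)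

end Pool.Agent.Lib.MP_8d00da_gt.h42o
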