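import Pool.Agent.Lib.MP_8d00da_gt.h42o.OIns
import Pool.Agent.Lib.MP_8d00da_gt.h42o.OReal

/-!
# Theorem O for general outer functions
-/

namespace Pool.Agent.Lib.MP_8d00da_gt.h42o

open MeasureTheory Set Filter
open Pool.Agent.Lib.MP_8d00da_gt.h25 Pool.Agent.Lib.MP_8d00da_gt.h42
open Pool.Agent.Lib.MP_8d00da_gt.h42s
open scoped Topology NNReal

section one

lemma evn_nonneg {f : ℝ → ℝ} (hf : ConvexOn ℝ univ f) (hfe : ∀ x, f (-x) = f x) (hf0 : f 0 = 0)
    (x : ℝ) : 0 ≤ f x := by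
  have h := hf.2 (mem_univ x) (mem_univ (-x)) (by norm_num : (0:ℝ) ≤ 1/2)
    (by norm_num : (0:ℝ) ≤ 1/2) (by norm_num)
  have e : (1/2 : ℝ) • x + (1/2 : ℝ) • (-x) = 0 := by simp
  rw [hfe, e, hf0] at h
  simp only [smul_eq_mul] at h
  linarith

lemma evn_lower {f : ℝ → ℝ} (hf : ConvexOn ℝ univ f) (hfe : ∀ x, f (-x) = f x) (hf0 : f 0 = 0)
    {R : ℝ} (hR : 0 < f R) : ∃ a b : ℝ, 0 < a ∧ ∀ x, a * |x| - b ≤ f x := by
  have habs : ∀ x, f |x| = f x := by
    intro x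
    rcases abs_choice x with h | h <;> rw [h]
    exact hfe x
  have hR0 : R ≠ 0 := by
    rintro rfl
    rw [hf0] at hR
    exact lt_irrefl _ hR
  have hρ : 0 < |R| := abs_pos.mpr hR0
  refine ⟨f R / |R|, f R, by positivity, fun x => ?_⟩
  rcases le_total |x| |R| with h | h
  · have h1 : f R / |R| * |x| ≤ f R := by
      rw [div_mul_eq_mul_div, div_le_iff₀ hρ]
      exact mul_le_mul_of_nonneg_left h hR.le
    have h2 := evn_nonneg hf hfe hf0 x
    linarith
  · have hx : 0 < |x| := hρ.trans_le h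
    have h1 := hf.2 (mem_univ |x|) (mem_univ 0) (by positivity : (0:ℝ) ≤ |R| / |x|)
      (by rw [sub_nonneg, div_le_one hx]; exact h : (0:ℝ) ≤ 1 - |R| / |x|) (by ring)
    have e : (|R| / |x|) • |x| + (1 - |R| / |x|) • (0:ℝ) = |R| := by
      simp only [smul_eq_mul, mul_zero, add_zero]
      field_simp
    rw [e, hf0, habs, habs] at h1
    simp only [smul_eq_mul, mul_zero, add_zero] at h1
    have h2 : f R / |R| * |x| ≤ f x := by
      rw [div_mul_eq_mul_div, div_le_iff₀ hρ]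
      rw [div_mul_eq_mul_div, le_div_iff₀ hx] at h1
      linarith
    linarith

/-- exponential decay of a log-concave function -/
lemma lc_decay {G : ℝ → ℝ} (hG : LogConc G) (hG0 : ∀ u, 0 ≤ G u) (hGa : Antitone G)
    (hc : ∀ u ≤ 0, G u = G 0) (hGp : 0 < G 0) {U : ℝ} (hU : G U < G 0) :
    ∃ s B : ℝ, 0 < s ∧ s ≤ 1 ∧ ∀ u, G u ≤ Real.exp (B - s * u) := by
  have hb : ∀ u, G u ≤ G 0 := by
    intro u
    rcases le_total u 0 with h | h
    · exact (hc u h).le
    · exact hGa h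
  have hU0 : 0 < U := by
    by_contra h
    exact absurd (hGa (not_lt.mp h)) (not_le.mpr hU)
  set r : ℝ := max (G U / G 0) (1 / 2) with hr
  have hr0 : 0 < r := lt_of_lt_of_le (by norm_num) (le_max_right _ _)
  have hr1 : r < 1 := max_lt ((div_lt_one hGp).mpr hU) (by norm_num)
  have hlog : Real.log r < 0 := Real.log_neg hr0 hr1
  set t : ℝ := -Real.log r / U with ht
  have ht0 : 0 < t := div_pos (by linarith) hU0
  have htU : t * U = - Real.log r := by rw [ht]; field_simp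
  have key : ∀ u, G u ≤ Real.exp (Real.log (G 0) + t * U - t * u) := by
    intro u
    rcases le_total u U with h | h
    · refine (hb u).trans ?_
      calc G 0 = Real.exp (Real.log (G 0)) := (Real.exp_log hGp).symm
        _ ≤ _ := Real.exp_le_exp.mpr (by nlinarith)
    · rcases (hG0 u).eq_or_lt with h0 | h0
      · rw [← h0]; exact (Real.exp_pos _).le
      have hu : 0 < u := hU0.trans_le h
      rcases h.eq_or_lt with h1 | h1
      · rw [← h1]
        have h2 : G U ≤ G 0 := hU.le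
        calc G U ≤ G 0 := h2
          _ = Real.exp (Real.log (G 0)) := (Real.exp_log hGp).symm
          _ ≤ _ := Real.exp_le_exp.mpr (by linarith)
      have ha0 : 0 < U / u := by positivity
      have ha1 : U / u < 1 := (div_lt_one hu).mpr h1
      have h2 := hG (U / u) ha0 ha1 0 u
      have e : (1 - U / u) • (0:ℝ) + (U / u) • u = U := by
        simp only [smul_eq_mul, mul_zero, zero_add]
        field_simp
      rw [e] at h2
      have hUr : G U ≤ G 0 * r := by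
        have := le_max_left (G U / G 0) (1 / 2)
        rw [← hr, div_le_iff₀ hGp] at this
        linarith
      have h3 := Real.log_le_log (mul_pos (Real.rpow_pos_of_pos hGp _)
        (Real.rpow_pos_of_pos h0 _)) (h2.trans hUr)
      rw [Real.log_mul (Real.rpow_pos_of_pos hGp _).ne' (Real.rpow_pos_of_pos h0 _).ne',
        Real.log_rpow hGp, Real.log_rpow h0, Real.log_mul hGp.ne' hr0.ne'] at h3
      have h4 : U / u * (Real.log (G u) - Real.log (G 0)) ≤ Real.log r := by nlinarith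
      have h5 : Real.log (G u) ≤ Real.log (G 0) + t * U - t * u := by
        rw [div_mul_eq_mul_div, div_le_iff₀ hu] at h4
        have h6 : Real.log (G u) - Real.log (G 0) ≤ Real.log r * u / U := by
          rw [le_div_iff₀ hU0]; linarith
        have h7 : Real.log r * u / U = - (t * u) := by rw [ht]; ring
        have h8 : 0 ≤ t * U := by positivity
        linarith
      calc G u = Real.exp (Real.log (G u)) := (Real.exp_log h0).symm
        _ ≤ _ := Real.exp_le_exp.mpr h5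
  refine ⟨min t 1, Real.log (G 0) + t * U, lt_min ht0 one_pos, min_le_right _ _, fun u => ?_⟩
  rcases le_total u 0 with h | h
  · rw [hc u h]
    calc G 0 = Real.exp (Real.log (G 0)) := (Real.exp_log hGp).symm
      _ ≤ _ := Real.exp_le_exp.mpr (by
        have h1 : 0 ≤ t * U := by positivity
        have h2 : min t 1 * u ≤ 0 := mul_nonpos_of_nonneg_of_nonpos (le_min ht0.le zero_le_one) h
        linarith)
  · refine (key u).trans (Real.exp_le_exp.mpr ?_)
    have : min t 1 * u ≤ t * u := mul_le_mul_of_nonneg_right (min_le_left _ _) h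
    linarith

end one

/-- sup-convolution with an exponential -/
noncomputable def Gk (G : ℝ → ℝ) (k u : ℝ) : ℝ := ⨆ w : ℝ, G (u - |w|) * Real.exp (-(k * |w|))

section Gk

variable {G : ℝ → ℝ} {k l u v : ℝ}

lemma Gk_term (hG0 : ∀ u, 0 ≤ G u) (hb : ∀ u, G u ≤ G 0) (hk : 0 ≤ k) (u w : ℝ) :
    G (u - |w|) * Real.exp (-(k * |w|)) ≤ G 0 := by
  have h1 : Real.exp (-(k * |w|)) ≤ 1 := by
    rw [Real.exp_le_one_iff]
    have := mul_nonneg hk (abs_nonneg w)
    linarith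
  calc G (u - |w|) * Real.exp (-(k * |w|)) ≤ G (u - |w|) * 1 :=
        mul_le_mul_of_nonneg_left h1 (hG0 _)
    _ ≤ G 0 := by rw [mul_one]; exact hb _

lemma Gk_bdd (hG0 : ∀ u, 0 ≤ G u) (hb : ∀ u, G u ≤ G 0) (hk : 0 ≤ k) (u : ℝ) :
    BddAbove (range fun w : ℝ => G (u - |w|) * Real.exp (-(k * |w|))) := by
  refine ⟨G 0, ?_⟩
  rintro _ ⟨w, rfl⟩
  exact Gk_term hG0 hb hk u w

lemma Gk_le (hG0 : ∀ u, 0 ≤ G u) (hb : ∀ u, G u ≤ G 0) (hk : 0 ≤ k) (u : ℝ) :
    Gk G k u ≤ G 0 := ciSup_le fun w => Gk_term hG0 hb hk u w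

lemma le_Gk (hG0 : ∀ u, 0 ≤ G u) (hb : ∀ u, G u ≤ G 0) (hk : 0 ≤ k) (u w : ℝ) :
    G (u - |w|) * Real.exp (-(k * |w|)) ≤ Gk G k u := le_ciSup (Gk_bdd hG0 hb hk u) w

lemma self_le_Gk (hG0 : ∀ u, 0 ≤ G u) (hb : ∀ u, G u ≤ G 0) (hk : 0 ≤ k) (u : ℝ) :
    G u ≤ Gk G k u := by
  have := le_Gk hG0 hb hk u 0
  simpa using this

lemma Gk_pos (hG0 : ∀ u, 0 ≤ G u) (hb : ∀ u, G u ≤ G 0) (hk : 0 ≤ k)
    (hc : ∀ u ≤ 0, G u = G 0) (hGp : 0 < G 0) (u : ℝ) : 0 < Gk G k u := by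
  refine lt_of_lt_of_le ?_ (le_Gk hG0 hb hk u (max u 0))
  have : u - |max u 0| ≤ 0 := by
    rw [abs_of_nonneg (le_max_right _ _)]
    linarith [le_max_left u 0]
  rw [hc _ this]
  positivity

lemma Gk_anti (hG0 : ∀ u, 0 ≤ G u) (hb : ∀ u, G u ≤ G 0) (hk : 0 ≤ k) (hGa : Antitone G) :
    Antitone (Gk G k) := by
  intro u v huv
  refine ciSup_mono (Gk_bdd hG0 hb hk u) fun w => ?_
  exact mul_le_mul_of_nonneg_right (hGa (by linarith)) (Real.exp_pos _).le

lemma Gk_mono_k (hG0 : ∀ u, 0 ≤ G u) (hb : ∀ u, G u ≤ G 0) (hk : 0 ≤ k) (hkl : k ≤ l) (u : ℝ) :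
    Gk G l u ≤ Gk G k u := by
  refine ciSup_mono (Gk_bdd hG0 hb hk u) fun w => ?_
  refine mul_le_mul_of_nonneg_left (Real.exp_le_exp.mpr ?_) (hG0 _)
  have := mul_le_mul_of_nonneg_right hkl (abs_nonneg w)
  linarith

lemma Gk_exp {s B : ℝ} (hs1 : s ≤ 1)
    (hB : ∀ u, G u ≤ Real.exp (B - s * u)) (u : ℝ) : Gk G 1 u ≤ Real.exp (B - s * u) := by
  refine ciSup_le fun w => ?_
  calc G (u - |w|) * Real.exp (-(1 * |w|)) ≤ Real.exp (B - s * (u - |w|)) *
        Real.exp (-(1 * |w|)) := mul_le_mul_of_nonneg_right (hB _) (Real.exp_pos _).le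
    _ = Real.exp (B - s * (u - |w|) + -(1 * |w|)) := (Real.exp_add _ _).symm
    _ ≤ _ := Real.exp_le_exp.mpr (by
      have := mul_le_mul_of_nonneg_right hs1 (abs_nonneg w)
      nlinarith)

lemma Gk_conv (hG : LogConc G) (hG0 : ∀ u, 0 ≤ G u) (hb : ∀ u, G u ≤ G 0) (hk : 0 ≤ k)
    (hc : ∀ u ≤ 0, G u = G 0) (hGp : 0 < G 0) :
    ConvexOn ℝ univ fun u => - Real.log (Gk G k u) := by
  have hnear : ∀ u : ℝ, ∀ δ > 0, ∃ w : ℝ, 0 < G (u - |w|) ∧
      Real.log (Gk G k u) - δ < Real.log (G (u - |w|)) - k * |w| := by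
    intro u δ hδ
    have hp := Gk_pos hG0 hb hk hc hGp u
    have h1 : Gk G k u * Real.exp (-δ) < Gk G k u := by
      have : Real.exp (-δ) < 1 := by rw [Real.exp_lt_one_iff]; linarith
      nlinarith
    obtain ⟨w, hw⟩ := exists_lt_of_lt_ciSup h1
    have hq : 0 < G (u - |w|) * Real.exp (-(k * |w|)) := lt_of_lt_of_le (by positivity) hw.le
    have hG' : 0 < G (u - |w|) := pos_of_mul_pos_left hq (Real.exp_pos _).le
    refine ⟨w, hG', ?_⟩
    have h2 := Real.log_lt_log (by positivity) hw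
    rw [Real.log_mul hp.ne' (Real.exp_pos _).ne', Real.log_exp,
      Real.log_mul hG'.ne' (Real.exp_pos _).ne', Real.log_exp] at h2
    linarith
  refine ⟨convex_univ, ?_⟩
  intro x _ y _ a b ha hb' hab
  rcases ha.eq_or_lt with h0 | ha
  · have : b = 1 := by linarith
    subst this
    rw [← h0]
    simp
  rcases hb'.eq_or_lt with h0 | hb'
  · have : a = 1 := by linarith
    subst this
    rw [← h0]
    simp
  simp only [smul_eq_mul]
  suffices h : ∀ δ > 0, a * Real.log (Gk G k x) + b * Real.log (Gk G k y) - δ ≤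
      Real.log (Gk G k (a * x + b * y)) by
    have := le_of_forall_pos_sub_le h
    linarith
  intro δ hδ
  obtain ⟨w₁, hp₁, hw₁⟩ := hnear x δ hδ
  obtain ⟨w₂, hp₂, hw₂⟩ := hnear y δ hδ
  have ha' : a = 1 - b := by linarith
  have h1 := hG b hb' (by linarith) (x - |w₁|) (y - |w₂|)
  rw [← ha'] at h1
  simp only [smul_eq_mul] at h1
  set w := a * |w₁| + b * |w₂| with hw
  have hw0 : 0 ≤ w := by positivity
  have e : a * (x - |w₁|) + b * (y - |w₂|) = (a * x + b * y) - |w| := by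
    rw [abs_of_nonneg hw0, hw]; ring
  rw [e] at h1
  have hp : 0 < G (x - |w₁|) ^ a * G (y - |w₂|) ^ b :=
    mul_pos (Real.rpow_pos_of_pos hp₁ _) (Real.rpow_pos_of_pos hp₂ _)
  have hp' : 0 < G ((a * x + b * y) - |w|) := lt_of_lt_of_le hp h1
  have h2 := Real.log_le_log hp h1
  rw [Real.log_mul (Real.rpow_pos_of_pos hp₁ _).ne' (Real.rpow_pos_of_pos hp₂ _).ne',
    Real.log_rpow hp₁, Real.log_rpow hp₂] at h2
  have h3 := le_Gk hG0 hb hk (a * x + b * y) w
  have h4 := Real.log_le_log (mul_pos hp' (Real.exp_pos _)) h3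
  rw [Real.log_mul hp'.ne' (Real.exp_pos _).ne', Real.log_exp, abs_of_nonneg hw0] at h4
  rw [abs_of_nonneg hw0] at h2
  have h5 : a * (Real.log (Gk G k x) - δ) ≤ a * (Real.log (G (x - |w₁|)) - k * |w₁|) :=
    mul_le_mul_of_nonneg_left hw₁.le ha.le
  have h6 : b * (Real.log (Gk G k y) - δ) ≤ b * (Real.log (G (y - |w₂|)) - k * |w₂|) :=
    mul_le_mul_of_nonneg_left hw₂.le hb'.le
  have h7 : k * w = a * (k * |w₁|) + b * (k * |w₂|) := by rw [hw]; ring
  have h8 : a * δ + b * δ = δ := by rw [← add_mul, hab, one_mul]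
  linarith

lemma Gk_tendsto (hG0 : ∀ u, 0 ≤ G u) (hb : ∀ u, G u ≤ G 0) (hGa : Antitone G) {u : ℝ}
    (hcont : ContinuousAt G u) :
    Tendsto (fun k : ℕ => Gk G ((k : ℝ) + 1) u) atTop (𝓝 (G u)) := by
  rw [Metric.tendsto_atTop]
  intro ε hε
  obtain ⟨δ, hδ, hd⟩ := Metric.continuousAt_iff.mp hcont (ε / 2) (by positivity)
  have h1 : G (u - δ / 2) < G u + ε / 2 := by
    have := hd (x := u - δ / 2) (by rw [Real.dist_eq]; rw [abs_lt]; constructor <;> linarith)
    rw [Real.dist_eq, abs_lt] at this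
    linarith [this.2]
  have h2 : Tendsto (fun k : ℕ => G 0 * Real.exp (-(((k : ℝ) + 1) * (δ / 2)))) atTop
      (𝓝 (G 0 * 0)) := by
    refine Tendsto.const_mul _ (Real.tendsto_exp_neg_atTop_nhds_zero.comp ?_)
    refine Tendsto.atTop_mul_const (by positivity) ?_
    exact tendsto_atTop_add_const_right _ _ tendsto_natCast_atTop_atTop
  rw [mul_zero] at h2
  obtain ⟨N, hN⟩ := (h2.eventually (gt_mem_nhds (by positivity : (0:ℝ) < ε / 2))).exists_forall_of_atTop
  refine ⟨N, fun k hk => ?_⟩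
  have hk0 : (0 : ℝ) ≤ (k : ℝ) + 1 := by positivity
  have hle := self_le_Gk hG0 hb hk0 u
  have hup : Gk G ((k : ℝ) + 1) u ≤ G u + ε / 2 := by
    refine ciSup_le fun w => ?_
    rcases le_total |w| (δ / 2) with h | h
    · have e1 : Real.exp (-(((k : ℝ) + 1) * |w|)) ≤ 1 := by
        rw [Real.exp_le_one_iff]
        have := mul_nonneg hk0 (abs_nonneg w)
        linarith
      calc G (u - |w|) * Real.exp (-(((k : ℝ) + 1) * |w|)) ≤ G (u - |w|) * 1 :=
            mul_le_mul_of_nonneg_left e1 (hG0 _)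
        _ ≤ G (u - δ / 2) := by rw [mul_one]; exact hGa (by linarith)
        _ ≤ _ := h1.le
    · calc G (u - |w|) * Real.exp (-(((k : ℝ) + 1) * |w|)) ≤
            G 0 * Real.exp (-(((k : ℝ) + 1) * (δ / 2))) := by
            refine mul_le_mul (hb _) (Real.exp_le_exp.mpr ?_) (Real.exp_pos _).le (hG0 _)
            have := mul_le_mul_of_nonneg_left h hk0
            linarith
        _ ≤ ε / 2 := (hN k hk).le
        _ ≤ _ := by linarith [hG0 u]
  rw [Real.dist_eq, abs_lt]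
  constructor <;> linarith

end Gk

section multi

variable {n : ℕ}

/-- the reduced outer function -/
noncomputable def Gt (G : ℝ → ℝ) (u : ℝ) : ℝ := G (max u 0)

lemma Gt_lc {G : ℝ → ℝ} (hG : LogConc G) (hGa : Antitone G) : LogConc (Gt G) := by
  intro a ha0 ha1 x y
  refine (hG a ha0 ha1 (max x 0) (max y 0)).trans (hGa ?_)
  simp only [smul_eq_mul]
  have h1 := le_max_left x 0
  have h2 := le_max_right x 0
  have h3 := le_max_left y 0
  have h4 := le_max_right y 0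
  have h5 : 0 ≤ 1 - a := by linarith
  refine max_le ?_ (by positivity)
  nlinarith

lemma Gt_anti {G : ℝ → ℝ} (hGa : Antitone G) : Antitone (Gt G) := fun _ _ h =>
  hGa (max_le_max_right 0 h)

lemma Gt_cst {G : ℝ → ℝ} : ∀ u ≤ 0, Gt G u = Gt G 0 := by
  intro u hu
  simp [Gt, max_eq_right hu]

lemma Gt_zero {G : ℝ → ℝ} : Gt G 0 = G 0 := by simp [Gt]

lemma Gt_le {G : ℝ → ℝ} (hGa : Antitone G) (u : ℝ) : Gt G u ≤ Gt G 0 := by
  rw [Gt_zero]
  exact hGa (le_max_right _ _)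

lemma Gt_of_nonneg {G : ℝ → ℝ} {u : ℝ} (hu : 0 ≤ u) : Gt G u = G u := by
  simp [Gt, max_eq_left hu]

lemma sum_nonneg' {f : Fin n → ℝ → ℝ} (hf : ∀ i, ConvexOn ℝ univ (f i))
    (hfe : ∀ i x, f i (-x) = f i x) (hf0 : ∀ i, f i 0 = 0) (x : Vn n) :
    0 ≤ ∑ j, f j (x j) :=
  Finset.sum_nonneg fun j _ => evn_nonneg (hf j) (hfe j) (hf0 j) _

lemma sum_lower {f : Fin n → ℝ → ℝ} (hf : ∀ i, ConvexOn ℝ univ (f i))
    (hfe : ∀ i x, f i (-x) = f i x) (hf0 : ∀ i, f i 0 = 0) (hR : ∀ i, ∃ R, 0 < f i R) :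
    ∃ a b : ℝ, 0 < a ∧ ∀ x : Vn n, a * ∑ j, |x j| - b ≤ ∑ j, f j (x j) := by
  have h : ∀ i, ∃ a b : ℝ, 0 < a ∧ ∀ x, a * |x| - b ≤ f i x := by
    intro i
    obtain ⟨R, hR⟩ := hR i
    exact evn_lower (hf i) (hfe i) (hf0 i) hR
  choose a b ha hab using h
  have hS : 0 < 1 + ∑ j, (a j)⁻¹ := by
    have : 0 ≤ ∑ j, (a j)⁻¹ := Finset.sum_nonneg fun j _ => (inv_pos.mpr (ha j)).le
    linarith
  have hle : ∀ j, (1 + ∑ j, (a j)⁻¹)⁻¹ ≤ a j := by
    intro j
    rw [inv_le_comm₀ hS (ha j)]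
    have := Finset.single_le_sum (f := fun j => (a j)⁻¹) (fun j _ => (inv_pos.mpr (ha j)).le)
      (Finset.mem_univ j)
    linarith
  refine ⟨(1 + ∑ j, (a j)⁻¹)⁻¹, ∑ j, b j, inv_pos.mpr hS, fun x => ?_⟩
  rw [Finset.mul_sum, ← Finset.sum_sub_distrib]
  refine Finset.sum_le_sum fun j _ => ?_
  have h1 := hab j (x j)
  have h2 := mul_le_mul_of_nonneg_right (hle j) (abs_nonneg (x j))
  linarith

lemma sum_conv {f : Fin n → ℝ → ℝ} (hf : ∀ i, ConvexOn ℝ univ (f i)) :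
    ConvexOn ℝ univ fun x : Vn n => ∑ j, f j (x j) := by
  refine ⟨convex_univ, ?_⟩
  intro x _ y _ a b ha hb hab
  simp only [smul_eq_mul]
  rw [Finset.mul_sum, Finset.mul_sum, ← Finset.sum_add_distrib]
  refine Finset.sum_le_sum fun j _ => ?_
  have := (hf j).2 (mem_univ (x j)) (mem_univ (y j)) ha hb hab
  simpa using this

lemma level_null {v : Vn n → ℝ} (hv : ConvexOn ℝ univ v) (hv0 : v 0 = 0) {c : ℝ} (hc : 0 < c) :
    volume {x | v x = c} = 0 := by
  have hconv : Convex ℝ {x | v x ≤ c} := by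
    have := hv.convex_le c
    simpa using this
  refine measure_mono_null ?_ (hconv.addHaar_frontier volume)
  intro x hx
  simp only [Set.mem_ofPred_eq] at hx
  refine ⟨subset_closure (by simp only [Set.mem_ofPred_eq]; exact hx.le), fun hi => ?_⟩
  have ht : Tendsto (fun e : ℝ => (1 + e) • x) (𝓝[>] 0) (𝓝 x) := by
    have : Tendsto (fun e : ℝ => (1 + e) • x) (𝓝 0) (𝓝 ((1 + 0 : ℝ) • x)) := by
      refine Tendsto.smul_const ?_ x
      exact tendsto_const_nhds.add tendsto_id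
    rw [add_zero, one_smul] at this
    exact this.mono_left nhdsWithin_le_nhds
  have h1 := ht.eventually (isOpen_interior.mem_nhds hi)
  obtain ⟨e, he1, he2⟩ := (h1.and self_mem_nhdsWithin).exists
  have he : 0 < e := he2
  have h2' : (1 + e) • x ∈ {x | v x ≤ c} := interior_subset he1
  have h2 : v ((1 + e) • x) ≤ c := h2'
  have h3 := hv.2 (mem_univ ((1 + e) • x)) (mem_univ 0) (by positivity : (0:ℝ) ≤ 1 / (1 + e))
    (by positivity : (0:ℝ) ≤ e / (1 + e)) (by field_simp)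
  have e1 : (1 / (1 + e)) • (1 + e) • x + (e / (1 + e)) • (0 : Vn n) = x := by
    rw [smul_zero, add_zero, smul_smul]
    rw [one_div_mul_cancel (by positivity), one_smul]
  rw [e1, hv0, hx] at h3
  simp only [smul_eq_mul, mul_zero, add_zero] at h3
  rw [div_mul_eq_mul_div, one_mul, le_div_iff₀ (by positivity)] at h3
  nlinarith

lemma cont_sum {f : Fin n → ℝ → ℝ} (hf : ∀ i, ConvexOn ℝ univ (f i)) :
    Continuous fun x : Vn n => ∑ j, f j (x j) := by
  refine continuous_finsetSum _ fun j _ => ?_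
  have h1 : Continuous (f j) := by
    have := (hf j).continuousOn_interior
    rwa [interior_univ, ← continuousOn_univ] at *
  exact h1.comp (by fun_prop)

lemma gen_decay {G : ℝ → ℝ} (hG : LogConc G) (hG0 : ∀ u, 0 ≤ G u) (hGa : Antitone G)
    (hGp : 0 < G 0) {U : ℝ} (hU : G U < G 0) :
    ∃ s B : ℝ, 0 < s ∧ s ≤ 1 ∧ ∀ u, Gt G u ≤ Real.exp (B - s * u) := by
  have hU0 : 0 ≤ U := by
    by_contra h
    exact absurd (hGa (not_le.mp h).le) (not_le.mpr hU)
  refine lc_decay (Gt_lc hG hGa) (fun u => hG0 _) (Gt_anti hGa) Gt_cst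
    (by rw [Gt_zero]; exact hGp) (U := U) ?_
  rw [Gt_zero, Gt_of_nonneg hU0]
  exact hU

/-- exponential decay -/
lemma gen_bound {G : ℝ → ℝ} (hG : LogConc G) (hG0 : ∀ u, 0 ≤ G u) (hGa : Antitone G)
    (hGp : 0 < G 0) {U : ℝ} (hU : G U < G 0)
    {f : Fin n → ℝ → ℝ} (hf : ∀ i, ConvexOn ℝ univ (f i)) (hfe : ∀ i x, f i (-x) = f i x)
    (hf0 : ∀ i, f i 0 = 0) (hR : ∀ i, ∃ R, 0 < f i R) :
    ∃ a b : ℝ, 0 < a ∧ ∀ x : Vn n, G (∑ j, f j (x j)) ≤ Real.exp (-(a * ∑ j, |x j| - b)) := by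
  obtain ⟨s, B, hs, hs1, hB⟩ := gen_decay hG hG0 hGa hGp hU
  obtain ⟨a, b, ha, hab⟩ := sum_lower hf hfe hf0 hR
  refine ⟨s * a, B + s * b, by positivity, fun x => ?_⟩
  have h0 := sum_nonneg' hf hfe hf0 x
  rw [← Gt_of_nonneg (G := G) h0]
  refine (hB _).trans (Real.exp_le_exp.mpr ?_)
  have := mul_le_mul_of_nonneg_left (hab x) hs.le
  nlinarith

theorem gen_QI {G : ℝ → ℝ} (hG : LogConc G) (hG0 : ∀ u, 0 ≤ G u) (hGa : Antitone G)
    (hGp : 0 < G 0) {U : ℝ} (hU : G U < G 0)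
    {f : Fin n → ℝ → ℝ} (hf : ∀ i, ConvexOn ℝ univ (f i)) (hfe : ∀ i x, f i (-x) = f i x)
    (hf0 : ∀ i, f i 0 = 0) (hR : ∀ i, ∃ R, 0 < f i R) :
    QI (2 * 10 ^ 5) fun x : Vn n => G (∑ j, f j (x j)) := by
  obtain ⟨s, B, hs, hs1, hB⟩ := gen_decay hG hG0 hGa hGp hU
  obtain ⟨a, b, ha, hab⟩ := sum_lower hf hfe hf0 hR
  have gn : ∀ u, 0 ≤ Gt G u := fun u => hG0 _
  have gb : ∀ u, Gt G u ≤ Gt G 0 := Gt_le hGa
  have ga := Gt_anti hGa
  have gp : 0 < Gt G 0 := by rw [Gt_zero]; exact hGp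
  have glc := Gt_lc hG hGa
  have hk0 : ∀ k : ℕ, (0 : ℝ) ≤ (k : ℝ) + 1 := fun k => by positivity
  have hk1 : ∀ k : ℕ, (1 : ℝ) ≤ (k : ℝ) + 1 := fun k => by
    have : (0 : ℝ) ≤ (k : ℝ) := by positivity
    linarith
  have hup : ∀ (k : ℕ) (u : ℝ), Gk (Gt G) ((k : ℝ) + 1) u ≤ Real.exp (B - s * u) := fun k u =>
    (Gk_mono_k gn gb zero_le_one (hk1 k) u).trans (Gk_exp hs1 hB u)
  refine QI_limit (hk := fun k x => Gk (Gt G) ((k : ℝ) + 1) (∑ j, f j (x j)))
    (H := fun x => Real.exp (-(s * a * ∑ j, |x j| - (B + s * b)))) ?_ ?_ ?_ ?_ ?_ ?_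
  · intro k
    exact (Gk_anti gn gb (hk0 k) ga).measurable.comp (cont_sum hf).measurable
  · intro k x
    exact (Gk_pos gn gb (hk0 k) Gt_cst gp _).le
  · intro k x
    refine (hup k _).trans (Real.exp_le_exp.mpr ?_)
    have := mul_le_mul_of_nonneg_left (hab x) hs.le
    nlinarith
  · exact exp_l1_int (by positivity)
  · have hD : {u | ¬ ContinuousAt (Gt G) u}.Countable := ga.countable_not_continuousAt
    have hnull : volume (⋃ c ∈ {u | ¬ ContinuousAt (Gt G) u} ∩ Ioi 0,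
        {x : Vn n | ∑ j, f j (x j) = c}) = 0 := by
      rw [measure_biUnion_null_iff (hD.mono inter_subset_left)]
      intro c hc
      exact level_null (sum_conv hf) (by simp [hf0]) hc.2
    rw [ae_iff]
    refine measure_mono_null ?_ hnull
    intro x hx
    simp only [Set.mem_ofPred_eq] at hx
    simp only [mem_iUnion]
    refine ⟨∑ j, f j (x j), ?_, rfl⟩
    have h0 := sum_nonneg' hf hfe hf0 x
    rcases h0.eq_or_lt with h1 | h1
    · exfalso
      apply hx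
      rw [← h1]
      have : ∀ k : ℕ, Gk (Gt G) ((k : ℝ) + 1) 0 = G 0 := by
        intro k
        exact (le_antisymm (Gk_le gn gb (hk0 k) 0) (self_le_Gk gn gb (hk0 k) 0)).trans Gt_zero
      simp only [this]
      exact tendsto_const_nhds
    · refine ⟨fun hc => hx ?_, h1⟩
      have := Gk_tendsto gn gb ga hc
      rwa [Gt_of_nonneg h0] at this
  · intro k
    have hpos := Gk_pos gn gb (hk0 k) Gt_cst gp
    have hanti := Gk_anti gn gb (hk0 k) ga
    obtain ⟨V, hV⟩ : ∃ V : ℝ, Real.exp (B - s * V) < Gt G 0 := by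
      refine ⟨(B - Real.log (Gt G 0) + 1) / s, ?_⟩
      have e : B - s * ((B - Real.log (Gt G 0) + 1) / s) = Real.log (Gt G 0) - 1 := by
        field_simp
        ring
      rw [e, Real.exp_sub, Real.exp_log gp]
      have : 1 < Real.exp 1 := by
        have := Real.add_one_lt_exp (one_ne_zero : (1:ℝ) ≠ 0)
        linarith
      exact div_lt_self gp this
    have h := real_QI (n := n) (Ψ := fun u => - Real.log (Gk (Gt G) ((k : ℝ) + 1) u))
      (Gk_conv glc gn gb (hk0 k) Gt_cst gp)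
      (fun u v huv => neg_le_neg (Real.log_le_log (hpos v) (hanti huv))) (U := V)
      (by
        refine neg_lt_neg (Real.log_lt_log (hpos V) ?_)
        exact lt_of_le_of_lt (hup k V) (hV.trans_le (self_le_Gk gn gb (hk0 k) 0)))
      hf hfe hf0 hR
    simp only [neg_neg] at h
    have e : (fun x : Vn n => Real.exp (Real.log (Gk (Gt G) ((k : ℝ) + 1) (∑ j, f j (x j))))) =
        fun x => Gk (Gt G) ((k : ℝ) + 1) (∑ j, f j (x j)) := by
      funext x
      exact Real.exp_log (hpos _)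
    rw [e] at h
    exact h

/-- nondegeneracy from integrability -/
lemma nondeg {G : ℝ → ℝ} (hG : LogConc G) (hG0 : ∀ u, 0 ≤ G u) (hGa : Antitone G)
    {f : Fin n → ℝ → ℝ} (hf : ∀ i, ConvexOn ℝ univ (f i)) (hfe : ∀ i x, f i (-x) = f i x)
    (hf0 : ∀ i, f i 0 = 0) (hn : 0 < n) (hi : Integrable fun x : Vn n => G (∑ j, f j (x j)))
    (hp : 0 < ∫ x : Vn n, G (∑ j, f j (x j))) :
    0 < G 0 ∧ (∃ U, G U < G 0) ∧ ∀ i, ∃ R, 0 < f i R := by
  have : Nonempty (Fin n) := ⟨⟨0, hn⟩⟩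
  have hGp : 0 < G 0 := by
    by_contra h
    have h1 : G 0 = 0 := le_antisymm (not_lt.mp h) (hG0 0)
    have h2 : ∀ x : Vn n, G (∑ j, f j (x j)) = 0 := fun x =>
      le_antisymm ((hGa (sum_nonneg' hf hfe hf0 x)).trans h1.le) (hG0 _)
    simp [h2] at hp
  refine ⟨hGp, ?_, ?_⟩
  · by_contra h
    push Not at h
    have h2 : ∀ x : Vn n, G (∑ j, f j (x j)) = G 0 := fun x =>
      le_antisymm (hGa (sum_nonneg' hf hfe hf0 x)) (h _)
    simp only [h2] at hi
    rw [integrable_const_iff] at hi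
    rcases hi with hi | hi
    · exact hGp.ne' hi
    · have h3 := hi.measure_univ_lt_top
      rw [measure_univ_of_isAddLeftInvariant] at h3
      exact lt_irrefl _ h3
  · intro i
    by_contra h
    push Not at h
    have hfi : ∀ x, f i x = 0 := fun x => le_antisymm (h x) (evn_nonneg (hf i) (hfe i) (hf0 i) x)
    obtain ⟨m, rfl⟩ : ∃ m, n = m + 1 := ⟨n - 1, by omega⟩
    rw [ins_int i hi] at hp
    have h2 : ∀ (t : ℝ) (y : Vn m), G (∑ j, f j ((ins i t y) j)) =
        G (∑ j, f (i.succAbove j) (y j)) := by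
      intro t y
      rw [Fin.sum_univ_succAbove _ i, hfi, zero_add]
      congr 1
      refine Finset.sum_congr rfl fun j _ => ?_
      simp [ins]
    simp only [h2] at hp
    rw [integral_const] at hp
    simp [Measure.real] at hp

end multi

end Pool.Agent.Lib.MP_8d00da_gt.h42o
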