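import Pool.Agent.Lib.MP_8d00da_gt.h42o.ODefs
import Pool.Agent.Lib.MP_8d00da_gt.h42o.OLim
import Pool.Agent.Lib.MP_8d00da_gt.h42o.OGen
import Pool.Agent.Lib.MP_8d00da_gt.h42s.FinalGT

/-!
# Theorem O: final assembly
-/

namespace Pool.Agent.Lib.MP_8d00da_gt.h42o

open MeasureTheory Set Filter
open Pool.Agent.Lib.MP_8d00da_gt.h25 Pool.Agent.Lib.MP_8d00da_gt.h42
open Pool.Agent.Lib.MP_8d00da_gt.h42s
open scoped Topology NNReal

section O25

variable {n : ℕ} {E : Type*} [NormedAddCommGroup E] [InnerProductSpace ℝ E]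
    [FiniteDimensional ℝ E] [MeasurableSpace E] [BorelSpace E]

private lemma of_sum_ee (x : Vn n) : ∑ j, x j • ee j = x := by
  have h := (EuclideanSpace.basisFun (Fin n) ℝ).sum_repr x
  simpa [ee] using h

private lemma of_clm (l : Vn n →L[ℝ] ℝ) (x : Vn n) : l x = ∑ j, l (ee j) * x j := by
  conv_lhs => rw [← of_sum_ee x]
  rw [map_sum]
  refine Finset.sum_congr rfl fun j _ => ?_
  rw [map_smul, smul_eq_mul, mul_comm]

private lemma of_odd {h : Vn n → ℝ} (heven : ∀ i x, h (fl i x) = h x) (i : Fin n)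
    {g : Vn n → ℝ} (hg : ∀ x, g (fl i x) = - g x) : ∫ x, g x * h x = 0 := by
  have h1 : ∫ x, g (fl i x) * h (fl i x) = ∫ x, g x * h x :=
    (fl i).measurePreserving.integral_comp (fl i).toHomeomorph.measurableEmbedding
      (fun x => g x * h x)
  simp only [heven, hg, neg_mul, integral_neg] at h1
  linarith

private lemma of_norm_sq (x : Vn n) : ‖x‖ ^ 2 = ∑ j, (x j) ^ 2 := by
  rw [EuclideanSpace.norm_sq_eq]
  refine Finset.sum_congr rfl fun j _ => ?_
  rw [Real.norm_eq_abs, sq_abs]

private lemma of_coord_le (x : Vn n) (j : Fin n) : |x j| ≤ ‖x‖ := by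
  have := EuclideanSpace.norm_eq x
  have h1 : (x j) ^ 2 ≤ ‖x‖ ^ 2 := by
    rw [of_norm_sq]
    exact Finset.single_le_sum (f := fun j => (x j) ^ 2) (fun i _ => sq_nonneg _)
      (Finset.mem_univ j)
  exact abs_le_of_sq_le_sq h1 (norm_nonneg x)

/-- second moments of functionals -/
private lemma of_second {h : Vn n → ℝ} (h0 : ∀ x, 0 ≤ h x) (hm : Measurable h)
    (heven : ∀ i x, h (fl i x) = h x) (hi : Integrable h) (hI1 : ∫ x, h x = 1)
    (hi2 : Integrable fun x => ‖x‖ ^ 2 * h x) (l : Vn n →L[ℝ] ℝ) (κ : ℝ) :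
    ∑ j, (∫ x, (x j) ^ 2 * h x) * (l (ee j)) ^ 2 ≤ ∫ x, (l x + κ) ^ 2 * h x := by
  have hij : ∀ i j, Integrable fun x : Vn n => x i * x j * h x := by
    intro i j
    refine hi2.mono ((by fun_prop : Measurable fun x : Vn n => x i * x j).mul
      hm).aestronglyMeasurable (Eventually.of_forall fun x => ?_)
    rw [norm_mul (x i * x j), norm_mul (‖x‖ ^ 2)]
    refine mul_le_mul_of_nonneg_right ?_ (norm_nonneg (h x))
    rw [Real.norm_eq_abs, Real.norm_eq_abs, abs_mul, abs_of_nonneg (sq_nonneg ‖x‖), sq]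
    exact mul_le_mul (of_coord_le x i) (of_coord_le x j) (abs_nonneg _) (norm_nonneg x)
  have hj : ∀ j, Integrable fun x : Vn n => x j * h x := by
    intro j
    refine (hi.add hi2).mono ((by fun_prop : Measurable fun x : Vn n => x j).mul
      hm).aestronglyMeasurable (Eventually.of_forall fun x => ?_)
    simp only [Pi.add_apply]
    have h3 := h0 x
    have h4 : 0 ≤ ‖x‖ ^ 2 * h x := by positivity
    rw [Real.norm_eq_abs, Real.norm_eq_abs, abs_mul, abs_of_nonneg h3,
      abs_of_nonneg (by linarith : 0 ≤ h x + ‖x‖ ^ 2 * h x)]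
    have h1 := of_coord_le x j
    have h2 : ‖x‖ ≤ 1 + ‖x‖ ^ 2 := by nlinarith [sq_nonneg (‖x‖ - 1), norm_nonneg x]
    have h5 := mul_le_mul_of_nonneg_right (h1.trans h2) h3
    linarith
  have hexp : ∀ x, (l x + κ) ^ 2 * h x = (∑ i, ∑ j, l (ee i) * l (ee j) * (x i * x j * h x)) +
      ((2 * κ) * ∑ j, l (ee j) * (x j * h x) + κ ^ 2 * h x) := by
    intro x
    have e1 : (∑ i, ∑ j, l (ee i) * l (ee j) * (x i * x j * h x)) = (l x) ^ 2 * h x := by
      rw [of_clm l x, sq, Finset.sum_mul_sum, Finset.sum_mul]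
      refine Finset.sum_congr rfl fun i _ => ?_
      rw [Finset.sum_mul]
      refine Finset.sum_congr rfl fun j _ => ?_
      ring
    have e2 : ∑ j, l (ee j) * (x j * h x) = l x * h x := by
      rw [of_clm l x, Finset.sum_mul]
      refine Finset.sum_congr rfl fun j _ => ?_
      ring
    rw [e1, e2]
    ring
  simp only [hexp]
  have I1 : Integrable fun x : Vn n => ∑ i, ∑ j, l (ee i) * l (ee j) * (x i * x j * h x) :=
    integrable_finsetSum _ fun i _ => integrable_finsetSum _ fun j _ => (hij i j).const_mul _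
  have I2 : Integrable fun x : Vn n => (2 * κ) * ∑ j, l (ee j) * (x j * h x) :=
    (integrable_finsetSum _ fun j _ => (hj j).const_mul _).const_mul _
  have I3 : Integrable fun x : Vn n => κ ^ 2 * h x := hi.const_mul _
  have I23 : Integrable fun x : Vn n => (2 * κ) * ∑ j, l (ee j) * (x j * h x) + κ ^ 2 * h x :=
    I2.add I3
  rw [integral_add I1 I23, integral_add I2 I3, integral_const_mul, integral_const_mul, hI1]
  have z1 : ∫ x : Vn n, ∑ j, l (ee j) * (x j * h x) = 0 := by
    rw [integral_finsetSum _ fun j _ => (hj j).const_mul _]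
    refine Finset.sum_eq_zero fun j _ => ?_
    rw [integral_const_mul, of_odd heven j (g := fun x => x j) (fun x => by
      rw [fl_apply, if_pos rfl]), mul_zero]
  have z2 : ∫ x : Vn n, ∑ i, ∑ j, l (ee i) * l (ee j) * (x i * x j * h x) =
      ∑ j, (∫ x, (x j) ^ 2 * h x) * (l (ee j)) ^ 2 := by
    rw [integral_finsetSum _ fun i _ => integrable_finsetSum _ fun j _ => (hij i j).const_mul _]
    refine Finset.sum_congr rfl fun i _ => ?_
    rw [integral_finsetSum _ fun j _ => (hij i j).const_mul _, Finset.sum_eq_single i]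
    · rw [integral_const_mul, mul_comm]
      congr 1
      · refine integral_congr_ae (Eventually.of_forall fun x => ?_)
        simp only
        ring
      · ring
    · intro j _ hji
      rw [integral_const_mul, of_odd heven j (g := fun x => x i * x j) (fun x => by
        rw [fl_apply, fl_apply, if_pos rfl, if_neg (Ne.symm hji)]
        ring), mul_zero]
    · intro h
      exact absurd (Finset.mem_univ i) h
  rw [z1, z2]
  nlinarith [sq_nonneg κ]

theorem final_of_QI {C D' : ℝ} (hC : 0 ≤ C) {h : Vn n → ℝ} (h0 : ∀ x, 0 ≤ h x)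
    (hm : Measurable h) (heven : ∀ i x, h (fl i x) = h x) (hQ : QI C h) {μ : Measure (Vn n)}
    (hμ : μ = volume.withDensity fun x => ENNReal.ofReal (h x)) [IsProbabilityMeasure μ]
    (hi2 : Integrable fun x => ‖x‖ ^ 2 * h x)
    (T : Vn n →L[ℝ] E) (hT : Function.Surjective T) (b : E) {D : ℝ}
    (hD : LinPoincareWith (μ.map fun x => T x + b) D) (hCD : C ≤ D' ^ 2) (hD' : 0 ≤ D') :
    PoincareWith (μ.map fun x => T x + b) (D' * D) := by
  have hcont : Continuous fun x => T x + b := T.continuous.add continuous_const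
  have hmeas : Measurable fun x => T x + b := hcont.measurable
  have hme : AEMeasurable (fun x => T x + b) μ := hmeas.aemeasurable
  have hprob : IsProbabilityMeasure (μ.map fun x => T x + b) :=
    Measure.isProbabilityMeasure_map hme
  have hIm : ∀ g : Vn n → ℝ, ∫ x, g x ∂μ = ∫ x, g x * h x := integral_mu h0 hm hμ
  have hii : ∀ {g : Vn n → ℝ}, Integrable g μ ↔ Integrable fun x => g x * h x :=
    integrable_mu h0 hm hμ
  have hi : Integrable h := by
    have h1 : Integrable (fun _ : Vn n => (1 : ℝ)) μ := integrable_const 1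
    rw [hii] at h1
    simpa using h1
  have hI1 : ∫ x, h x = 1 := by
    have h1 := hIm fun _ => 1
    simp only [one_mul, integral_const, probReal_univ, smul_eq_mul, mul_one] at h1
    exact h1.symm
  have hM0 : 0 ≤ max D 0 := le_max_right _ _
  set M : ℝ := max D 0 with hM
  obtain ⟨c, -, hlin⟩ := lin_props hD
  have hA : ∀ v : E, ∑ j, (∫ x : Vn n, (x j) ^ 2 * h x) * (inner ℝ v (T (ee j)) : ℝ) ^ 2 ≤
      M ^ 2 * ‖v‖ ^ 2 := by
    intro v
    obtain ⟨-, h2⟩ := hlin v
    have hvm : Measurable fun y : E => (inner ℝ v (y - c) : ℝ) :=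
      (continuous_const.inner (continuous_id.sub continuous_const)).measurable
    rw [integral_map hme (hvm.pow_const 2).aestronglyMeasurable, hIm] at h2
    have h3 := of_second h0 hm heven hi hI1 hi2 ((innerSL ℝ v).comp T) (inner ℝ v (b - c))
    have e : ∀ x, ((innerSL ℝ v).comp T) x + (inner ℝ v (b - c) : ℝ) =
        inner ℝ v (T x + b - c) := by
      intro x
      simp only [ContinuousLinearMap.comp_apply, innerSL_apply_apply]
      rw [← inner_add_right]
      congr 1
      abel
    simp only [e] at h3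
    simp only [ContinuousLinearMap.comp_apply, innerSL_apply_apply] at h3
    exact h3.trans h2
  have hA' : ∀ φ : E →L[ℝ] ℝ, ∑ j, (∫ x : Vn n, (x j) ^ 2 * h x) * (φ (T (ee j))) ^ 2 ≤
      M ^ 2 * ‖φ‖ ^ 2 := by
    intro φ
    have h1 := hA ((InnerProductSpace.toDual ℝ E).symm φ)
    simp only [InnerProductSpace.toDual_symm_apply, LinearIsometryEquiv.norm_map] at h1
    exact h1
  have hAj0 : ∀ j, 0 ≤ ∫ x : Vn n, (x j) ^ 2 * h x := fun j =>
    integral_nonneg fun x => mul_nonneg (sq_nonneg _) (h0 x)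
  have hTlip : LipschitzWith ‖T‖₊ fun x => T x + b := by
    refine LipschitzWith.of_dist_le_mul fun x y => ?_
    rw [dist_add_right, dist_eq_norm, ← map_sub, dist_eq_norm]
    exact T.le_opNorm _
  -- bounded functions
  have hBL : ∀ (g : E → ℝ) (L : ℝ≥0), LipschitzWith L g → (∃ A : ℝ, ∀ y, |g y| ≤ A) →
      (∫ x, g (T x + b) ^ 2 * h x) - (∫ x, g (T x + b) * h x) ^ 2 ≤
        (D' * M) ^ 2 * ∫ x, ‖fderiv ℝ g (T x + b)‖ ^ 2 * h x := by
    intro g L hgL hgA
    have hg : BL g := ⟨⟨L, hgL⟩, hgA⟩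
    have h1 := hQ (fun x => g (T x + b)) (hg.comp hTlip)
    rw [hI1, mul_one] at h1
    refine h1.trans ?_
    have hbd : ∀ y, ‖fderiv ℝ g y‖ ≤ L := fun y => norm_fderiv_le_of_lipschitz ℝ hgL
    have hDae : ∀ᵐ x : Vn n, DifferentiableAt ℝ g (T x + b) := by
      have h3 : ∀ᵐ y : E, DifferentiableAt ℝ g y := hgL.ae_differentiableAt
      have h4 : ∀ᵐ y : E, DifferentiableAt ℝ g (y + b) :=
        (measurePreserving_add_right (volume : Measure E) b).quasiMeasurePreserving.ae h3
      have hms : MeasurableSet {y : E | DifferentiableAt ℝ g (y + b)} :=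
        (measurableSet_of_differentiableAt ℝ g).preimage (measurable_id.add_const b)
      exact (ae_comp_linearMap_mem_iff (L := (T : Vn n →ₗ[ℝ] E)) (μ := volume) (ν := volume)
        hT hms).2 h4
    have h2 : ∀ j, ∫ x, (fderiv ℝ (fun x => g (T x + b)) x (ee j)) ^ 2 * h x =
        ∫ x, (fderiv ℝ g (T x + b) (T (ee j))) ^ 2 * h x := by
      intro j
      refine integral_congr_ae ?_
      filter_upwards [hDae] with x hx
      have h6 : HasFDerivAt (fun x => g (T x + b)) ((fderiv ℝ g (T x + b)).comp T) x :=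
        hx.hasFDerivAt.comp x (T.hasFDerivAt.add_const b)
      rw [h6.fderiv]
      rfl
    have hfm : ∀ w : E, Measurable fun x => fderiv ℝ g (T x + b) w := fun w =>
      (measurable_fderiv_apply_const ℝ g w).comp hmeas
    have hint : ∀ j, Integrable fun x => (fderiv ℝ g (T x + b) (T (ee j))) ^ 2 * h x := by
      intro j
      refine hi.bdd_mul (c := ((L : ℝ) * ‖T (ee j)‖) ^ 2)
        ((hfm (T (ee j))).pow_const 2).aestronglyMeasurable (Eventually.of_forall fun x => ?_)
      rw [Real.norm_eq_abs, abs_of_nonneg (sq_nonneg _), ← sq_abs, ← Real.norm_eq_abs]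
      refine pow_le_pow_left₀ (norm_nonneg _) ?_ 2
      exact ((fderiv ℝ g (T x + b)).le_opNorm _).trans
        (mul_le_mul_of_nonneg_right (hbd _) (norm_nonneg _))
    have hintn : Integrable fun x => ‖fderiv ℝ g (T x + b)‖ ^ 2 * h x := by
      refine hi.bdd_mul (c := (L : ℝ) ^ 2)
        (((measurable_fderiv ℝ g).norm.comp hmeas).pow_const 2).aestronglyMeasurable
        (Eventually.of_forall fun x => ?_)
      rw [Real.norm_eq_abs, abs_of_nonneg (sq_nonneg _)]
      exact pow_le_pow_left₀ (norm_nonneg _) (hbd _) 2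
    have h3 : ∑ j, (∫ x : Vn n, (x j) ^ 2 * h x) *
        ∫ x, (fderiv ℝ (fun x => g (T x + b)) x (ee j)) ^ 2 * h x ≤
        M ^ 2 * ∫ x, ‖fderiv ℝ g (T x + b)‖ ^ 2 * h x := by
      simp only [h2]
      simp only [← integral_const_mul]
      rw [← integral_finsetSum _ fun j _ => (hint j).const_mul _]
      refine integral_mono (integrable_finsetSum _ fun j _ => (hint j).const_mul _)
        (hintn.const_mul _) fun x => ?_
      have h4 := mul_le_mul_of_nonneg_right (hA' (fderiv ℝ g (T x + b))) (h0 x)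
      rw [Finset.sum_mul] at h4
      refine le_trans (le_of_eq ?_) (h4.trans (le_of_eq ?_))
      · refine Finset.sum_congr rfl fun j _ => ?_
        ring
      · ring
    have h5 : 0 ≤ ∫ x, ‖fderiv ℝ g (T x + b)‖ ^ 2 * h x :=
      integral_nonneg fun x => mul_nonneg (sq_nonneg _) (h0 x)
    calc C * ∑ j, (∫ x : Vn n, (x j) ^ 2 * h x) *
        ∫ x, (fderiv ℝ (fun x => g (T x + b)) x (ee j)) ^ 2 * h x ≤
        C * (M ^ 2 * ∫ x, ‖fderiv ℝ g (T x + b)‖ ^ 2 * h x) :=
          mul_le_mul_of_nonneg_left h3 hC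
      _ ≤ D' ^ 2 * (M ^ 2 * ∫ x, ‖fderiv ℝ g (T x + b)‖ ^ 2 * h x) :=
          mul_le_mul_of_nonneg_right hCD (mul_nonneg (sq_nonneg _) h5)
      _ = _ := by ring
  refine poincare_of_var hD' fun f L hf => ?_
  have hfm : Measurable f := hf.continuous.measurable
  set u : Vn n → ℝ := fun x => f (T x + b) with hu
  have hum : Measurable u := hfm.comp hmeas
  have hub : ∀ x, |u x| ≤ |f b| + (L * ‖T‖) * ‖x‖ := by
    intro x
    have h1 := hf.dist_le_mul (T x + b) b
    rw [Real.dist_eq, dist_eq_norm, add_sub_cancel_right] at h1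
    have h2 := T.le_opNorm x
    have h3 : |u x| ≤ |f b| + |u x - f b| := by
      have := abs_add_le (f b) (u x - f b)
      rwa [add_sub_cancel] at this
    have h4 : (L : ℝ) * ‖T x‖ ≤ L * (‖T‖ * ‖x‖) := mul_le_mul_of_nonneg_left h2 L.2
    have h5 : |u x - f b| ≤ L * ‖T x‖ := h1
    have h6 : (L : ℝ) * (‖T‖ * ‖x‖) = (L * ‖T‖) * ‖x‖ := by ring
    linarith
  have hu2 : Integrable fun x => u x ^ 2 * h x := by
    have h1 : Integrable fun x => (2 * |f b| ^ 2) * h x + (2 * (L * ‖T‖) ^ 2) * (‖x‖ ^ 2 * h x) :=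
      (hi.const_mul _).add (hi2.const_mul _)
    refine h1.mono' ((hum.pow_const 2).mul hm).aestronglyMeasurable
      (Eventually.of_forall fun x => ?_)
    rw [Real.norm_eq_abs, abs_of_nonneg (mul_nonneg (sq_nonneg _) (h0 x))]
    have h2 := hub x
    have h3 : u x ^ 2 ≤ 2 * |f b| ^ 2 + 2 * (L * ‖T‖) ^ 2 * ‖x‖ ^ 2 := by
      rw [← sq_abs (u x)]
      have h4 : |u x| ^ 2 ≤ (|f b| + (L * ‖T‖) * ‖x‖) ^ 2 :=
        pow_le_pow_left₀ (abs_nonneg _) h2 2
      nlinarith [sq_nonneg (|f b| - (L * ‖T‖) * ‖x‖)]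
    have h5 := mul_le_mul_of_nonneg_right h3 (h0 x)
    linarith
  have hu1 : Integrable fun x => u x * h x := by
    refine (hi.add hu2).mono' (hum.mul hm).aestronglyMeasurable (Eventually.of_forall fun x => ?_)
    simp only [Pi.add_apply]
    rw [Real.norm_eq_abs, abs_mul, abs_of_nonneg (h0 x)]
    have h2 : |u x| ≤ 1 + u x ^ 2 := by
      rw [← sq_abs (u x)]
      nlinarith [sq_nonneg (|u x| - 1), abs_nonneg (u x)]
    have h5 := mul_le_mul_of_nonneg_right h2 (h0 x)
    linarith
  -- truncation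
  set tr : ℕ → E → ℝ := fun k y => max (-(k : ℝ)) (min (f y) k) with htr
  have htrL : ∀ k, LipschitzWith L (tr k) := fun k => (hf.min_const (k : ℝ)).const_max (-(k : ℝ))
  have htrA : ∀ k y, |tr k y| ≤ k := by
    intro k y
    have hk : (0 : ℝ) ≤ k := Nat.cast_nonneg k
    rw [abs_le]
    exact ⟨le_max_left _ _, max_le (by linarith) (min_le_right _ _)⟩
  have htrf : ∀ k y, |tr k y| ≤ |f y| := by
    intro k y
    have hk : (0 : ℝ) ≤ k := Nat.cast_nonneg k
    rw [abs_le]
    constructor
    · rcases le_total (f y) k with h1 | h1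
      · refine le_trans (neg_abs_le (f y)) (le_trans ?_ (le_max_right _ _))
        rw [min_eq_left h1]
      · refine le_trans ?_ (le_max_right _ _)
        rw [min_eq_right h1]
        have := abs_nonneg (f y)
        linarith
    · refine max_le ?_ ((min_le_left _ _).trans (le_abs_self _))
      have := abs_nonneg (f y)
      linarith
  have hteq : ∀ (k : ℕ) y, |f y| ≤ k → tr k y = f y := by
    intro k y hk
    rw [abs_le] at hk
    simp only [htr]
    rw [min_eq_left hk.2, max_eq_right hk.1]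
  have htrm : ∀ k, Measurable fun x => tr k (T x + b) := fun k =>
    (htrL k).continuous.measurable.comp hmeas
  have hev : ∀ x, ∀ᶠ k : ℕ in atTop, |f (T x + b)| < k := by
    intro x
    obtain ⟨N, hN⟩ := exists_nat_gt |f (T x + b)|
    filter_upwards [eventually_ge_atTop N] with k hk
    exact hN.trans_le (by exact_mod_cast hk)
  have lim1 : Tendsto (fun k : ℕ => ∫ x, tr k (T x + b) ^ 2 * h x) atTop
      (𝓝 (∫ x, u x ^ 2 * h x)) := by
    refine tendsto_integral_of_dominated_convergence (fun x => u x ^ 2 * h x)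
      (fun k => (((htrm k).pow_const 2).mul hm).aestronglyMeasurable) hu2
      (fun k => Eventually.of_forall fun x => ?_) (Eventually.of_forall fun x => ?_)
    · rw [Real.norm_eq_abs, abs_of_nonneg (mul_nonneg (sq_nonneg _) (h0 x))]
      refine mul_le_mul_of_nonneg_right ?_ (h0 x)
      rw [← sq_abs, ← sq_abs (u x)]
      exact pow_le_pow_left₀ (abs_nonneg _) (htrf k _) 2
    · refine tendsto_const_nhds.congr' ?_
      filter_upwards [hev x] with k hk
      rw [hteq k _ hk.le]
  have lim2 : Tendsto (fun k : ℕ => ∫ x, tr k (T x + b) * h x) atTop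
      (𝓝 (∫ x, u x * h x)) := by
    refine tendsto_integral_of_dominated_convergence (fun x => |u x * h x|)
      (fun k => ((htrm k).mul hm).aestronglyMeasurable) hu1.abs
      (fun k => Eventually.of_forall fun x => ?_) (Eventually.of_forall fun x => ?_)
    · rw [Real.norm_eq_abs, abs_mul, abs_mul]
      exact mul_le_mul_of_nonneg_right (htrf k _) (abs_nonneg _)
    · refine tendsto_const_nhds.congr' ?_
      filter_upwards [hev x] with k hk
      rw [hteq k _ hk.le]
  have hbdk : ∀ k y, ‖fderiv ℝ (tr k) y‖ ≤ L := fun k y =>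
    norm_fderiv_le_of_lipschitz ℝ (htrL k)
  have lim3 : Tendsto (fun k : ℕ => ∫ x, ‖fderiv ℝ (tr k) (T x + b)‖ ^ 2 * h x) atTop
      (𝓝 (∫ x, ‖fderiv ℝ f (T x + b)‖ ^ 2 * h x)) := by
    refine tendsto_integral_of_dominated_convergence (fun x => (L : ℝ) ^ 2 * h x)
      (fun k => ((((measurable_fderiv ℝ (tr k)).norm.comp hmeas).pow_const 2).mul
        hm).aestronglyMeasurable) (hi.const_mul _)
      (fun k => Eventually.of_forall fun x => ?_) (Eventually.of_forall fun x => ?_)
    · rw [Real.norm_eq_abs, abs_of_nonneg (mul_nonneg (sq_nonneg _) (h0 x))]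
      exact mul_le_mul_of_nonneg_right (pow_le_pow_left₀ (norm_nonneg _) (hbdk k _) 2) (h0 x)
    · refine tendsto_const_nhds.congr' ?_
      filter_upwards [hev x] with k hk
      have h1 : ∀ᶠ y in 𝓝 (T x + b), |f y| < k :=
        (hf.continuous.abs.continuousAt).eventually_lt_const hk
      have h2 : tr k =ᶠ[𝓝 (T x + b)] f := by
        filter_upwards [h1] with y hy
        exact hteq k y hy.le
      rw [h2.fderiv_eq]
  have key := le_of_tendsto_of_tendsto' (lim1.sub (lim2.pow 2)) (lim3.const_mul ((D' * M) ^ 2))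
    (fun k => hBL (tr k) L (htrL k) ⟨k, htrA k⟩)
  -- conclusion
  have i1 : ∀ {φ : E → ℝ}, Measurable φ →
      ∫ y, φ y ∂(μ.map fun x => T x + b) = ∫ x, φ (T x + b) ∂μ := fun hφ =>
    integral_map hme hφ.aestronglyMeasurable
  have hmem : MemLp u 2 μ :=
    (memLp_two_iff_integrable_sq hum.aestronglyMeasurable).2 (hii.2 hu2)
  refine ⟨(memLp_map_measure_iff hfm.aestronglyMeasurable hme).2 hmem, ?_⟩
  rw [i1 hfm, i1 ((hfm.sub_const _).pow_const 2), i1 ((measurable_fderiv ℝ f).norm.pow_const 2)]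
  rw [hIm, hIm, hIm]
  refine le_trans (le_of_eq ?_) key
  set m : ℝ := ∫ x, f (T x + b) * h x with hmdef
  have h1 : ∀ x, (f (T x + b) - m) ^ 2 * h x =
      u x ^ 2 * h x - 2 * m * (u x * h x) + m ^ 2 * h x := fun x => by
    simp only [hu]
    ring
  simp only [h1]
  have hi12 : Integrable fun x => u x ^ 2 * h x - 2 * m * (u x * h x) := hu2.sub (hu1.const_mul _)
  rw [integral_add hi12 (hi.const_mul _), integral_sub hu2 (hu1.const_mul _),
    integral_const_mul, integral_const_mul, hI1]
  have h2 : ∫ x, u x * h x = m := rfl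
  rw [h2]
  ring

theorem orlicz {G : ℝ → ℝ} (hG : LogConc G) (hG0 : ∀ u, 0 ≤ G u) (hGa : Antitone G)
    {f : Fin n → ℝ → ℝ} (hf : ∀ i, ConvexOn ℝ univ (f i)) (hfe : ∀ i x, f i (-x) = f i x)
    {μ : Measure (Vn n)}
    (hμ : μ = volume.withDensity fun x => ENNReal.ofReal (G (∑ j, f j (x j))))
    [IsProbabilityMeasure μ] (T : Vn n →L[ℝ] E) (hT : Function.Surjective T) (b : E) {D : ℝ}
    (hD : LinPoincareWith (μ.map fun x => T x + b) D) :
    PoincareWith (μ.map fun x => T x + b) (500 * D) := by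
  have hcont : Continuous fun x => T x + b := T.continuous.add continuous_const
  have hme : AEMeasurable (fun x => T x + b) μ := hcont.measurable.aemeasurable
  have hprob : IsProbabilityMeasure (μ.map fun x => T x + b) :=
    Measure.isProbabilityMeasure_map hme
  -- the trivial case
  rcases Nat.eq_zero_or_pos n with hn | hn
  · subst hn
    have hT1 : ∀ y : E, y = 0 := by
      intro y
      obtain ⟨x, hx⟩ := hT y
      have h1 : x = 0 := by ext i; exact i.elim0
      rw [← hx, h1, map_zero]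
    rintro f ⟨L, hf⟩
    have h2 : ∀ y, f y = f 0 := fun y => by rw [hT1 y]
    have h3 : (fun x => f x - ∫ y, f y ∂(μ.map fun x => T x + b)) = fun _ => 0 := by
      funext x
      simp only [h2 x, h2, integral_const, probReal_univ, smul_eq_mul, one_mul, sub_self]
    rw [h3]
    simp
  set s0 : ℝ := ∑ j, f j 0 with hs0
  set ft : Fin n → ℝ → ℝ := fun j x => f j x + -(f j 0) with hft
  set Gt : ℝ → ℝ := fun u => G (u + s0) with hGt
  set h : Vn n → ℝ := fun x => G (∑ j, f j (x j)) with hh
  have hsum : ∀ x : Vn n, ∑ j, ft j (x j) = (∑ j, f j (x j)) - s0 := by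
    intro x
    simp only [hft, hs0]
    rw [Finset.sum_add_distrib, Finset.sum_neg_distrib]
    ring
  have hGth : (fun x : Vn n => Gt (∑ j, ft j (x j))) = h := by
    funext x
    simp only [hGt, hh]
    rw [hsum, sub_add_cancel]
  have hGtlc : LogConc Gt := by
    intro a ha0 ha1 x y
    have h1 := hG a ha0 ha1 (x + s0) (y + s0)
    have h2 : (1 - a) • (x + s0) + a • (y + s0) = (1 - a) • x + a • y + s0 := by
      simp only [smul_eq_mul]
      ring
    rw [h2] at h1
    exact h1
  have hGt0 : ∀ u, 0 ≤ Gt u := fun u => hG0 _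
  have hGta : Antitone Gt := fun x y hxy => hGa (by linarith)
  have hftc : ∀ i, ConvexOn ℝ univ (ft i) := fun i =>
    (hf i).add (convexOn_const (-(f i 0)) convex_univ)
  have hfte : ∀ i x, ft i (-x) = ft i x := fun i x => by simp only [hft, hfe]
  have hft0 : ∀ i, ft i 0 = 0 := fun i => by simp only [hft]; ring
  have h0 : ∀ x, 0 ≤ h x := fun x => hG0 _
  have hfc : ∀ i, Continuous (f i) := fun i =>
    continuousOn_univ.1 ((hf i).continuousOn isOpen_univ)
  have hm : Measurable h := by
    have h1 : Measurable fun x : Vn n => ∑ j, f j (x j) := by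
      refine Finset.measurable_sum _ fun j _ => ?_
      exact (hfc j).measurable.comp (by fun_prop)
    exact hGa.measurable.comp h1
  have heven : ∀ i x, h (fl i x) = h x := by
    intro i x
    simp only [hh]
    congr 1
    refine Finset.sum_congr rfl fun j _ => ?_
    rw [fl_apply]
    split_ifs
    · rw [hfe]
    · rfl
  have hIm : ∀ g : Vn n → ℝ, ∫ x, g x ∂μ = ∫ x, g x * h x := integral_mu h0 hm hμ
  have hi : Integrable h := by
    have h1 : Integrable (fun _ : Vn n => (1 : ℝ)) μ := integrable_const 1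
    rw [integrable_mu h0 hm hμ] at h1
    simpa using h1
  have hI1 : ∫ x, h x = 1 := by
    have h1 := hIm fun _ => 1
    simp only [one_mul, integral_const, probReal_univ, smul_eq_mul, mul_one] at h1
    exact h1.symm
  obtain ⟨hGp, ⟨U, hU⟩, hR⟩ := nondeg hGtlc hGt0 hGta hftc hfte hft0 hn
    (by rw [hGth]; exact hi) (by rw [hGth, hI1]; norm_num)
  have hQ := gen_QI hGtlc hGt0 hGta hGp hU hftc hfte hft0 hR
  rw [hGth] at hQ
  obtain ⟨a, c, ha, hac⟩ := gen_bound hGtlc hGt0 hGta hGp hU hftc hfte hft0 hR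
  have hac' : ∀ x : Vn n, h x ≤ Real.exp (-(a * ∑ j, |x j| - c)) := fun x => by
    rw [← hGth]
    exact hac x
  have hi2 : Integrable fun x => ‖x‖ ^ 2 * h x := by
    refine (exp_l1_int (n := n) (b := c) ha).mono'
      ((measurable_norm.pow_const 2).mul hm).aestronglyMeasurable
      (Eventually.of_forall fun x => ?_)
    rw [Real.norm_eq_abs, abs_of_nonneg (mul_nonneg (sq_nonneg _) (h0 x))]
    exact mul_le_mul (by linarith) (hac' x) (h0 x) (by positivity)
  exact final_of_QI (by norm_num) h0 hm heven hQ hμ hi2 T hT b hD (by norm_num) (by norm_num)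

end O25

end Pool.Agent.Lib.MP_8d00da_gt.h42o
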