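import Pool.Agent.Lib.MP_8d00da_gt.h42o.ODefs

/-!
# Monotone likelihood ratio comparison (O-15)
-/

namespace Pool.Agent.Lib.MP_8d00da_gt.h42o

open MeasureTheory Set Filter
open Pool.Agent.Lib.MP_8d00da_gt.h25 Pool.Agent.Lib.MP_8d00da_gt.h42
open Pool.Agent.Lib.MP_8d00da_gt.h42s
open scoped Topology NNReal

private lemma mlr_four {R : ℝ → ℝ} (hR : LogConc R) (hR0 : ∀ w, 0 < R w) {p p' q1 q2 : ℝ}
    (h1 : p ≤ q1) (h2 : p ≤ q2) (hs : q1 + q2 = p + p') : R p * R p' ≤ R q1 * R q2 := by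
  rcases eq_or_lt_of_le h1 with h | h1
  · have : q2 = p' := by linarith
    rw [← h, this]
  rcases eq_or_lt_of_le h2 with h | h2
  · have : q1 = p' := by linarith
    rw [← h, this, mul_comm]
  have hpp : 0 < p' - p := by linarith
  set t : ℝ := (q1 - p) / (p' - p) with ht
  have ht0 : 0 < t := div_pos (by linarith) hpp
  have ht1 : t < 1 := by rw [ht, div_lt_one hpp]; linarith
  have htm : t * (p' - p) = q1 - p := by rw [ht]; field_simp
  have e1 := hR t ht0 ht1 p p'
  have e2 := hR (1 - t) (by linarith) (by linarith) p p'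
  have a1 : (1 - t) • p + t • p' = q1 := by simp only [smul_eq_mul]; linarith
  have a2 : (1 - (1 - t)) • p + (1 - t) • p' = q2 := by simp only [smul_eq_mul]; linarith
  rw [a1] at e1
  rw [a2] at e2
  have hp := hR0 p
  have hp' := hR0 p'
  calc R p * R p' = (R p ^ (1 - t) * R p' ^ t) * (R p ^ (1 - (1 - t)) * R p' ^ (1 - t)) := by
        have k1 : R p ^ (1 - t) * R p ^ (1 - (1 - t)) = R p := by
          rw [← Real.rpow_add hp]; ring_nf; exact Real.rpow_one _
        have k2 : R p' ^ t * R p' ^ (1 - t) = R p' := by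
          rw [← Real.rpow_add hp']; ring_nf; exact Real.rpow_one _
        calc R p * R p' = (R p ^ (1 - t) * R p ^ (1 - (1 - t))) * (R p' ^ t * R p' ^ (1 - t)) := by
              rw [k1, k2]
          _ = _ := by ring
    _ ≤ R q1 * R q2 := by
        apply mul_le_mul e1 e2 _ (hR0 q1).le
        exact mul_nonneg (Real.rpow_nonneg hp.le _) (Real.rpow_nonneg hp'.le _)

lemma mlr {R g : ℝ → ℝ} (hR : LogConc R) (hR0 : ∀ w, 0 < R w) (hgc : Continuous g)
    (hgm : ∀ s t : ℝ, |s| ≤ |t| → g s ≤ g t) {z z' : ℝ} (hz : z ≤ z')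
    (i0 : Integrable fun s => R (z + g s)) (i2 : Integrable fun s => s ^ 2 * R (z + g s))
    (j0 : Integrable fun s => R (z' + g s)) (j2 : Integrable fun s => s ^ 2 * R (z' + g s)) :
    (∫ s, s ^ 2 * R (z' + g s)) * (∫ s, R (z + g s)) ≤
      (∫ s, s ^ 2 * R (z + g s)) * ∫ s, R (z' + g s) := by
  have key : ∀ s r : ℝ, (s ^ 2 * R (z' + g s)) * R (z + g r) - (s ^ 2 * R (z + g s)) * R (z' + g r)
      - R (z' + g s) * (r ^ 2 * R (z + g r)) + R (z + g s) * (r ^ 2 * R (z' + g r)) ≤ 0 := by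
    have main : ∀ s r : ℝ, |r| ≤ |s| →
        R (z' + g s) * R (z + g r) - R (z' + g r) * R (z + g s) ≤ 0 := by
      intro s r h
      have hg := hgm r s h
      have := mlr_four hR hR0 (p := z + g r) (p' := z' + g s) (q1 := z' + g r) (q2 := z + g s)
        (by linarith) (by linarith) (by ring)
      nlinarith
    intro s r
    rcases le_total |r| |s| with h | h
    · have h1 := main s r h
      have h2 : r ^ 2 ≤ s ^ 2 := sq_le_sq.mpr h
      nlinarith [mul_nonneg (sub_nonneg.mpr h2) (neg_nonneg.mpr h1)]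
    · have h1 := main r s h
      have h2 : s ^ 2 ≤ r ^ 2 := sq_le_sq.mpr h
      nlinarith [mul_nonneg (sub_nonneg.mpr h2) (neg_nonneg.mpr h1)]
  have I1 := j2.mul_prod i0
  have I2 := i2.mul_prod j0
  have I3 := j0.mul_prod i2
  have I4 := i0.mul_prod j2
  have hint : ∫ q : ℝ × ℝ, ((q.1 ^ 2 * R (z' + g q.1)) * R (z + g q.2)
      - (q.1 ^ 2 * R (z + g q.1)) * R (z' + g q.2)
      - R (z' + g q.1) * (q.2 ^ 2 * R (z + g q.2)) + R (z + g q.1) * (q.2 ^ 2 * R (z' + g q.2)))
      ∂((volume : Measure ℝ).prod volume) ≤ 0 :=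
    integral_nonpos fun q => key q.1 q.2
  have J12 : Integrable (fun q : ℝ × ℝ => (q.1 ^ 2 * R (z' + g q.1)) * R (z + g q.2)
      - (q.1 ^ 2 * R (z + g q.1)) * R (z' + g q.2)) ((volume : Measure ℝ).prod volume) :=
    I1.sub I2
  have J123 : Integrable (fun q : ℝ × ℝ => (q.1 ^ 2 * R (z' + g q.1)) * R (z + g q.2)
      - (q.1 ^ 2 * R (z + g q.1)) * R (z' + g q.2) - R (z' + g q.1) * (q.2 ^ 2 * R (z + g q.2)))
      ((volume : Measure ℝ).prod volume) := J12.sub I3
  rw [integral_add J123 I4, integral_sub J12 I3, integral_sub I1 I2,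
    integral_prod_mul (fun s => s ^ 2 * R (z' + g s)) (fun r => R (z + g r)),
    integral_prod_mul (fun s => s ^ 2 * R (z + g s)) (fun r => R (z' + g r)),
    integral_prod_mul (fun s => R (z' + g s)) (fun r => r ^ 2 * R (z + g r)),
    integral_prod_mul (fun s => R (z + g s)) (fun r => r ^ 2 * R (z' + g r))] at hint
  nlinarith

end Pool.Agent.Lib.MP_8d00da_gt.h42o
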