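import Pool.Agent.Lib.MP_8d00da_gt.h42o.ODefs

/-!
# The one dimensional estimate (O-14)
-/

namespace Pool.Agent.Lib.MP_8d00da_gt.h42o

open MeasureTheory Set Filter
open Pool.Agent.Lib.MP_8d00da_gt.h25 Pool.Agent.Lib.MP_8d00da_gt.h42
open Pool.Agent.Lib.MP_8d00da_gt.h42s
open scoped Topology NNReal

/-- the tail function -/
private noncomputable def odf (a : ℝ) (x : ℝ) : ℝ :=
  (Ioi a).indicator (fun x => x / a * Real.exp (1 - x / a)) x

private lemma odf_deriv {a : ℝ} (ha : 0 < a) (x : ℝ) :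
    HasDerivAt (fun x : ℝ => -(x + a) * Real.exp (1 - x / a)) (x / a * Real.exp (1 - x / a)) x := by
  have h1 : HasDerivAt (fun x : ℝ => 1 - x / a) (-(1 / a)) x := by
    simpa using ((hasDerivAt_id x).div_const a).const_sub 1
  have h2 := h1.exp
  have h3 : HasDerivAt (fun x : ℝ => -(x + a)) (-1) x := ((hasDerivAt_id x).add_const a).neg
  have h4 := h3.mul h2
  have e : x / a * Real.exp (1 - x / a) =
      -1 * Real.exp (1 - x / a) + -(x + a) * (Real.exp (1 - x / a) * -(1 / a)) := by
    field_simp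
    ring
  rw [e]
  exact h4

private lemma odf_lim {a : ℝ} (ha : 0 < a) :
    Tendsto (fun x : ℝ => -(x + a) * Real.exp (1 - x / a)) atTop (𝓝 0) := by
  have h1 : Tendsto (fun y : ℝ => y ^ 1 * Real.exp (-y)) atTop (𝓝 0) :=
    Real.tendsto_pow_mul_exp_neg_atTop_nhds_zero 1
  have h0 : Tendsto (fun y : ℝ => Real.exp (-y)) atTop (𝓝 0) :=
    Real.tendsto_exp_neg_atTop_nhds_zero
  have h2 : Tendsto (fun x : ℝ => x / a) atTop atTop := tendsto_id.atTop_div_const ha
  have h3 := (h1.comp h2).add (h0.comp h2)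
  have h4 := h3.const_mul (-(a * Real.exp 1))
  simp only [add_zero, mul_zero, Function.comp_def, pow_one] at h4
  refine h4.congr fun x => ?_
  have : Real.exp (1 - x / a) = Real.exp 1 * Real.exp (-(x / a)) := by
    rw [← Real.exp_add]; ring_nf
  rw [this]
  field_simp

private lemma odf_int {a : ℝ} (ha : 0 < a) : Integrable (odf a) ∧ ∫ x, odf a x = 2 * a := by
  have hc : ContinuousWithinAt (fun x : ℝ => -(x + a) * Real.exp (1 - x / a)) (Ici a) a := by
    apply Continuous.continuousWithinAt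
    fun_prop
  have h1 : IntegrableOn (fun x => x / a * Real.exp (1 - x / a)) (Ioi a) := by
    refine integrableOn_Ioi_deriv_of_nonneg hc (fun x _ => odf_deriv ha x) (fun x hx => ?_)
      (odf_lim ha)
    have : 0 < x := lt_trans ha hx
    positivity
  have h2 : ∫ x in Ioi a, x / a * Real.exp (1 - x / a) = 2 * a := by
    rw [integral_Ioi_of_hasDerivAt_of_tendsto hc (fun x _ => odf_deriv ha x) h1 (odf_lim ha)]
    rw [div_self ha.ne']
    simp
    ring
  refine ⟨(integrable_indicator_iff measurableSet_Ioi).mpr h1, ?_⟩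
  unfold odf
  rw [integral_indicator measurableSet_Ioi, h2]

private lemma odf_nonneg {a : ℝ} (ha : 0 < a) (x : ℝ) : 0 ≤ odf a x := by
  unfold odf
  apply indicator_nonneg
  intro x hx
  have : 0 < x := lt_trans ha hx
  positivity

lemma one_dim {R g : ℝ → ℝ} (hR : LogConc R) (hR0 : ∀ w, 0 < R w) (hRa : Antitone R)
    (hg : ConvexOn ℝ univ g) (hge : ∀ x, g (-x) = g x) (hg0 : g 0 = 0) {t0 : ℝ} (ht0 : 0 < t0)
    (ht : t0 ^ 2 = 25 / 2) (hgt : 0 < g t0) (i0 : Integrable fun s => R (g s))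
    (i2 : Integrable fun s => s ^ 2 * R (g s)) (ig : Integrable fun s => g s * R (g s))
    (hm : ∫ s, s ^ 2 * R (g s) ≤ (1 / 2) * ∫ s, R (g s)) :
    ∫ s, g s * R (g s) ≤ (1 / 2) * g t0 * ∫ s, R (g s) := by
  set N := ∫ s, R (g s) with hN
  have hN0 : 0 ≤ N := integral_nonneg fun s => (hR0 _).le
  have gabs : ∀ s, g |s| = g s := by
    intro s
    rcases abs_choice s with h | h <;> rw [h]
    exact hge s
  have gscale : ∀ l, 0 ≤ l → l ≤ 1 → ∀ x, g (l * x) ≤ l * g x := by
    intro l h0 h1 x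
    have := hg.2 (mem_univ x) (mem_univ 0) h0 (by linarith : 0 ≤ 1 - l) (by ring)
    simpa [hg0] using this
  have gnn : ∀ x, 0 ≤ g x := by
    intro x
    have h1 := hg.2 (mem_univ x) (mem_univ (-x)) (by norm_num : (0:ℝ) ≤ 1 / 2)
      (by norm_num : (0:ℝ) ≤ 1 / 2) (by norm_num)
    have h2 : (1 / 2 : ℝ) • x + (1 / 2 : ℝ) • (-x) = 0 := by simp
    rw [h2, hg0, hge x] at h1
    simp only [smul_eq_mul] at h1
    linarith
  have gin : ∀ s, |s| ≤ t0 → t0 * g s ≤ |s| * g t0 := by
    intro s hs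
    have h1 := gscale (|s| / t0) (by positivity) ((div_le_one ht0).mpr hs) t0
    have h2 : |s| / t0 * t0 = |s| := by field_simp
    rw [h2, gabs] at h1
    calc t0 * g s ≤ t0 * (|s| / t0 * g t0) := by gcongr
      _ = |s| * g t0 := by field_simp
  have gout : ∀ s, t0 ≤ |s| → |s| * g t0 ≤ t0 * g s := by
    intro s hs
    have hs0 : 0 < |s| := by linarith
    have h1 := gscale (t0 / |s|) (by positivity) ((div_le_one hs0).mpr hs) |s|
    have h2 : t0 / |s| * |s| = t0 := by field_simp
    rw [h2, gabs] at h1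
    calc |s| * g t0 ≤ |s| * (t0 / |s| * g s) := by gcongr
      _ = t0 * g s := by field_simp
  -- step 2
  have s2 : R (g t0) * (2 * t0 ^ 3 / 3) ≤ N / 2 := by
    have h1 : ∫ s in Icc (-t0) t0, s ^ 2 * R (g t0) ≤ ∫ s in Icc (-t0) t0, s ^ 2 * R (g s) := by
      apply setIntegral_mono_on
      · exact (by fun_prop : Continuous fun s : ℝ => s ^ 2 * R (g t0)).integrableOn_Icc
      · exact i2.integrableOn
      · exact measurableSet_Icc
      · intro s hs
        have hs' : |s| ≤ t0 := abs_le.mpr ⟨hs.1, hs.2⟩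
        have h3 := gin s hs'
        have h4 : g s ≤ g t0 := by nlinarith [mul_le_mul_of_nonneg_right hs' hgt.le]
        exact mul_le_mul_of_nonneg_left (hRa h4) (sq_nonneg s)
    have h2 : ∫ s in Icc (-t0) t0, s ^ 2 * R (g s) ≤ ∫ s, s ^ 2 * R (g s) :=
      setIntegral_le_integral i2 (Eventually.of_forall fun s => mul_nonneg (sq_nonneg s) (hR0 _).le)
    have h3 : ∫ s in Icc (-t0) t0, s ^ 2 * R (g t0) = R (g t0) * (2 * t0 ^ 3 / 3) := by
      rw [integral_mul_const, integral_Icc_eq_integral_Ioc,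
        ← intervalIntegral.integral_of_le (by linarith), integral_pow]
      norm_num
      ring
    linarith
  -- step 3
  have s3 : N ≤ R 0 * (2 * Real.sqrt 2) + N / 4 := by
    have hp : ∀ s, R (g s) ≤ (Icc (-Real.sqrt 2) (Real.sqrt 2)).indicator (fun _ => R 0) s +
        (1 / 2) * (s ^ 2 * R (g s)) := by
      intro s
      by_cases hs : s ∈ Icc (-Real.sqrt 2) (Real.sqrt 2)
      · rw [indicator_of_mem hs]
        have h1 : R (g s) ≤ R 0 := hRa (gnn s)
        have h2 : 0 ≤ s ^ 2 * R (g s) := mul_nonneg (sq_nonneg s) (hR0 _).le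
        linarith
      · rw [indicator_of_notMem hs]
        have h1 : Real.sqrt 2 < |s| := by
          by_contra h
          exact hs (abs_le.mp (not_lt.mp h))
        have h2 : 2 ≤ s ^ 2 := by
          have h3 : Real.sqrt 2 ^ 2 = 2 := Real.sq_sqrt (by norm_num)
          have h4 : |s| ^ 2 = s ^ 2 := sq_abs s
          nlinarith [Real.sqrt_nonneg 2]
        nlinarith [hR0 (g s)]
    have hi : Integrable ((Icc (-Real.sqrt 2) (Real.sqrt 2)).indicator (fun _ : ℝ => R 0)) := by
      rw [integrable_indicator_iff measurableSet_Icc]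
      exact integrableOn_const (by simp) (by simp)
    have h1 := integral_mono i0 (hi.add (i2.const_mul (1 / 2))) hp
    simp only [Pi.add_apply] at h1
    rw [integral_add hi (i2.const_mul _), integral_const_mul, integral_indicator measurableSet_Icc,
      setIntegral_const] at h1
    simp only [Measure.real, Real.volume_Icc, smul_eq_mul] at h1
    rw [ENNReal.toReal_ofReal (by linarith [Real.sqrt_nonneg 2])] at h1
    linarith
  have hsq2 : Real.sqrt 2 ^ 2 = 2 := Real.sq_sqrt (by norm_num)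
  have hsq0 : 0 < Real.sqrt 2 := Real.sqrt_pos.mpr (by norm_num)
  have h5 : t0 * Real.sqrt 2 = 5 := by
    have h1 : (t0 * Real.sqrt 2) ^ 2 = 5 ^ 2 := by rw [mul_pow, hsq2, ht]; norm_num
    exact (sq_eq_sq₀ (by positivity) (by norm_num)).mp h1
  have hRt : 0 < R (g t0) := hR0 _
  have s3' : R (g t0) * Real.exp 1 ≤ R 0 := by
    -- R(g t0) * 25 t0/3 ≤ N/2, N ≤ (8 sqrt2/3) R 0
    have e1 : R (g t0) * (25 * t0 / 3) ≤ N / 2 := by
      have : 2 * t0 ^ 3 / 3 = 25 * t0 / 3 := by
        have : t0 ^ 3 = t0 * t0 ^ 2 := by ring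
        rw [this, ht]; ring
      rw [← this]; exact s2
    have e2 : R (g t0) * (25 * t0 / 3) ≤ R 0 * (4 * Real.sqrt 2 / 3) := by linarith
    have e3 : R (g t0) * (25 * t0 / 3) * Real.sqrt 2 ≤ R 0 * (4 * Real.sqrt 2 / 3) * Real.sqrt 2 :=
      mul_le_mul_of_nonneg_right e2 hsq0.le
    have e4 : R (g t0) * (25 * t0 / 3) * Real.sqrt 2 = R (g t0) * (125 / 3) := by
      calc R (g t0) * (25 * t0 / 3) * Real.sqrt 2 = R (g t0) * (25 / 3) * (t0 * Real.sqrt 2) := by
            ring
        _ = R (g t0) * (125 / 3) := by rw [h5]; ring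
    have e5 : R 0 * (4 * Real.sqrt 2 / 3) * Real.sqrt 2 = R 0 * (8 / 3) := by
      calc R 0 * (4 * Real.sqrt 2 / 3) * Real.sqrt 2 = R 0 * (4 / 3) * Real.sqrt 2 ^ 2 := by ring
        _ = R 0 * (8 / 3) := by rw [hsq2]; ring
    rw [e4, e5] at e3
    have e6 : Real.exp 1 ≤ 3 := by linarith [Real.exp_one_lt_d9]
    nlinarith
  -- step 4
  have s4 : ∀ s, t0 < |s| → g s * R (g s) ≤
      g t0 * R (g t0) * (|s| / t0 * Real.exp (1 - |s| / t0)) := by
    intro s hs
    have hs0 : 0 < |s| := by linarith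
    set v := |s| / t0 with hv
    set u := g s / g t0 with hu
    have hv1 : 1 < v := by rw [hv, one_lt_div ht0]; exact hs
    have huv : v ≤ u := by
      rw [hv, hu, div_le_div_iff₀ ht0 hgt]
      have := gout s hs.le
      linarith
    have hu1 : 1 < u := lt_of_lt_of_le hv1 huv
    have hu0 : 0 < u := by linarith
    have hgu : g s = u * g t0 := by rw [hu]; field_simp
    have hlc := hR (1 / u) (by positivity) (by rw [div_lt_one hu0]; exact hu1) 0 (g s)
    have harg : (1 - 1 / u) • (0 : ℝ) + (1 / u) • g s = g t0 := by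
      simp only [smul_eq_mul, mul_zero, zero_add]
      rw [hgu]; field_simp
    rw [harg] at hlc
    have hl := Real.log_le_log (mul_pos (Real.rpow_pos_of_pos (hR0 0) _)
      (Real.rpow_pos_of_pos (hR0 (g s)) _)) hlc
    rw [Real.log_mul (Real.rpow_pos_of_pos (hR0 0) _).ne' (Real.rpow_pos_of_pos (hR0 (g s)) _).ne',
      Real.log_rpow (hR0 0), Real.log_rpow (hR0 (g s))] at hl
    have hk := Real.log_le_log (mul_pos hRt (Real.exp_pos 1)) s3'
    rw [Real.log_mul hRt.ne' (Real.exp_pos 1).ne', Real.log_exp] at hk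
    have hl2 : Real.log (R (g s)) ≤ Real.log (R (g t0)) - (u - 1) := by
      have h1 : u * ((1 - 1 / u) * Real.log (R 0) + 1 / u * Real.log (R (g s))) ≤
          u * Real.log (R (g t0)) := mul_le_mul_of_nonneg_left hl hu0.le
      have h2 : u * ((1 - 1 / u) * Real.log (R 0) + 1 / u * Real.log (R (g s))) =
          (u - 1) * Real.log (R 0) + Real.log (R (g s)) := by field_simp
      rw [h2] at h1
      nlinarith [mul_le_mul_of_nonneg_left hk (by linarith : (0:ℝ) ≤ u - 1)]
    have hR2 : R (g s) ≤ R (g t0) * Real.exp (1 - u) := by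
      have h1 := Real.exp_le_exp.mpr hl2
      rw [Real.exp_log (hR0 _)] at h1
      calc R (g s) ≤ Real.exp (Real.log (R (g t0)) - (u - 1)) := h1
        _ = R (g t0) * Real.exp (1 - u) := by
            rw [show Real.log (R (g t0)) - (u - 1) = Real.log (R (g t0)) + (1 - u) by ring,
              Real.exp_add, Real.exp_log hRt]
    have huv2 : u * Real.exp (1 - u) ≤ v * Real.exp (1 - v) := by
      have h1 : u ≤ v * Real.exp (u - v) := by
        have h2 := Real.add_one_le_exp (u - v)
        nlinarith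
      have h2 : Real.exp (1 - v) = Real.exp (u - v) * Real.exp (1 - u) := by
        rw [← Real.exp_add]; ring_nf
      rw [h2]
      calc u * Real.exp (1 - u) ≤ v * Real.exp (u - v) * Real.exp (1 - u) :=
            mul_le_mul_of_nonneg_right h1 (Real.exp_pos _).le
        _ = _ := by ring
    calc g s * R (g s) ≤ g s * (R (g t0) * Real.exp (1 - u)) :=
          mul_le_mul_of_nonneg_left hR2 (gnn s)
      _ = g t0 * R (g t0) * (u * Real.exp (1 - u)) := by rw [hgu]; ring
      _ ≤ g t0 * R (g t0) * (v * Real.exp (1 - v)) :=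
          mul_le_mul_of_nonneg_left huv2 (mul_pos hgt hRt).le
  -- pointwise bound
  have hpt : ∀ s, g s * R (g s) ≤ g t0 / 5 * (s ^ 2 * R (g s) + (1 / 2) * R (g s)) +
      g t0 * R (g t0) * (odf t0 s + odf t0 (-s)) := by
    intro s
    have hd1 := odf_nonneg ht0 s
    have hd2 := odf_nonneg ht0 (-s)
    have hRs := hR0 (g s)
    rcases le_or_gt |s| t0 with hs | hs
    · have h1 := gin s hs
      have h2 : g s ≤ g t0 / 5 * (s ^ 2 + 1 / 2) := by
        -- |s| ≤ t0 (s^2+1/2)/5
        have h3 : |s| ≤ t0 * (s ^ 2 + 1 / 2) / 5 := by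
          have h4 : (t0 * |s| - 5 / 2) ^ 2 ≥ 0 := sq_nonneg _
          have h6 : |s| ^ 2 = s ^ 2 := sq_abs s
          have h7 : 0 ≤ t0 ^ 2 * s ^ 2 - 5 * t0 * |s| + 25 / 4 := by
            rw [← h6]; nlinarith
          rw [ht] at h7
          have h8 : 5 * (t0 * |s|) ≤ 25 / 2 * s ^ 2 + 25 / 4 := by linarith
          have h9 : 5 * (t0 * |s|) ≤ t0 * (t0 * (s ^ 2 + 1 / 2)) := by
            have : t0 * (t0 * (s ^ 2 + 1 / 2)) = t0 ^ 2 * (s ^ 2 + 1 / 2) := by ring
            rw [this, ht]; linarith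
          have h10 : t0 * (5 * |s|) ≤ t0 * (t0 * (s ^ 2 + 1 / 2)) := by linarith
          have h11 := le_of_mul_le_mul_left h10 ht0
          linarith
        have h4 : t0 * g s ≤ t0 * (g t0 / 5 * (s ^ 2 + 1 / 2)) := by
          calc t0 * g s ≤ |s| * g t0 := h1
            _ ≤ t0 * (s ^ 2 + 1 / 2) / 5 * g t0 := by gcongr
            _ = _ := by ring
        exact le_of_mul_le_mul_left h4 ht0
      have h3 : g s * R (g s) ≤ g t0 / 5 * (s ^ 2 + 1 / 2) * R (g s) :=
        mul_le_mul_of_nonneg_right h2 hRs.le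
      have h4 : 0 ≤ g t0 * R (g t0) * (odf t0 s + odf t0 (-s)) := by positivity
      nlinarith
    · have h1 := s4 s hs
      have h2 : |s| / t0 * Real.exp (1 - |s| / t0) ≤ odf t0 s + odf t0 (-s) := by
        rcases abs_choice s with h | h
        · have h3 : odf t0 s = |s| / t0 * Real.exp (1 - |s| / t0) := by
            unfold odf
            rw [indicator_of_mem (by rw [h] at hs; exact hs), h]
          linarith
        · have h3 : odf t0 (-s) = |s| / t0 * Real.exp (1 - |s| / t0) := by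
            unfold odf
            rw [indicator_of_mem (by rw [h] at hs; exact hs), h]
          linarith
      have h3 : g t0 * R (g t0) * (|s| / t0 * Real.exp (1 - |s| / t0)) ≤
          g t0 * R (g t0) * (odf t0 s + odf t0 (-s)) :=
        mul_le_mul_of_nonneg_left h2 (mul_pos hgt hRt).le
      have h4 : 0 ≤ g t0 / 5 * (s ^ 2 * R (g s) + (1 / 2) * R (g s)) := by positivity
      linarith
  obtain ⟨hoi, hoe⟩ := odf_int ht0
  have hoi' : Integrable fun s => odf t0 (-s) := hoi.comp_neg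
  have J1 : Integrable fun s => s ^ 2 * R (g s) + (1 / 2) * R (g s) := i2.add (i0.const_mul _)
  have J2 : Integrable fun s => odf t0 s + odf t0 (-s) := hoi.add hoi'
  have hfin := integral_mono ig ((J1.const_mul (g t0 / 5)).add (J2.const_mul (g t0 * R (g t0)))) hpt
  simp only [Pi.add_apply] at hfin
  rw [integral_add (J1.const_mul _) (J2.const_mul _), integral_const_mul, integral_const_mul,
    integral_add i2 (i0.const_mul _), integral_const_mul, integral_add hoi hoi',
    integral_neg_eq_self (odf t0), hoe, ← hN] at hfin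
  -- R (g t0) * 25 t0 / 3 ≤ N / 2
  have e1 : R (g t0) * (4 * t0) ≤ 6 / 25 * N := by
    have : 2 * t0 ^ 3 / 3 = 25 * t0 / 3 := by
      have : t0 ^ 3 = t0 * t0 ^ 2 := by ring
      rw [this, ht]; ring
    rw [this] at s2
    nlinarith
  have e2 : g t0 * (R (g t0) * (4 * t0)) ≤ g t0 * (6 / 25 * N) := mul_le_mul_of_nonneg_left e1 hgt.le
  have e3 : g t0 / 5 * ((∫ s, s ^ 2 * R (g s)) + (1 / 2) * N) ≤ g t0 / 5 * N := by
    apply mul_le_mul_of_nonneg_left _ (by positivity)
    linarith
  have e4 : 0 ≤ g t0 * N := mul_nonneg hgt.le hN0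
  nlinarith

end Pool.Agent.Lib.MP_8d00da_gt.h42o
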