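import Pool.Agent.Lib.MP_8d00da_gt.h42o.ODefs
import Pool.Agent.Lib.MP_8d00da_gt.h42o.OIns
import Pool.Agent.Lib.MP_8d00da_gt.h42o.OReg
import Pool.Agent.Lib.MP_8d00da_gt.h42o.OMLR
import Pool.Agent.Lib.MP_8d00da_gt.h42o.OOneD
import Pool.Agent.Lib.MP_8d00da_gt.h42s.FinalGT

/-!
# Theorem O, O-16: partition functions
-/

namespace Pool.Agent.Lib.MP_8d00da_gt.h42o

open MeasureTheory Set Filter
open Pool.Agent.Lib.MP_8d00da_gt.h25 Pool.Agent.Lib.MP_8d00da_gt.h42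
open Pool.Agent.Lib.MP_8d00da_gt.h42s
open scoped Topology NNReal

variable {m : ℕ}

/-- The partition function. -/
noncomputable def Zf {m : ℕ} (Ψ : ℝ → ℝ) (g : Fin m → ℝ → ℝ) (w : ℝ) : ℝ := ∫ y, ow Ψ g w y

variable {K κ c M K' u1 : ℝ} {Ψ : ℝ → ℝ}

lemma op_cont {g : Fin m → ℝ → ℝ} (hg : ∀ i, GD K κ (g i)) (hΨ : PD c M K' u1 Ψ) (w : ℝ) :
    Continuous (ow Ψ g w) := by
  unfold ow
  have h1 : ∀ i, Continuous (g i) := fun i => (hg i).diff.continuous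
  have h2 : Continuous Ψ := hΨ.diff.continuous
  fun_prop

lemma op_intw {g : Fin m → ℝ → ℝ} (hg : ∀ i, GD K κ (g i)) (hκ : 0 < κ) (hc : 0 < c)
    (hΨ : PD c M K' u1 Ψ) (w : ℝ) : Integrable (ow Ψ g w) := by
  have h := ow_int hg hκ hc hΨ w (φ := fun _ => (1 : ℝ)) measurable_const (C := 1) (fun x => by
    rw [abs_one, one_mul]
    nlinarith [sq_nonneg ‖x‖])
  simpa using h

lemma op_pos {g : Fin m → ℝ → ℝ} (w : ℝ) (y : Vn m) : 0 < ow Ψ g w y := Real.exp_pos _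

lemma Zf_pos {g : Fin m → ℝ → ℝ} (hg : ∀ i, GD K κ (g i)) (hκ : 0 < κ) (hc : 0 < c)
    (hΨ : PD c M K' u1 Ψ) (w : ℝ) : 0 < Zf Ψ g w := by
  unfold Zf
  rw [integral_pos_iff_support_of_nonneg (fun y => (op_pos w y).le) (op_intw hg hκ hc hΨ w)]
  have h1 : Function.support (ow Ψ g w) = univ := by
    ext y
    simp only [Function.mem_support, mem_univ, iff_true]
    exact (op_pos w y).ne'
  rw [h1]
  exact Measure.measure_univ_pos.2 (NeZero.ne _)

lemma Zf_anti {g : Fin m → ℝ → ℝ} (hg : ∀ i, GD K κ (g i)) (hκ : 0 < κ) (hc : 0 < c)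
    (hΨ : PD c M K' u1 Ψ) : Antitone (Zf Ψ g) := by
  intro w w' hw
  unfold Zf
  refine integral_mono (op_intw hg hκ hc hΨ w') (op_intw hg hκ hc hΨ w) fun y => ?_
  unfold ow
  apply Real.exp_le_exp.2
  apply neg_le_neg
  exact hΨ.mono hc.le (by linarith)

lemma Zf_lc {g : Fin m → ℝ → ℝ} (hg : ∀ i, GD K κ (g i)) (hκ : 0 < κ) (hc : 0 < c)
    (hΨ : PD c M K' u1 Ψ) : LogConc (Zf Ψ g) := by
  intro a ha0 ha1 x y
  unfold Zf
  refine pl_integral ha0 ha1 (fun p => (op_pos x p).le) (fun p => (op_pos y p).le)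
    (fun p => (op_pos _ p).le) (op_cont hg hΨ x).measurable (op_cont hg hΨ y).measurable
    (op_cont hg hΨ _).measurable (op_intw hg hκ hc hΨ x) (op_intw hg hκ hc hΨ y)
    (op_intw hg hκ hc hΨ _) fun p q => ?_
  unfold ow
  rw [← Real.exp_mul, ← Real.exp_mul, ← Real.exp_add]
  apply Real.exp_le_exp.2
  have h1 : ∑ j, g j (((1 - a) • p + a • q) j)
      ≤ (1 - a) * ∑ j, g j (p j) + a * ∑ j, g j (q j) := by
    rw [Finset.mul_sum, Finset.mul_sum, ← Finset.sum_add_distrib]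
    refine Finset.sum_le_sum fun j _ => ?_
    have h2 := ((hg j).conv hκ.le).2 (mem_univ (p j)) (mem_univ (q j))
      (by linarith : 0 ≤ 1 - a) ha0.le (by ring)
    simpa using h2
  have h3 : Ψ ((1 - a) • x + a • y + ∑ j, g j (((1 - a) • p + a • q) j))
      ≤ Ψ ((1 - a) * (x + ∑ j, g j (p j)) + a * (y + ∑ j, g j (q j))) := by
    apply hΨ.mono hc.le
    simp only [smul_eq_mul]
    linarith
  have h4 := hΨ.conv.2 (mem_univ (x + ∑ j, g j (p j))) (mem_univ (y + ∑ j, g j (q j)))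
      (by linarith : 0 ≤ 1 - a) ha0.le (by ring)
  simp only [smul_eq_mul] at h4
  linarith

lemma op_ins {g : Fin (m + 1) → ℝ → ℝ} (z : ℝ) (i : Fin (m + 1)) (s : ℝ) (y : Vn m) :
    ow Ψ g z (ins i s y) = ow Ψ (fun l => g (i.succAbove l)) (z + g i s) y := by
  unfold ow
  rw [Fin.sum_univ_succAbove _ i, ins_same]
  simp only [ins_succ]
  rw [add_assoc]

lemma op_nb (i : Fin m) (x : Vn m) : (x i) ^ 2 ≤ ‖x‖ ^ 2 := by
  rw [EuclideanSpace.norm_sq_eq]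
  have h := Finset.single_le_sum (f := fun j => ‖x j‖ ^ 2) (fun j _ => sq_nonneg _)
    (Finset.mem_univ i)
  simpa using h

lemma split_coord {g : Fin (m + 1) → ℝ → ℝ} (hg : ∀ i, GD K κ (g i)) (hκ : 0 < κ) (hc : 0 < c)
    (hΨ : PD c M K' u1 Ψ) (z : ℝ) (i : Fin (m + 1)) {φ : ℝ → ℝ} (hφ : Measurable φ) {C : ℝ}
    (hC : ∀ s, |φ s| ≤ C * (1 + s ^ 2)) :
    (Integrable fun s => φ s * Zf Ψ (fun l => g (i.succAbove l)) (z + g i s)) ∧
      ∫ x, φ (x i) * ow Ψ g z x = ∫ s, φ s * Zf Ψ (fun l => g (i.succAbove l)) (z + g i s) := by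
  have hC0 : 0 ≤ C := by
    have h1 := (abs_nonneg (φ 0)).trans (hC 0)
    simpa using h1
  have hm : Measurable fun x : Vn (m + 1) => φ (x i) := by
    apply hφ.comp
    have : Continuous fun x : Vn (m + 1) => x i := by fun_prop
    exact this.measurable
  have hΦ : Integrable fun x : Vn (m + 1) => φ (x i) * ow Ψ g z x := by
    refine ow_int hg hκ hc hΨ z hm (C := C) fun x => (hC (x i)).trans ?_
    exact mul_le_mul_of_nonneg_left (by linarith [op_nb i x]) hC0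
  have he : ∀ s : ℝ, (∫ y : Vn m, φ (ins i s y i) * ow Ψ g z (ins i s y))
      = φ s * Zf Ψ (fun l => g (i.succAbove l)) (z + g i s) := by
    intro s
    simp only [ins_same, op_ins]
    rw [integral_const_mul]
    rfl
  constructor
  · have h1 := (ins_integrable i hΦ).integral_prod_left
    simp only [he] at h1
    exact h1
  · rw [ins_int i hΦ]
    simp only [he]

lemma op_split1 {g : Fin (m + 1) → ℝ → ℝ} (hg : ∀ i, GD K κ (g i)) (hκ : 0 < κ) (hc : 0 < c)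
    (hΨ : PD c M K' u1 Ψ) (z : ℝ) (i : Fin (m + 1)) :
    (Integrable fun s => Zf Ψ (fun l => g (i.succAbove l)) (z + g i s)) ∧
      ∫ x, ow Ψ g z x = ∫ s, Zf Ψ (fun l => g (i.succAbove l)) (z + g i s) := by
  have h := split_coord hg hκ hc hΨ z i (φ := fun _ => (1 : ℝ)) measurable_const (C := 1)
    (fun s => by rw [abs_one, one_mul]; nlinarith [sq_nonneg s])
  simpa using h

lemma op_split2 {g : Fin (m + 1) → ℝ → ℝ} (hg : ∀ i, GD K κ (g i)) (hκ : 0 < κ) (hc : 0 < c)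
    (hΨ : PD c M K' u1 Ψ) (z : ℝ) (i : Fin (m + 1)) :
    (Integrable fun s => s ^ 2 * Zf Ψ (fun l => g (i.succAbove l)) (z + g i s)) ∧
      ∫ x, (x i) ^ 2 * ow Ψ g z x
        = ∫ s, s ^ 2 * Zf Ψ (fun l => g (i.succAbove l)) (z + g i s) :=
  split_coord hg hκ hc hΨ z i (φ := fun s => s ^ 2) (by fun_prop) (C := 1)
    (fun s => by rw [abs_of_nonneg (sq_nonneg s), one_mul]; linarith)

lemma var_anti {g : Fin m → ℝ → ℝ} (hg : ∀ i, GD K κ (g i)) (hκ : 0 < κ) (hc : 0 < c)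
    (hΨ : PD c M K' u1 Ψ) {z z' : ℝ} (hz : z ≤ z') (i : Fin m) :
    (∫ x, (x i) ^ 2 * ow Ψ g z' x) * Zf Ψ g z ≤ (∫ x, (x i) ^ 2 * ow Ψ g z x) * Zf Ψ g z' := by
  cases m with
  | zero => exact i.elim0
  | succ m =>
    have a0 := op_split1 hg hκ hc hΨ z i
    have b0 := op_split1 hg hκ hc hΨ z' i
    have a2 := op_split2 hg hκ hc hΨ z i
    have b2 := op_split2 hg hκ hc hΨ z' i
    have hg' : ∀ l, GD K κ ((fun l => g (i.succAbove l)) l) := fun l => hg _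
    rw [a2.2, b2.2]
    unfold Zf at *
    rw [a0.2, b0.2]
    exact mlr (R := fun w => ∫ y, ow Ψ (fun l => g (i.succAbove l)) w y) (Zf_lc hg' hκ hc hΨ)
      (Zf_pos hg' hκ hc hΨ) (hg i).diff.continuous (fun s t hst => (hg i).mono hκ.le hst) hz
      a0.1 a2.1 b0.1 b2.1

/-- the expectation of `g i` -/
lemma g_mean {g : Fin m → ℝ → ℝ} (hg : ∀ i, GD K κ (g i)) (hK : 0 ≤ K) (hκ : 0 < κ) (hc : 0 < c)
    (hΨ : PD c M K' u1 Ψ) (i : Fin m) {t0 : ℝ} (ht0 : 0 < t0) (ht : t0 ^ 2 = 25 / 2)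
    (hm : ∫ x, (x i) ^ 2 * ow Ψ g 0 x ≤ (1 / 2) * ∫ x, ow Ψ g 0 x) :
    ∫ x, g i (x i) * ow Ψ g 0 x ≤ (1 / 2) * g i t0 * ∫ x, ow Ψ g 0 x := by
  cases m with
  | zero => exact i.elim0
  | succ m =>
    have a0 := op_split1 hg hκ hc hΨ 0 i
    have a2 := op_split2 hg hκ hc hΨ 0 i
    have hb : ∀ s, |g i s| ≤ (K / 2) * (1 + s ^ 2) := by
      intro s
      rw [abs_of_nonneg ((hg i).nonneg hκ.le s)]
      have h1 := (hg i).upper 0 s
      have h2 := (hg i).upper 0 (-s)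
      rw [(hg i).even s, (hg i).zero] at h2
      rw [(hg i).zero] at h1
      nlinarith
    have ag := split_coord hg hκ hc hΨ 0 i (φ := g i) (hg i).diff.continuous.measurable hb
    have hg' : ∀ l, GD K κ ((fun l => g (i.succAbove l)) l) := fun l => hg _
    rw [a2.2, a0.2] at hm
    rw [ag.2, a0.2]
    simp only [zero_add] at *
    exact one_dim (Zf_lc hg' hκ hc hΨ) (Zf_pos hg' hκ hc hΨ) (Zf_anti hg' hκ hc hΨ)
      ((hg i).conv hκ.le) (hg i).even (hg i).zero ht0 ht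
      (lt_of_lt_of_le (by positivity) ((hg i).lower t0)) a0.1 a2.1 ag.1 hm

end Pool.Agent.Lib.MP_8d00da_gt.h42o
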