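import Pool.Agent.Lib.MP_8d00da_gt.h42o.OFinal

/-!
# The KLS inequality for even generalized Orlicz balls at all levels
-/

open MeasureTheory

namespace Pool.Agent.Lib.MP_8d00da_gt.h42o.OrliczBalls

/-- `‖f - ∫ f dμ‖_{L²(μ)} ≤ D · ‖|∇f|‖_{L²(μ)}` for every Lipschitz function `f`.
The Poincaré constant `D_Poin(μ)` of the problem is the least such `D`. -/
def PoincareWith {V : Type*} [NormedAddCommGroup V] [NormedSpace ℝ V] [MeasurableSpace V]
    (μ : Measure V) (D : ℝ) : Prop :=
  ∀ f : V → ℝ, (∃ L : NNReal, LipschitzWith L f) →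
    eLpNorm (fun x => f x - ∫ y, f y ∂μ) 2 μ ≤
      ENNReal.ofReal D * eLpNorm (fun x => ‖fderiv ℝ f x‖) 2 μ

/-- The same inequality tested on linear functions `θ` only (`‖|∇θ|‖_{L²(μ)} = ‖θ‖` for a
probability measure). The constant `D^Lin_Poin(μ)` of the problem is the least such `D`. -/
def LinPoincareWith {V : Type*} [NormedAddCommGroup V] [NormedSpace ℝ V] [MeasurableSpace V]
    (μ : Measure V) (D : ℝ) : Prop :=
  ∀ θ : V →L[ℝ] ℝ, eLpNorm (fun x => θ x - ∫ y, θ y ∂μ) 2 μ ≤ ENNReal.ofReal (D * ‖θ‖)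

/-- **KLS for even generalized Orlicz balls at all levels, and their linear images.** Let
`f 1, ..., f n` be even convex functions on `ℝ` and let `G` be nonnegative, nonincreasing and
log-concave such that `μ = G(∑ i, f i (x i)) dx` is a probability measure on `ℝⁿ` (for instance the
uniform measure on a bounded set `{x | ∑ i, f i (x i) ≤ E}` with nonempty interior: take for `G` a
multiple of the indicator function of `(-∞, E]`). Let `ν` be the image of `μ` under a surjective
affine map `x ↦ T x + b` onto `ℝᵐ` (for instance `ν = μ`).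
Then `D_Poin(ν) ≤ 500 · D^Lin_Poin(ν)`. -/
theorem result (n m : ℕ) (f : Fin n → ℝ → ℝ) (hf : ∀ i, ConvexOn ℝ Set.univ (f i))
    (hfe : ∀ i s, f i (-s) = f i s) (G : ℝ → ℝ) (hG0 : ∀ u, 0 ≤ G u) (hGa : Antitone G)
    (hG : ∀ u v a b : ℝ, 0 ≤ a → 0 ≤ b → a + b = 1 → G u ^ a * G v ^ b ≤ G (a * u + b * v))
    (μ : Measure (EuclideanSpace ℝ (Fin n)))
    (hμ : μ = volume.withDensity fun x => ENNReal.ofReal (G (∑ i, f i (x i))))
    [IsProbabilityMeasure μ]
    (T : EuclideanSpace ℝ (Fin n) →ₗ[ℝ] EuclideanSpace ℝ (Fin m)) (hT : Function.Surjective T)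
    (b : EuclideanSpace ℝ (Fin m)) (D : ℝ)
    (hD : LinPoincareWith (μ.map fun x => T x + b) D) :
    PoincareWith (μ.map fun x => T x + b) (500 * D) := by
  have hG' : Pool.Agent.Lib.MP_8d00da_gt.h42.LogConc G := by
    intro a ha0 ha1 u v
    have := hG u v (1 - a) a (by linarith) ha0.le (by ring)
    simpa [smul_eq_mul] using this
  exact Pool.Agent.Lib.MP_8d00da_gt.h42o.orlicz hG' hG0 hGa hf hfe hμ
    (LinearMap.toContinuousLinearMap T) hT b hD

end Pool.Agent.Lib.MP_8d00da_gt.h42o.OrliczBalls
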